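import Pool.Agent.Z15.ME.Stm

/-!
# Project ME, task ACT (helper67): the action on forms and on self maps
-/

set_option autoImplicit false

namespace Pool.Agent.Z15.ME.ACT

open MvPolynomial Pool.Agent.Z15.ME

variable {R : Type} [CommRing R] {n d : ℕ}

theorem lin_X (A : Matrix (Fin n) (Fin n) R) (i : Fin n) : lin A (X i) = ∑ j, C (A i j) * X j := by
  unfold lin
  rw [aeval_X]

theorem lin_C (A : Matrix (Fin n) (Fin n) R) (r : R) : lin A (C r) = C r := by
  unfold lin
  rw [aeval_C]
  rfl

theorem lin_hom (A : Matrix (Fin n) (Fin n) R) {p : MvPolynomial (Fin n) R}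
    (hp : p.IsHomogeneous d) : (lin A p).IsHomogeneous d := by
  unfold lin
  have h1 := hp.aeval (n := 1) (fun i => ∑ j, C (A i j) * X j : Fin n → MvPolynomial (Fin n) R)
    (fun i => IsHomogeneous.sum _ _ _ fun j _ => by
      have h2 := (isHomogeneous_C (Fin n) (A i j)).mul (isHomogeneous_X R j)
      rwa [zero_add] at h2)
  rwa [one_mul] at h1

theorem lin_lin (A B : Matrix (Fin n) (Fin n) R) (p : MvPolynomial (Fin n) R) :
    lin A (lin B p) = lin (B * A) p := by
  have h : (lin A).comp (lin B) = lin (B * A) := by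
    refine MvPolynomial.algHom_ext fun i => ?_
    rw [AlgHom.comp_apply, lin_X, lin_X, map_sum]
    have h1 : ∀ j, lin A (C (B i j) * X j) = ∑ k, C (B i j * A j k) * X k := by
      intro j
      rw [map_mul, lin_C, lin_X, Finset.mul_sum]
      refine Finset.sum_congr rfl fun k _ => ?_
      rw [C_mul]
      ring
    rw [Finset.sum_congr rfl fun j _ => h1 j, Finset.sum_comm]
    refine Finset.sum_congr rfl fun k _ => ?_
    rw [Matrix.mul_apply, map_sum, Finset.sum_mul]
  rw [← h]
  rfl

theorem lin_one (p : MvPolynomial (Fin n) R) : lin 1 p = p := by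
  have h : lin (1 : Matrix (Fin n) (Fin n) R) = AlgHom.id R _ := by
    refine MvPolynomial.algHom_ext fun i => ?_
    rw [lin_X, AlgHom.id_apply, Finset.sum_eq_single i]
    · rw [Matrix.one_apply_eq, C_1, one_mul]
    · intro j _ hj
      rw [Matrix.one_apply_ne (Ne.symm hj), C_0, zero_mul]
    · intro h
      exact absurd (Finset.mem_univ _) h
  rw [h]
  rfl

theorem lin_smul_monomial (s r : R) (α : Fin n →₀ ℕ) :
    lin (s • (1 : Matrix (Fin n) (Fin n) R)) (monomial α r) = monomial α (s ^ α.degree * r) := by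
  have h : ∀ i, (∑ j, C ((s • (1 : Matrix (Fin n) (Fin n) R)) i j) * X j :
      MvPolynomial (Fin n) R) = C s * X i := by
    intro i
    rw [Finset.sum_eq_single i]
    · rw [Matrix.smul_apply, Matrix.one_apply_eq, smul_eq_mul, mul_one]
    · intro j _ hj
      rw [Matrix.smul_apply, Matrix.one_apply_ne (Ne.symm hj), smul_zero, C_0, zero_mul]
    · intro h
      exact absurd (Finset.mem_univ _) h
  unfold lin
  rw [aeval_monomial]
  simp_rw [h]
  rw [monomial_eq, C_mul, MvPolynomial.algebraMap_eq]
  have h2 : (α.prod fun i k => (C s * X i : MvPolynomial (Fin n) R) ^ k) =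
      C (s ^ α.degree) * α.prod fun i k => (X i : MvPolynomial (Fin n) R) ^ k := by
    have hd : α.degree = ∑ i ∈ α.support, α i := rfl
    unfold Finsupp.prod
    rw [hd, C_pow, ← Finset.prod_pow_eq_pow_sum, ← Finset.prod_mul_distrib]
    exact Finset.prod_congr rfl fun i _ => mul_pow _ _ _
  rw [h2]
  ring

theorem lin_map {S : Type} [CommRing S] (σ : R →+* S) (A : Matrix (Fin n) (Fin n) R)
    (p : MvPolynomial (Fin n) R) : lin (A.map σ) (MvPolynomial.map σ p) =
      MvPolynomial.map σ (lin A p) := by
  induction p using MvPolynomial.induction_on with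
  | C a => rw [map_C, lin_C, lin_C, map_C]
  | add p q hp hq => rw [map_add, map_add, map_add, map_add, hp, hq]
  | mul_X p i hp =>
    rw [map_mul, map_mul, map_mul, map_mul, hp, map_X, lin_X, lin_X, map_sum]
    congr 1
    refine Finset.sum_congr rfl fun j _ => ?_
    rw [map_mul, map_C, map_X, Matrix.map_apply]

theorem pol_act1 (h : S_POL) (A : Matrix (Fin n) (Fin n) R) (c : Mon n d → R) :
    pol (act1 A c) = lin A (pol c) := by
  unfold act1
  exact (h n d R).2.1 _ (lin_hom A ((h n d R).1 c).1)

theorem act1_act1 (h : S_POL) (A B : Matrix (Fin n) (Fin n) R) (c : Mon n d → R) :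
    act1 A (act1 B c) = act1 (B * A) c := by
  conv_lhs => unfold act1
  rw [show cf d (lin A (pol (cf d (lin B (pol c))))) = cf d (lin A (pol (act1 B c))) from rfl,
    pol_act1 h, lin_lin]
  rfl

theorem act1_one (h : S_POL) (c : Mon n d → R) : act1 1 c = c := by
  unfold act1
  rw [lin_one]
  exact ((h n d R).1 c).2

theorem act1_smul (h : S_POL) (s : R) (c : Mon n d → R) :
    act1 (s • 1) c = fun α => s ^ d * c α := by
  have h1 : lin (s • (1 : Matrix (Fin n) (Fin n) R)) (pol c) = pol fun α => s ^ d * c α := by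
    unfold pol
    rw [map_sum]
    refine Finset.sum_congr rfl fun α _ => ?_
    rw [lin_smul_monomial, α.2]
  unfold act1
  rw [h1]
  exact ((h n d R).1 _).2

theorem pol_sum {ι : Type} (s : Finset ι) (a : ι → R) (c : ι → Mon n d → R) :
    pol (fun α => ∑ k ∈ s, a k * c k α) = ∑ k ∈ s, C (a k) * pol (c k) := by
  unfold pol
  simp_rw [Finset.mul_sum]
  rw [Finset.sum_comm]
  refine Finset.sum_congr rfl fun α _ => ?_
  rw [map_sum]
  refine Finset.sum_congr rfl fun k _ => ?_
  rw [C_mul_monomial]

theorem act1_sum {ι : Type} (s : Finset ι) (A : Matrix (Fin n) (Fin n) R) (a : ι → R)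
    (c : ι → Mon n d → R) :
    act1 A (fun α => ∑ k ∈ s, a k * c k α) = fun α => ∑ k ∈ s, a k * act1 A (c k) α := by
  funext α
  unfold act1 cf
  rw [pol_sum, map_sum, coeff_sum]
  refine Finset.sum_congr rfl fun k _ => ?_
  rw [map_mul, lin_C, coeff_C_mul]

theorem act1_lin (h : S_POL) (A : Matrix (Fin n) (Fin n) R) (c c' : Mon n d → R) (a b : R) :
    act1 A (fun α => a * c α + b * c' α) = fun α => a * act1 A c α + b * act1 A c' α := by
  funext α
  unfold act1 cf
  rw [(h n d R).2.2.1, map_add, map_mul, map_mul, lin_C, lin_C, coeff_add, coeff_C_mul, coeff_C_mul]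

theorem act1_map (h : S_POL) {S : Type} [CommRing S] (σ : R →+* S) (A : Matrix (Fin n) (Fin n) R)
    (c : Mon n d → R) : act1 (A.map σ) (fun α => σ (c α)) = fun α => σ (act1 A c α) := by
  funext α
  unfold act1 cf
  rw [(h n d R).2.2.2 S σ c, lin_map, coeff_map]

theorem t_ACT (h : S_POL) : S_ACT := by
  intro n d R _
  refine ⟨pol_act1 h, act1_act1 h, act1_one h, act1_smul h, act1_lin h,
    fun S _ σ A c => act1_map h σ A c, ?_, ?_, ?_, ?_, ?_⟩
  · intro A A' B B' c
    funext p
    have e1 : act A A' (act B B' c) p =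
        ∑ l, A p.1 l * act1 A' (fun α => ∑ k, B l k * act1 B' (fun β => c (k, β)) α) p.2 := rfl
    have e2 : act (A * B) (B' * A') c p =
        ∑ k, (A * B) p.1 k * act1 (B' * A') (fun α => c (k, α)) p.2 := rfl
    rw [e1, e2]
    have e3 : ∀ l, A p.1 l * act1 A' (fun α => ∑ k, B l k * act1 B' (fun β => c (k, β)) α) p.2 =
        ∑ k, A p.1 l * B l k * act1 (B' * A') (fun α => c (k, α)) p.2 := by
      intro l
      rw [act1_sum, Finset.mul_sum]
      refine Finset.sum_congr rfl fun k _ => ?_
      rw [act1_act1 h, mul_assoc]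
    rw [Finset.sum_congr rfl fun l _ => e3 l, Finset.sum_comm]
    refine Finset.sum_congr rfl fun k _ => ?_
    rw [Matrix.mul_apply, Finset.sum_mul]
  · intro c
    funext p
    unfold act
    rw [Finset.sum_eq_single p.1]
    · rw [Matrix.one_apply_eq, act1_one h, one_mul]
    · intro j _ hj
      rw [Matrix.one_apply_ne (Ne.symm hj), zero_mul]
    · intro h
      exact absurd (Finset.mem_univ _) h
  · intro s s' c
    funext p
    unfold act
    rw [Finset.sum_eq_single p.1]
    · rw [Matrix.smul_apply, Matrix.one_apply_eq, act1_smul h, smul_eq_mul, mul_one]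
      ring
    · intro j _ hj
      rw [Matrix.smul_apply, Matrix.one_apply_ne (Ne.symm hj), smul_zero, zero_mul]
    · intro h
      exact absurd (Finset.mem_univ _) h
  · intro A A' c c' a b
    funext p
    unfold act
    rw [Finset.mul_sum, Finset.mul_sum, ← Finset.sum_add_distrib]
    refine Finset.sum_congr rfl fun l _ => ?_
    rw [act1_lin h]
    ring
  · intro S _ σ A A' c
    funext p
    unfold act
    rw [map_sum]
    refine Finset.sum_congr rfl fun l _ => ?_
    rw [act1_map h, map_mul, Matrix.map_apply]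

end Pool.Agent.Z15.ME.ACT
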