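import Pool.Agent.Z15.ME.Stm

/-!
# Project ME, task POL (helper67): coefficients and forms
-/

set_option autoImplicit false

namespace Pool.Agent.Z15.ME.POL

open MvPolynomial Pool.Agent.Z15.ME

variable {R : Type} [CommRing R] {n d : ℕ}

theorem coeff_pol (c : Mon n d → R) (β : Mon n d) : coeff β.1 (pol c) = c β := by
  classical
  unfold pol
  rw [coeff_sum]
  simp only [coeff_monomial]
  rw [Finset.sum_eq_single β]
  · simp
  · intro α _ h
    rw [if_neg fun h' => h (Subtype.ext h')]
  · intro h
    exact absurd (Finset.mem_univ _) h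

theorem coeff_pol_ne (c : Mon n d → R) (u : Fin n →₀ ℕ) (hu : u.degree ≠ d) :
    coeff u (pol c) = 0 := by
  classical
  unfold pol
  rw [coeff_sum]
  refine Finset.sum_eq_zero fun α _ => ?_
  rw [coeff_monomial, if_neg]
  intro h
  exact hu (by rw [← h]; exact α.2)

theorem isHom_pol (c : Mon n d → R) : (pol c).IsHomogeneous d := by
  unfold pol
  exact IsHomogeneous.sum _ _ _ fun α _ => isHomogeneous_monomial _ α.2

theorem pol_cf {p : MvPolynomial (Fin n) R} (hp : p.IsHomogeneous d) : pol (cf d p) = p := by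
  ext u
  by_cases hu : u.degree = d
  · have h := coeff_pol (cf d p) ⟨u, hu⟩
    exact h
  · rw [coeff_pol_ne _ u hu, hp.coeff_eq_zero hu]

theorem t_POL : S_POL := by
  intro n d R _
  refine ⟨fun c => ⟨isHom_pol c, funext fun β => coeff_pol c β⟩, fun p hp => pol_cf hp, ?_, ?_⟩
  · intro c c' a b
    unfold pol
    rw [Finset.mul_sum, Finset.mul_sum, ← Finset.sum_add_distrib]
    refine Finset.sum_congr rfl fun α _ => ?_
    rw [C_mul_monomial, C_mul_monomial, ← map_add]
  · intro S _ σ c
    unfold pol
    rw [map_sum]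
    refine Finset.sum_congr rfl fun α _ => ?_
    rw [map_monomial]

end Pool.Agent.Z15.ME.POL
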