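import Pool.Agent.Z15.ME.Stm

/-! PLY: the action is polynomial -/

set_option autoImplicit false

namespace Pool.Agent.Z15.ME.PLY

open MvPolynomial

theorem act1_lin {R : Type} [CommRing R] {n d : ℕ} (A : Matrix (Fin n) (Fin n) R)
    (c : Mon n d → R) (β : Mon n d) :
    act1 A c β = ∑ α, coeff β.1 (lin A (monomial α.1 1)) * c α := by
  unfold act1 cf pol
  rw [map_sum, coeff_sum]
  refine Finset.sum_congr rfl fun α _ => ?_
  have h1 : monomial α.1 (c α) = C (c α) * monomial α.1 (1 : R) := by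
    rw [C_mul_monomial, mul_one]
  have h2 : lin A (C (c α)) = C (c α) := by
    unfold lin
    rw [aeval_C, algebraMap_eq]
  rw [h1, map_mul, h2, coeff_C_mul, mul_comm]

theorem act1_single {R : Type} [CommRing R] {n d : ℕ} (A : Matrix (Fin n) (Fin n) R)
    (α : Mon n d) (β : Mon n d) [DecidableEq (Mon n d)] :
    act1 A (Pi.single α 1) β = coeff β.1 (lin A (monomial α.1 1)) := by
  rw [act1_lin, Finset.sum_eq_single α]
  · rw [Pi.single_eq_same, mul_one]
  · intro γ _ hγ
    rw [Pi.single_eq_of_ne hγ, mul_zero]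
  · intro h
    exact absurd (Finset.mem_univ _) h

theorem t_PLY (h : S_ACT) : S_PLY := by
  classical
  intro n d
  refine ⟨fun β α => act1 (R := MvPolynomial (Fin n × Fin n) ℤ) (fun i j => X (i, j))
    (Pi.single α 1) β, fun R _ A c β => ?_⟩
  obtain ⟨-, -, -, -, -, h6, -⟩ := h n d (MvPolynomial (Fin n × Fin n) ℤ)
  rw [act1_lin]
  refine Finset.sum_congr rfl fun α _ => ?_
  congr 1
  rw [← act1_single]
  have h7 := congrFun (h6 R (aeval (fun p : Fin n × Fin n => A p.1 p.2)).toRingHom
    (fun i j => X (i, j)) (Pi.single α 1)) β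
  have e1 : (Matrix.map (fun i j => X (i, j) : Matrix (Fin n) (Fin n) (MvPolynomial (Fin n × Fin n) ℤ))
      (aeval (fun p : Fin n × Fin n => A p.1 p.2)).toRingHom) = A := by
    ext i j
    show aeval (fun p : Fin n × Fin n => A p.1 p.2) (X (i, j)) = A i j
    rw [aeval_X]
  have e2 : (fun γ : Mon n d => (aeval (fun p : Fin n × Fin n => A p.1 p.2)).toRingHom
      ((Pi.single α 1 : Mon n d → MvPolynomial (Fin n × Fin n) ℤ) γ)) = Pi.single α (1 : R) := by
    funext γ
    by_cases hγ : γ = α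
    · subst hγ
      simp
    · rw [Pi.single_eq_of_ne hγ, Pi.single_eq_of_ne hγ]
      simp
  rw [e1, e2] at h7
  exact h7

end Pool.Agent.Z15.ME.PLY
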