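import Pool.Agent.Z15.ME.Stm2

set_option autoImplicit false

/-!
# Moduli of endomorphisms of projective space: task COV
-/

namespace Pool.Agent.Z15.ME.COV

open MvPolynomial

/-- `act1 A` as a linear map -/
noncomputable def act1L (hACT : S_ACT) {n d : ℕ} {R : Type} [CommRing R]
    (A : Matrix (Fin n) (Fin n) R) : (Mon n d → R) →ₗ[R] (Mon n d → R) where
  toFun := act1 A
  map_add' := fun c c' => by
    obtain ⟨-, -, -, -, h, -⟩ := hACT n d R
    have := h A c c' 1 1
    simp only [one_mul] at this
    exact this
  map_smul' := fun s c => by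
    obtain ⟨-, -, -, -, h, -⟩ := hACT n d R
    have := h A c 0 s 0
    simp only [zero_mul, add_zero] at this
    exact this

theorem act1_sum (hACT : S_ACT) {n d : ℕ} {R : Type} [CommRing R]
    (A : Matrix (Fin n) (Fin n) R) (v : Mon n d → R) (β : Mon n d) :
    act1 A v β = ∑ γ, v γ * act1 A (Pi.single γ 1) β := by
  classical
  have h : act1 A v = act1L hACT A v := rfl
  rw [h, LinearMap.pi_apply_eq_sum_univ (act1L hACT A) v]
  rw [Finset.sum_apply]
  refine Finset.sum_congr rfl fun γ _ => ?_
  simp only [Pi.smul_apply, smul_eq_mul]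
  congr 1
  have : (fun j => if γ = j then (1 : R) else 0) = Pi.single γ 1 := by
    funext j
    by_cases hj : γ = j
    · subst hj; simp
    · rw [if_neg hj, Pi.single_eq_of_ne (Ne.symm hj)]
  rw [this]
  rfl

/-- linear independence over a subfield -/
theorem li_ext {F M ι J : Type} [Field F] [Field M] [Algebra F M] [Fintype ι] [Fintype J]
    (v : ι → J → F) (hv : LinearIndependent F v) :
    LinearIndependent M (fun o => fun β => algebraMap F M (v o β)) := by
  classical
  -- a left inverse
  have hinj : Function.Injective (Fintype.linearCombination F v) := by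
    rw [injective_iff_map_eq_zero]
    intro s hs
    rw [Fintype.linearCombination_apply] at hs
    exact funext (Fintype.linearIndependent_iff.1 hv s hs)
  obtain ⟨L, hL⟩ := LinearMap.exists_leftInverse_of_injective (Fintype.linearCombination F v)
    (LinearMap.ker_eq_bot.2 hinj)
  have hLv : ∀ o, L (v o) = Pi.single o 1 := by
    intro o
    have h1 := LinearMap.congr_fun hL (Pi.single o 1)
    simp only [LinearMap.comp_apply, LinearMap.id_apply] at h1
    rw [Fintype.linearCombination_apply_single, one_smul] at h1
    exact h1
  have hLs : ∀ (w : J → F) (o : ι), L w o = ∑ β, w β * L (Pi.single β 1) o := by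
    intro w o
    rw [LinearMap.pi_apply_eq_sum_univ L w, Finset.sum_apply]
    refine Finset.sum_congr rfl fun γ _ => ?_
    simp only [Pi.smul_apply, smul_eq_mul]
    have e : (fun j => if γ = j then (1 : F) else 0) = Pi.single γ 1 := by
      funext j
      by_cases hj : γ = j
      · subst hj; simp
      · rw [if_neg hj, Pi.single_eq_of_ne (Ne.symm hj)]
    rw [e]
  rw [Fintype.linearIndependent_iff]
  intro s hs o'
  have h1 : ∀ β, ∑ o, s o * algebraMap F M (v o β) = 0 := fun β => by
    have := congrFun hs β
    simpa [Finset.sum_apply] using this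
  have h2 : ∑ β, (∑ o, s o * algebraMap F M (v o β)) * algebraMap F M (L (Pi.single β 1) o') = 0 := by
    simp [h1]
  have h3 : ∑ β, (∑ o, s o * algebraMap F M (v o β)) * algebraMap F M (L (Pi.single β 1) o') =
      ∑ o, s o * algebraMap F M (L (v o) o') := by
    simp only [Finset.sum_mul]
    rw [Finset.sum_comm]
    refine Finset.sum_congr rfl fun o _ => ?_
    rw [hLs (v o) o', map_sum, Finset.mul_sum]
    refine Finset.sum_congr rfl fun β _ => ?_
    rw [map_mul]; ring
  rw [h3] at h2
  simp only [hLv] at h2
  rw [Finset.sum_eq_single o'] at h2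
  · simpa using h2
  · intro o _ ho
    rw [Pi.single_eq_of_ne (Ne.symm ho)]; simp
  · intro h; exact absurd (Finset.mem_univ _) h

theorem t_COV (hSPC : S_SPC) (hSEL : S_SEL) (hCRD : S_CRD) (hACT : S_ACT) (_hSEC : S_SEC)
    (hDVA : S_DVA) : S_COV := by
  classical
  intro N m a hN hm hdvd K M _ _ _ _ f hf φ hφ
  set F := IntermediateField.adjoin K (Set.range f) with hF
  have hfF : ∀ p, f p ∈ F := fun p => IntermediateField.subset_adjoin K _ ⟨p, rfl⟩
  set fF : Ix N m → F := fun p => ⟨f p, hfF p⟩ with hfFdef
  have hval : ∀ p, algebraMap F M (fF p) = f p := fun p => rfl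
  have hext : ∀ g : Matrix (Fin (N + 1)) (Fin (N + 1)) K, (ext F g).map (algebraMap F M) = ext M g := by
    intro g
    ext i j
    simp [ext, Matrix.map_apply, ← IsScalarTower.algebraMap_apply]
  obtain ⟨-, -, -, -, -, -, -, -, -, -, hmapF⟩ := hACT (N + 1) (m + 1) F
  obtain ⟨-, -, -, -, -, hmap1F, -⟩ := hACT (N + 1) m F
  -- the action on `F`
  have hactF : ∀ (g : GP N K) p, algebraMap F M (act (ext F g.1.1) (ext F g.1.2) fF p) =
      act (ext M g.1.1) (ext M g.1.2) f p := by
    intro g p
    have := congrFun (hmapF M (algebraMap F M) (ext F g.1.1) (ext F g.1.2) fF) p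
    rw [hext, hext] at this
    exact this.symm
  have hφF : ∀ (g : GP N K) (x : F), φ g x ∈ F := by
    intro g x
    have h1 : F.map (φ g) ≤ F := by
      rw [hF, IntermediateField.adjoin_map, IntermediateField.adjoin_le_iff]
      rintro _ ⟨_, ⟨p, rfl⟩, rfl⟩
      have h2 : φ g (f p) ∈ F := by
        rw [hφ g p, ← hactF g p]
        exact (act (ext F g.1.1) (ext F g.1.2) fF p).2
      exact h2
    exact h1 ⟨x, x.2, rfl⟩
  let ψ : GP N K → F →ₐ[K] F := fun g => ((φ g).comp F.val).codRestrict F.toSubalgebra (hφF g)
  have hψ : ∀ g (x : F), algebraMap F M (ψ g x) = φ g x := fun g x => rfl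
  have hActs : Acts N (m + 1) ψ fF := by
    intro g p
    apply (algebraMap F M).injective
    rw [hψ, hactF]
    exact hφ g p
  -- generic
  have hgen : Gen N m K F fF := by
    constructor
    · have h1 := (hDVA (N + 1) m F).2.2 M (algebraMap F M) fF
      have h2 : (fun p => algebraMap F M (fF p)) = f := rfl
      rw [h2, hf.1] at h1
      funext β
      apply (algebraMap F M).injective
      have := congrFun h1 β
      simp only [Pi.zero_apply] at this
      rw [← this]; simp
    · exact AlgebraicIndependent.of_comp F.val hf.2
  have htop : IntermediateField.adjoin K (Set.range fF) = ⊤ := by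
    apply IntermediateField.lift_injective F
    rw [IntermediateField.lift_adjoin, IntermediateField.lift_top, ← Set.range_comp]
    rfl
  obtain ⟨hC, hH⟩ := hSPC N m a hN (by omega) hdvd K F fF hgen htop ψ hActs
  -- submodules
  let 𝒞 : Submodule K (Fin (N + 1) → Mon (N + 1) m → F) :=
    { carrier := {c | CovC N m a ψ c}
      add_mem' := by
        intro c c' hc hc' g v i
        have h1 := hc g v i
        have h2 := hc' g v i
        have e1 : ∑ β, (ψ g) ((c + c') i β) * act1 (ext F g.1.2) v β =
            ∑ β, (ψ g) (c i β) * act1 (ext F g.1.2) v β +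
              ∑ β, (ψ g) (c' i β) * act1 (ext F g.1.2) v β := by
          rw [← Finset.sum_add_distrib]
          refine Finset.sum_congr rfl fun β _ => ?_
          simp only [Pi.add_apply, map_add]; ring
        rw [e1, h1, h2, ← mul_add, ← Finset.sum_add_distrib]
        congr 1
        refine Finset.sum_congr rfl fun k _ => ?_
        rw [← mul_add, ← Finset.sum_add_distrib]
        congr 1
        refine Finset.sum_congr rfl fun β _ => ?_
        simp only [Pi.add_apply]; ring
      zero_mem' := by
        intro g v i
        simp
      smul_mem' := by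
        intro s c hc g v i
        have h1 := hc g v i
        have e1 : ∑ β, (ψ g) ((s • c) i β) * act1 (ext F g.1.2) v β =
            algebraMap K F s * ∑ β, (ψ g) (c i β) * act1 (ext F g.1.2) v β := by
          rw [Finset.mul_sum]
          refine Finset.sum_congr rfl fun β _ => ?_
          simp only [Pi.smul_apply, Algebra.smul_def, map_mul, AlgHom.commutes]; ring
        rw [e1, h1, mul_left_comm, Finset.mul_sum]
        congr 1
        refine Finset.sum_congr rfl fun k _ => ?_
        rw [mul_left_comm, Finset.mul_sum]
        congr 1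
        refine Finset.sum_congr rfl fun β _ => ?_
        simp only [Pi.smul_apply, Algebra.smul_def]; ring }
  let 𝒟 : Submodule K (Mon (N + 1) m → F) :=
    { carrier := {h | CovH N m ψ h}
      add_mem' := by
        intro c c' hc hc' g v
        have h1 := hc g v
        have h2 := hc' g v
        have e1 : ∑ β, (ψ g) ((c + c') β) * act1 (ext F g.1.2) v β =
            ∑ β, (ψ g) (c β) * act1 (ext F g.1.2) v β +
              ∑ β, (ψ g) (c' β) * act1 (ext F g.1.2) v β := by
          rw [← Finset.sum_add_distrib]
          refine Finset.sum_congr rfl fun β _ => ?_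
          simp only [Pi.add_apply, map_add]; ring
        rw [e1, h1, h2, ← mul_add, ← Finset.sum_add_distrib]
        congr 1
        refine Finset.sum_congr rfl fun β _ => ?_
        simp only [Pi.add_apply]; ring
      zero_mem' := by
        intro g v
        simp
      smul_mem' := by
        intro s c hc g v
        have h1 := hc g v
        have e1 : ∑ β, (ψ g) ((s • c) β) * act1 (ext F g.1.2) v β =
            algebraMap K F s * ∑ β, (ψ g) (c β) * act1 (ext F g.1.2) v β := by
          rw [Finset.mul_sum]
          refine Finset.sum_congr rfl fun β _ => ?_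
          simp only [Pi.smul_apply, Algebra.smul_def, map_mul, AlgHom.commutes]; ring
        rw [e1, h1, mul_left_comm, Finset.mul_sum]
        congr 1
        refine Finset.sum_congr rfl fun β _ => ?_
        simp only [Pi.smul_apply, Algebra.smul_def]; ring }
  have hcard : (N + 1) ^ 2 + 1 ≤ Fintype.card (Mon (N + 1) m) := by
    rw [← Nat.card_eq_fintype_card]
    exact hCRD.2 N m hN hm
  obtain ⟨c, h, hc, hh, hli⟩ := hSEL K F (N + 1) (Mon (N + 1) m) 𝒞 𝒟 hC hH hcard
  refine ⟨fun j i β => algebraMap F M (c j i β), fun β => algebraMap F M (h β),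
    fun j i β => (c j i β).2, fun β => (h β).2, ?_, ?_, ?_⟩
  · intro j g v i
    have hcj : ∀ β0, ∑ β, φ g (algebraMap F M (c j i β)) * act1 (ext M g.1.2) (Pi.single β0 1) β =
        algebraMap K M g.1.1.det ^ a *
          ∑ k, algebraMap K M (g.1.1 i k) * algebraMap F M (c j k β0) := by
      intro β0
      have h1 := congrArg (algebraMap F M) ((show CovC N m a ψ (c j) from hc j) g (Pi.single β0 1) i)
      rw [map_sum, map_mul, map_pow, map_sum] at h1
      have h2 : ∀ β, algebraMap F M (ψ g (c j i β) * act1 (ext F g.1.2) (Pi.single β0 1) β) =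
          φ g (algebraMap F M (c j i β)) * act1 (ext M g.1.2) (Pi.single β0 1) β := by
        intro β
        rw [map_mul, hψ]
        congr 1
        have h3 := congrFun (hmap1F M (algebraMap F M) (ext F g.1.2) (Pi.single β0 1)) β
        rw [hext] at h3
        rw [← h3]
        congr 1
        funext γ
        by_cases hγ : γ = β0
        · subst hγ; simp
        · simp [Pi.single_eq_of_ne hγ]
      simp only [h2] at h1
      rw [h1]
      rw [← IsScalarTower.algebraMap_apply K F M]
      congr 1
      refine Finset.sum_congr rfl fun k _ => ?_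
      rw [map_mul, ← IsScalarTower.algebraMap_apply K F M]
      congr 2
      rw [Finset.sum_eq_single β0]
      · simp
      · intro γ _ hγ; rw [Pi.single_eq_of_ne hγ, mul_zero]
      · intro hγ; exact absurd (Finset.mem_univ _) hγ
    have e1 : ∀ β, act1 (ext M g.1.2) v β =
        ∑ γ, v γ * act1 (ext M g.1.2) (Pi.single γ 1) β := act1_sum hACT _ v
    calc ∑ β, φ g (algebraMap F M (c j i β)) * act1 (ext M g.1.2) v β
        = ∑ β, ∑ γ, v γ * (φ g (algebraMap F M (c j i β)) *
            act1 (ext M g.1.2) (Pi.single γ 1) β) := by
          refine Finset.sum_congr rfl fun β _ => ?_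
          rw [e1, Finset.mul_sum]
          refine Finset.sum_congr rfl fun γ _ => ?_
          ring
      _ = ∑ γ, v γ * (algebraMap K M g.1.1.det ^ a *
          ∑ k, algebraMap K M (g.1.1 i k) * algebraMap F M (c j k γ)) := by
          rw [Finset.sum_comm]
          refine Finset.sum_congr rfl fun γ _ => ?_
          rw [← Finset.mul_sum, hcj]
      _ = _ := by
          simp only [Finset.mul_sum]
          rw [Finset.sum_comm]
          refine Finset.sum_congr rfl fun k _ => ?_
          refine Finset.sum_congr rfl fun γ _ => ?_
          ring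
  · intro g v
    have hcj : ∀ β0, ∑ β, φ g (algebraMap F M (h β)) * act1 (ext M g.1.2) (Pi.single β0 1) β =
        algebraMap K M g.1.1.det ^ m * algebraMap F M (h β0) := by
      intro β0
      have h1 := congrArg (algebraMap F M) ((show CovH N m ψ h from hh) g (Pi.single β0 1))
      rw [map_sum, map_mul, map_pow] at h1
      have h2 : ∀ β, algebraMap F M (ψ g (h β) * act1 (ext F g.1.2) (Pi.single β0 1) β) =
          φ g (algebraMap F M (h β)) * act1 (ext M g.1.2) (Pi.single β0 1) β := by
        intro β
        rw [map_mul, hψ]
        congr 1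
        have h3 := congrFun (hmap1F M (algebraMap F M) (ext F g.1.2) (Pi.single β0 1)) β
        rw [hext] at h3
        rw [← h3]
        congr 1
        funext γ
        by_cases hγ : γ = β0
        · subst hγ; simp
        · simp [Pi.single_eq_of_ne hγ]
      simp only [h2] at h1
      rw [h1]
      rw [← IsScalarTower.algebraMap_apply K F M]
      congr 2
      rw [Finset.sum_eq_single β0]
      · simp
      · intro γ _ hγ; rw [Pi.single_eq_of_ne hγ, mul_zero]
      · intro hγ; exact absurd (Finset.mem_univ _) hγ
    have e1 : ∀ β, act1 (ext M g.1.2) v β =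
        ∑ γ, v γ * act1 (ext M g.1.2) (Pi.single γ 1) β := act1_sum hACT _ v
    calc ∑ β, φ g (algebraMap F M (h β)) * act1 (ext M g.1.2) v β
        = ∑ β, ∑ γ, v γ * (φ g (algebraMap F M (h β)) *
            act1 (ext M g.1.2) (Pi.single γ 1) β) := by
          refine Finset.sum_congr rfl fun β _ => ?_
          rw [e1, Finset.mul_sum]
          refine Finset.sum_congr rfl fun γ _ => ?_
          ring
      _ = ∑ γ, v γ * (algebraMap K M g.1.1.det ^ m * algebraMap F M (h γ)) := by
          rw [Finset.sum_comm]
          refine Finset.sum_congr rfl fun γ _ => ?_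
          rw [← Finset.mul_sum, hcj]
      _ = _ := by
          simp only [Finset.mul_sum]
          refine Finset.sum_congr rfl fun γ _ => ?_
          ring
  · have h1 := li_ext (M := M) _ hli
    convert h1 using 2 with o
    cases o <;> rfl

end Pool.Agent.Z15.ME.COV
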