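import Pool.Agent.Z15.ME.Stm

/-! Values and derivatives of conjugates (EVA) and the self maps `F(x) x` (EMB). -/

set_option autoImplicit false

namespace Pool.Agent.Z15.ME.EVA

open MvPolynomial

section
variable {R : Type} [CommRing R] {n d : ℕ}

theorem pol_sum {ι : Type*} (s : Finset ι) (a : ι → R) (c : ι → Mon n d → R) :
    pol (fun α => ∑ l ∈ s, a l * c l α) = ∑ l ∈ s, C (a l) * pol (c l) := by
  unfold pol
  have h1 : ∀ l ∈ s, C (a l) * (∑ α : Mon n d, monomial α.1 (c l α)) =
      ∑ α : Mon n d, monomial α.1 (a l * c l α) := by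
    intro l _
    rw [Finset.mul_sum]
    exact Finset.sum_congr rfl fun α _ => by rw [C_mul_monomial]
  rw [Finset.sum_congr rfl h1, Finset.sum_comm]
  exact Finset.sum_congr rfl fun α _ => by rw [map_sum]

theorem cmp_act (h2 : S_ACT) (A A' : Matrix (Fin n) (Fin n) R) (c : Fin n × Mon n d → R)
    (k : Fin n) : cmp (act A A' c) k = ∑ l, C (A k l) * lin A' (cmp c l) := by
  have h3 := (h2 n d R).1
  unfold cmp act
  simp only
  rw [pol_sum]
  exact Finset.sum_congr rfl fun l _ => by rw [h3]

theorem lin_C (A : Matrix (Fin n) (Fin n) R) (r : R) : lin A (C r) = C r := by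
  unfold lin
  simp

theorem lin_X (A : Matrix (Fin n) (Fin n) R) (i : Fin n) :
    lin A (X i) = ∑ j, C (A i j) * X j := by
  unfold lin
  simp

theorem eval_lin (A : Matrix (Fin n) (Fin n) R) (x : Fin n → R) (q : MvPolynomial (Fin n) R) :
    eval x (lin A q) = eval (A.mulVec x) q := by
  induction q using MvPolynomial.induction_on with
  | C r => rw [lin_C, eval_C, eval_C]
  | add p q hp hq => rw [map_add, map_add, map_add, hp, hq]
  | mul_X p i hp =>
    rw [map_mul, map_mul, map_mul, hp, lin_X, eval_X, map_sum]
    congr 1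
    unfold Matrix.mulVec dotProduct
    exact Finset.sum_congr rfl fun j _ => by rw [map_mul, eval_C, eval_X]

theorem pderiv_lin (A : Matrix (Fin n) (Fin n) R) (j : Fin n) (q : MvPolynomial (Fin n) R) :
    pderiv j (lin A q) = ∑ i, C (A i j) * lin A (pderiv i q) := by
  induction q using MvPolynomial.induction_on with
  | C r =>
    rw [lin_C, pderiv_C]
    simp only [pderiv_C, map_zero, mul_zero, Finset.sum_const_zero]
  | add p q hp hq =>
    simp only [map_add, hp, hq, mul_add, Finset.sum_add_distrib]
  | mul_X p i hp =>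
    have h1 : pderiv j (lin A (X i)) = C (A i j) := by
      rw [lin_X, map_sum, Finset.sum_eq_single j]
      · rw [pderiv_C_mul, pderiv_X_self, mul_one]
      · intro b _ hb
        rw [pderiv_C_mul, pderiv_X_of_ne hb, mul_zero]
      · intro h
        exact absurd (Finset.mem_univ j) h
    have h2 : ∀ i', lin A (pderiv i' (p * X i)) =
        lin A (pderiv i' p) * lin A (X i) + lin A p * (if i' = i then 1 else 0) := by
      intro i'
      rw [pderiv_mul, map_add, map_mul, map_mul]
      congr 2
      by_cases h : i' = i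
      · subst h
        rw [pderiv_X_self, if_pos rfl, map_one]
      · rw [pderiv_X_of_ne (Ne.symm h), if_neg h, map_zero]
    rw [map_mul, pderiv_mul, hp, h1]
    simp only [h2, mul_add, Finset.sum_add_distrib]
    congr 1
    · rw [Finset.sum_mul]
      exact Finset.sum_congr rfl fun i' _ => by ring
    · rw [Finset.sum_eq_single i]
      · rw [if_pos rfl]
        ring
      · intro b _ hb
        rw [if_neg hb]
        ring
      · intro h
        exact absurd (Finset.mem_univ i) h

theorem eval_smul_pol (s : R) (x : Fin n → R) (c : Mon n d → R) :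
    eval (fun i => s * x i) (pol c) = s ^ d * eval x (pol c) := by
  unfold pol
  rw [map_sum, map_sum, Finset.mul_sum]
  refine Finset.sum_congr rfl fun α _ => ?_
  rw [eval_monomial, eval_monomial]
  have h1 : (α.1.prod fun i k => (s * x i) ^ k) = s ^ d * α.1.prod fun i k => x i ^ k := by
    rw [Finsupp.prod, Finsupp.prod]
    simp only [mul_pow]
    rw [Finset.prod_mul_distrib, Finset.prod_pow_eq_pow_sum]
    congr 1
    have h2 := α.2
    rw [Finsupp.degree_apply] at h2
    rw [h2]
  rw [h1]
  ring

end

end Pool.Agent.Z15.ME.EVA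

namespace Pool.Agent.Z15.ME.EVA

open MvPolynomial

theorem t_EVA (h : S_POL) (h2 : S_ACT) : S_EVA := by
  intro n d R _ A A' c x
  refine ⟨?_, ?_, ?_⟩
  · intro k
    rw [cmp_act h2, map_sum]
    exact Finset.sum_congr rfl fun l _ => by rw [map_mul, eval_C, eval_lin]
  · ext k j
    have h0 : jac (act A A' c) x k j = eval x (pderiv j (cmp (act A A' c) k)) := rfl
    rw [h0, cmp_act h2, map_sum, map_sum, Matrix.mul_apply]
    have h3 : ∀ l, eval x (pderiv j (C (A k l) * lin A' (cmp c l))) =
        ∑ i, A k l * eval (A'.mulVec x) (pderiv i (cmp c l)) * A' i j := by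
      intro l
      rw [pderiv_C_mul, map_mul, eval_C, pderiv_lin, map_sum, Finset.mul_sum]
      refine Finset.sum_congr rfl fun i _ => ?_
      rw [map_mul, eval_C, eval_lin]
      ring
    rw [Finset.sum_congr rfl fun l _ => h3 l, Finset.sum_comm]
    refine Finset.sum_congr rfl fun i _ => ?_
    rw [Matrix.mul_apply, Finset.sum_mul]
    exact Finset.sum_congr rfl fun l _ => rfl
  · intro s
    refine ⟨fun k => eval_smul_pol s x _, ?_⟩
    intro e he
    have hh : ∀ k, (cmp c k).IsHomogeneous d := fun k => ((h n d R).1 _).1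
    have hp : ∀ j k, pol (cf e (pderiv j (cmp c k))) = pderiv j (cmp c k) := by
      intro j k
      apply (h n e R).2.1
      have h3 := (hh k).pderiv (i := j)
      have h4 : d - 1 = e := by omega
      exact h4 ▸ h3
    constructor
    · ext k j
      have h0 : jac c (fun i => s * x i) k j = eval (fun i => s * x i) (pderiv j (cmp c k)) := rfl
      rw [h0, ← hp j k, eval_smul_pol, Matrix.smul_apply, smul_eq_mul, hp j k]
      rfl
    · funext k
      have h4 := congrArg (eval x) (hh k).sum_X_mul_pderiv
      rw [map_sum, map_nsmul, nsmul_eq_mul] at h4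
      rw [← h4]
      unfold Matrix.mulVec dotProduct jac
      refine Finset.sum_congr rfl fun j _ => ?_
      rw [map_mul, eval_X]
      ring

end Pool.Agent.Z15.ME.EVA
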