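import Pool.Agent.Z15.ME.T_SEC

/-! AFF: coordinates of the space of the self maps without divergence which fix the standard basis vectors -/

set_option autoImplicit false

namespace Pool.Agent.Z15.ME.AFF

open MvPolynomial Pool.Agent.Z15.ME.SEC

variable {N m : ℕ}

/-- the powers of the variables -/
noncomputable def dd {n : ℕ} (m : ℕ) (i : Fin n) : Mon n (m + 1) :=
  ⟨Finsupp.single i (m + 1), Finsupp.degree_single _ _⟩

/-- the value of a form at a standard basis vector -/
theorem eval_pol {n : ℕ} {R : Type} [CommRing R] (v : Mon n (m + 1) → R) (i : Fin n) :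
    eval (Pi.single i 1) (pol v) = v (dd m i) := by
  classical
  unfold pol
  rw [map_sum, Finset.sum_eq_single (dd m i)]
  · rw [eval_monomial]
    have : ((dd m i).1.prod fun j e => (Pi.single i (1 : R) : Fin n → R) j ^ e) = 1 := by
      show ((Finsupp.single i (m + 1)).prod fun j e => (Pi.single i (1 : R) : Fin n → R) j ^ e) = 1
      rw [Finsupp.prod_single_index]
      · simp
      · simp
    rw [this, mul_one]
  · intro α _ hα
    rw [eval_monomial]
    obtain ⟨j, hj, hj0⟩ : ∃ j, j ≠ i ∧ α.1 j ≠ 0 := by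
      by_contra hcon
      push Not at hcon
      apply hα
      apply Subtype.ext
      have h1 : α.1 = Finsupp.single i (α.1 i) := by
        ext j
        by_cases hj : j = i
        · subst hj
          simp
        · rw [hcon j hj, Finsupp.single_apply, if_neg (Ne.symm hj)]
      have h2 := α.2
      rw [h1, Finsupp.degree_single] at h2
      rw [h1, h2]
      rfl
    have : (α.1.prod fun j e => (Pi.single i (1 : R) : Fin n → R) j ^ e) = 0 := by
      rw [Finsupp.prod]
      apply Finset.prod_eq_zero (Finsupp.mem_support_iff.2 hj0)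
      rw [Pi.single_eq_of_ne hj, zero_pow hj0]
    rw [this, mul_zero]
  · intro h
    exact absurd (Finset.mem_univ _) h

theorem fx_iff {R : Type} [CommRing R] (c : Ix N m → R) (i : Fin (N + 1)) :
    Fx c (Pi.single i 1) ↔ ∀ k, c (k, dd m i) = if k = i then 1 else 0 := by
  classical
  unfold Fx cmp
  refine forall_congr' fun k => ?_
  rw [eval_pol, Pi.single_apply]

/-- the monomial `x_last ^ m` -/
noncomputable def bb (N m : ℕ) : Mon (N + 1) m := ⟨Finsupp.single (Fin.last N) m, Finsupp.degree_single _ _⟩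

theorem up_bb_last : up (bb N m) (Fin.last N) = dd m (Fin.last N) := by
  apply Subtype.ext
  show Finsupp.single (Fin.last N) m + Finsupp.single (Fin.last N) 1 = Finsupp.single (Fin.last N) (m + 1)
  rw [← Finsupp.single_add]

open Classical in
/-- the dependent coordinates -/
noncomputable def dl0 (N m : ℕ) (x : Fin (N + 1) × Fin (N + 1)) : Ix N m :=
  if x = (Fin.last N, Fin.last N) then (0, up (bb N m) 0) else (x.1, dd m x.2)

theorem dl0_J2 (hN : 2 ≤ N) (x : Fin (N + 1) × Fin (N + 1)) :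
    (dl0 N m x).1 ≠ Fin.last N ∨ (dl0 N m x).2.1 (Fin.last N) = 0 := by
  classical
  unfold dl0
  split_ifs with h
  · left
    intro h0
    have := congrArg Fin.val h0
    simp at this
    omega
  · by_cases h1 : x.1 = Fin.last N
    · right
      have h2 : x.2 ≠ Fin.last N := fun h2 => h (Prod.ext h1 h2)
      show (Finsupp.single x.2 (m + 1)) (Fin.last N) = 0
      rw [Finsupp.single_apply, if_neg h2]
    · left
      exact h1

noncomputable def dl (hN : 2 ≤ N) (m : ℕ) (x : Fin (N + 1) × Fin (N + 1)) : J2 N m := ⟨dl0 N m x, dl0_J2 hN x⟩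

theorem zero_ne_last (hN : 2 ≤ N) : (0 : Fin (N + 1)) ≠ Fin.last N := by
  intro h0
  have := congrArg Fin.val h0
  simp at this
  omega

/-- a monomial with two variables is no power -/
theorem ne_dd {α : Mon (N + 1) (m + 1)} {a b i : Fin (N + 1)} (hab : a ≠ b) (ha : α.1 a ≠ 0) (hb : α.1 b ≠ 0) :
    α ≠ dd m i := by
  intro h
  rw [h] at ha hb
  have h1 : ∀ a, (dd m i).1 a ≠ 0 → i = a := by
    intro a h2
    by_contra h3
    exact h2 (by show (Finsupp.single i (m + 1)) a = 0; rw [Finsupp.single_apply, if_neg h3])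
  exact hab ((h1 a ha).symm.trans (h1 b hb))

theorem up_bb_ne (hm : 2 ≤ m) {k : Fin (N + 1)} (hk : k ≠ Fin.last N) (i : Fin (N + 1)) : up (bb N m) k ≠ dd m i := by
  refine ne_dd (Ne.symm hk) ?_ (up_self_ne _ _)
  show (Finsupp.single (Fin.last N) m + Finsupp.single k 1 : Fin (N + 1) →₀ ℕ) (Fin.last N) ≠ 0
  rw [Finsupp.add_apply, Finsupp.single_eq_same]
  omega

theorem dl_inj (hN : 2 ≤ N) (hm : 2 ≤ m) : Function.Injective (dl (N := N) hN m) := by
  classical
  intro x y hxy
  have h : dl0 N m x = dl0 N m y := congrArg Subtype.val hxy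
  unfold dl0 at h
  split_ifs at h with h1 h2 h2
  · rw [h1, h2]
  · exact absurd (congrArg Prod.snd h) (up_bb_ne hm (zero_ne_last hN) _)
  · exact absurd (congrArg Prod.snd h).symm (up_bb_ne hm (zero_ne_last hN) _)
  · have h3 : x.1 = y.1 := (Prod.ext_iff.1 h).1
    have h4 : dd m x.2 = dd m y.2 := (Prod.ext_iff.1 h).2
    have h5 : (Finsupp.single x.2 (m + 1) : Fin (N + 1) →₀ ℕ) = Finsupp.single y.2 (m + 1) := congrArg Subtype.val h4
    exact Prod.ext h3 (Finsupp.single_left_injective (Nat.succ_ne_zero m) h5)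

/-- the free coordinates -/
abbrev Fr (hN : 2 ≤ N) (m : ℕ) : Type := {j : J2 N m // j ∉ Set.range (dl (N := N) hN m)}

theorem fr_of (hN : 2 ≤ N) (hm : 2 ≤ m) (k a b : Fin (N + 1)) (α : Mon (N + 1) (m + 1)) (hk : k ≠ Fin.last N) (hab : a ≠ b)
    (ha : α.1 a ≠ 0) (hb : α.1 b ≠ 0) (h0 : k = 0 → α ≠ up (bb N m) 0) : ∃ f : Fr hN m, f.1.1 = (k, α) := by
  classical
  refine ⟨⟨⟨(k, α), Or.inl hk⟩, ?_⟩, rfl⟩
  rintro ⟨x, hx⟩
  have h : dl0 N m x = (k, α) := congrArg Subtype.val hx
  unfold dl0 at h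
  split_ifs at h with h1
  · exact h0 (congrArg Prod.fst h).symm (congrArg Prod.snd h).symm
  · exact ne_dd hab ha hb (congrArg Prod.snd h).symm

theorem exists_fr (hN : 2 ≤ N) (hm : 2 ≤ m) (k : {k : Fin (N + 1) // k ≠ 0 ∧ k ≠ Fin.last N}) :
    ∃ f : Fr hN m, f.1.1 = (k.1, up (bb N m) k.1) := by
  refine fr_of hN hm k.1 (Fin.last N) k.1 _ k.2.2 (Ne.symm k.2.2) ?_ (up_self_ne _ _) (fun h => absurd h k.2.1)
  show (Finsupp.single (Fin.last N) m + Finsupp.single k.1 1 : Fin (N + 1) →₀ ℕ) (Fin.last N) ≠ 0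
  rw [Finsupp.add_apply, Finsupp.single_eq_same]
  omega

noncomputable def fr (hN : 2 ≤ N) (hm : 2 ≤ m) (k : {k : Fin (N + 1) // k ≠ 0 ∧ k ≠ Fin.last N}) : Fr hN m :=
  (exists_fr hN hm k).choose

theorem fr_spec (hN : 2 ≤ N) (hm : 2 ≤ m) (k : {k : Fin (N + 1) // k ≠ 0 ∧ k ≠ Fin.last N}) :
    (fr hN hm k).1.1 = (k.1, up (bb N m) k.1) := (exists_fr hN hm k).choose_spec

open Classical in
/-- the constant terms -/
noncomputable def b0 (hN : 2 ≤ N) (m : ℕ) (j : J2 N m) : ℚ :=
  if h : j ∈ Set.range (dl (N := N) hN m) then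
    (if h.choose = (Fin.last N, Fin.last N) then -((m : ℚ) + 1) else if h.choose.1 = h.choose.2 then 1 else 0)
  else 0

open Classical in
/-- the coefficients -/
noncomputable def b1 (hN : 2 ≤ N) (hm : 2 ≤ m) (j : J2 N m) (f : Fr hN m) : ℚ :=
  if h : j ∈ Set.range (dl (N := N) hN m) then
    (if h.choose = (Fin.last N, Fin.last N) then -(∑ k, if f = fr hN hm k then 1 else 0) else 0)
  else (if f.1 = j then 1 else 0)

noncomputable instance (hN : 2 ≤ N) (m : ℕ) : Fintype (Fr (N := N) hN m) := Fintype.ofFinite _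

theorem b_fr {R : Type} [Field R] [CharZero R] (hN : 2 ≤ N) (hm : 2 ≤ m) (c : Ix N m → R) (f : Fr hN m) :
    ((b0 hN m f.1 : ℚ) : R) + ∑ f' : Fr hN m, ((b1 hN hm f.1 f' : ℚ) : R) * c f'.1.1 = c f.1.1 := by
  classical
  unfold b0 b1
  simp only [dif_neg f.2]
  rw [Rat.cast_zero, zero_add, Finset.sum_eq_single f]
  · simp
  · intro f' _ hf'
    rw [if_neg (fun h => hf' (Subtype.ext h)), Rat.cast_zero, zero_mul]
  · intro h
    exact absurd (Finset.mem_univ _) h

theorem b_dl {R : Type} [Field R] [CharZero R] (hN : 2 ≤ N) (hm : 2 ≤ m) (c : Ix N m → R)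
    (x : Fin (N + 1) × Fin (N + 1)) (hx : x ≠ (Fin.last N, Fin.last N)) :
    ((b0 hN m (dl hN m x) : ℚ) : R) + ∑ f' : Fr hN m, ((b1 hN hm (dl hN m x) f' : ℚ) : R) * c f'.1.1 =
      if x.1 = x.2 then 1 else 0 := by
  classical
  have h : dl hN m x ∈ Set.range (dl (N := N) hN m) := ⟨x, rfl⟩
  have h1 : h.choose = x := dl_inj hN hm h.choose_spec
  unfold b0 b1
  simp only [dif_pos h]
  rw [h1, if_neg hx]
  simp only [if_neg hx, Rat.cast_zero, zero_mul, Finset.sum_const_zero, add_zero]
  split_ifs <;> simp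

theorem b_s0 {R : Type} [Field R] [CharZero R] (hN : 2 ≤ N) (hm : 2 ≤ m) (c : Ix N m → R) :
    ((b0 hN m (dl hN m (Fin.last N, Fin.last N)) : ℚ) : R) +
      ∑ f' : Fr hN m, ((b1 hN hm (dl hN m (Fin.last N, Fin.last N)) f' : ℚ) : R) * c f'.1.1 =
      -((m : R) + 1) - ∑ k : {k : Fin (N + 1) // k ≠ 0 ∧ k ≠ Fin.last N}, c (k.1, up (bb N m) k.1) := by
  classical
  have h : dl hN m (Fin.last N, Fin.last N) ∈ Set.range (dl (N := N) hN m) := ⟨_, rfl⟩
  have h1 : h.choose = (Fin.last N, Fin.last N) := dl_inj hN hm h.choose_spec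
  unfold b0 b1
  simp only [dif_pos h]
  rw [h1, if_pos rfl]
  simp only [if_true]
  push_cast
  have h2 : ∀ f' : Fr hN m, (-∑ k, (((if f' = fr hN hm k then (1 : ℚ) else 0) : ℚ) : R)) * c f'.1.1 =
      -∑ k, if f' = fr hN hm k then c f'.1.1 else 0 := by
    intro f'
    rw [neg_mul, Finset.sum_mul]
    congr 1
    refine Finset.sum_congr rfl fun k _ => ?_
    split_ifs <;> simp
  rw [Finset.sum_congr rfl fun f' _ => h2 f', Finset.sum_neg_distrib, Finset.sum_comm]
  have h3 : ∀ k, (∑ f' : Fr hN m, if f' = fr hN hm k then c f'.1.1 else 0) = c (k.1, up (bb N m) k.1) := by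
    intro k
    rw [Finset.sum_ite_eq' Finset.univ (fr hN hm k) (fun f' => c f'.1.1), if_pos (Finset.mem_univ _), fr_spec]
  rw [Finset.sum_congr rfl fun k _ => h3 k]
  ring

/-- a sum over all indices without `0` and `last` -/
theorem sum_split {R : Type} [Field R] (hN : 2 ≤ N) (F : Fin (N + 1) → R) :
    ∑ k, F k = F (Fin.last N) + F 0 + ∑ k : {k : Fin (N + 1) // k ≠ 0 ∧ k ≠ Fin.last N}, F k.1 := by
  classical
  have h1 : ∑ k : {k : Fin (N + 1) // k ≠ 0 ∧ k ≠ Fin.last N}, F k.1 =
      ∑ k : Fin (N + 1), if k ≠ 0 ∧ k ≠ Fin.last N then F k else 0 := by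
    rw [← Finset.sum_filter]
    exact (Finset.sum_subtype _ (fun k => by simp) F).symm
  have h2 : ∀ k, F k = (if k = Fin.last N then F k else 0) + (if k = 0 then F k else 0) +
      (if k ≠ 0 ∧ k ≠ Fin.last N then F k else 0) := by
    intro k
    by_cases h3 : k = Fin.last N
    · rw [if_pos h3, if_neg (fun h => zero_ne_last hN (h.symm.trans h3)), if_neg (fun h => h.2 h3)]
      ring
    · by_cases h4 : k = 0
      · rw [if_neg h3, if_pos h4, if_neg (fun h => h.1 h4)]
        ring
      · rw [if_neg h3, if_neg h4, if_pos ⟨h4, h3⟩]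
        ring
  rw [h1]
  conv_lhs => rw [Finset.sum_congr rfl fun k _ => h2 k]
  rw [Finset.sum_add_distrib, Finset.sum_add_distrib, Finset.sum_ite_eq' Finset.univ (Fin.last N) F,
    Finset.sum_ite_eq' Finset.univ (0 : Fin (N + 1)) F, if_pos (Finset.mem_univ _), if_pos (Finset.mem_univ _)]

/-- the divergence at the monomial `x_last ^ m` -/
theorem dv_bb {R : Type} [Field R] (hP : S_POL) (hN : 2 ≤ N) (c : Ix N m → R) :
    dv c (bb N m) = ((m : R) + 1) * c (Fin.last N, dd m (Fin.last N)) + c (0, up (bb N m) 0) +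
      ∑ k : {k : Fin (N + 1) // k ≠ 0 ∧ k ≠ Fin.last N}, c (k.1, up (bb N m) k.1) := by
  rw [dv_apply hP, sum_split hN, up_bb_last]
  have h1 : ∀ k : Fin (N + 1), k ≠ Fin.last N → (bb N m).1 k = 0 := by
    intro k hk
    show (Finsupp.single (Fin.last N) m) k = 0
    rw [Finsupp.single_apply, if_neg (Ne.symm hk)]
  have h2 : (bb N m).1 (Fin.last N) = m := by
    show (Finsupp.single (Fin.last N) m) (Fin.last N) = m
    rw [Finsupp.single_eq_same]
  rw [h1 0 (zero_ne_last hN), h2]
  congr 1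
  · simp
  · refine Finset.sum_congr rfl fun k _ => ?_
    rw [h1 k.1 k.2.2]
    simp

theorem t_AFF (hP : S_POL) (h : S_SEC) : S_AFF := by
  classical
  intro N m hN hm
  obtain ⟨T, hT1, hT2⟩ := h N m
  let q := Fintype.card (Fr (N := N) hN m)
  let E : Fin q ≃ Fr (N := N) hN m := (Fintype.equivFin _).symm
  have hTj : ∀ (g : J2 N m → ℚ) (j : J2 N m), ∑ j', T j.1 j' * g j' = g j := by
    intro g j
    rw [Finset.sum_eq_single j]
    · rw [hT1, if_pos rfl, one_mul]
    · intro j' _ hj'
      rw [hT1, if_neg (Ne.symm hj'), zero_mul]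
    · intro h
      exact absurd (Finset.mem_univ _) h
  refine ⟨q, fun j => (E j).1.1, fun p => ∑ j', T p j' * b0 hN m j', fun p f => ∑ j', T p j' * b1 hN hm j' (E f),
    ?_, ?_, ?_, ?_, ?_⟩
  · have h1 : Nat.card (J2 N m) = Nat.card (Fr (N := N) hN m) + Nat.card (Set.range (dl (N := N) hN m)) := by
      rw [← Nat.card_sum]
      exact Nat.card_congr ((Equiv.sumComm _ _).trans (Equiv.Set.sumCompl (Set.range (dl (N := N) hN m)))).symm
    rw [h1, Nat.card_range_of_injective (dl_inj hN hm), Nat.card_prod, Nat.card_eq_fintype_card,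
      Nat.card_eq_fintype_card, Fintype.card_fin]
    ring
  · intro j
    show ∑ j', T (E j).1.1 j' * b0 hN m j' = 0
    rw [hTj]
    unfold b0
    rw [dif_neg (E j).2]
  · intro j j'
    show ∑ i, T (E j).1.1 i * b1 hN hm i (E j') = _
    rw [hTj (fun i => b1 hN hm i (E j'))]
    unfold b1
    rw [dif_neg (E j).2]
    by_cases hj : j = j'
    · rw [if_pos hj, if_pos (by rw [hj])]
    · rw [if_neg hj, if_neg (fun h => hj (E.injective (Subtype.ext h)).symm)]
  · intro R _ _ c
    -- the right hand side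
    have hR : ∀ p, (((∑ j', T p j' * b0 hN m j' : ℚ) : R) + ∑ j, ((∑ j', T p j' * b1 hN hm j' (E j) : ℚ) : R) * c (E j).1.1) =
        ∑ j', ((T p j' : ℚ) : R) * (((b0 hN m j' : ℚ) : R) + ∑ f : Fr hN m, ((b1 hN hm j' f : ℚ) : R) * c f.1.1) := by
      intro p
      push_cast
      simp only [mul_add, Finset.sum_add_distrib, Finset.mul_sum, Finset.sum_mul]
      congr 1
      rw [Finset.sum_comm]
      refine Finset.sum_congr rfl fun j' _ => ?_
      rw [← Equiv.sum_comp E]
      refine Finset.sum_congr rfl fun j _ => ?_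
      ring
    have hRT : ∀ (g : J2 N m → R) (j : J2 N m), ∑ j', ((T j.1 j' : ℚ) : R) * g j' = g j := by
      intro g j
      rw [Finset.sum_eq_single j]
      · rw [hT1, if_pos rfl, Rat.cast_one, one_mul]
      · intro j' _ hj'
        rw [hT1, if_neg (Ne.symm hj'), Rat.cast_zero, zero_mul]
      · intro h
        exact absurd (Finset.mem_univ _) h
    have hs0 : ∀ j : J2 N m, j = dl hN m (Fin.last N, Fin.last N) → c j.1 = c (0, up (bb N m) 0) := by
      rintro j rfl
      show c (dl0 N m (Fin.last N, Fin.last N)) = _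
      unfold dl0
      rw [if_pos rfl]
    have hdl : ∀ x : Fin (N + 1) × Fin (N + 1), x ≠ (Fin.last N, Fin.last N) → c (dl hN m x).1 = c (x.1, dd m x.2) := by
      intro x hx
      show c (dl0 N m x) = _
      unfold dl0
      rw [if_neg hx]
    constructor
    · rintro ⟨hd, hf⟩ p
      rw [hR, (hT2 R c).1 hd p]
      refine Finset.sum_congr rfl fun j _ => ?_
      congr 1
      by_cases hj : j ∈ Set.range (dl (N := N) hN m)
      · obtain ⟨x, rfl⟩ := hj
        by_cases hx : x = (Fin.last N, Fin.last N)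
        · subst hx
          rw [b_s0 hN hm, hs0 _ rfl]
          have h1 := congrFun hd (bb N m)
          rw [dv_bb hP hN, Pi.zero_apply, (fx_iff c (Fin.last N)).1 (hf _) (Fin.last N), if_pos rfl] at h1
          linear_combination h1
        · rw [b_dl hN hm c x hx, hdl x hx]
          exact (fx_iff c x.2).1 (hf _) x.1
      · exact (b_fr hN hm c ⟨j, hj⟩).symm
    · intro hc
      have h1 : ∀ j : J2 N m, c j.1 = ((b0 hN m j : ℚ) : R) + ∑ f : Fr hN m, ((b1 hN hm j f : ℚ) : R) * c f.1.1 := by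
        intro j
        have h2 := hc j.1
        rw [hR, hRT] at h2
        exact h2
      have hd : dv c = 0 := by
        refine (hT2 R c).2 fun p => ?_
        rw [hc p, hR]
        exact Finset.sum_congr rfl fun j _ => by rw [h1 j]
      refine ⟨hd, fun i => (fx_iff c i).2 fun k => ?_⟩
      by_cases hx : ((k, i) : Fin (N + 1) × Fin (N + 1)) = (Fin.last N, Fin.last N)
      · have hk : k = Fin.last N := congrArg Prod.fst hx
        have hi : i = Fin.last N := congrArg Prod.snd hx
        subst hk hi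
        rw [if_pos rfl]
        have h2 := congrFun hd (bb N m)
        rw [dv_bb hP hN, Pi.zero_apply] at h2
        have h3 := h1 (dl hN m (Fin.last N, Fin.last N))
        rw [b_s0 hN hm, hs0 _ rfl] at h3
        rw [h3] at h2
        have h4 : (m : R) + 1 ≠ 0 := by
          have : ((m + 1 : ℕ) : R) ≠ 0 := Nat.cast_ne_zero.2 (Nat.succ_ne_zero _)
          push_cast at this
          exact this
        have h5 : ((m : R) + 1) * (c (Fin.last N, dd m (Fin.last N)) - 1) = 0 := by linear_combination h2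
        rcases mul_eq_zero.1 h5 with h6 | h6
        · exact absurd h6 h4
        · linear_combination h6
      · have h2 := h1 (dl hN m (k, i))
        rw [b_dl hN hm c (k, i) hx, hdl (k, i) hx] at h2
        exact h2
  · intro k l α hk hkl hα
    have h1 : α.1 k = m := by
      rw [hα, Finsupp.add_apply, Finsupp.single_eq_same, Finsupp.single_apply, if_neg (Ne.symm hkl), add_zero]
    have h2 : α.1 l = 1 := by
      rw [hα, Finsupp.add_apply, Finsupp.single_eq_same, Finsupp.single_apply, if_neg hkl, zero_add]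
    obtain ⟨f, hf⟩ := fr_of hN hm k k l α hk hkl (by omega) (by omega) (by
      intro hk0 h3
      rw [h3, hk0] at h1
      have h4 : (Finsupp.single (Fin.last N) m + Finsupp.single 0 1 : Fin (N + 1) →₀ ℕ) 0 = m := h1
      rw [Finsupp.add_apply, Finsupp.single_eq_same, Finsupp.single_apply,
        if_neg (Ne.symm (zero_ne_last hN))] at h4
      omega)
    refine ⟨E.symm f, ?_⟩
    show (E (E.symm f)).1.1 = (k, α)
    rw [Equiv.apply_symm_apply]
    exact hf

end Pool.Agent.Z15.ME.AFF
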