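import Pool.Agent.Z15.ME.Stm2

set_option autoImplicit false

/-! Project ME (owner helper15), task AIC. -/

namespace Pool.Agent.Z15.ME.AIC

open MvPolynomial Pool.Agent.Z15.ME

theorem t_AIC (hAIV : S_AIV) (hAIL : S_AIL) : S_AIC := by
  intro N m a k K M _ _ _ _ D
  obtain ⟨-, hv, -, -⟩ := hAIV N m a k K M D
  let r : Option (Fin (N + 1) × Fin (N + 1)) → Mon (N + 1) m → D.F := fun o β =>
    o.elim ⟨D.h β, D.hF β⟩ fun p => ⟨D.c p.1 p.2 β, D.cF p.1 p.2 β⟩
  have hr : LinearIndependent D.F r := by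
    have h1 := D.li.restrict_scalars (R := D.F) (fun x y h => by
      simpa [Algebra.smul_def] using h)
    let L : (Mon (N + 1) m → D.F) →ₗ[D.F] (Mon (N + 1) m → M) :=
      { toFun := fun w β => (w β : M)
        map_add' := fun _ _ => rfl
        map_smul' := fun _ _ => rfl }
    refine LinearIndependent.of_comp L ?_
    have h2 : (⇑L ∘ r) = (fun o : Option (Fin (N + 1) × Fin (N + 1)) =>
        (o.elim D.h fun p => D.c p.1 p.2 : Mon (N + 1) m → M)) := by
      funext o β
      cases o <;> rfl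
    rw [h2]
    exact h1
  have hind := hAIL D.F M (Mon (N + 1) m) (Option (Fin (N + 1) × Fin (N + 1))) (dv D.f) r hv hr
  have hind' : AlgebraicIndependent D.F (fun o : Option (Fin (N + 1) × Fin (N + 1)) =>
      (o.elim D.HH fun p => D.CC p.2 p.1 : M)) := by
    have h2 : (fun o : Option (Fin (N + 1) × Fin (N + 1)) =>
        (o.elim D.HH fun p => D.CC p.2 p.1 : M)) =
        fun o => ∑ β, algebraMap D.F M (r o β) * dv D.f β := by
      funext o
      cases o <;> rfl
    rw [h2]
    exact hind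
  have hCCi : AlgebraicIndependent D.F (fun p : Fin (N + 1) × Fin (N + 1) => D.CC p.1 p.2) :=
    hind'.comp (fun p : Fin (N + 1) × Fin (N + 1) => some (p.2, p.1)) (by
      rintro ⟨a1, a2⟩ ⟨b1, b2⟩ h
      simp only [Option.some.injEq, Prod.mk.injEq] at h
      rw [h.1, h.2])
  have hCC : D.CC.det ≠ 0 := by
    intro h0
    have h1 : (aeval fun p : Fin (N + 1) × Fin (N + 1) => D.CC p.1 p.2)
        (Matrix.mvPolynomialX (Fin (N + 1)) (Fin (N + 1)) D.F).det = 0 := by
      rw [AlgHom.map_det, Matrix.mvPolynomialX_mapMatrix_aeval, h0]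
    exact Matrix.det_mvPolynomialX_ne_zero (Fin (N + 1)) D.F
      ((injective_iff_map_eq_zero _).1 hCCi _ h1)
  have hHH : D.HH ≠ 0 := hind'.ne_zero none
  have htt : D.tt ≠ 0 := div_ne_zero hCC (pow_ne_zero _ hHH)
  have hDD : D.DD.det = D.tt := by
    unfold Data.DD
    rw [Matrix.det_diagonal, Finset.prod_ite_eq']
    simp
  have hDDu : IsUnit D.DD.det := by
    rw [hDD]
    exact htt.isUnit
  refine ⟨hind', hCC, hHH, htt, ?_, ?_⟩
  · unfold Data.C1
    rw [Matrix.det_mul, Matrix.det_nonsing_inv, hDD, Ring.inverse_eq_inv']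
    unfold Data.tt
    have := pow_ne_zero k hHH
    field_simp
  · unfold Data.C1
    rw [Matrix.nonsing_inv_mul_cancel_right _ _ hDDu]

end Pool.Agent.Z15.ME.AIC
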