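import Pool.Agent.Z15.ME.T_TRD

/-! # AIL: independent linear forms in algebraically independent elements -/

set_option autoImplicit false

namespace Pool.Agent.Z15.ME

open MvPolynomial

theorem t_AIL : S_AIL := by
  intro F M _ _ _ J κ _ _ v r hv hr
  classical
  have hs : LinearIndepOn F id (Set.range r) := hr.linearIndepOn_id
  let T := hs.extend (Set.subset_univ _)
  let b : Module.Basis T F (J → F) := Module.Basis.extend hs
  have : Fintype T := FiniteDimensional.fintypeBasisIndex b
  let φ : (J → F) →ₗ[F] M :=
    { toFun := fun c => ∑ β, algebraMap F M (c β) * v β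
      map_add' := fun c c' => by
        simp only [Pi.add_apply, map_add, add_mul, Finset.sum_add_distrib]
      map_smul' := fun a c => by
        simp only [Pi.smul_apply, smul_eq_mul, map_mul, RingHom.id_apply, Algebra.smul_def,
          Finset.mul_sum, mul_assoc] }
  let x : T → M := fun t => φ t.1
  have hx : AlgebraicIndependent F x := by
    refine (t_TRD F M T J x v hv ?_ ?_).1
    · intro β
      have h1 : v β = φ (Pi.single β 1) := by
        show v β = ∑ γ, algebraMap F M ((Pi.single β (1 : F) : J → F) γ) * v γ
        rw [Finset.sum_eq_single β]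
        · simp
        · intro γ _ hγ
          simp [Pi.single_eq_of_ne hγ]
        · simp
      rw [h1, ← b.sum_repr (Pi.single β 1), map_sum]
      refine sum_mem (fun t _ => ?_)
      rw [map_smul, Algebra.smul_def]
      refine mul_mem (IntermediateField.algebraMap_mem _ _) ?_
      refine IntermediateField.subset_adjoin F _ ⟨t, ?_⟩
      show φ t.1 = φ (b t)
      rw [Module.Basis.extend_apply_self]
    · have h1 : Module.finrank F (J → F) = Fintype.card T := Module.finrank_eq_card_basis b
      rw [Module.finrank_fintype_fun_eq_card] at h1
      rw [Nat.card_eq_fintype_card, Nat.card_eq_fintype_card, h1]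
  have hmem : ∀ k, r k ∈ T := fun k => hs.subset_extend _ ⟨k, rfl⟩
  have h2 := hx.comp (fun k : κ => (⟨r k, hmem k⟩ : T)) (fun k k' h => by
    apply hr.injective
    exact congrArg Subtype.val h)
  exact h2

end Pool.Agent.Z15.ME
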