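import Pool.Agent.Z15.ME.Stm2

set_option autoImplicit false

/-!
# Task AUT
-/

namespace Pool.Agent.Z15.ME.AUT

open MvPolynomial

/-- an automorphism given by two algebraically independent generating families -/
theorem exists_equiv {K Ω : Type} [Field K] [Field Ω] [Algebra K Ω] {ι : Type} (L : IntermediateField K Ω)
    (x x' : ι → Ω) (hx : AlgebraicIndependent K x) (hx' : AlgebraicIndependent K x')
    (h : L = IntermediateField.adjoin K (Set.range x)) (h' : L = IntermediateField.adjoin K (Set.range x')) :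
    ∃ ψ : L ≃ₐ[K] L, ∀ (i : ι) (y : L), (y : Ω) = x i → ((ψ y : L) : Ω) = x' i := by
  refine ⟨(IntermediateField.equivOfEq h).trans (hx.aevalEquivField.symm.trans (hx'.aevalEquivField.trans
    (IntermediateField.equivOfEq h'.symm))), fun i y hy => ?_⟩
  have h1 : IntermediateField.equivOfEq h y =
      hx.aevalEquivField (algebraMap (MvPolynomial ι K) (FractionRing (MvPolynomial ι K)) (X i)) := by
    apply Subtype.ext
    rw [AlgebraicIndependent.aevalEquivField_algebraMap_apply_coe, aeval_X]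
    exact hy
  rw [AlgEquiv.trans_apply, h1, AlgEquiv.trans_apply, AlgEquiv.symm_apply_apply, AlgEquiv.trans_apply]
  show ((hx'.aevalEquivField (algebraMap (MvPolynomial ι K) (FractionRing (MvPolynomial ι K)) (X i)) : _) : Ω) = x' i
  rw [AlgebraicIndependent.aevalEquivField_algebraMap_apply_coe, aeval_X]

section

variable {K Ω : Type} [Field K] [Field Ω] [Algebra K Ω] {n d : ℕ}

theorem act_nat (hACT : S_ACT) {R S : Type} [CommRing R] [CommRing S] (σ : R →+* S) (A A' : Matrix (Fin n) (Fin n) R)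
    (c : Fin n × Mon n d → R) (p : Fin n × Mon n d) :
    σ (act A A' c p) = act (A.map σ) (A'.map σ) (fun p => σ (c p)) p := by
  obtain ⟨-, -, -, -, -, -, -, -, -, -, h⟩ := hACT n d R
  exact (congrFun (h S σ A A' c) p).symm

/-- the inverse matrix over a subfield -/
theorem inv_lift (L : IntermediateField K Ω) (BL : Matrix (Fin n) (Fin n) L) (B' : Matrix (Fin n) (Fin n) Ω)
    (h : BL.map (algebraMap L Ω) * B' = 1) :
    ∃ B'L : Matrix (Fin n) (Fin n) L, B'L.map (algebraMap L Ω) = B' ∧ BL * B'L = 1 ∧ B'L * BL = 1 := by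
  have hdet : BL.det ≠ 0 := by
    intro h0
    have h1 : (BL.map (algebraMap L Ω)).det = 0 := by
      have := RingHom.map_det (algebraMap L Ω) BL
      rw [h0, map_zero] at this
      exact this.symm
    have h2 := congrArg Matrix.det h
    rw [Matrix.det_mul, h1, zero_mul, Matrix.det_one] at h2
    exact zero_ne_one h2
  have hu : IsUnit BL.det := isUnit_iff_ne_zero.2 hdet
  refine ⟨BL⁻¹, ?_, Matrix.mul_nonsing_inv _ hu, Matrix.nonsing_inv_mul _ hu⟩
  calc BL⁻¹.map (algebraMap L Ω) = BL⁻¹.map (algebraMap L Ω) * (BL.map (algebraMap L Ω) * B') := by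
        rw [h, mul_one]
    _ = (BL⁻¹ * BL).map (algebraMap L Ω) * B' := by rw [← mul_assoc, Matrix.map_mul]
    _ = B' := by
        rw [Matrix.nonsing_inv_mul _ hu, Matrix.map_one _ (map_zero _) (map_one _), one_mul]

/-- membership of the coefficients of a conjugate -/
theorem act_mem (hACT : S_ACT) (L : IntermediateField K Ω) (A A' : Matrix (Fin n) (Fin n) Ω)
    (c : Fin n × Mon n d → Ω) (hA : ∀ i j, A i j ∈ L) (hA' : ∀ i j, A' i j ∈ L) (hc : ∀ p, c p ∈ L)
    (p : Fin n × Mon n d) : act A A' c p ∈ L := by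
  have h := act_nat hACT (algebraMap L Ω) (fun i j => (⟨A i j, hA i j⟩ : L)) (fun i j => (⟨A' i j, hA' i j⟩ : L))
    (fun p => (⟨c p, hc p⟩ : L)) p
  have h2 : act A A' c p = algebraMap L Ω (act (fun i j => (⟨A i j, hA i j⟩ : L)) (fun i j => (⟨A' i j, hA' i j⟩ : L))
    (fun p => (⟨c p, hc p⟩ : L)) p) := h.symm
  rw [h2]
  exact SetLike.coe_mem _

theorem inv_mem' (L : IntermediateField K Ω) (B B' : Matrix (Fin n) (Fin n) Ω) (hB : ∀ i j, B i j ∈ L) (h : B * B' = 1)
    (i j : Fin n) : B' i j ∈ L := by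
  obtain ⟨B'L, h1, -, -⟩ := inv_lift L (fun i j => (⟨B i j, hB i j⟩ : L)) B' h
  rw [← h1]
  exact SetLike.coe_mem _

theorem ext_mem {N : ℕ} (L : IntermediateField K Ω) (g : Matrix (Fin (N + 1)) (Fin (N + 1)) K)
    (B : Matrix (Fin (N + 1)) (Fin (N + 1)) Ω) (hB : ∀ i j, B i j ∈ L) (i j : Fin (N + 1)) : (ext Ω g * B) i j ∈ L := by
  rw [Matrix.mul_apply]
  refine sum_mem fun k _ => mul_mem ?_ (hB k j)
  exact L.algebraMap_mem (g i k)

end

theorem t_AUT (hACT : S_ACT) (hAFF : S_AFF) (hIND : S_IND) (hTRD : S_TRD) : S_AUT := by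
  intro N m hN hm K Ω _ _ _ _ f hf B B' hBB hB g
  have hcz : CharZero Ω := charZero_of_injective_algebraMap (algebraMap K Ω).injective
  obtain ⟨q, ρ, a0, a1, hcard, -, -, haff, -⟩ := hAFF N m hN hm
  obtain ⟨hind, hdv0, hfx0⟩ := hIND N m q ρ a0 a1 hN hm hcard haff K Ω f hf B B' hBB hB
  obtain ⟨-, -, -, -, -, -, hcomp, hact1, -, -, -⟩ := hACT (N + 1) (m + 1) Ω
  set f0 : Ix N m → Ω := act B' B f with hf0d
  have hf0 : ∀ p, f0 p = a0 p + ∑ j, (a1 p j : Ω) * f0 (ρ j) := (haff Ω f0).1 ⟨hdv0, hfx0⟩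
  have hff0 : f = act B B' f0 := by
    rw [hf0d, hcomp, hBB, hact1]
  obtain ⟨⟨g1, g2⟩, hg⟩ := g
  have hg' : g1 * g2 = 1 := hg
  have hg21 : g2 * g1 = 1 := mul_eq_one_comm.1 hg'
  have hG : ext Ω g1 * ext Ω g2 = 1 := by
    rw [← Matrix.map_mul, hg', Matrix.map_one _ (map_zero _) (map_one _)]
  have hG' : ext Ω g2 * ext Ω g1 = 1 := by
    rw [← Matrix.map_mul, hg21, Matrix.map_one _ (map_zero _) (map_one _)]
  show ∃ ψ : IntermediateField.adjoin K (Set.range f ∪ Set.range fun p : Fin (N + 1) × Fin (N + 1) => B p.1 p.2) ≃ₐ[K]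
      IntermediateField.adjoin K (Set.range f ∪ Set.range fun p : Fin (N + 1) × Fin (N + 1) => B p.1 p.2),
    ∀ x : IntermediateField.adjoin K (Set.range f ∪ Set.range fun p : Fin (N + 1) × Fin (N + 1) => B p.1 p.2),
      (∀ p, (x : Ω) = f p → ((ψ x : _) : Ω) = act (ext Ω g1) (ext Ω g2) f p) ∧
      (∀ p, (x : Ω) = f0 p → ((ψ x : _) : Ω) = x) ∧
      (∀ i j, (x : Ω) = B i j → ((ψ x : _) : Ω) = (ext Ω g1 * B) i j)
  set L : IntermediateField K Ω :=
    IntermediateField.adjoin K (Set.range f ∪ Set.range fun p : Fin (N + 1) × Fin (N + 1) => B p.1 p.2) with hL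
  set x : (Fin (N + 1) × Fin (N + 1)) ⊕ Fin q → Ω := Sum.elim (fun p => B p.1 p.2) (fun j => f0 (ρ j)) with hx
  set x' : (Fin (N + 1) × Fin (N + 1)) ⊕ Fin q → Ω := Sum.elim (fun p => (ext Ω g1 * B) p.1 p.2) (fun j => f0 (ρ j))
    with hx'
  -- the field generated by a matrix and `f0 ∘ ρ`
  have hLf : ∀ p, f p ∈ L := fun p => IntermediateField.subset_adjoin K _ (Or.inl ⟨p, rfl⟩)
  have hLB : ∀ i j, B i j ∈ L := fun i j => IntermediateField.subset_adjoin K _ (Or.inr ⟨(i, j), rfl⟩)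
  have hLB' : ∀ i j, B' i j ∈ L := inv_mem' L B B' hLB hBB
  have hLf0 : ∀ p, f0 p ∈ L := act_mem hACT L B' B f hLB' hLB hLf
  have hof : ∀ L' : IntermediateField K Ω, (∀ j, f0 (ρ j) ∈ L') → (∀ i j, B i j ∈ L') → L ≤ L' := by
    intro L' h1 h2
    have h3 : ∀ p, f0 p ∈ L' := by
      intro p
      rw [hf0 p]
      exact add_mem (SubfieldClass.ratCast_mem L' _) (sum_mem fun j _ => mul_mem (SubfieldClass.ratCast_mem L' _) (h1 j))
    rw [hL, IntermediateField.adjoin_le_iff]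
    rintro y (⟨p, rfl⟩ | ⟨p, rfl⟩)
    · rw [hff0]
      exact act_mem hACT L' B B' f0 h2 (inv_mem' L' B B' h2 hBB) h3 p
    · exact h2 p.1 p.2
  have hL1 : L = IntermediateField.adjoin K (Set.range x) := by
    refine le_antisymm (hof _ (fun j => IntermediateField.subset_adjoin K _ ⟨Sum.inr j, rfl⟩)
      fun i j => IntermediateField.subset_adjoin K _ ⟨Sum.inl (i, j), rfl⟩) ?_
    rw [IntermediateField.adjoin_le_iff]
    rintro y ⟨i | j, rfl⟩
    · exact hLB i.1 i.2
    · exact hLf0 _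
  have hBx' : ∀ i j, B i j ∈ IntermediateField.adjoin K (Set.range x') := by
    intro i j
    have e : B = ext Ω g2 * (ext Ω g1 * B) := by rw [← mul_assoc, hG', one_mul]
    have h1 : ∀ i j, (ext Ω g1 * B) i j ∈ IntermediateField.adjoin K (Set.range x') := fun i j =>
      IntermediateField.subset_adjoin K (Set.range x')
        (show (ext Ω g1 * B) i j ∈ Set.range x' from ⟨Sum.inl (i, j), rfl⟩)
    have h2 := ext_mem (IntermediateField.adjoin K (Set.range x')) g2 _ h1 i j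
    rwa [← e] at h2
  have hL2 : L = IntermediateField.adjoin K (Set.range x') := by
    refine le_antisymm (hof _ (fun j => IntermediateField.subset_adjoin K (Set.range x')
      (show f0 (ρ j) ∈ Set.range x' from ⟨Sum.inr j, rfl⟩)) hBx') ?_
    rw [IntermediateField.adjoin_le_iff]
    rintro y ⟨i | j, rfl⟩
    · exact ext_mem L g1 B hLB i.1 i.2
    · exact hLf0 _
  have hind' : AlgebraicIndependent K x' := by
    refine (hTRD K Ω _ _ x' x hind (fun k => ?_) le_rfl).1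
    rcases k with k | k
    · exact hBx' k.1 k.2
    · exact IntermediateField.subset_adjoin K _ ⟨Sum.inr k, rfl⟩
  obtain ⟨ψ, hψ⟩ := exists_equiv L x x' hind hind' hL1 hL2
  -- the values at `f0`
  have hv0 : ∀ (p : Ix N m) (y : L), (y : Ω) = f0 p → ((ψ y : L) : Ω) = y := by
    intro p y hy
    have e : y = (a0 p : L) + ∑ j, (a1 p j : L) * (⟨f0 (ρ j), hLf0 (ρ j)⟩ : L) := by
      apply Subtype.ext
      rw [hy, hf0 p]
      push_cast
      rfl
    rw [e, map_add, map_sum, map_ratCast]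
    have e2 : ∀ j, ψ ((a1 p j : L) * (⟨f0 (ρ j), hLf0 (ρ j)⟩ : L)) = (a1 p j : L) * (⟨f0 (ρ j), hLf0 (ρ j)⟩ : L) := by
      intro j
      rw [map_mul, map_ratCast]
      congr 1
      exact Subtype.ext (hψ (Sum.inr j) ⟨f0 (ρ j), hLf0 _⟩ rfl)
    rw [Finset.sum_congr rfl fun j _ => e2 j]
  refine ⟨ψ, fun y => ⟨fun p hy => ?_, fun p hy => hv0 p y hy, fun i j hy => hψ (Sum.inl (i, j)) y hy⟩⟩
  -- the values at `f`
  set σ : L →+* Ω := (algebraMap L Ω).comp (ψ : L →+* L) with hσ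
  set BL : Matrix (Fin (N + 1)) (Fin (N + 1)) L := fun i j => ⟨B i j, hLB i j⟩ with hBL
  obtain ⟨BL', hBL1, hBL2, hBL3⟩ := inv_lift L BL B' hBB
  have hy2 : y = act BL BL' (fun p => (⟨f0 p, hLf0 p⟩ : L)) p := by
    apply Subtype.ext
    rw [hy]
    have h := act_nat hACT (algebraMap L Ω) BL BL' (fun p => (⟨f0 p, hLf0 p⟩ : L)) p
    rw [hBL1] at h
    rw [hff0]
    exact h.symm
  have hσB : BL.map σ = ext Ω g1 * B := by
    ext i j
    exact hψ (Sum.inl (i, j)) ⟨B i j, hLB i j⟩ rfl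
  have hσB' : BL'.map σ = B' * ext Ω g2 := by
    have h1 : BL'.map σ * (ext Ω g1 * B) = 1 := by
      rw [← hσB, ← Matrix.map_mul, hBL3, Matrix.map_one _ (map_zero _) (map_one _)]
    have h2 : (ext Ω g1 * B) * (B' * ext Ω g2) = 1 := by
      rw [mul_assoc, ← mul_assoc B, hBB, one_mul, hG]
    calc BL'.map σ = BL'.map σ * ((ext Ω g1 * B) * (B' * ext Ω g2)) := by rw [h2, mul_one]
      _ = B' * ext Ω g2 := by rw [← mul_assoc, h1, one_mul]
  have h3 : ((ψ y : L) : Ω) = σ y := rfl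
  rw [h3, hy2, act_nat hACT σ, hσB, hσB']
  have h4 : (fun p => σ (⟨f0 p, hLf0 p⟩ : L)) = f0 := by
    funext p
    exact hv0 p ⟨f0 p, hLf0 p⟩ rfl
  rw [h4]
  conv_rhs => rw [hff0, hcomp]

end Pool.Agent.Z15.ME.AUT
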