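import Pool.Agent.Z15.ME.Stm

set_option autoImplicit false

/-!
# Moduli of endomorphisms of projective space, CRD: numbers of coordinates
-/

namespace Pool.Agent.Z15.ME.CRD

theorem deg_add {n : ℕ} (α β : Fin n →₀ ℕ) : (α + β).degree = α.degree + β.degree := by
  rw [map_add]

theorem deg_single {n : ℕ} (i : Fin n) (k : ℕ) : (Finsupp.single i k).degree = k := by
  rw [Finsupp.degree_single]

/-- the bijection between the monomials of degree `m` and the coordinates outside `J2` -/
noncomputable def ff (N m : ℕ) (β : Mon (N + 1) m) :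
    {p : Ix N m // ¬ (p.1 ≠ Fin.last N ∨ p.2.1 (Fin.last N) = 0)} :=
  ⟨(Fin.last N, ⟨β.1 + Finsupp.single (Fin.last N) 1, by rw [deg_add, deg_single, β.2]⟩), by
    rw [not_or]
    refine ⟨fun h => h rfl, ?_⟩
    show ¬ (β.1 + Finsupp.single (Fin.last N) 1 : Fin (N + 1) →₀ ℕ) (Fin.last N) = 0
    rw [Finsupp.add_apply, Finsupp.single_eq_same]
    omega⟩

theorem ff_bij (N m : ℕ) : Function.Bijective (ff N m) := by
  constructor
  · intro β β' h
    have h1 := congrArg (fun q => q.1.2.1) h
    simp only [ff] at h1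
    exact Subtype.ext (add_right_cancel h1)
  · rintro ⟨⟨k, α⟩, hp⟩
    rw [not_or, not_not] at hp
    obtain ⟨h1, h2⟩ := hp
    have h3 : Finsupp.single (Fin.last N) 1 ≤ α.1 := by
      rw [Finsupp.single_le_iff]
      exact Nat.one_le_iff_ne_zero.2 h2
    have h4 : α.1 - Finsupp.single (Fin.last N) 1 + Finsupp.single (Fin.last N) 1 = α.1 :=
      tsub_add_cancel_of_le h3
    refine ⟨⟨α.1 - Finsupp.single (Fin.last N) 1, ?_⟩, ?_⟩
    · have h5 := congrArg Finsupp.degree h4
      rw [deg_add, deg_single, α.2] at h5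
      omega
    · apply Subtype.ext
      apply Prod.ext
      · exact h1.symm
      · apply Subtype.ext
        exact h4

theorem ne01 (N : ℕ) : (0 : Fin (N + 3)) ≠ 1 := by
  intro h
  have := congrArg Fin.val h
  simp at this

theorem ne02 (N : ℕ) : (0 : Fin (N + 3)) ≠ 2 := by
  intro h
  have := congrArg Fin.val h
  simp at this
  rw [Nat.mod_eq_of_lt (by omega)] at this
  omega

theorem ne12 (N : ℕ) : (1 : Fin (N + 3)) ≠ 2 := by
  intro h
  have := congrArg Fin.val h
  simp at this
  rw [Nat.mod_eq_of_lt (by omega)] at this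
  omega

/-- the monomials `X_i^(m-1) X_j` and `X_0 X_1 X_2^(m-2)` -/
noncomputable def gg (N m : ℕ) (hm : 3 ≤ m) : Option (Fin (N + 3) × Fin (N + 3)) → Mon (N + 3) m
  | none => ⟨Finsupp.single 0 1 + Finsupp.single 1 1 + Finsupp.single 2 (m - 2), by
      rw [deg_add, deg_add, deg_single, deg_single, deg_single]
      omega⟩
  | some p => ⟨Finsupp.single p.1 (m - 1) + Finsupp.single p.2 1, by
      rw [deg_add, deg_single, deg_single]
      omega⟩

theorem mem_of (N m : ℕ) (i j : Fin (N + 3))
    (h : Finsupp.single 0 1 + Finsupp.single 1 1 + Finsupp.single 2 (m - 2) =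
      Finsupp.single i (m - 1) + Finsupp.single j 1) (hm : 3 ≤ m) : False := by
  have h01 := ne01 N
  have h02 := ne02 N
  have h12 := ne12 N
  have key : ∀ k : Fin (N + 3), k = 0 ∨ k = 1 ∨ k = 2 → i = k ∨ j = k := by
    intro k hk
    have h1 := DFunLike.congr_fun h k
    simp only [Finsupp.add_apply, Finsupp.single_apply] at h1
    by_contra hcon
    rw [not_or] at hcon
    rw [if_neg hcon.1, if_neg hcon.2] at h1
    rcases hk with rfl | rfl | rfl
    · rw [if_pos rfl] at h1
      omega
    · rw [if_pos (show (1 : Fin (N + 3)) = 1 from rfl)] at h1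
      omega
    · rw [if_pos (show (2 : Fin (N + 3)) = 2 from rfl)] at h1
      omega
  have k0 := key 0 (Or.inl rfl)
  have k1 := key 1 (Or.inr (Or.inl rfl))
  have k2 := key 2 (Or.inr (Or.inr rfl))
  rcases k0 with rfl | rfl
  · rcases k1 with h | rfl
    · exact h01 h
    · rcases k2 with h | h
      · exact h02 h
      · exact h12 h
  · rcases k1 with rfl | h
    · rcases k2 with h | h
      · exact h12 h
      · exact h02 h
    · exact h01 h

theorem gg_inj (N m : ℕ) (hm : 3 ≤ m) : Function.Injective (gg N m hm) := by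
  intro o o' h
  cases o with
  | none =>
    cases o' with
    | none => rfl
    | some p => exact (mem_of N m p.1 p.2 (congrArg Subtype.val h) hm).elim
  | some p =>
    cases o' with
    | none => exact (mem_of N m p.1 p.2 (congrArg Subtype.val h).symm hm).elim
    | some p' =>
      have h1 : Finsupp.single p.1 (m - 1) + Finsupp.single p.2 1 =
          Finsupp.single p'.1 (m - 1) + Finsupp.single p'.2 1 := congrArg Subtype.val h
      have h2 : p'.1 = p.1 := by
        by_contra hne
        have h3 := DFunLike.congr_fun h1 p.1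
        simp only [Finsupp.add_apply, Finsupp.single_apply, if_true, if_neg hne] at h3
        split_ifs at h3 <;> omega
      rw [h2] at h1
      have h3 := add_left_cancel h1
      have h4 : p.2 = p'.2 := (Finsupp.single_left_inj one_ne_zero).1 h3
      exact congrArg some (Prod.ext h2.symm h4)

theorem t_CRD : S_CRD := by
  classical
  constructor
  · intro N m
    rw [← Nat.card_congr (Equiv.sumCompl
      (fun p : Ix N m => p.1 ≠ Fin.last N ∨ p.2.1 (Fin.last N) = 0)), Nat.card_sum]
    congr 1
    exact (Nat.card_congr (Equiv.ofBijective _ (ff_bij N m))).symm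
  · intro N m hN hm
    obtain ⟨N, rfl⟩ : ∃ N', N = N' + 2 := ⟨N - 2, by omega⟩
    have h1 : Nat.card (Option (Fin (N + 3) × Fin (N + 3))) = (N + 2 + 1) ^ 2 + 1 := by
      rw [Nat.card_eq_fintype_card, Fintype.card_option, Fintype.card_prod, Fintype.card_fin]
      ring
    rw [← h1]
    exact Nat.card_le_card_of_injective _ (gg_inj N m hm)

end Pool.Agent.Z15.ME.CRD
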