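import Pool.Agent.Z15.ME.Stm2

set_option autoImplicit false

namespace Pool.Agent.Z15.ME.CVV

open MvPolynomial Pool.Agent.Z15.ME

theorem t_CVV (hACT : S_ACT) (hAIV : S_AIV) (hAIC : S_AIC) : S_CVV := by
  classical
  intro N m a k K M _ _ _ _ D g
  obtain ⟨-, -, -, hv⟩ := hAIV N m a k K M D
  obtain ⟨-, hdet, hHH, htt, hC1, hC1D⟩ := hAIC N m a k K M D
  obtain ⟨δ, hδ⟩ : ∃ δ, δ = algebraMap K M g.1.1.det := ⟨_, rfl⟩
  have hgg : g.1.1 * g.1.2 = 1 := g.2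
  have hgg' : g.1.2 * g.1.1 = 1 := mul_eq_one_comm.mp g.2
  have hδ0 : δ ≠ 0 := by
    rw [hδ]
    intro h
    rw [map_eq_zero] at h
    have h1 := congrArg Matrix.det hgg
    rw [Matrix.det_mul, h, zero_mul, Matrix.det_one] at h1
    exact zero_ne_one h1
  have hgdet : (ext M g.1.1).det = δ := by
    rw [hδ]
    exact (RingHom.map_det (algebraMap K M) g.1.1).symm
  have hmm : ∀ A B : Matrix (Fin (N + 1)) (Fin (N + 1)) M, (A * B).map (D.φ g) = A.map (D.φ g) * B.map (D.φ g) :=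
    fun A B => map_mul ((D.φ g).toRingHom.mapMatrix) A B
  have hCC : D.CC.map (D.φ g) = δ ^ a • (ext M g.1.1 * D.CC) := by
    ext1 i j
    rw [Matrix.map_apply, Matrix.smul_apply, Matrix.mul_apply, smul_eq_mul]
    have h1 := D.covc j g (dv D.f) i
    rw [← hδ] at h1
    rw [Data.CC, map_sum]
    rw [← show (∑ β, D.φ g (D.c j i β) * act1 (ext M g.1.2) (dv D.f) β) = ∑ β, D.φ g (D.c j i β * dv D.f β) from
      Finset.sum_congr rfl fun β _ => by rw [map_mul, hv g β]]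
    exact h1
  have hH : D.φ g D.HH = δ ^ m * D.HH := by
    have h1 := D.covh g (dv D.f)
    rw [← hδ] at h1
    rw [Data.HH, map_sum]
    rw [← show (∑ β, D.φ g (D.h β) * act1 (ext M g.1.2) (dv D.f) β) = ∑ β, D.φ g (D.h β * dv D.f β) from
      Finset.sum_congr rfl fun β _ => by rw [map_mul, hv g β]]
    exact h1
  have htt' : D.φ g D.tt = D.tt := by
    have h1 : D.φ g D.CC.det = (D.CC.map (D.φ g)).det := by
      have := (D.φ g).toRingHom.map_det D.CC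
      exact this
    rw [Data.tt, map_div₀, map_pow, hH, h1, hCC, Matrix.det_smul, Matrix.det_mul, hgdet, Fintype.card_fin, mul_pow,
      ← pow_mul δ a (N + 1), ← pow_mul δ m k, D.hk, ← mul_assoc]
    have h2 : δ ^ (a * (N + 1)) * δ = δ ^ ((N + 1) * a + 1) := by
      rw [← pow_succ]
      congr 1
      ring
    rw [h2, mul_div_mul_left _ _ (pow_ne_zero _ hδ0)]
  have hDi : D.DD⁻¹ = Matrix.diagonal fun i => if i = 0 then D.tt⁻¹ else 1 := by
    apply Matrix.inv_eq_right_inv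
    rw [Data.DD, Matrix.diagonal_mul_diagonal, ← Matrix.diagonal_one]
    congr 1
    funext i
    split_ifs with h
    · exact mul_inv_cancel₀ htt
    · exact mul_one 1
  have hDim : (D.DD⁻¹).map (D.φ g) = D.DD⁻¹ := by
    rw [hDi]
    ext1 i j
    rw [Matrix.map_apply]
    by_cases hij : i = j
    · subst hij
      rw [Matrix.diagonal_apply_eq]
      split_ifs
      · rw [map_inv₀, htt']
      · exact map_one _
    · rw [Matrix.diagonal_apply_ne _ hij, map_zero]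
  have hC : D.C1.map (D.φ g) = δ ^ a • (ext M g.1.1 * D.C1) := by
    have h1 : (D.CC * D.DD⁻¹).map (D.φ g) = D.CC.map (D.φ g) * (D.DD⁻¹).map (D.φ g) := hmm _ _
    rw [Data.C1, h1, hCC, hDim, Matrix.smul_mul, Matrix.mul_assoc]
  refine ⟨hδ ▸ hCC, hδ ▸ hH, htt', hδ ▸ hC, fun p => ?_⟩
  obtain ⟨-, -, -, -, -, -, hmul, -, hsc, -, hmap⟩ := hACT (N + 1) (m + 1) M
  have hC1u : IsUnit D.C1.det := by
    rw [hC1]
    exact (pow_ne_zero _ hHH).isUnit
  have hCi : (D.C1⁻¹).map (D.φ g) = (δ ^ a)⁻¹ • (D.C1⁻¹ * ext M g.1.2) := by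
    have h1 : (D.C1⁻¹).map (D.φ g) * D.C1.map (D.φ g) = 1 := by
      have h2 : (D.C1⁻¹ * D.C1).map (D.φ g) = (D.C1⁻¹).map (D.φ g) * D.C1.map (D.φ g) := hmm _ _
      rw [← h2, Matrix.nonsing_inv_mul _ hC1u]
      exact Matrix.map_one _ (map_zero _) (map_one _)
    have h3 : D.C1.map (D.φ g) * ((δ ^ a)⁻¹ • (D.C1⁻¹ * ext M g.1.2)) = 1 := by
      rw [hC, Matrix.smul_mul, Matrix.mul_smul, smul_smul, mul_inv_cancel₀ (pow_ne_zero _ hδ0), one_smul,
        Matrix.mul_assoc, ← Matrix.mul_assoc D.C1, Matrix.mul_nonsing_inv _ hC1u, Matrix.one_mul]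
      have h4 := congrArg (RingHom.mapMatrix (algebraMap K M)) hgg
      rw [map_mul, map_one] at h4
      exact h4
    calc (D.C1⁻¹).map (D.φ g) = (D.C1⁻¹).map (D.φ g) * (D.C1.map (D.φ g) * ((δ ^ a)⁻¹ • (D.C1⁻¹ * ext M g.1.2))) := by
          rw [h3, Matrix.mul_one]
      _ = _ := by rw [← Matrix.mul_assoc, h1, Matrix.one_mul]
  have hg1 : ext M g.1.2 * ext M g.1.1 = 1 := by
    have h4 := congrArg (RingHom.mapMatrix (algebraMap K M)) hgg'
    rw [map_mul, map_one] at h4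
    exact h4
  have h6 : D.φ g (act D.C1⁻¹ D.C1 D.f p) = (δ ^ a)⁻¹ * (δ ^ a) ^ (m + 1) * act D.C1⁻¹ D.C1 D.f p := by
    have h7 := congrFun (hmap M (D.φ g).toRingHom D.C1⁻¹ D.C1 D.f) p
    refine h7.symm.trans ?_
    have h8 : (fun p => (D.φ g).toRingHom (D.f p)) = act (ext M g.1.1) (ext M g.1.2) D.f := by
      funext q
      exact D.hφ g q
    have h9 : D.C1.map (D.φ g).toRingHom = δ ^ a • (ext M g.1.1 * D.C1) := hC
    have h10 : (D.C1⁻¹).map (D.φ g).toRingHom = (δ ^ a)⁻¹ • (D.C1⁻¹ * ext M g.1.2) := hCi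
    rw [h8, h9, h10, hmul]
    have h11 : (δ ^ a)⁻¹ • (D.C1⁻¹ * ext M g.1.2) * ext M g.1.1 = ((δ ^ a)⁻¹ • 1) * D.C1⁻¹ := by
      rw [Matrix.smul_mul, Matrix.mul_assoc, hg1, Matrix.mul_one, Matrix.smul_mul, Matrix.one_mul]
    have h12 : ext M g.1.2 * (δ ^ a • (ext M g.1.1 * D.C1)) = D.C1 * (δ ^ a • 1) := by
      rw [Matrix.mul_smul, ← Matrix.mul_assoc, hg1, Matrix.one_mul, Matrix.mul_smul, Matrix.mul_one]
    rw [h11, h12, ← hmul, hsc]
  rw [Data.ft, map_mul, map_inv₀, map_pow, hH, h6, mul_pow, mul_inv]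
  have h13 : ((δ ^ m) ^ a)⁻¹ * ((δ ^ a)⁻¹ * (δ ^ a) ^ (m + 1)) = 1 := by
    rw [← pow_mul, ← pow_mul]
    have h14 : δ ^ (a * (m + 1)) = δ ^ (m * a) * δ ^ a := by
      rw [← pow_add]
      congr 1
      ring
    rw [h14]
    field_simp
  calc ((δ ^ m) ^ a)⁻¹ * (D.HH ^ a)⁻¹ * ((δ ^ a)⁻¹ * (δ ^ a) ^ (m + 1) * act D.C1⁻¹ D.C1 D.f p) =
      (((δ ^ m) ^ a)⁻¹ * ((δ ^ a)⁻¹ * (δ ^ a) ^ (m + 1))) * ((D.HH ^ a)⁻¹ * act D.C1⁻¹ D.C1 D.f p) := by ring
    _ = _ := by rw [h13, one_mul]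

end Pool.Agent.Z15.ME.CVV
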