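import Pool.Agent.Z15.ME.Stm

/-! DEN: density of the invertible matrices. -/

set_option autoImplicit false

namespace Pool.Agent.Z15.ME.DEN

open MvPolynomial

/-- DEN. -/
theorem t_DEN : S_DEN := by
  intro K M _ _ _ _ n P hP
  classical
  set D : MvPolynomial (Fin n × Fin n) M := (Matrix.of fun i j => X (i, j) : Matrix (Fin n) (Fin n) _).det with hD
  have hev : ∀ x : Fin n × Fin n → M, eval x D = (Matrix.of fun i j => x (i, j)).det := by
    intro x
    rw [hD, RingHom.map_det]
    congr 1
    ext i j
    simp
  have hD0 : D ≠ 0 := by
    intro h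
    have h1 := hev fun p => (1 : Matrix (Fin n) (Fin n) M) p.1 p.2
    rw [h, map_zero] at h1
    have h2 : (Matrix.of fun i j => (1 : Matrix (Fin n) (Fin n) M) i j) = 1 := rfl
    rw [h2, Matrix.det_one] at h1
    exact zero_ne_one h1
  have h0 : P * D = 0 := by
    apply MvPolynomial.funext_set (fun _ => Set.range (algebraMap K M))
      (fun _ => Set.infinite_range_of_injective (algebraMap K M).injective)
    intro x hx
    rw [map_mul, map_zero]
    have hx' : ∀ p, ∃ y, algebraMap K M y = x p := fun p => hx p (Set.mem_univ _)
    choose y hy using hx'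
    have hxy : x = fun p => algebraMap K M ((Matrix.of fun i j => y (i, j)) p.1 p.2) := by
      funext p
      rw [← hy p]
      rfl
    by_cases hd : (Matrix.of fun i j => y (i, j)).det = 0
    · have h3 : eval x D = 0 := by
        rw [hev]
        have h4 : (Matrix.of fun i j => x (i, j)) = (Matrix.of fun i j => y (i, j)).map (algebraMap K M) := by
          ext i j
          simp [hy]
        rw [h4, ← RingHom.mapMatrix_apply, ← RingHom.map_det, hd, map_zero]
      rw [h3, mul_zero]
    · rw [hxy, hP _ hd, zero_mul]
  rcases mul_eq_zero.1 h0 with h | h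
  · exact h
  · exact absurd h hD0

end Pool.Agent.Z15.ME.DEN
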