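import Pool.Agent.Z15.ME.Stm

/-! DER: derivations and algebraic extensions. -/

set_option autoImplicit false

namespace Pool.Agent.Z15.ME.DER

/-- DER. -/
theorem t_DER : S_DER := by
  intro F L _ _ _ _ hfin hD
  have h0 : ∀ v : Ω[L⁄F], v = 0 := by
    intro v
    rw [← Module.forall_dual_apply_eq_zero_iff L v]
    intro φ
    have h1 := hD ((KaehlerDifferential.linearMapEquivDerivation F L) φ)
    have h2 : φ = 0 := by
      rw [← (KaehlerDifferential.linearMapEquivDerivation F L).map_eq_zero_iff]
      exact h1
    rw [h2]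
    rfl
  haveI : Subsingleton (Ω[L⁄F]) := ⟨fun a b => (h0 a).trans (h0 b).symm⟩
  haveI : Algebra.FormallyUnramified F L := ⟨inferInstance⟩
  haveI : Algebra.IsSeparable F L := (Algebra.FormallyUnramified.iff_isSeparable F L).1 inferInstance
  exact inferInstance

end Pool.Agent.Z15.ME.DER
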