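import Pool.Agent.Z15.ME.Stm

/-! DVA: the divergence is equivariant -/

set_option autoImplicit false

namespace Pool.Agent.Z15.ME.DVA

open MvPolynomial

variable {R : Type} [CommRing R] {n d m : ℕ}

theorem lin_C (A : Matrix (Fin n) (Fin n) R) (a : R) : lin A (C a) = C a := by
  unfold lin
  rw [aeval_C, algebraMap_eq]

theorem lin_X (A : Matrix (Fin n) (Fin n) R) (i : Fin n) : lin A (X i) = ∑ j, C (A i j) * X j := by
  unfold lin
  rw [aeval_X]

theorem pderiv_lin_X (A : Matrix (Fin n) (Fin n) R) (i k : Fin n) :
    pderiv k (lin A (X i)) = C (A i k) := by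
  rw [lin_X, map_sum, Finset.sum_eq_single k]
  · rw [pderiv_C_mul, pderiv_X_self, mul_one]
  · intro j _ hj
    rw [pderiv_C_mul, pderiv_X_of_ne hj, mul_zero]
  · intro h
    exact absurd (Finset.mem_univ _) h

/-- chain rule -/
theorem chain (A : Matrix (Fin n) (Fin n) R) (q : MvPolynomial (Fin n) R) (k : Fin n) :
    pderiv k (lin A q) = ∑ j, C (A j k) * lin A (pderiv j q) := by
  induction q using MvPolynomial.induction_on with
  | C a =>
    rw [lin_C, pderiv_C]
    symm
    refine Finset.sum_eq_zero fun j _ => ?_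
    rw [pderiv_C, map_zero, mul_zero]
  | add p q hp hq =>
    simp only [map_add, mul_add]
    rw [hp, hq, Finset.sum_add_distrib]
  | mul_X p i hp =>
    rw [map_mul, pderiv_mul, pderiv_lin_X, hp]
    simp only [pderiv_mul, map_add, map_mul, mul_add]
    rw [Finset.sum_add_distrib, Finset.sum_mul]
    congr 1
    · refine Finset.sum_congr rfl fun j _ => ?_
      ring
    · rw [Finset.sum_eq_single i]
      · rw [pderiv_X_self, map_one]
        ring
      · intro j _ hj
        rw [pderiv_X_of_ne (Ne.symm hj), map_zero]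
        ring
      · intro h
        exact absurd (Finset.mem_univ _) h

theorem pol_sum (a : Fin n → R) (g : Fin n → Mon n d → R) :
    pol (fun α => ∑ l, a l * g l α) = ∑ l, C (a l) * pol (g l) := by
  unfold pol
  simp only [map_sum, Finset.mul_sum]
  rw [Finset.sum_comm]
  refine Finset.sum_congr rfl fun l _ => Finset.sum_congr rfl fun α _ => ?_
  rw [C_mul_monomial]

theorem t_DVA (h : S_POL) (h2 : S_ACT) : S_DVA := by
  intro n m R _
  refine ⟨fun A A' c hA => ?_, fun c c' a b => ?_, fun S _ σ c => ?_⟩
  · obtain ⟨p1, p2, p3, p4⟩ := h n (m + 1) R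
    obtain ⟨q1, q2, q3, q4⟩ := h n m R
    obtain ⟨a1, -⟩ := h2 n (m + 1) R
    have hc : ∀ k, cmp (act A A' c) k = ∑ l, C (A k l) * lin A' (cmp c l) := by
      intro k
      unfold cmp act
      rw [pol_sum (fun l => A k l) (fun l => act1 A' fun α => c (l, α))]
      refine Finset.sum_congr rfl fun l _ => ?_
      rw [a1]
    set D : MvPolynomial (Fin n) R := ∑ l, pderiv l (cmp c l) with hD
    have hDh : D.IsHomogeneous m := by
      rw [hD]
      refine IsHomogeneous.sum _ _ _ fun l _ => ?_
      have := (p1 fun α => c (l, α)).1.pderiv (i := l)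
      rw [Nat.add_sub_cancel] at this
      exact this
    have hsum : ∑ k, pderiv k (cmp (act A A' c) k) = lin A' D := by
      have e1 : ∀ k, pderiv k (cmp (act A A' c) k) =
          ∑ l, ∑ j, C (A' j k * A k l) * lin A' (pderiv j (cmp c l)) := by
        intro k
        rw [hc k, map_sum]
        refine Finset.sum_congr rfl fun l _ => ?_
        rw [pderiv_C_mul, chain, Finset.mul_sum]
        refine Finset.sum_congr rfl fun j _ => ?_
        rw [C_mul]
        ring
      simp only [e1]
      rw [Finset.sum_comm, hD, map_sum]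
      refine Finset.sum_congr rfl fun l _ => ?_
      rw [Finset.sum_comm]
      have e2 : ∀ j, ∑ k, C (A' j k * A k l) * lin A' (pderiv j (cmp c l)) =
          C ((A' * A) j l) * lin A' (pderiv j (cmp c l)) := by
        intro j
        rw [Matrix.mul_apply, map_sum, Finset.sum_mul]
      simp only [e2, hA]
      rw [Finset.sum_eq_single l]
      · rw [Matrix.one_apply_eq, C_1, one_mul]
      · intro j _ hj
        rw [Matrix.one_apply_ne hj, C_0, zero_mul]
      · intro h
        exact absurd (Finset.mem_univ _) h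
    have e3 : dv (act A A' c) = cf m (lin A' D) := by
      unfold dv
      rw [hsum]
    have e4 : act1 A' (dv c) = cf m (lin A' (pol (cf m D))) := rfl
    rw [e3, e4, q2 D hDh]
  · obtain ⟨p1, p2, p3, p4⟩ := h n (m + 1) R
    have hc : ∀ k, cmp (fun p => a * c p + b * c' p) k = C a * cmp c k + C b * cmp c' k :=
      fun k => p3 (fun α => c (k, α)) (fun α => c' (k, α)) a b
    funext β
    unfold dv cf
    simp only [hc, map_add, pderiv_C_mul]
    rw [Finset.sum_add_distrib, ← Finset.mul_sum, ← Finset.mul_sum, coeff_add, coeff_C_mul,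
      coeff_C_mul]
  · obtain ⟨p1, p2, p3, p4⟩ := h n (m + 1) R
    have hc : ∀ k, cmp (fun p => σ (c p)) k = MvPolynomial.map σ (cmp c k) :=
      fun k => p4 S σ fun α => c (k, α)
    funext β
    unfold dv cf
    simp only [hc, pderiv_map]
    rw [← map_sum, coeff_map]

end Pool.Agent.Z15.ME.DVA
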