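import Pool.Agent.Z15.ME.T_EVA

/-! The self maps `F(x) x` (EMB). -/

set_option autoImplicit false

namespace Pool.Agent.Z15.ME.EMB

open MvPolynomial

section
variable {R : Type} [CommRing R] {n m d : ℕ}

theorem cmp_inj (h : S_POL) (c c' : Fin n × Mon n d → R) (hc : ∀ k, cmp c k = cmp c' k) :
    c = c' := by
  funext p
  have h1 := congrArg (cf d) (hc p.1)
  unfold cmp at h1
  rw [((h n d R).1 _).2, ((h n d R).1 _).2] at h1
  exact congrFun h1 p.2

theorem cmp_emb (h : S_POL) (F : Mon n m → R) (k : Fin n) : cmp (emb F) k = X k * pol F := by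
  unfold cmp emb
  simp only
  apply (h n (m + 1) R).2.1
  have h1 := (isHomogeneous_X R k).mul ((h n m R).1 F).1
  rw [Nat.add_comm] at h1
  exact h1

end

theorem t_EMB (h : S_POL) (h2 : S_ACT) : S_EMB := by
  intro n m R _
  refine ⟨?_, ?_, ?_, ?_⟩
  · intro F
    unfold dv
    have h3 : ∀ k, pderiv k (cmp (emb F) k) = pol F + X k * pderiv k (pol F) := by
      intro k
      rw [cmp_emb h, pderiv_mul, pderiv_X_self, one_mul]
    rw [Finset.sum_congr rfl fun k _ => h3 k, Finset.sum_add_distrib,
      ((h n m R).1 F).1.sum_X_mul_pderiv, Finset.sum_const, Finset.card_univ, Fintype.card_fin,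
      ← add_nsmul]
    funext β
    have h4 := congrFun ((h n m R).1 F).2 β
    unfold cf at h4 ⊢
    rw [coeff_smul, h4, nsmul_eq_mul]
  · intro A A' F hA
    apply cmp_inj h
    intro k
    rw [EVA.cmp_act h2, cmp_emb h, (h2 n m R).1]
    have h3 : ∀ l, C (A k l) * lin A' (cmp (emb F) l) =
        (∑ j, C (A k l * A' l j) * X j) * lin A' (pol F) := by
      intro l
      rw [cmp_emb h, map_mul, EVA.lin_X, ← mul_assoc, Finset.mul_sum]
      congr 1
      refine Finset.sum_congr rfl fun j _ => ?_
      rw [C_mul]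
      ring
    rw [Finset.sum_congr rfl fun l _ => h3 l, ← Finset.sum_mul]
    congr 1
    rw [Finset.sum_comm]
    have h4 : ∀ j, ∑ l, (C (A k l * A' l j) * X j : MvPolynomial (Fin n) R) =
        C ((1 : Matrix (Fin n) (Fin n) R) k j) * X j := by
      intro j
      rw [← Finset.sum_mul, ← map_sum, ← hA, Matrix.mul_apply]
    rw [Finset.sum_congr rfl fun j _ => h4 j, Finset.sum_eq_single k]
    · rw [Matrix.one_apply_eq, C_1, one_mul]
    · intro b _ hb
      rw [Matrix.one_apply_ne (Ne.symm hb), C_0, zero_mul]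
    · intro h
      exact absurd (Finset.mem_univ k) h
  · intro F F' a b
    funext p
    unfold emb cf
    rw [(h n m R).2.2.1]
    have h3 : (X p.1 * (C a * pol F + C b * pol F') : MvPolynomial (Fin n) R) =
        C a * (X p.1 * pol F) + C b * (X p.1 * pol F') := by ring
    rw [h3, coeff_add, coeff_C_mul, coeff_C_mul]
  · intro S _ σ F
    funext p
    unfold emb cf
    rw [(h n m R).2.2.2 S σ F]
    have h3 : (X p.1 * MvPolynomial.map σ (pol F) : MvPolynomial (Fin n) S) =
        MvPolynomial.map σ (X p.1 * pol F) := by rw [map_mul, map_X]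
    rw [h3, coeff_map]

end Pool.Agent.Z15.ME.EMB
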