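import Pool.Agent.Z15.ME.Stm2

set_option autoImplicit false

/-!
# (EPS) the homomorphism to the slice
-/

namespace Pool.Agent.Z15.ME.EPS

open MvPolynomial

/-- polynomials in an invertible matrix and its inverse: the denominators are cleared -/
theorem clear {n : ℕ} {M : Type} [Field M]
    (P : MvPolynomial ((Fin n × Fin n) ⊕ (Fin n × Fin n)) M) :
    ∃ (s : ℕ) (P' : MvPolynomial (Fin n × Fin n) M), ∀ (R : Type) [CommRing R] [Algebra M R]
      (A B : Matrix (Fin n) (Fin n) R), A * B = 1 →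
      aeval (fun p : Fin n × Fin n => A p.1 p.2) P' = A.det ^ s *
        aeval (Sum.elim (fun p : Fin n × Fin n => A p.1 p.2) fun p => B p.1 p.2) P := by
  have hdet : ∀ (R : Type) [CommRing R] [Algebra M R] (A : Matrix (Fin n) (Fin n) R),
      aeval (fun p : Fin n × Fin n => A p.1 p.2) (Matrix.mvPolynomialX (Fin n) (Fin n) M).det =
        A.det := by
    intro R _ _ A
    rw [AlgHom.map_det, Matrix.mvPolynomialX_mapMatrix_aeval]
  have hadj : ∀ (R : Type) [CommRing R] [Algebra M R] (A : Matrix (Fin n) (Fin n) R) (i j : Fin n),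
      aeval (fun p : Fin n × Fin n => A p.1 p.2)
        ((Matrix.mvPolynomialX (Fin n) (Fin n) M).adjugate i j) = A.adjugate i j := by
    intro R _ _ A i j
    have h := AlgHom.map_adjugate (aeval (R := M) fun p : Fin n × Fin n => A p.1 p.2)
      (Matrix.mvPolynomialX (Fin n) (Fin n) M)
    rw [Matrix.mvPolynomialX_mapMatrix_aeval] at h
    exact congrFun (congrFun h i) j
  induction P using MvPolynomial.induction_on with
  | C a => exact ⟨0, C a, fun R _ _ A B _ => by simp⟩
  | add p q hp hq =>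
    obtain ⟨s, p', hp⟩ := hp
    obtain ⟨t, q', hq⟩ := hq
    refine ⟨s + t, (Matrix.mvPolynomialX (Fin n) (Fin n) M).det ^ t * p' +
      (Matrix.mvPolynomialX (Fin n) (Fin n) M).det ^ s * q', fun R _ _ A B h => ?_⟩
    rw [map_add, map_mul, map_mul, map_pow, map_pow, hdet, hp R A B h, hq R A B h, map_add]
    ring
  | mul_X p i hp =>
    obtain ⟨s, p', hp⟩ := hp
    rcases i with i | i
    · refine ⟨s, p' * X i, fun R _ _ A B h => ?_⟩
      rw [map_mul, map_mul, hp R A B h, aeval_X, aeval_X]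
      simp only [Sum.elim_inl]
      ring
    · refine ⟨s + 1, p' * (Matrix.mvPolynomialX (Fin n) (Fin n) M).adjugate i.1 i.2,
        fun R _ _ A B h => ?_⟩
      rw [map_mul, map_mul, hp R A B h, aeval_X, hadj]
      simp only [Sum.elim_inr]
      have h1 : A.adjugate = A.det • B := by
        calc A.adjugate = A.adjugate * (A * B) := by rw [h, mul_one]
          _ = A.det • B := by
            rw [← mul_assoc, Matrix.adjugate_mul, Matrix.smul_mul, one_mul]
      rw [h1, Matrix.smul_apply, smul_eq_mul]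
      ring

/-- `GL(K)` is dense, polynomials in the matrix and its inverse -/
theorem vanish (hDEN : S_DEN) {N : ℕ} {K M Ω : Type} [Field K] [CharZero K] [Field M]
    [Algebra K M] [Field Ω] [Algebra M Ω]
    (P : MvPolynomial ((Fin (N + 1) × Fin (N + 1)) ⊕ (Fin (N + 1) × Fin (N + 1))) M)
    (h : ∀ g : GP N K, aeval (Sum.elim (fun p : Fin (N + 1) × Fin (N + 1) => ext M g.1.1 p.1 p.2)
      fun p => ext M g.1.2 p.1 p.2) P = 0)
    (A B : Matrix (Fin (N + 1)) (Fin (N + 1)) Ω) (hAB : A * B = 1) :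
    aeval (Sum.elim (fun p : Fin (N + 1) × Fin (N + 1) => A p.1 p.2) fun p => B p.1 p.2) P = 0 := by
  obtain ⟨s, P', hP⟩ := clear P
  have h1 : P' = 0 := by
    refine hDEN K M (N + 1) P' fun g hg => ?_
    have hg' : IsUnit g.det := isUnit_iff_ne_zero.2 hg
    have h2 := hP M (ext M g) (ext M g⁻¹) (by
      rw [← Matrix.map_mul, Matrix.mul_nonsing_inv g hg']
      exact Matrix.map_one _ (map_zero _) (map_one _))
    rw [h ⟨(g, g⁻¹), Matrix.mul_nonsing_inv g hg'⟩, mul_zero] at h2
    exact h2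
  have h3 := hP Ω A B hAB
  rw [h1, map_zero] at h3
  have h4 : A.det ≠ 0 := by
    intro h5
    have h6 := congrArg Matrix.det hAB
    rw [Matrix.det_mul, h5, zero_mul, Matrix.det_one] at h6
    exact zero_ne_one h6
  rcases mul_eq_zero.1 h3.symm with h5 | h5
  · exact absurd h5 (pow_ne_zero _ h4)
  · exact h5

/-- the identity of the covariants, extended from `GL(K)` to all invertible matrices -/
theorem key (hACT : S_ACT) (hDEN : S_DEN) {N m : ℕ} {K M Ω : Type} [Field K] [CharZero K]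
    [Field M] [Algebra K M] [Field Ω] [Algebra M Ω] [Algebra K Ω] [IsScalarTower K M Ω]
    (f2 : Ix N m → M) (φ : GP N K → M →ₐ[K] M)
    (hφ : ∀ (g : GP N K) p, φ g (f2 p) = act (ext M g.1.1) (ext M g.1.2) f2 p)
    {I : Type} [Fintype I] (c : I → Mon (N + 1) m → M)
    (ρ : I → I → MvPolynomial (Fin (N + 1) × Fin (N + 1)) ℤ)
    (hcov : ∀ (g : GP N K) (v : Mon (N + 1) m → M) (i : I),
      ∑ β, φ g (c i β) * act1 (ext M g.1.2) v β =
        ∑ k, aeval (fun p : Fin (N + 1) × Fin (N + 1) => ext M g.1.1 p.1 p.2) (ρ i k) *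
          ∑ β, c k β * v β)
    (P : I → Mon (N + 1) m → MvPolynomial (J2 N m) K) (Q : MvPolynomial (J2 N m) K)
    (hPQ : ∀ i β, c i β * aeval (fun j : J2 N m => f2 j.1) Q =
      aeval (fun j : J2 N m => f2 j.1) (P i β))
    (A B : Matrix (Fin (N + 1)) (Fin (N + 1)) Ω) (hAB : A * B = 1) (w : Mon (N + 1) m → M) (i : I) :
    algebraMap M Ω (aeval (fun j : J2 N m => f2 j.1) Q) *
        ∑ β, aeval (fun j : J2 N m => act A B (fun p => algebraMap M Ω (f2 p)) j.1) (P i β) *
          algebraMap M Ω (w β) =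
      aeval (fun j : J2 N m => act A B (fun p => algebraMap M Ω (f2 p)) j.1) Q *
        ∑ k, aeval (fun p : Fin (N + 1) × Fin (N + 1) => A p.1 p.2) (ρ i k) *
          ∑ β, algebraMap M Ω (aeval (fun j : J2 N m => f2 j.1) (P k β)) *
            act1 A (fun β => algebraMap M Ω (w β)) β := by
  obtain ⟨X0, hX0⟩ : ∃ X0 : Matrix (Fin (N + 1)) (Fin (N + 1))
    (MvPolynomial ((Fin (N + 1) × Fin (N + 1)) ⊕ (Fin (N + 1) × Fin (N + 1))) M),
    X0 = fun i j => X (Sum.inl (i, j)) := ⟨_, rfl⟩
  obtain ⟨Y0, hY0⟩ : ∃ Y0 : Matrix (Fin (N + 1)) (Fin (N + 1))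
    (MvPolynomial ((Fin (N + 1) × Fin (N + 1)) ⊕ (Fin (N + 1) × Fin (N + 1))) M),
    Y0 = fun i j => X (Sum.inr (i, j)) := ⟨_, rfl⟩
  have hgen : ∀ (R : Type) [CommRing R] [Algebra M R] [Algebra K R] [IsScalarTower K M R]
      (A B : Matrix (Fin (N + 1)) (Fin (N + 1)) R),
      aeval (Sum.elim (fun p : Fin (N + 1) × Fin (N + 1) => A p.1 p.2) fun p => B p.1 p.2)
        (C (aeval (fun j : J2 N m => f2 j.1) Q) *
          ∑ β, aeval (fun j : J2 N m => act X0 Y0 (fun p => C (f2 p)) j.1) (P i β) * C (w β) -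
        aeval (fun j : J2 N m => act X0 Y0 (fun p => C (f2 p)) j.1) Q *
          ∑ k, aeval (fun p : Fin (N + 1) × Fin (N + 1) => X0 p.1 p.2) (ρ i k) *
            ∑ β, C (aeval (fun j : J2 N m => f2 j.1) (P k β)) * act1 X0 (fun β => C (w β)) β) =
      algebraMap M R (aeval (fun j : J2 N m => f2 j.1) Q) *
          ∑ β, aeval (fun j : J2 N m => act A B (fun p => algebraMap M R (f2 p)) j.1) (P i β) *
            algebraMap M R (w β) -
        aeval (fun j : J2 N m => act A B (fun p => algebraMap M R (f2 p)) j.1) Q *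
          ∑ k, aeval (fun p : Fin (N + 1) × Fin (N + 1) => A p.1 p.2) (ρ i k) *
            ∑ β, algebraMap M R (aeval (fun j : J2 N m => f2 j.1) (P k β)) *
              act1 A (fun β => algebraMap M R (w β)) β := by
    intro R _ _ _ _ A B
    obtain ⟨σ, hσ⟩ : ∃ σ : MvPolynomial ((Fin (N + 1) × Fin (N + 1)) ⊕
        (Fin (N + 1) × Fin (N + 1))) M →ₐ[M] R, σ = aeval (Sum.elim
        (fun p : Fin (N + 1) × Fin (N + 1) => A p.1 p.2) fun p => B p.1 p.2) := ⟨_, rfl⟩
    rw [← hσ]
    have hXA : X0.map σ.toRingHom = A := by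
      ext i j
      rw [Matrix.map_apply, hX0, hσ]
      exact aeval_X _ _
    have hYB : Y0.map σ.toRingHom = B := by
      ext i j
      rw [Matrix.map_apply, hY0, hσ]
      exact aeval_X _ _
    have hC : ∀ x : M, σ (C x) = algebraMap M R x := fun x => by
      rw [hσ]
      exact aeval_C _ _
    have ha : ∀ p, σ (act X0 Y0 (fun p => C (f2 p)) p) = act A B (fun p => algebraMap M R (f2 p)) p := by
      intro p
      have h := (hACT (N + 1) (m + 1) _).2.2.2.2.2.2.2.2.2.2 R σ.toRingHom X0 Y0 (fun p => C (f2 p))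
      rw [hXA, hYB] at h
      have h2 := congrFun h p
      have h3 : (fun p => σ.toRingHom (C (f2 p))) = fun p => algebraMap M R (f2 p) :=
        funext fun p => hC (f2 p)
      rw [h3] at h2
      exact h2.symm
    have hw : ∀ β, σ (act1 X0 (fun β => C (w β)) β) = act1 A (fun β => algebraMap M R (w β)) β := by
      intro β
      have h := (hACT (N + 1) m _).2.2.2.2.2.1 R σ.toRingHom X0 (fun β => C (w β))
      rw [hXA] at h
      have h2 := congrFun h β
      have h3 : (fun β => σ.toRingHom (C (w β))) = fun β => algebraMap M R (w β) :=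
        funext fun β => hC (w β)
      rw [h3] at h2
      exact h2.symm
    have hP : ∀ P : MvPolynomial (J2 N m) K,
        σ (aeval (fun j : J2 N m => act X0 Y0 (fun p => C (f2 p)) j.1) P) =
          aeval (fun j : J2 N m => act A B (fun p => algebraMap M R (f2 p)) j.1) P := by
      intro P
      have h := comp_aeval_apply (f := fun j : J2 N m => act X0 Y0 (fun p => C (f2 p)) j.1)
        (σ.restrictScalars K) P
      rw [show (fun j : J2 N m => (σ.restrictScalars K) (act X0 Y0 (fun p => C (f2 p)) j.1)) =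
        fun j : J2 N m => act A B (fun p => algebraMap M R (f2 p)) j.1 from
        funext fun j => ha j.1] at h
      exact h
    have hρ : ∀ P : MvPolynomial (Fin (N + 1) × Fin (N + 1)) ℤ,
        σ (aeval (fun p : Fin (N + 1) × Fin (N + 1) => X0 p.1 p.2) P) =
          aeval (fun p : Fin (N + 1) × Fin (N + 1) => A p.1 p.2) P := by
      intro P
      have h := comp_aeval_apply (f := fun p : Fin (N + 1) × Fin (N + 1) => X0 p.1 p.2)
        (σ.restrictScalars ℤ) P
      rw [show (fun p : Fin (N + 1) × Fin (N + 1) => (σ.restrictScalars ℤ) (X0 p.1 p.2)) =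
        fun p : Fin (N + 1) × Fin (N + 1) => A p.1 p.2 from
        funext fun p => congrFun (congrFun hXA p.1) p.2] at h
      exact h
    simp only [map_sub, map_mul, map_sum, hC, hw, hP, hρ]
  refine sub_eq_zero.1 ?_
  rw [← hgen Ω A B]
  refine vanish hDEN (K := K) _ (fun g => ?_) A B hAB
  rw [hgen M]
  simp only [Algebra.algebraMap_self, RingHom.id_apply]
  have hg2 : ext M g.1.1 * ext M g.1.2 = 1 := by
    rw [← Matrix.map_mul, g.2]
    exact Matrix.map_one _ (map_zero _) (map_one _)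
  have hinv : act1 (ext M g.1.2) (act1 (ext M g.1.1) w) = w := by
    rw [(hACT (N + 1) m M).2.1, hg2]
    exact (hACT (N + 1) m M).2.2.1 w
  have hfg : (fun j : J2 N m => act (ext M g.1.1) (ext M g.1.2) (fun p => f2 p) j.1) =
      fun j : J2 N m => φ g (f2 j.1) := funext fun j => (hφ g j.1).symm
  have hPg : ∀ P : MvPolynomial (J2 N m) K, aeval (fun j : J2 N m => φ g (f2 j.1)) P =
      φ g (aeval (fun j : J2 N m => f2 j.1) P) := fun P =>
    (comp_aeval_apply (f := fun j : J2 N m => f2 j.1) (φ g) P).symm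
  rw [hfg, sub_eq_zero]
  simp only [hPg]
  have h1 := hcov g (act1 (ext M g.1.1) w) i
  rw [hinv] at h1
  calc aeval (fun j : J2 N m => f2 j.1) Q *
        ∑ β, φ g (aeval (fun j : J2 N m => f2 j.1) (P i β)) * w β
      = aeval (fun j : J2 N m => f2 j.1) Q * (φ g (aeval (fun j : J2 N m => f2 j.1) Q) *
        ∑ β, φ g (c i β) * w β) := by
        congr 1
        rw [Finset.mul_sum]
        refine Finset.sum_congr rfl fun β _ => ?_
        rw [← hPQ, map_mul]
        ring
    _ = φ g (aeval (fun j : J2 N m => f2 j.1) Q) * (aeval (fun j : J2 N m => f2 j.1) Q *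
        ∑ k, aeval (fun p : Fin (N + 1) × Fin (N + 1) => ext M g.1.1 p.1 p.2) (ρ i k) *
          ∑ β, c k β * act1 (ext M g.1.1) w β) := by
        rw [h1]
        ring
    _ = _ := by
        congr 1
        rw [Finset.mul_sum]
        refine Finset.sum_congr rfl fun k _ => ?_
        rw [mul_left_comm]
        congr 1
        rw [Finset.mul_sum]
        refine Finset.sum_congr rfl fun β _ => ?_
        rw [← hPQ]
        ring

/-- a common denominator -/
theorem cden {K M ι J : Type} [Field K] [Field M] [Algebra K M] [Fintype J] (y : ι → M)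
    (x : J → M)
    (hx : ∀ j, x j ∈ IntermediateField.adjoin K (Set.range y)) :
    ∃ (P : J → MvPolynomial ι K) (Q : MvPolynomial ι K), Q ≠ 0 ∧
      ∀ j, x j * aeval y Q = aeval y (P j) := by
  classical
  have h1 : ∀ j, ∃ r s : MvPolynomial ι K, s ≠ 0 ∧ x j * aeval y s = aeval y r := by
    intro j
    obtain ⟨r, s, hrs⟩ := (IntermediateField.mem_adjoin_range_iff K y (x j)).1 (hx j)
    by_cases hs : aeval y s = 0
    · refine ⟨0, 1, one_ne_zero, ?_⟩
      rw [hrs, hs]
      simp
    · refine ⟨r, s, ?_, ?_⟩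
      · rintro rfl
        exact hs (map_zero _)
      · rw [hrs, div_mul_cancel₀ _ hs]
  choose r s hs hrs using h1
  refine ⟨fun j => r j * ∏ i ∈ Finset.univ.erase j, s i, ∏ j, s j,
    Finset.prod_ne_zero_iff.2 fun j _ => hs j, fun j => ?_⟩
  rw [← Finset.mul_prod_erase Finset.univ s (Finset.mem_univ j), map_mul, map_mul, ← mul_assoc,
    hrs]

variable {N m a k : ℕ} {K M : Type} [Field K] [CharZero K] [Field M] [Algebra K M]

theorem part2_map {R S : Type} [Field R] [Field S] (σ : R →+* S) (hDVA : S_DVA) (hEMB : S_EMB)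
    (f : Ix N m → R) : part2 (fun p => σ (f p)) = fun p => σ (part2 f p) := by
  funext p
  unfold part2
  rw [(hDVA (N + 1) m R).2.2 S σ f, (hEMB (N + 1) m R).2.2.2 S σ (dv f), map_sub, map_mul,
    map_inv₀, map_natCast]

theorem part2_act {R : Type} [Field R] (hACT : S_ACT) (hDVA : S_DVA) (hEMB : S_EMB)
    (f : Ix N m → R) (A B : Matrix (Fin (N + 1)) (Fin (N + 1)) R) (hAB : A * B = 1)
    (hBA : B * A = 1) : part2 (act A B f) = act A B (part2 f) := by
  funext p
  have h1 := (hACT (N + 1) (m + 1) R).2.2.2.2.2.2.2.2.2.1 A B f (emb (dv f)) 1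
    (-((N + 1 + m : ℕ) : R)⁻¹)
  have h2 : (fun p => 1 * f p + -((N + 1 + m : ℕ) : R)⁻¹ * emb (dv f) p) = part2 f := by
    funext p
    unfold part2
    ring
  rw [h2] at h1
  rw [h1, (hEMB (N + 1) m R).2.1 A B (dv f) hAB, ← (hDVA (N + 1) m R).1 A B f hBA]
  unfold part2
  ring

/-- the field `F` is generated by the free coordinates -/
theorem F_eq (hSEC : S_SEC) (D : Data N m a k K M) (h0 : dv (part2 D.f) = 0) :
    D.F = IntermediateField.adjoin K (Set.range fun j : J2 N m => part2 D.f j.1) := by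
  obtain ⟨T, -, hT⟩ := hSEC N m
  unfold Data.F
  apply le_antisymm
  · rw [IntermediateField.adjoin_le_iff]
    rintro _ ⟨p, rfl⟩
    have : CharZero M := charZero_of_injective_algebraMap (algebraMap K M).injective
    show part2 D.f p ∈ _
    rw [(hT M (part2 D.f)).1 h0 p]
    refine sum_mem fun j _ => mul_mem ?_ (IntermediateField.subset_adjoin _ _ ⟨j, rfl⟩)
    have h2 : ((T p j : ℚ) : M) = algebraMap K M (T p j : ℚ) := (map_ratCast _ _).symm
    rw [h2]
    exact IntermediateField.algebraMap_mem _ _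
  · exact IntermediateField.adjoin.mono _ _ _ (by
      rintro _ ⟨j, rfl⟩
      exact ⟨j.1, rfl⟩)

/-- two families of independent elements generate isomorphic fields -/
theorem eps_gen {K M ι : Type} [Field K] [Field M] [Algebra K M] (x y : ι → M)
    (hx : AlgebraicIndependent K x) (hy : AlgebraicIndependent K y) :
    ∃ ε : IntermediateField.adjoin K (Set.range x) →ₐ[K] IntermediateField.adjoin K (Set.range y),
      ∀ (z : IntermediateField.adjoin K (Set.range x)) (j : ι), (z : M) = x j →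
        ((ε z : _) : M) = y j := by
  refine ⟨hy.aevalEquivField.toAlgHom.comp hx.aevalEquivField.symm.toAlgHom, fun z j hz => ?_⟩
  have e3 : z = hx.aevalEquivField (algebraMap
      (MvPolynomial ι K) (FractionRing (MvPolynomial ι K)) (X j)) := by
    apply Subtype.ext
    rw [hx.aevalEquivField_algebraMap_apply_coe, aeval_X]
    exact hz
  rw [AlgHom.comp_apply, e3]
  have e4 : hx.aevalEquivField.symm.toAlgHom (hx.aevalEquivField (algebraMap
      (MvPolynomial ι K) (FractionRing (MvPolynomial ι K)) (X j))) = algebraMap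
      (MvPolynomial ι K) (FractionRing (MvPolynomial ι K)) (X j) :=
    hx.aevalEquivField.symm_apply_apply _
  rw [e4]
  have e5 := hy.aevalEquivField_algebraMap_apply_coe (X j)
  rw [aeval_X] at e5
  exact e5

/-- the homomorphism -/
theorem eps_exists (hSEC : S_SEC) (D : Data N m a k K M) (h1 : Gen N m K M (part2 D.f))
    (h2 : Gen N m K M (part2 D.ft)) : ∃ ε : D.F →ₐ[K] M,
    (∀ (x : D.F) (p : Ix N m), (x : M) = part2 D.f p → ε x = part2 D.ft p) ∧
    (∀ x : D.F, ε x ∈ IntermediateField.adjoin K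
      (Set.range fun j : J2 N m => part2 D.ft j.1)) := by
  obtain ⟨T, -, hT⟩ := hSEC N m
  have hF := F_eq hSEC D h1.1
  obtain ⟨ε0, hε0⟩ := eps_gen (fun j : J2 N m => part2 D.f j.1) (fun j : J2 N m => part2 D.ft j.1)
    h1.2 h2.2
  refine ⟨((IntermediateField.adjoin K (Set.range fun j : J2 N m => part2 D.ft j.1)).val).comp
    (ε0.comp (IntermediateField.inclusion (le_of_eq hF))), fun x p hx => ?_, fun x => ?_⟩
  · have : CharZero M := charZero_of_injective_algebraMap (algebraMap K M).injective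
    have hm : ∀ j : J2 N m, part2 D.f j.1 ∈ D.F := fun j =>
      IntermediateField.subset_adjoin _ _ ⟨j.1, rfl⟩
    have e4 : x = ∑ j : J2 N m, ((T p j : ℚ) : D.F) * (⟨part2 D.f j.1, hm j⟩ : D.F) := by
      apply Subtype.ext
      rw [hx, (hT M (part2 D.f)).1 h1.1 p]
      push_cast
      rfl
    rw [e4, map_sum, (hT M (part2 D.ft)).1 h2.1 p]
    refine Finset.sum_congr rfl fun j _ => ?_
    rw [map_mul, map_ratCast]
    congr 1
    exact hε0 (IntermediateField.inclusion (le_of_eq hF) ⟨part2 D.f j.1, hm j⟩) j rfl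
  · exact (ε0 (IntermediateField.inclusion (le_of_eq hF) x)).2

/-- transformation of a covariant row -/
theorem sum_eps (hACT : S_ACT) (hDVA : S_DVA) (hEMB : S_EMB) (hSEC : S_SEC) (hDEN : S_DEN)
    {Ω : Type} [Field Ω] [Algebra M Ω] [Algebra K Ω] [IsScalarTower K M Ω]
    (D : Data N m a k K M) (h1 : Gen N m K M (part2 D.f)) (h2 : Gen N m K M (part2 D.ft))
    (hφ : Acts N (m + 1) D.φ (part2 D.f)) (ε : D.F →ₐ[K] M)
    (hε : ∀ (x : D.F) (p : Ix N m), (x : M) = part2 D.f p → ε x = part2 D.ft p)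
    (γ γ' : Matrix (Fin (N + 1)) (Fin (N + 1)) Ω) (hγ : γ * γ' = 1)
    (hft : ∀ p, algebraMap M Ω (D.ft p) = act γ' γ (fun p => algebraMap M Ω (D.f p)) p)
    {I : Type} [Fintype I] (c : I → Mon (N + 1) m → M) (hc : ∀ i β, c i β ∈ D.F)
    (ρ : I → I → MvPolynomial (Fin (N + 1) × Fin (N + 1)) ℤ)
    (hcov : ∀ (g : GP N K) (v : Mon (N + 1) m → M) (i : I),
      ∑ β, D.φ g (c i β) * act1 (ext M g.1.2) v β =
        ∑ k, aeval (fun p : Fin (N + 1) × Fin (N + 1) => ext M g.1.1 p.1 p.2) (ρ i k) *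
          ∑ β, c k β * v β) (i : I) :
    algebraMap M Ω (∑ β, ε ⟨c i β, hc i β⟩ * dv D.ft β) =
      ∑ k, aeval (fun p : Fin (N + 1) × Fin (N + 1) => γ' p.1 p.2) (ρ i k) *
        algebraMap M Ω (∑ β, c k β * dv D.f β) := by
  have hF := F_eq hSEC D h1.1
  have hγ' : γ' * γ = 1 := mul_eq_one_comm.1 hγ
  have hinj : Function.Injective (algebraMap M Ω) := (algebraMap M Ω).injective
  -- the values at the slice
  have hft' : (fun p => algebraMap M Ω (D.ft p)) = act γ' γ (fun p => algebraMap M Ω (D.f p)) :=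
    funext hft
  have hp2 : act γ' γ (fun p => algebraMap M Ω (part2 D.f p)) =
      fun p => algebraMap M Ω (part2 D.ft p) := by
    rw [← part2_map (algebraMap M Ω) hDVA hEMB D.f, ← part2_act hACT hDVA hEMB _ γ' γ hγ' hγ,
      ← hft', part2_map (algebraMap M Ω) hDVA hEMB D.ft]
  have hdv : act1 γ' (fun β => algebraMap M Ω (dv D.ft β)) = fun β => algebraMap M Ω (dv D.f β) := by
    rw [← (hDVA (N + 1) m M).2.2 Ω (algebraMap M Ω) D.ft, hft',
      (hDVA (N + 1) m Ω).1 γ' γ _ hγ, (hACT (N + 1) m Ω).2.1, hγ, (hACT (N + 1) m Ω).2.2.1]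
    exact (hDVA (N + 1) m M).2.2 Ω (algebraMap M Ω) D.f
  -- a common denominator
  obtain ⟨P, Q, hQ, hPQ⟩ := cden (fun j : J2 N m => part2 D.f j.1)
    (fun q : I × Mon (N + 1) m => c q.1 q.2) (fun q => by
      rw [← hF]
      exact hc q.1 q.2)
  have hQ1 : aeval (fun j : J2 N m => part2 D.f j.1) Q ≠ 0 := fun h =>
    hQ (h1.2 (by rw [h, map_zero]))
  have hQ2 : aeval (fun j : J2 N m => part2 D.ft j.1) Q ≠ 0 := fun h =>
    hQ (h2.2 (by rw [h, map_zero]))
  have hm : ∀ j : J2 N m, part2 D.f j.1 ∈ D.F := fun j =>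
    IntermediateField.subset_adjoin _ _ ⟨j.1, rfl⟩
  have hae : ∀ R : MvPolynomial (J2 N m) K,
      ((aeval (fun j : J2 N m => (⟨part2 D.f j.1, hm j⟩ : D.F)) R : D.F) : M) =
        aeval (fun j : J2 N m => part2 D.f j.1) R := fun R =>
    comp_aeval_apply (f := fun j : J2 N m => (⟨part2 D.f j.1, hm j⟩ : D.F)) D.F.val R
  have hεa : ∀ R : MvPolynomial (J2 N m) K,
      ε (aeval (fun j : J2 N m => (⟨part2 D.f j.1, hm j⟩ : D.F)) R) =
        aeval (fun j : J2 N m => part2 D.ft j.1) R := by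
    intro R
    have h := comp_aeval_apply (f := fun j : J2 N m => (⟨part2 D.f j.1, hm j⟩ : D.F)) ε R
    rw [h]
    congr 2
    exact funext fun j => hε _ j.1 rfl
  have hεc : ∀ i β, ε ⟨c i β, hc i β⟩ * aeval (fun j : J2 N m => part2 D.ft j.1) Q =
      aeval (fun j : J2 N m => part2 D.ft j.1) (P (i, β)) := by
    intro i β
    rw [← hεa, ← hεa, ← map_mul]
    congr 1
    apply Subtype.ext
    show c i β * ((aeval (fun j : J2 N m => (⟨part2 D.f j.1, hm j⟩ : D.F)) Q : D.F) : M) = _
    rw [hae, hae]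
    exact hPQ (i, β)
  have hkey := key hACT hDEN (part2 D.f) D.φ hφ c ρ hcov (fun i β => P (i, β)) Q
    (fun i β => hPQ (i, β)) γ' γ hγ' (dv D.ft) i
  rw [hp2, hdv] at hkey
  have hae2 : ∀ R : MvPolynomial (J2 N m) K,
      aeval (fun j : J2 N m => algebraMap M Ω (part2 D.ft j.1)) R =
        algebraMap M Ω (aeval (fun j : J2 N m => part2 D.ft j.1) R) := fun R =>
    (comp_aeval_apply (f := fun j : J2 N m => part2 D.ft j.1) (IsScalarTower.toAlgHom K M Ω)
      R).symm
  simp only [hae2, ← hεc, ← hPQ] at hkey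
  have hne : algebraMap M Ω (aeval (fun j : J2 N m => part2 D.f j.1) Q) *
      algebraMap M Ω (aeval (fun j : J2 N m => part2 D.ft j.1) Q) ≠ 0 :=
    mul_ne_zero (fun h => hQ1 (hinj (by rw [h, map_zero])))
      (fun h => hQ2 (hinj (by rw [h, map_zero])))
  apply mul_left_cancel₀ hne
  calc _ = algebraMap M Ω (aeval (fun j : J2 N m => part2 D.f j.1) Q) *
        ∑ β, algebraMap M Ω (ε ⟨c i β, hc i β⟩ * aeval (fun j : J2 N m => part2 D.ft j.1) Q) *
          algebraMap M Ω (dv D.ft β) := by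
        rw [mul_assoc]
        congr 1
        rw [map_sum, Finset.mul_sum]
        refine Finset.sum_congr rfl fun β _ => ?_
        rw [map_mul, map_mul]
        ring
    _ = _ := hkey
    _ = _ := by
        rw [mul_comm (algebraMap M Ω (aeval (fun j : J2 N m => part2 D.f j.1) Q)), mul_assoc]
        congr 1
        rw [Finset.mul_sum]
        refine Finset.sum_congr rfl fun k _ => ?_
        rw [mul_left_comm]
        congr 1
        rw [map_sum, Finset.mul_sum]
        refine Finset.sum_congr rfl fun β _ => ?_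
        rw [map_mul, map_mul]
        ring

end Pool.Agent.Z15.ME.EPS

namespace Pool.Agent.Z15.ME

open MvPolynomial EPS

theorem t_EPS (hACT : S_ACT) (hDVA : S_DVA) (hEMB : S_EMB) (hAIV : S_AIV) (hAIC : S_AIC)
    (hGEN : S_GEN) (hSEC : S_SEC) (hROO : S_ROO) (hDEN : S_DEN) : S_EPS := by
  intro N m a k K M _ _ _ _ D
  obtain ⟨g1, -, g3, -⟩ := hAIV N m a k K M D
  have g2 := hGEN N m a k K M D
  obtain ⟨-, -, -, -, -, hCD⟩ := hAIC N m a k K M D
  obtain ⟨γ, γ', hγ, hdet, hC1, hft⟩ := hROO N m a k K M (AlgebraicClosure M) D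
  obtain ⟨ε, hε, hmem⟩ := eps_exists hSEC D g1 g2
  have hinj : Function.Injective (algebraMap M (AlgebraicClosure M)) :=
    (algebraMap M (AlgebraicClosure M)).injective
  have hγ' : γ' * γ = 1 := mul_eq_one_comm.1 hγ
  have hdd : γ'.det * γ.det = 1 := by
    rw [← Matrix.det_mul, hγ', Matrix.det_one]
  have hρd : ∀ (R : Type) [CommRing R] (A : Matrix (Fin (N + 1)) (Fin (N + 1)) R),
      aeval (fun p : Fin (N + 1) × Fin (N + 1) => A p.1 p.2)
        (Matrix.mvPolynomialX (Fin (N + 1)) (Fin (N + 1)) ℤ).det = A.det := by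
    intro R _ A
    rw [AlgHom.map_det, Matrix.mvPolynomialX_mapMatrix_aeval]
  have hdg : ∀ g : GP N K, (ext M g.1.1).det = algebraMap K M g.1.1.det := fun g =>
    (RingHom.map_det (algebraMap K M) g.1.1).symm
  refine ⟨ε, hε, hmem, fun i j => ?_, ?_⟩
  · apply hinj
    have h := sum_eps hACT hDVA hEMB hSEC hDEN D g1 g2 g3 ε hε γ γ' hγ hft (D.c j)
      (fun i β => D.cF j i β)
      (fun i k => (Matrix.mvPolynomialX (Fin (N + 1)) (Fin (N + 1)) ℤ).det ^ a * X (i, k))
      (fun g v i => by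
        rw [D.covc j g v i, Finset.mul_sum]
        refine Finset.sum_congr rfl fun k _ => ?_
        rw [map_mul, map_pow, hρd, aeval_X, hdg, mul_assoc]
        rfl) i
    rw [h]
    have h2 : (γ'.det ^ a • γ') * D.CC.map (algebraMap M (AlgebraicClosure M)) =
        D.DD.map (algebraMap M (AlgebraicClosure M)) := by
      rw [← hCD, Matrix.map_mul, ← hC1, Matrix.smul_mul, Matrix.smul_mul, Matrix.mul_smul,
        smul_smul, ← mul_assoc, hγ', one_mul, ← mul_pow, hdd, one_pow, one_smul]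
    have h3 := congrFun (congrFun h2 i) j
    rw [Matrix.mul_apply, Matrix.map_apply] at h3
    rw [← h3]
    refine Finset.sum_congr rfl fun k _ => ?_
    rw [map_mul, map_pow, hρd, aeval_X, Matrix.smul_apply, smul_eq_mul]
    rfl
  · apply hinj
    have h := sum_eps hACT hDVA hEMB hSEC hDEN D g1 g2 g3 ε hε γ γ' hγ hft
      (fun _ : Unit => D.h) (fun _ β => D.hF β)
      (fun _ _ => (Matrix.mvPolynomialX (Fin (N + 1)) (Fin (N + 1)) ℤ).det ^ m)
      (fun g v i => by
        rw [D.covh g v, Fintype.sum_unique (ι := Unit), map_pow, hρd, hdg]) ()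
    rw [h, Fintype.sum_unique (ι := Unit), map_pow, hρd, map_one]
    show γ'.det ^ m * algebraMap M (AlgebraicClosure M) D.HH = 1
    rw [← hdet, ← mul_pow, hdd, one_pow]

end Pool.Agent.Z15.ME
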