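import Pool.Agent.Z15.ME.Stm

set_option autoImplicit false

/-!
# Moduli of endomorphisms of projective space, EX1: an example

The self map `f_k = X_k^(m+1) - ((m+1)/N) ∑_{i ≠ k} X_i^m X_k`.
-/

namespace Pool.Agent.Z15.ME.EX1

open MvPolynomial

variable {R : Type} [CommRing R] {n d m : ℕ}

/-- a form is given by its coefficients -/
theorem pol_cf (p : MvPolynomial (Fin n) R) (hp : p.IsHomogeneous d) : pol (cf d p) = p := by
  classical
  ext β
  unfold pol
  rw [coeff_sum]
  simp only [coeff_monomial]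
  by_cases hβ : β.degree = d
  · rw [Finset.sum_eq_single (⟨β, hβ⟩ : Mon n d)]
    · simp [cf]
    · intro α _ hα
      rw [if_neg]
      intro h
      apply hα
      apply Subtype.ext
      exact h
    · intro h
      exact absurd (Finset.mem_univ _) h
  · rw [Finset.sum_eq_zero]
    · exact (hp.coeff_eq_zero (by simpa using hβ)).symm
    · intro α _
      rw [if_neg]
      rintro rfl
      exact hβ α.2

/-- the coefficients of the self map with the components `F` -/
noncomputable def co (d : ℕ) (F : Fin n → MvPolynomial (Fin n) R) : Fin n × Mon n d → R :=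
  fun p => cf d (F p.1) p.2

theorem cmp_co (F : Fin n → MvPolynomial (Fin n) R) (hF : ∀ k, (F k).IsHomogeneous d) (k : Fin n) :
    cmp (co d F) k = F k := by
  unfold cmp
  exact pol_cf (F k) (hF k)

/-- `∑ X_i^m` -/
noncomputable def Sm (n m : ℕ) : MvPolynomial (Fin n) ℚ := ∑ i, X i ^ m

/-- `f_k = (1 + a) X_k^(m+1) - a S X_k`, `S = ∑ X_i^m` -/
noncomputable def FF (n m : ℕ) (a : ℚ) (k : Fin n) : MvPolynomial (Fin n) ℚ :=
  C (1 + a) * X k ^ (m + 1) - C a * (Sm n m * X k)

theorem hom_Sm (n m : ℕ) : (Sm n m).IsHomogeneous m := by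
  unfold Sm
  apply IsHomogeneous.sum
  intro i _
  simpa using (isHomogeneous_X ℚ i).pow m

theorem hom_FF (n m : ℕ) (a : ℚ) (k : Fin n) : (FF n m a k).IsHomogeneous (m + 1) := by
  unfold FF
  apply IsHomogeneous.sub
  · have h := (isHomogeneous_C (Fin n) (1 + a)).mul ((isHomogeneous_X ℚ k).pow (m + 1))
    simpa using h
  · have h := (isHomogeneous_C (Fin n) a).mul ((hom_Sm n m).mul (isHomogeneous_X ℚ k))
    simpa using h

theorem pd_Sm (n m : ℕ) (j : Fin n) : pderiv j (Sm n m) = C (m : ℚ) * X j ^ (m - 1) := by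
  classical
  unfold Sm
  rw [map_sum, Finset.sum_eq_single j]
  · rw [pderiv_pow, pderiv_X_self]
    simp
  · intro i _ hi
    rw [pderiv_pow, pderiv_X_of_ne hi]
    simp
  · intro h
    exact absurd (Finset.mem_univ _) h

theorem pd_X (n : ℕ) (j k : Fin n) : pderiv j (X k : MvPolynomial (Fin n) ℚ) =
    C (if k = j then (1 : ℚ) else 0) := by
  split_ifs with h
  · subst h
    rw [pderiv_X_self, C_1]
  · rw [pderiv_X_of_ne h, C_0]

theorem pd_FF (n m : ℕ) (a : ℚ) (k j : Fin n) : pderiv j (FF n m a k) =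
    C ((1 + a) * (m + 1) * (if k = j then (1 : ℚ) else 0)) * X k ^ m
      - C a * (C (m : ℚ) * X j ^ (m - 1) * X k + Sm n m * C (if k = j then (1 : ℚ) else 0)) := by
  unfold FF
  rw [map_sub, pderiv_C_mul, pderiv_C_mul, pderiv_mul, pderiv_pow, pd_Sm, pd_X]
  simp only [Nat.add_sub_cancel, C_mul, C_add, C_1, map_natCast]
  push_cast
  ring

theorem div_FF (n m : ℕ) (a : ℚ) (hm : 1 ≤ m) (ha : a * n = m + 1 + a) :
    ∑ k, pderiv k (FF n m a k) = 0 := by
  have h1 : ∀ k : Fin n, pderiv k (FF n m a k) =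
      C ((1 + a) * (m + 1) - a * m) * X k ^ m - C a * Sm n m := by
    intro k
    rw [pd_FF, if_pos rfl]
    have h2 : (X k : MvPolynomial (Fin n) ℚ) ^ m = X k ^ (m - 1) * X k := by
      rw [← pow_succ, Nat.sub_add_cancel hm]
    simp only [C_mul, C_add, C_1, C_sub, map_natCast, mul_one]
    rw [h2]
    ring
  rw [Finset.sum_congr rfl fun k _ => h1 k, Finset.sum_sub_distrib, ← Finset.mul_sum,
    Finset.sum_const, Finset.card_univ, Fintype.card_fin]
  change C ((1 + a) * (m + 1) - a * m) * Sm n m - n • (C a * Sm n m) = 0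
  have h3 : (n • (C a * Sm n m) : MvPolynomial (Fin n) ℚ) = C (a * n) * Sm n m := by
    rw [nsmul_eq_mul, C_mul, map_natCast]
    ring
  rw [h3, ha, ← sub_mul, ← C_sub]
  have h4 : (1 + a) * (m + 1) - a * m - (m + 1 + a) = 0 := by ring
  rw [h4, C_0, zero_mul]

theorem ev_Xp (n e : ℕ) (i k : Fin n) (he : 1 ≤ e) :
    (Pi.single i (1 : ℚ) : Fin n → ℚ) k ^ e = if k = i then 1 else 0 := by
  rw [Pi.single_apply]
  split_ifs with h
  · rw [one_pow]
  · rw [zero_pow (by omega)]

theorem ev_Sm (n m : ℕ) (i : Fin n) (hm : 1 ≤ m) : eval (Pi.single i (1 : ℚ)) (Sm n m) = 1 := by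
  unfold Sm
  rw [map_sum]
  simp only [map_pow, eval_X, ev_Xp n m i _ hm]
  simp

theorem ev_FF (n m : ℕ) (a : ℚ) (i k : Fin n) (hm : 1 ≤ m) :
    eval (Pi.single i (1 : ℚ)) (FF n m a k) = if k = i then 1 else 0 := by
  unfold FF
  simp only [map_sub, map_mul, map_pow, eval_X, eval_C, ev_Sm n m i hm,
    ev_Xp n (m + 1) i k (by omega)]
  simp only [Pi.single_apply]
  split_ifs with h <;> ring

theorem ev_pd_FF (n m : ℕ) (a : ℚ) (i k j : Fin n) (hm : 2 ≤ m) :
    eval (Pi.single i (1 : ℚ)) (pderiv j (FF n m a k)) =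
      if k = j then (if k = i then (m + 1 : ℚ) else -a) else 0 := by
  rw [pd_FF]
  simp only [map_sub, map_mul, map_pow, eval_X, eval_C, map_add, ev_Sm n m i (by omega),
    ev_Xp n m i k (by omega), ev_Xp n (m - 1) i j (by omega)]
  simp only [Pi.single_apply]
  by_cases h1 : k = j
  · subst h1
    by_cases h2 : k = i
    · simp only [h2, if_true]
      ring
    · simp only [h2, if_true, if_false]
      ring
  · by_cases h2 : k = i
    · have h3 : j ≠ i := fun h => h1 (h2.trans h.symm)
      simp only [h1, h3, if_false]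
      ring
    · simp only [h1, h2, if_false]
      ring

theorem jac_apply {n d : ℕ} (c : Fin n × Mon n d → ℚ) (x : Fin n → ℚ) (k j : Fin n) :
    jac c x k j = eval x (pderiv j (cmp c k)) := rfl

theorem dv_co (F : Fin n → MvPolynomial (Fin n) ℚ) (hF : ∀ k, (F k).IsHomogeneous (m + 1))
    (h : ∑ k, pderiv k (F k) = 0) : dv (co (m + 1) F) = 0 := by
  unfold dv
  simp only [cmp_co F hF, h]
  funext β
  simp [cf]

end Pool.Agent.Z15.ME.EX1

namespace Pool.Agent.Z15.ME.EX1

open MvPolynomial

theorem t_EX1 : S_EX1 := by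
  intro N m hN hm
  set a : ℚ := (m + 1) / N with ha
  have hN0 : (N : ℚ) ≠ 0 := by
    have : N ≠ 0 := by omega
    exact_mod_cast this
  have han : a * ((N + 1 : ℕ) : ℚ) = m + 1 + a := by
    rw [ha]
    push_cast
    field_simp
  have ha0 : 0 < a := by
    rw [ha]
    have : (0 : ℚ) < N := by
      have : 0 < N := by omega
      exact_mod_cast this
    positivity
  refine ⟨co (m + 1) (FF (N + 1) m a), dv_co _ (hom_FF _ _ _) (div_FF _ _ _ (by omega) han), ?_, ?_⟩
  · intro i k
    rw [cmp_co _ (hom_FF _ _ _), ev_FF _ _ _ _ _ (by omega), Pi.single_apply]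
  · intro i
    have hj : jac (co (m + 1) (FF (N + 1) m a)) (Pi.single i 1) - 1 =
        Matrix.diagonal fun k => if k = i then (m : ℚ) else -a - 1 := by
      ext k j
      rw [Matrix.sub_apply, jac_apply, cmp_co _ (hom_FF _ _ _), ev_pd_FF _ _ _ _ _ _ hm, Matrix.one_apply,
        Matrix.diagonal_apply]
      by_cases h1 : k = j
      · subst h1
        by_cases h2 : k = i
        · simp only [h2, if_true]
          ring
        · simp only [h2, if_true, if_false]
      · simp only [h1, if_false]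
        ring
    rw [hj, Matrix.det_diagonal, Finset.prod_ne_zero_iff]
    intro k _
    split_ifs with h
    · have : m ≠ 0 := by omega
      exact_mod_cast this
    · intro h0
      linarith

end Pool.Agent.Z15.ME.EX1
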