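import Pool.Agent.Z15.ME.T_EX1

set_option autoImplicit false

/-!
# Moduli of endomorphisms of projective space, EX2: a second example
-/

namespace Pool.Agent.Z15.ME.EX2

open MvPolynomial Pool.Agent.Z15.ME.EX1

/-- `X_0^m X_2` in the component 1 and `X_0^m X_1` in the component 2 -/
noncomputable def HH (N m : ℕ) (k : Fin (N + 3)) : MvPolynomial (Fin (N + 3)) ℚ :=
  if k = 1 then X 0 ^ m * X 2 else if k = 2 then X 0 ^ m * X 1 else 0

theorem ne01 (N : ℕ) : (0 : Fin (N + 3)) ≠ 1 := by
  intro h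
  have := congrArg Fin.val h
  simp at this

theorem ne02 (N : ℕ) : (0 : Fin (N + 3)) ≠ 2 := by
  intro h
  have := congrArg Fin.val h
  simp at this
  rw [Nat.mod_eq_of_lt (by omega)] at this
  omega

theorem ne12 (N : ℕ) : (1 : Fin (N + 3)) ≠ 2 := by
  intro h
  have := congrArg Fin.val h
  simp at this
  rw [Nat.mod_eq_of_lt (by omega)] at this
  omega

theorem hom_HH (N m : ℕ) (k : Fin (N + 3)) : (HH N m k).IsHomogeneous (m + 1) := by
  unfold HH
  split_ifs
  · simpa using ((isHomogeneous_X ℚ (0 : Fin (N + 3))).pow m).mul (isHomogeneous_X ℚ 2)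
  · simpa using ((isHomogeneous_X ℚ (0 : Fin (N + 3))).pow m).mul (isHomogeneous_X ℚ 1)
  · exact isHomogeneous_zero _ _ _

theorem pd1 (N m : ℕ) (l j : Fin (N + 3)) :
    pderiv j (X 0 ^ m * X l : MvPolynomial (Fin (N + 3)) ℚ) =
      C ((m : ℚ) * (if 0 = j then 1 else 0)) * X 0 ^ (m - 1) * X l +
        X 0 ^ m * C (if l = j then 1 else 0) := by
  rw [pderiv_mul, pderiv_pow, pd_X, pd_X]
  simp only [C_mul, map_natCast]
  ring

theorem ev_pd_HH (N m : ℕ) (i k j : Fin (N + 3)) (hm : 2 ≤ m) (hi : i = 0 ∨ i = 1) :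
    eval (Pi.single i (1 : ℚ)) (pderiv j (HH N m k)) =
      if i = 0 ∧ (k = 1 ∧ j = 2 ∨ k = 2 ∧ j = 1) then 1 else 0 := by
  have h01 := ne01 N
  have h02 := ne02 N
  have h12 := ne12 N
  have hm0 : m ≠ 0 := by omega
  have hm1 : m - 1 ≠ 0 := by omega
  unfold HH
  by_cases h1 : k = 1
  · subst h1
    rw [if_pos rfl, pd1]
    rcases hi with rfl | rfl
    · by_cases h2 : j = 2
      · subst h2
        simp [h02, h12]
      · have h3 : ¬ (2 : Fin (N + 3)) = j := fun h => h2 h.symm
        simp [h02.symm, h2, h3, h12]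
    · simp [h01, hm1, Pi.single_apply]
      split_ifs <;> simp [h01, hm0]
  · by_cases h2 : k = 2
    · subst h2
      rw [if_neg h1, if_pos rfl, pd1]
      rcases hi with rfl | rfl
      · by_cases h3 : j = 1
        · subst h3
          simp [h01, h12.symm]
        · have h4 : ¬ (1 : Fin (N + 3)) = j := fun h => h3 h.symm
          simp [h01.symm, h3, h4, h12.symm]
      · simp [h01, h01.symm, hm1]
        split_ifs <;> simp [h01, hm0]
    · rw [if_neg h1, if_neg h2]
      simp [h1, h2]

theorem ev_HH (N m : ℕ) (i k : Fin (N + 3)) (hm : 2 ≤ m) (hi : i = 0 ∨ i = 1) :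
    eval (Pi.single i (1 : ℚ)) (HH N m k) = 0 := by
  have h01 := ne01 N
  have h02 := ne02 N
  have hm0 : m ≠ 0 := by omega
  unfold HH
  split_ifs
  · rcases hi with rfl | rfl
    · simp [h02.symm]
    · simp [h01, hm0]
  · rcases hi with rfl | rfl
    · simp [h01.symm]
    · simp [h01, hm0]
  · simp

theorem div_HH (N m : ℕ) : ∑ k, pderiv k (HH N m k) = 0 := by
  apply Finset.sum_eq_zero
  intro k _
  unfold HH
  split_ifs with h1 h2
  · subst h1
    rw [pd1]
    simp [(ne12 N).symm, ne01 N]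
  · subst h2
    rw [pd1]
    simp [ne12 N, ne02 N]
  · simp

/-- the entries of the derivative -/
def ent (N m : ℕ) (a : ℚ) (i k j : Fin (N + 3)) : ℚ :=
  (if k = j then (if k = i then (m + 1 : ℚ) else -a) else 0) +
    if i = 0 ∧ (k = 1 ∧ j = 2 ∨ k = 2 ∧ j = 1) then 1 else 0

theorem ent_mul (N m : ℕ) (a : ℚ) (i k j : Fin (N + 3)) :
    ent N m a i k j * ent N m a i j k =
      (if k = j then (if k = i then (m + 1 : ℚ) ^ 2 else a ^ 2) else 0) +
        ((if i = 0 then (if k = 1 then (if j = 2 then 1 else 0) else 0) else 0) +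
          (if i = 0 then (if k = 2 then (if j = 1 then 1 else 0) else 0) else 0)) := by
  have h12 := ne12 N
  unfold ent
  by_cases h0 : i = 0
  · by_cases h1 : k = j
    · subst h1
      have h3 : ¬ (k = 1 ∧ k = 2 ∨ k = 2 ∧ k = 1) := by
        rintro (⟨h4, h5⟩ | ⟨h4, h5⟩)
        · exact h12 (h4.symm.trans h5)
        · exact h12 (h5.symm.trans h4)
      have h4 : (if k = 1 then (if k = 2 then (1 : ℚ) else 0) else 0) = 0 := by
        split_ifs with h5 h6
        · exact absurd (h5.symm.trans h6) h12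
        · rfl
        · rfl
      have h5 : (if k = 2 then (if k = 1 then (1 : ℚ) else 0) else 0) = 0 := by
        split_ifs with h5 h6
        · exact absurd (h6.symm.trans h5) h12
        · rfl
        · rfl
      rw [h4, h5]
      simp only [h3, and_false, if_false, if_true]
      split_ifs <;> ring
    · have h1' : ¬ j = k := fun h => h1 h.symm
      simp only [h0, h1, h1', if_false, true_and, if_true, zero_add]
      by_cases h2 : k = 1
      · subst h2
        by_cases h3 : j = 2
        · subst h3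
          simp [h12, h12.symm]
        · simp [h3, h12]
      · by_cases h3 : k = 2
        · subst h3
          by_cases h4 : j = 1
          · subst h4
            simp [h12, h12.symm]
          · simp [h4, h12.symm]
        · simp [h2, h3]
  · simp only [h0, false_and, if_false, add_zero]
    by_cases h1 : k = j
    · subst h1
      simp only [if_true]
      split_ifs <;> ring
    · simp [h1]

theorem tr (N m : ℕ) (a : ℚ) (i : Fin (N + 3)) :
    ∑ k, ∑ j, ent N m a i k j * ent N m a i j k =
      ((m + 1 : ℚ) ^ 2 + (N + 2) * a ^ 2) + if i = 0 then 2 else 0 := by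
  simp only [ent_mul, Finset.sum_add_distrib]
  have e1 : ∑ k : Fin (N + 3), ∑ j : Fin (N + 3),
      (if k = j then (if k = i then (m + 1 : ℚ) ^ 2 else a ^ 2) else 0) =
      (m + 1 : ℚ) ^ 2 + (N + 2) * a ^ 2 := by
    simp only [Finset.sum_ite_eq, Finset.mem_univ, if_true]
    rw [Finset.sum_ite, Finset.sum_const, Finset.sum_const]
    have h1 : (Finset.univ.filter fun k : Fin (N + 3) => k = i).card = 1 := by
      rw [Finset.filter_eq']
      simp
    have h2 : (Finset.univ.filter fun k : Fin (N + 3) => ¬ k = i).card = N + 2 := by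
      have h3 := Finset.card_filter_add_card_filter_not (s := (Finset.univ : Finset (Fin (N + 3))))
        (fun k => k = i)
      rw [h1, Finset.card_univ, Fintype.card_fin] at h3
      omega
    rw [h1, h2]
    simp
  rw [e1]
  congr 1
  by_cases h0 : i = 0
  · simp only [h0, if_true, Finset.sum_ite_eq', Finset.mem_univ, Finset.sum_ite_irrel,
      Finset.sum_const_zero]
    norm_num
  · simp [h0]

theorem t_EX2 : S_EX2 := by
  intro N m hN hm
  obtain ⟨N, rfl⟩ : ∃ N', N = N' + 2 := ⟨N - 2, by omega⟩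
  set a : ℚ := (m + 1) / ((N + 2 : ℕ) : ℚ) with ha
  have hN0 : ((N + 2 : ℕ) : ℚ) ≠ 0 := by
    have : N + 2 ≠ 0 := by omega
    exact_mod_cast this
  have han : a * ((N + 2 + 1 : ℕ) : ℚ) = m + 1 + a := by
    rw [ha]
    push_cast at hN0 ⊢
    field_simp
  set F : Fin (N + 2 + 1) → MvPolynomial (Fin (N + 2 + 1)) ℚ :=
    fun k => FF (N + 2 + 1) m a k + HH N m k with hF
  have hhom : ∀ k, (F k).IsHomogeneous (m + 1) := fun k =>
    (hom_FF _ _ _ _).add (hom_HH _ _ _)
  have hdiv : ∑ k, pderiv k (F k) = 0 := by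
    simp only [hF, map_add, Finset.sum_add_distrib]
    rw [div_FF _ _ _ (by omega) han]
    rw [zero_add]
    exact div_HH N m
  have hfx : ∀ i : Fin (N + 2 + 1), (i = 0 ∨ i = 1) → Fx (co (m + 1) F) (Pi.single i 1) := by
    intro i hi k
    rw [cmp_co _ hhom, hF]
    show eval _ (FF (N + 2 + 1) m a k + HH N m k) = _
    rw [map_add, ev_FF _ _ _ _ _ (by omega)]
    have := ev_HH N m i k hm hi
    rw [this, add_zero, Pi.single_apply]
  have htr : ∀ i : Fin (N + 2 + 1), (i = 0 ∨ i = 1) →
      (jac (co (m + 1) F) (Pi.single i 1) ^ 2).trace =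
        ((m + 1 : ℚ) ^ 2 + (N + 2) * a ^ 2) + if i = 0 then 2 else 0 := by
    intro i hi
    have hj : ∀ k j, jac (co (m + 1) F) (Pi.single i 1) k j = ent N m a i k j := by
      intro k j
      rw [jac_apply, cmp_co _ hhom]
      show eval _ (pderiv j (FF (N + 2 + 1) m a k + HH N m k)) = _
      rw [map_add, map_add, ev_pd_FF _ _ _ _ _ _ hm]
      have := ev_pd_HH N m i k j hm hi
      rw [this]
      rfl
    rw [← tr N m a i, Matrix.trace]
    apply Finset.sum_congr rfl
    intro k _
    rw [Matrix.diag_apply, pow_two, Matrix.mul_apply]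
    apply Finset.sum_congr rfl
    intro j _
    rw [hj, hj]
  refine ⟨co (m + 1) F, dv_co _ hhom hdiv, hfx 0 (Or.inl rfl), hfx 1 (Or.inr rfl), ?_⟩
  rw [htr 0 (Or.inl rfl), htr 1 (Or.inr rfl), if_pos rfl, if_neg (ne01 N).symm]
  intro h
  linarith

end Pool.Agent.Z15.ME.EX2
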