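import Pool.Agent.Z15.ME.Stm2

set_option autoImplicit false

/-!
# Moduli of endomorphisms of projective space: task FIN
-/

namespace Pool.Agent.Z15.ME.FIN

open MvPolynomial

theorem num (N m : ℕ) (hm : 3 ≤ m) (h : Nat.Coprime m (N + 1)) :
    ∃ a k : ℕ, m * k = (N + 1) * a + 1 := by
  obtain ⟨b, -, hb⟩ := Nat.exists_mul_mod_eq_one_of_coprime h.symm (by omega : 1 < m)
  have h1 : ((N + 1) * (b * (m - 1)) + 1) % m = 0 := by
    have e : (N + 1) * (b * (m - 1)) + 1 = ((N + 1) * b) * (m - 1) + 1 := by ring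
    rw [e, Nat.add_mod, Nat.mul_mod, hb, one_mul, Nat.mod_mod, Nat.mod_eq_of_lt (by omega : m - 1 < m),
      Nat.mod_eq_of_lt (by omega : 1 < m), Nat.sub_add_cancel (by omega : 1 ≤ m), Nat.mod_self]
  obtain ⟨k, hk⟩ := Nat.dvd_of_mod_eq_zero h1
  exact ⟨b * (m - 1), k, hk.symm⟩

section

variable {N m : ℕ} {K M : Type} [Field K] [Field M] [Algebra K M]

theorem nz (N m : ℕ) [CharZero M] : ((N + 1 + m : ℕ) : M) ≠ 0 := by
  rw [Nat.cast_ne_zero]; omega

theorem dv_part2 (hDVA : S_DVA) (hEMB : S_EMB) [CharZero M] (f : Ix N m → M) :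
    dv (part2 f) = 0 := by
  obtain ⟨-, hlin, -⟩ := hDVA (N + 1) m M
  obtain ⟨hemb, -⟩ := hEMB (N + 1) m M
  have h1 := hlin f (emb (dv f)) 1 (-((N + 1 + m : ℕ) : M)⁻¹)
  have e : (fun p => 1 * f p + -((N + 1 + m : ℕ) : M)⁻¹ * emb (dv f) p) = part2 f := by
    funext p; simp only [part2]; ring
  rw [e, hemb] at h1
  rw [h1]
  funext β
  have := nz (M := M) N m
  simp only [Pi.zero_apply]
  field_simp
  ring

theorem acts_part2 (hDVA : S_DVA) (hEMB : S_EMB) (hACT : S_ACT) (f : Ix N m → M)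
    (φ : GP N K → M →ₐ[K] M) (hφ : Acts N (m + 1) φ f) : Acts N (m + 1) φ (part2 f) := by
  intro g p
  obtain ⟨hconj, -, hmap⟩ := hDVA (N + 1) m M
  obtain ⟨-, hembc, -, hembm⟩ := hEMB (N + 1) m M
  obtain ⟨-, -, -, -, -, -, -, -, -, hlin, -⟩ := hACT (N + 1) (m + 1) M
  have hg1 : ext M g.1.1 * ext M g.1.2 = 1 := by
    rw [← Matrix.map_mul, g.2, Matrix.map_one _ (map_zero _) (map_one _)]
  have hg2 : ext M g.1.2 * ext M g.1.1 = 1 := mul_eq_one_comm.1 hg1
  have hφf : (fun p => (φ g : M →+* M) (f p)) = act (ext M g.1.1) (ext M g.1.2) f :=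
    funext fun p => hφ g p
  have h1 : (fun β => (φ g : M →+* M) (dv f β)) = act1 (ext M g.1.2) (dv f) := by
    rw [← hmap M (φ g : M →+* M) f, hφf, hconj _ _ _ hg2]
  have h2 : (φ g : M →+* M) (emb (dv f) p) = emb (act1 (ext M g.1.2) (dv f)) p := by
    rw [← h1, hembm M (φ g : M →+* M) (dv f)]
  have h3 := congrFun (hlin (ext M g.1.1) (ext M g.1.2) f (emb (dv f)) 1
    (-((N + 1 + m : ℕ) : M)⁻¹)) p
  have e : (fun p => 1 * f p + -((N + 1 + m : ℕ) : M)⁻¹ * emb (dv f) p) = part2 f := by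
    funext p; simp only [part2]; ring
  rw [e, hembc _ _ _ hg1] at h3
  rw [h3]
  have h4 : φ g (part2 f p) = φ g (f p) - ((N + 1 + m : ℕ) : M)⁻¹ * φ g (emb (dv f) p) := by
    simp only [part2, map_sub, map_mul, map_inv₀, map_natCast]
  have h5 : φ g (emb (dv f) p) = emb (act1 (ext M g.1.2) (dv f)) p := h2
  rw [h4, h5, hφ g p]
  ring

end

theorem t_FIN (hCOV : S_COV) (hDVA : S_DVA) (hEMB : S_EMB) (hACT : S_ACT) (hSEC : S_SEC)
    (hCRD : S_CRD) (hTRD : S_TRD) : S_FIN := by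
  intro N m hN hm hco K M _ _ _ _ f hf htop φ hφ
  have : CharZero M := charZero_of_injective_algebraMap (algebraMap K M).injective
  obtain ⟨a, k, hk⟩ := num N m hm hco
  obtain ⟨-, -, -, hembm⟩ := hEMB (N + 1) m M
  have hdv2 := dv_part2 (M := M) hDVA hEMB f
  have hacts2 := acts_part2 hDVA hEMB hACT f φ hφ
  -- the generators
  let x : J2 N m ⊕ Mon (N + 1) m → M := Sum.elim (fun j => part2 f j.1) (dv f)
  have hx : AlgebraicIndependent K x := by
    set A := IntermediateField.adjoin K (Set.range x) with hA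
    have hx1 : ∀ j : J2 N m, part2 f j.1 ∈ A := fun j =>
      IntermediateField.subset_adjoin K _ ⟨Sum.inl j, rfl⟩
    have hx2 : ∀ β, dv f β ∈ A := fun β =>
      IntermediateField.subset_adjoin K _ ⟨Sum.inr β, rfl⟩
    have hemb : ∀ p, emb (dv f) p ∈ A := by
      intro p
      have h1 := (hEMB (N + 1) m A).2.2.2 M (algebraMap A M) (fun β => ⟨dv f β, hx2 β⟩)
      have h2 := congrFun h1 p
      have h3 : (fun β => algebraMap A M (⟨dv f β, hx2 β⟩ : A)) = dv f := rfl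
      rw [h3] at h2
      rw [h2]
      exact (emb (fun β => (⟨dv f β, hx2 β⟩ : A)) p).2
    have hp2 : ∀ p, part2 f p ∈ A := by
      intro p
      obtain ⟨T, -, hT⟩ := hSEC N m
      rw [(hT M (part2 f)).1 hdv2 p]
      refine sum_mem fun j _ => mul_mem ?_ (hx1 j)
      exact SubfieldClass.ratCast_mem A (T p j)
    have hfA : ∀ p, f p ∈ A := by
      intro p
      have e : f p = part2 f p + ((N + 1 + m : ℕ) : M)⁻¹ * emb (dv f) p := by
        simp only [part2]; ring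
      rw [e]
      exact add_mem (hp2 p) (mul_mem (inv_mem (natCast_mem A _)) (hemb p))
    refine (hTRD K M (J2 N m ⊕ Mon (N + 1) m) (Ix N m) x f hf hfA ?_).1
    rw [hCRD.1 N m, Nat.card_sum]
  have hgen : Gen N m K M (part2 f) := ⟨hdv2, hx.comp Sum.inl Sum.inl_injective⟩
  obtain ⟨c, h, hc1, hh1, hc2, hh2, hli⟩ := hCOV N m a hN hm ⟨k, hk.symm⟩ K M (part2 f) hgen φ hacts2
  exact ⟨a, k, ⟨hN, hm, hk, f, hf, htop, φ, hφ, c, h, hc1, hh1, hc2, hh2, hli⟩, rfl, rfl⟩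

end Pool.Agent.Z15.ME.FIN
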