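import Pool.Agent.Z15.ME.Stm

/-! GAL: fixed elements. -/

set_option autoImplicit false

namespace Pool.Agent.Z15.ME.GAL

/-- GAL. -/
theorem t_GAL : S_GAL := by
  intro E Ω _ _ _ _ _ _ w hw
  haveI : IsAlgClosure E Ω := ⟨inferInstance, inferInstance⟩
  haveI : Normal E Ω := IsAlgClosure.normal E Ω
  haveI : IsGalois E Ω := {}
  have h := (InfiniteGalois.mem_bot_iff_fixed (k := E) (K := Ω) w).2 hw
  exact IntermediateField.mem_bot.1 h

end Pool.Agent.Z15.ME.GAL
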