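import Pool.Agent.Z15.ME.Stm2

set_option autoImplicit false

namespace Pool.Agent.Z15.ME.GEN

open MvPolynomial Pool.Agent.Z15.ME

section
variable {N m : ℕ} {M : Type} [Field M] [CharZero M]

lemma dv_part2 (hDVA : S_DVA) (hEMB : S_EMB) (f : Ix N m → M) : dv (part2 f) = 0 := by
  obtain ⟨-, hlin, -⟩ := hDVA (N + 1) m M
  obtain ⟨hemb, -⟩ := hEMB (N + 1) m M
  have h1 : part2 f = fun p => (1 : M) * f p + (-((N + 1 + m : ℕ) : M)⁻¹) * emb (dv f) p := by
    funext p
    unfold part2
    ring
  rw [h1, hlin, hemb]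
  funext β
  have h2 : ((N + 1 + m : ℕ) : M) ≠ 0 := by
    have : N + 1 + m ≠ 0 := by omega
    exact_mod_cast this
  simp only [Pi.zero_apply]
  field_simp
  ring

omit [CharZero M] in
lemma part2_act (hACT : S_ACT) (hDVA : S_DVA) (hEMB : S_EMB)
    (A A' : Matrix (Fin (N + 1)) (Fin (N + 1)) M) (h : A * A' = 1) (s : M) (f : Ix N m → M) :
    part2 (fun p => s * act A A' f p) = fun p => s * act A A' (part2 f) p := by
  have h' : A' * A = 1 := mul_eq_one_comm.1 h
  obtain ⟨hdv, hlin, -⟩ := hDVA (N + 1) m M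
  obtain ⟨-, heq, hel, -⟩ := hEMB (N + 1) m M
  obtain ⟨-, -, -, -, -, -, -, -, -, hal, -⟩ := hACT (N + 1) (m + 1) M
  have h1 : part2 f = fun p => (1 : M) * f p + (-((N + 1 + m : ℕ) : M)⁻¹) * emb (dv f) p := by
    funext p
    unfold part2
    ring
  have h2 : (fun p => s * act A A' f p) = fun p => s * act A A' f p + 0 * act A A' f p := by
    funext p
    ring
  have h3 : dv (fun p => s * act A A' f p) = fun β => s * act1 A' (dv f) β + 0 * act1 A' (dv f) β := by
    rw [h2, hlin, hdv A A' f h']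
  have h4 : emb (dv (fun p => s * act A A' f p)) = fun p => s * act A A' (emb (dv f)) p +
      0 * act A A' (emb (dv f)) p := by
    rw [h3, hel, heq A A' (dv f) h]
  rw [h1, hal]
  funext p
  unfold part2
  rw [h4]
  ring

end

theorem t_GEN (hACT : S_ACT) (hDVA : S_DVA) (hEMB : S_EMB) (hAIV : S_AIV) (hAIC : S_AIC)
    (_hSEC : S_SEC) : S_GEN := by
  intro N m a k K M _ _ _ _ D
  have : CharZero M := charZero_of_injective_algebraMap (algebraMap K M).injective
  refine ⟨dv_part2 hDVA hEMB _, ?_⟩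
  obtain ⟨hgen, -, -, -⟩ := hAIV N m a k K M D
  obtain ⟨hai, hdet, hHH, htt, hC1, hCD⟩ := hAIC N m a k K M D
  have hC1u : IsUnit D.C1.det := by
    rw [hC1]
    exact (isUnit_iff_ne_zero.2 hHH).pow k
  have hft : part2 D.ft = fun p => (D.HH ^ a)⁻¹ * act D.C1⁻¹ D.C1 (part2 D.f) p := by
    unfold Data.ft
    exact part2_act hACT hDVA hEMB _ _ (Matrix.nonsing_inv_mul _ hC1u) _ _
  -- the field of the coefficients
  have hmem : ∀ p, part2 D.f p ∈ D.F := fun p =>
    IntermediateField.subset_adjoin K _ ⟨p, rfl⟩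
  let f2 : Ix N m → D.F := fun p => ⟨part2 D.f p, hmem p⟩
  have hf2 : AlgebraicIndependent K fun j : J2 N m => f2 j.1 := by
    refine AlgebraicIndependent.of_comp D.F.val ?_
    exact hgen.2
  -- the polynomial ring
  let V := Option (Fin (N + 1) × Fin (N + 1))
  let P := MvPolynomial V D.F
  let XC : Matrix (Fin (N + 1)) (Fin (N + 1)) P := fun i j => X (some (j, i))
  let d : P := XC.det * X none
  let vM : V → M := fun o => o.elim D.HH fun p => D.CC p.2 p.1
  let v1 : V → D.F := fun o => o.elim 1 fun p => (1 : Matrix (Fin (N + 1)) (Fin (N + 1)) D.F) p.2 p.1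
  let eM : P →ₐ[D.F] M := aeval vM
  let e1 : P →ₐ[D.F] D.F := aeval v1
  have heM : Function.Injective eM := hai
  have heMX : ∀ o : V, eM (X o) = vM o := fun o => aeval_X vM o
  have he1X : ∀ o : V, e1 (X o) = v1 o := fun o => aeval_X v1 o
  have heMC : ∀ c : D.F, eM (C c) = (c : M) := fun c => aeval_C vM c
  have he1C : ∀ c : D.F, e1 (C c) = c := fun c => aeval_C v1 c
  have hXM : XC.map eM = D.CC := by
    funext i j
    exact heMX (some (j, i))
  have hX1 : XC.map e1 = 1 := by
    funext i j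
    exact he1X (some (j, i))
  have hdM : eM d = D.CC.det * D.HH := by
    change eM (XC.det * X none) = _
    rw [map_mul, AlgHom.map_det]
    change (XC.map eM).det * _ = _
    rw [hXM, heMX none]
    rfl
  have hd1 : e1 d = 1 := by
    change e1 (XC.det * X none) = _
    rw [map_mul, AlgHom.map_det]
    change (XC.map e1).det * _ = _
    rw [hX1, he1X none, Matrix.det_one, one_mul]
    rfl
  let A := Localization.Away d
  have huM : IsUnit (eM.toRingHom d) := by
    change IsUnit (eM d)
    rw [hdM]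
    exact isUnit_iff_ne_zero.2 (mul_ne_zero hdet hHH)
  have hu1 : IsUnit (e1.toRingHom d) := by
    change IsUnit (e1 d)
    rw [hd1]
    exact isUnit_one
  let rM : A →+* M := IsLocalization.Away.lift d huM
  let r1 : A →+* D.F := IsLocalization.Away.lift d hu1
  have hrM : ∀ p : P, rM (algebraMap P A p) = eM p := fun p =>
    IsLocalization.Away.lift_eq d huM p
  have hr1 : ∀ p : P, r1 (algebraMap P A p) = e1 p := fun p =>
    IsLocalization.Away.lift_eq d hu1 p
  have hud : IsUnit (algebraMap P A d) := IsLocalization.Away.algebraMap_isUnit d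
  have hinj : Function.Injective rM := by
    rw [injective_iff_map_eq_zero]
    intro x hx
    obtain ⟨n, p, hp⟩ := IsLocalization.Away.surj d x
    have h1 : eM p = 0 := by
      rw [← hrM, ← hp, map_mul, hx, zero_mul]
    have h2 : p = 0 := (map_eq_zero_iff eM heM).1 h1
    rw [h2, map_zero] at hp
    exact (hud.pow n).mul_left_eq_zero.1 hp
  let lM : A →ₐ[K] M := { rM with
    commutes' := fun r => by
      change rM (algebraMap K A r) = _
      rw [IsScalarTower.algebraMap_apply K P A, hrM, IsScalarTower.algebraMap_apply K D.F P,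
        AlgHom.commutes]
      rfl }
  let l1 : A →ₐ[K] D.F := { r1 with
    commutes' := fun r => by
      change r1 (algebraMap K A r) = _
      rw [IsScalarTower.algebraMap_apply K P A, hr1, IsScalarTower.algebraMap_apply K D.F P,
        AlgHom.commutes]
      rfl }
  -- the units
  let CA : Matrix (Fin (N + 1)) (Fin (N + 1)) A := XC.map (algebraMap P A)
  have hdetA : CA.det = algebraMap P A XC.det := (RingHom.map_det (algebraMap P A) XC).symm
  have huu : IsUnit (CA.det * algebraMap P A (X none)) := by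
    rw [hdetA, ← map_mul]
    exact hud
  obtain ⟨uD, huD⟩ := (IsUnit.mul_iff.1 huu).1
  obtain ⟨uH, huH⟩ := (IsUnit.mul_iff.1 huu).2
  have hCAM : CA.map rM = D.CC := by
    rw [← hXM]
    funext i j
    exact hrM _
  have hCA1 : CA.map r1 = 1 := by
    rw [← hX1]
    funext i j
    exact hr1 _
  have huDM : rM uD = D.CC.det := by
    rw [huD, RingHom.map_det, ← hCAM]
    rfl
  have huD1 : r1 uD = 1 := by
    rw [huD, RingHom.map_det]
    change (CA.map r1).det = 1
    rw [hCA1, Matrix.det_one]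
  have huHM : rM uH = D.HH := by
    rw [huH, hrM]
    exact heMX none
  have huH1 : r1 uH = 1 := by
    rw [huH, hr1]
    exact he1X none
  have hinvM : ∀ u : Aˣ, rM ((u⁻¹ : Aˣ) : A) = (rM u)⁻¹ := fun u => by
    rw [← map_units_inv]
  have hinv1 : ∀ u : Aˣ, r1 ((u⁻¹ : Aˣ) : A) = (r1 u)⁻¹ := fun u => by
    rw [← map_units_inv]
  let ut : Aˣ := uD * (uH ^ k)⁻¹
  have hutM : rM ut = D.tt := by
    change rM ((uD * (uH ^ k)⁻¹ : Aˣ) : A) = _
    rw [Units.val_mul, map_mul, hinvM, Units.val_pow_eq_pow_val, map_pow, huDM, huHM]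
    exact (div_eq_mul_inv _ _).symm
  have hut1 : r1 ut = 1 := by
    change r1 ((uD * (uH ^ k)⁻¹ : Aˣ) : A) = _
    rw [Units.val_mul, map_mul, hinv1, Units.val_pow_eq_pow_val, map_pow, huD1, huH1]
    simp
  let DA : Matrix (Fin (N + 1)) (Fin (N + 1)) A := Matrix.diagonal fun i => if i = 0 then (ut : A) else 1
  let DA' : Matrix (Fin (N + 1)) (Fin (N + 1)) A :=
    Matrix.diagonal fun i => if i = 0 then ((ut⁻¹ : Aˣ) : A) else 1
  have hDD : DA' * DA = 1 := by
    rw [Matrix.diagonal_mul_diagonal, ← Matrix.diagonal_one]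
    congr 1
    funext i
    by_cases hi : i = 0 <;> simp [hi]
  have hDAM : DA.map rM = D.DD := by
    unfold Data.DD
    rw [Matrix.diagonal_map (map_zero rM)]
    congr 1
    funext i
    by_cases hi : i = 0 <;> simp [hi, hutM]
  have hDA'1 : DA'.map r1 = 1 := by
    rw [Matrix.diagonal_map (map_zero r1), ← Matrix.diagonal_one]
    congr 1
    funext i
    by_cases hi : i = 0
    · simp only [hi, if_true]
      rw [hinv1, hut1, inv_one]
    · simp [hi]
  let C1A : Matrix (Fin (N + 1)) (Fin (N + 1)) A := CA * DA'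
  let C1A' : Matrix (Fin (N + 1)) (Fin (N + 1)) A := DA * CA⁻¹
  have hCAu : IsUnit CA.det := ⟨uD, huD⟩
  have hCC : C1A * C1A' = 1 := by
    change CA * DA' * (DA * CA⁻¹) = 1
    rw [Matrix.mul_assoc, ← Matrix.mul_assoc DA', hDD, Matrix.one_mul, Matrix.mul_nonsing_inv _ hCAu]
  have hC1M : C1A.map rM = D.C1 := by
    have h1 : C1A * DA = CA := by
      change CA * DA' * DA = CA
      rw [Matrix.mul_assoc, hDD, Matrix.mul_one]
    have h2 : C1A.map rM * D.DD = D.CC := by
      rw [← hDAM, ← Matrix.map_mul, h1, hCAM]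
    have h3 : IsUnit D.DD.det := by
      unfold Data.DD
      rw [Matrix.det_diagonal, isUnit_iff_ne_zero, Finset.prod_ne_zero_iff]
      intro i _
      by_cases hi : i = 0 <;> simp [hi, htt]
    have h4 : C1A.map rM * D.DD = D.C1 * D.DD := by rw [h2, hCD]
    have h5 := congrArg (fun Z => Z * D.DD⁻¹) h4
    simp only [Matrix.mul_assoc, Matrix.mul_nonsing_inv _ h3, Matrix.mul_one] at h5
    exact h5
  have hC1'M : C1A'.map rM = D.C1⁻¹ := by
    have h1 : C1A.map rM * C1A'.map rM = 1 := by
      rw [← Matrix.map_mul, hCC, Matrix.map_one _ (map_zero rM) (map_one rM)]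
    rw [hC1M] at h1
    exact (Matrix.inv_eq_right_inv h1).symm
  have hC11 : C1A.map r1 = 1 := by
    change (CA * DA').map r1 = 1
    rw [Matrix.map_mul, hCA1, hDA'1, Matrix.one_mul]
  have hC1'1 : C1A'.map r1 = 1 := by
    have h1 : C1A.map r1 * C1A'.map r1 = 1 := by
      rw [← Matrix.map_mul, hCC, Matrix.map_one _ (map_zero r1) (map_one r1)]
    rwa [hC11, Matrix.one_mul] at h1
  let w : Ix N m → A := fun p => ((uH⁻¹ : Aˣ) : A) ^ a *
    act C1A' C1A (fun p => algebraMap P A (C (f2 p))) p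
  have hw1 : ∀ p, l1 (w p) = f2 p := by
    intro p
    obtain ⟨-, -, -, -, -, -, -, -, -, -, hnat⟩ := hACT (N + 1) (m + 1) A
    obtain ⟨-, -, -, -, -, -, -, hone, -⟩ := hACT (N + 1) (m + 1) D.F
    change r1 (w p) = _
    have h1 := hnat D.F r1 C1A' C1A (fun p => algebraMap P A (C (f2 p)))
    rw [hC11, hC1'1] at h1
    have h2 : (fun p => r1 (algebraMap P A (C (f2 p)))) = f2 := by
      funext p
      rw [hr1]
      exact he1C _
    rw [h2, hone] at h1
    change r1 (((uH⁻¹ : Aˣ) : A) ^ a * act C1A' C1A (fun p => algebraMap P A (C (f2 p))) p) = _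
    rw [map_mul, map_pow, hinv1, huH1, ← congrFun h1 p]
    simp
  have hwM : ∀ p, lM (w p) = part2 D.ft p := by
    intro p
    obtain ⟨-, -, -, -, -, -, -, -, -, -, hnat⟩ := hACT (N + 1) (m + 1) A
    change rM (w p) = _
    have h1 := hnat M rM C1A' C1A (fun p => algebraMap P A (C (f2 p)))
    rw [hC1M, hC1'M] at h1
    have h2 : (fun p => rM (algebraMap P A (C (f2 p)))) = part2 D.f := by
      funext p
      rw [hrM]
      exact heMC _
    rw [h2] at h1
    change rM (((uH⁻¹ : Aˣ) : A) ^ a * act C1A' C1A (fun p => algebraMap P A (C (f2 p))) p) = _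
    rw [map_mul, map_pow, hinvM, huHM, ← congrFun h1 p, hft, inv_pow]
  have hA : AlgebraicIndependent K fun j : J2 N m => w j.1 := by
    refine AlgebraicIndependent.of_comp l1 ?_
    have h1 : (⇑l1 ∘ fun j : J2 N m => w j.1) = fun j : J2 N m => f2 j.1 := by
      funext j
      exact hw1 j.1
    rw [h1]
    exact hf2
  have hB := hA.map' (f := lM) hinj
  have h1 : (⇑lM ∘ fun j : J2 N m => w j.1) = fun j : J2 N m => part2 D.ft j.1 := by
    funext j
    exact hwM j.1
  rw [h1] at hB
  exact hB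

end Pool.Agent.Z15.ME.GEN
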