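import Pool.Agent.Z15.ME.Stm2

set_option autoImplicit false

/-!
# Moduli of endomorphisms of projective space: task GLW
-/

namespace Pool.Agent.Z15.ME.GLW

open MvPolynomial

theorem act1_scal (hACT : S_ACT) {n d : ℕ} {R : Type} [CommRing R] (z : R)
    (B : Matrix (Fin n) (Fin n) R) (c : Mon n d → R) :
    act1 (z • B) c = fun α => z ^ d * act1 B c α := by
  obtain ⟨-, h2, -, h4, -⟩ := hACT n d R
  have e : z • B = B * (z • (1 : Matrix (Fin n) (Fin n) R)) := by simp
  rw [e, ← h2, h4]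

theorem t_GLW (hACT : S_ACT) (_hEVA : S_EVA) (_hDVA : S_DVA) (hSTB : S_STB) (hGAL : S_GAL) :
    S_GLW := by
  intro N m a hN hm hdvd K Ω _ _ _ _ _ f hf halg B B' hBB hfix i j α β
  obtain ⟨-, -, -, -, -, hmap1, hcomp, hone, -, -, hmap⟩ := hACT (N + 1) (m + 1) Ω
  obtain ⟨-, -, -, -, -, hmap1m, -⟩ := hACT (N + 1) m Ω
  set E := IntermediateField.adjoin K (Set.range f ∪ Set.range (act B' B f)) with hE
  have hle : IntermediateField.adjoin K (Set.range f) ≤ E :=
    IntermediateField.adjoin.mono K _ _ Set.subset_union_left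
  have halgE : Algebra.IsAlgebraic E Ω := by
    refine ⟨fun x => ?_⟩
    obtain ⟨p, hp0, hp⟩ := halg.isAlgebraic x
    refine ⟨p.map (IntermediateField.inclusion hle).toRingHom, ?_, ?_⟩
    · exact (Polynomial.map_ne_zero_iff (IntermediateField.inclusion hle).toRingHom.injective).2 hp0
    · rw [Polynomial.aeval_def, Polynomial.eval₂_map]
      rw [Polynomial.aeval_def] at hp
      exact hp
  have hBB2 : B' * B = 1 := mul_eq_one_comm.1 hBB
  have hdet : B.det ≠ 0 := by
    intro h
    have h1 := congrArg Matrix.det hBB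
    rw [Matrix.det_mul, h, zero_mul, Matrix.det_one] at h1
    exact zero_ne_one h1
  -- the action of an automorphism
  have key : ∀ σ : Ω ≃ₐ[E] Ω, ∃ z : Ω, z ^ m = 1 ∧ B.map σ = z • B := by
    intro σ
    have hσf : ∀ p, σ (f p) = f p := fun p => by
      have : f p ∈ E := IntermediateField.subset_adjoin K _ (Or.inl ⟨p, rfl⟩)
      exact σ.commutes (⟨f p, this⟩ : E)
    have hσf0 : ∀ p, σ (act B' B f p) = act B' B f p := fun p => by
      have : act B' B f p ∈ E := IntermediateField.subset_adjoin K _ (Or.inr ⟨p, rfl⟩)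
      exact σ.commutes (⟨act B' B f p, this⟩ : E)
    have hm1 := hmap Ω (σ : Ω →+* Ω) B' B f
    have hσf' : (fun p => (σ : Ω →+* Ω) (f p)) = f := funext hσf
    have hσf0' : (fun p => (σ : Ω →+* Ω) (act B' B f p)) = act B' B f := funext hσf0
    rw [hσf', hσf0'] at hm1
    set Bs := B.map (σ : Ω →+* Ω) with hBs
    set Bs' := B'.map (σ : Ω →+* Ω) with hBs'
    have e1 : Bs * Bs' = 1 := by
      rw [hBs, hBs', ← Matrix.map_mul, hBB, Matrix.map_one _ (map_zero _) (map_one _)]
    have e2 : act Bs Bs' (act B' B f) = f := by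
      rw [← hm1, hcomp, e1, hone]
    rw [hcomp] at e2
    have e3 : Bs * B' * (B * Bs') = 1 := by
      rw [Matrix.mul_assoc, ← Matrix.mul_assoc B' B, hBB2, Matrix.one_mul, e1]
    obtain ⟨z, hz, hs⟩ := hSTB N m hN hm K Ω f hf B hdet hfix _ _ e3 e2
    refine ⟨z, hz, ?_⟩
    have e4 : Bs = Bs * B' * B := by rw [Matrix.mul_assoc, hBB2, Matrix.mul_one]
    have : B.map σ = Bs := rfl
    rw [this, e4, hs, Matrix.smul_mul, Matrix.one_mul]
  have hfixed : ∀ σ : Ω ≃ₐ[E] Ω, σ (act1 B (Pi.single β 1) α) = act1 B (Pi.single β 1) α ∧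
      σ (B.det ^ a * B i j) = B.det ^ a * B i j ∧ σ (B.det ^ m) = B.det ^ m := by
    intro σ
    obtain ⟨z, hz, hs⟩ := key σ
    have hd : σ B.det = z ^ (N + 1) * B.det := by
      have h1 : σ B.det = (B.map σ).det := by
        have := RingHom.map_det (σ : Ω →+* Ω) B
        simpa [RingHom.mapMatrix_apply] using this
      rw [h1, hs, Matrix.det_smul, Fintype.card_fin]
    have hb : σ (B i j) = z * B i j := by
      have h1 : σ (B i j) = (B.map σ) i j := rfl
      rw [h1, hs]; simp
    refine ⟨?_, ?_, ?_⟩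
    · have h1 := congrFun (hmap1m Ω (σ : Ω →+* Ω) B (Pi.single β 1)) α
      have h2 : (fun α => (σ : Ω →+* Ω) ((Pi.single β 1 : Mon (N + 1) m → Ω) α)) =
          Pi.single β 1 := by
        funext γ
        by_cases h : γ = β
        · subst h; simp
        · simp [Pi.single_eq_of_ne h]
      rw [h2] at h1
      have h3 : B.map (σ : Ω →+* Ω) = z • B := hs
      rw [h3, act1_scal hACT, hz] at h1
      simp only [one_mul] at h1
      exact h1.symm
    · rw [map_mul, map_pow, hd, hb]
      obtain ⟨k, hk⟩ := hdvd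
      have h1 : z ^ ((N + 1) * a + 1) = 1 := by rw [hk, pow_mul, hz, one_pow]
      calc (z ^ (N + 1) * B.det) ^ a * (z * B i j)
          = z ^ ((N + 1) * a + 1) * (B.det ^ a * B i j) := by ring
        _ = _ := by rw [h1, one_mul]
    · rw [map_pow, hd]
      calc (z ^ (N + 1) * B.det) ^ m = (z ^ m) ^ (N + 1) * B.det ^ m := by ring
        _ = _ := by rw [hz, one_pow, one_mul]
  constructor
  · obtain ⟨e, he⟩ := hGAL E Ω (act1 B (Pi.single β 1) α * (B.det ^ a * B i j)) fun σ => by
      rw [map_mul, (hfixed σ).1, (hfixed σ).2.1]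
    rw [← he]; exact e.2
  · obtain ⟨e, he⟩ := hGAL E Ω (act1 B (Pi.single β 1) α * B.det ^ m) fun σ => by
      rw [map_mul, (hfixed σ).1, (hfixed σ).2.2]
    rw [← he]; exact e.2

end Pool.Agent.Z15.ME.GLW
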