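import Pool.Agent.Z15.ME.Stm

/-!
Task IND of project ME (helper15), by helper62.
-/

set_option autoImplicit false

namespace Pool.Agent.Z15.ME.IND

open MvPolynomial Pool.Agent.Z15.ME

section
variable {K M : Type} [Field K] [Field M] [Algebra K M]

theorem charZero_of (K : Type) {M : Type} [Field K] [CharZero K] [Field M] [Algebra K M] : CharZero M :=
  charZero_of_injective_algebraMap (algebraMap K M).injective

/-- a matrix with entries in an intermediate field -/
theorem mat_lift (E : IntermediateField K M) {n : ℕ} (B : Matrix (Fin n) (Fin n) M) (h : ∀ i j, B i j ∈ E) :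
    ∃ BE : Matrix (Fin n) (Fin n) E, BE.map (algebraMap E M) = B :=
  ⟨fun i j => ⟨B i j, h i j⟩, by ext i j; rfl⟩

/-- the inverse matrix has its entries in the same field -/
theorem inv_lift (E : IntermediateField K M) {n : ℕ} {B B' : Matrix (Fin n) (Fin n) M} (hB : B * B' = 1)
    (h : ∀ i j, B i j ∈ E) : ∀ i j, B' i j ∈ E := by
  obtain ⟨BE, hBE⟩ := mat_lift E B h
  have hdet : BE.det ≠ 0 := by
    intro h0
    have h1 : B.det = 0 := by
      rw [← hBE, ← RingHom.mapMatrix_apply, ← RingHom.map_det, h0, map_zero]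
    have h2 : B.det * B'.det = 1 := by rw [← Matrix.det_mul, hB, Matrix.det_one]
    rw [h1, zero_mul] at h2
    exact zero_ne_one h2
  have h3 : BE * BE⁻¹ = 1 := Matrix.mul_nonsing_inv BE (isUnit_iff_ne_zero.mpr hdet)
  have h4 : B * (BE⁻¹).map (algebraMap E M) = 1 := by
    rw [← hBE, ← RingHom.mapMatrix_apply, ← RingHom.mapMatrix_apply, ← map_mul, h3, map_one]
  have h5 : B' = (BE⁻¹).map (algebraMap E M) := by
    have h6 : B' * B = 1 := mul_eq_one_comm.mp hB
    calc B' = B' * (B * (BE⁻¹).map (algebraMap E M)) := by rw [h4, mul_one]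
      _ = (BE⁻¹).map (algebraMap E M) := by rw [← mul_assoc, h6, one_mul]
  intro i j
  rw [h5]
  exact (BE⁻¹ i j).2

/-- the conjugate of a self map over an intermediate field is defined over it -/
theorem act_mem (hACT : S_ACT) (E : IntermediateField K M) {n d : ℕ} {A A' : Matrix (Fin n) (Fin n) M}
    {c : Fin n × Mon n d → M} (hA : ∀ i j, A i j ∈ E) (hA' : ∀ i j, A' i j ∈ E) (hc : ∀ p, c p ∈ E) :
    ∀ p, act A A' c p ∈ E := by
  obtain ⟨AE, rfl⟩ := mat_lift E A hA
  obtain ⟨AE', rfl⟩ := mat_lift E A' hA'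
  have h1 : c = fun p => algebraMap E M ⟨c p, hc p⟩ := rfl
  have h2 := (hACT n d E).2.2.2.2.2.2.2.2.2.2 M (algebraMap E M) AE AE' (fun p => ⟨c p, hc p⟩)
  intro p
  rw [h1, h2]
  exact (act AE AE' (fun p => ⟨c p, hc p⟩) p).2

end

theorem act_back (hACT : S_ACT) {n d : ℕ} {R : Type} [CommRing R] {B B' : Matrix (Fin n) (Fin n) R} (hB : B * B' = 1)
    (c : Fin n × Mon n d → R) : act B B' (act B' B c) = c := by
  have h := hACT n d R
  rw [h.2.2.2.2.2.2.1, hB, h.2.2.2.2.2.2.2.1]

theorem act1_zero (hACT : S_ACT) {n d : ℕ} {R : Type} [CommRing R] (A : Matrix (Fin n) (Fin n) R) :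
    act1 A (0 : Mon n d → R) = 0 := by
  have h := (hACT n d R).2.2.2.2.1 A 0 0 0 0
  have h0 : (fun α : Mon n d => (0 : R) * (0 : Mon n d → R) α + 0 * (0 : Mon n d → R) α) = 0 := by
    funext α; simp
  rw [h0] at h
  rw [h]
  funext α
  simp

theorem dv_act (hACT : S_ACT) (hDVA : S_DVA) {n m : ℕ} {R : Type} [CommRing R] {B B' : Matrix (Fin n) (Fin n) R}
    (hB : B * B' = 1) {c : Fin n × Mon n (m + 1) → R} (hc : dv c = 0) : dv (act B' B c) = 0 := by
  rw [(hDVA n m R).1 B' B c hB, hc, act1_zero hACT]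

theorem fx_act (hEVA : S_EVA) {n d : ℕ} {R : Type} [CommRing R] {B B' : Matrix (Fin n) (Fin n) R}
    (hB : B * B' = 1) {c : Fin n × Mon n d → R} {i : Fin n} (hc : Fx c (fun k => B k i)) :
    Fx (act B' B c) (Pi.single i 1) := by
  intro k
  have hB' : B' * B = 1 := mul_eq_one_comm.mp hB
  rw [(hEVA n d R B' B c (Pi.single i 1)).1 k]
  have h1 : B.mulVec (Pi.single i 1) = fun k => B k i := by
    rw [Matrix.mulVec_single_one]
    rfl
  rw [h1]
  have h2 : ∑ l, B' k l * eval (fun k => B k i) (cmp c l) = ∑ l, B' k l * B l i :=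
    Finset.sum_congr rfl fun l _ => by rw [hc l]
  rw [h2, ← Matrix.mul_apply, hB', Matrix.one_apply, Pi.single_apply]

theorem t_IND (hACT : S_ACT) (hDVA : S_DVA) (hEVA : S_EVA) (_hSEC : S_SEC) (hTRD : S_TRD) : S_IND := by
  intro N m q ρ a0 a1 _ _ hcard haff K M _ _ _ _ f hf B B' hB hfix
  have hcz : CharZero M := charZero_of K
  have h0 : dv (act B' B f) = 0 ∧ ∀ i, Fx (act B' B f) (Pi.single i 1) :=
    ⟨dv_act hACT hDVA hB hf.1, fun i => fx_act hEVA hB (hfix i)⟩
  refine ⟨?_, h0⟩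
  have h1 := (haff M (act B' B f)).mp h0
  set x : (Fin (N + 1) × Fin (N + 1)) ⊕ Fin q → M :=
    Sum.elim (fun p : Fin (N + 1) × Fin (N + 1) => B p.1 p.2) fun j : Fin q => act B' B f (ρ j) with hx
  set E : IntermediateField K M := IntermediateField.adjoin K (Set.range x) with hE
  have hxE : ∀ i, x i ∈ E := fun i => IntermediateField.subset_adjoin K _ ⟨i, rfl⟩
  have hBE : ∀ i j, B i j ∈ E := fun i j => hxE (Sum.inl (i, j))
  have hBE' := inv_lift E hB hBE
  have hf0 : ∀ p, act B' B f p ∈ E := by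
    intro p
    rw [h1 p]
    refine add_mem ?_ (sum_mem fun j _ => mul_mem ?_ (hxE (Sum.inr j)))
    · exact SubfieldClass.ratCast_mem E (a0 p)
    · exact SubfieldClass.ratCast_mem E (a1 p j)
  have hfE : ∀ p, f p ∈ E := by
    intro p
    rw [← act_back hACT hB f]
    exact act_mem hACT E hBE hBE' hf0 p
  refine (hTRD K M _ (J2 N m) x (fun j : J2 N m => f j.1) hf.2 (fun j => hfE j.1) ?_).1
  rw [hcard, Nat.card_eq_fintype_card, Fintype.card_sum, Fintype.card_prod, Fintype.card_fin,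
    Fintype.card_fin]
  nlinarith

end Pool.Agent.Z15.ME.IND
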