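import Pool.Agent.Z15.ME.Stm2

set_option autoImplicit false

/-! (INV) the invariant field. -/

namespace Pool.Agent.Z15.ME.INV

open MvPolynomial

/-- the covariants: `det(g)^m h` and the entries of `det(g)^a g c` -/
noncomputable def cv {R : Type} [CommRing R] {n : ℕ} (m a : ℕ) (h : R) (c g : Matrix (Fin n) (Fin n) R) :
    Option (Fin n × Fin n) → R :=
  fun o => o.elim (g.det ^ m * h) fun p => g.det ^ a * (g * c) p.1 p.2

lemma map_cv {R S : Type} [CommRing R] [CommRing S] {n : ℕ} (f : R →+* S) (m a : ℕ) (h : R)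
    (c g : Matrix (Fin n) (Fin n) R) (o : Option (Fin n × Fin n)) :
    f (cv m a h c g o) = cv m a (f h) (c.map f) (g.map f) o := by
  have hd : f g.det = (g.map f).det := RingHom.map_det f g
  cases o with
  | none => simp only [cv, Option.elim, map_mul, map_pow, hd]
  | some p =>
    have hm : f ((g * c) p.1 p.2) = (g.map f * c.map f) p.1 p.2 := by
      rw [← Matrix.map_mul]; rfl
    simp only [cv, Option.elim, map_mul, map_pow, hd, hm]

section

variable {E M S : Type} [Field E] [Field M] [Field S] [Algebra E M] [Algebra M S] [Algebra E S]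
  [IsScalarTower E M S] {n : ℕ}

/-- the polynomial in the entries of `g` -/
noncomputable def pp (m a : ℕ) (h : M) (c : Matrix (Fin n) (Fin n) M)
    (P : MvPolynomial (Option (Fin n × Fin n)) E) : MvPolynomial (Fin n × Fin n) M :=
  aeval (cv m a (C h) (c.map C) (fun i j => X (i, j))) P

lemma aeval_pp (m a : ℕ) (h : M) (c : Matrix (Fin n) (Fin n) M)
    (P : MvPolynomial (Option (Fin n × Fin n)) E) (g : Matrix (Fin n) (Fin n) S) :
    aeval (fun p : Fin n × Fin n => g p.1 p.2) (pp m a h c P) =
      aeval (cv m a (algebraMap M S h) (c.map (algebraMap M S)) g) P := by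
  unfold pp
  have h1 := MvPolynomial.comp_aeval_apply
    (f := cv m a (C h : MvPolynomial (Fin n × Fin n) M) (c.map C) (fun i j => X (i, j)))
    (((aeval (fun p : Fin n × Fin n => g p.1 p.2) : MvPolynomial (Fin n × Fin n) M →ₐ[M] S)).restrictScalars E)
    P
  rw [AlgHom.restrictScalars_apply] at h1
  rw [h1]
  congr 1
  congr 1
  funext o
  have h2 := map_cv ((aeval (fun p : Fin n × Fin n => g p.1 p.2) : MvPolynomial (Fin n × Fin n) M →ₐ[M] S) :
    MvPolynomial (Fin n × Fin n) M →+* S) m a (C h) (c.map C) (fun i j => X (i, j)) o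
  rw [AlgHom.restrictScalars_apply]
  refine Eq.trans h2 ?_
  congr 1
  · simp
  · ext i j; simp
  · ext i j
    show aeval (fun p : Fin n × Fin n => g p.1 p.2) (X (i, j) : MvPolynomial (Fin n × Fin n) M) = g i j
    rw [aeval_X]

end

theorem t_INV (_hACT : S_ACT) (hCVV : S_CVV) (hREC : S_REC) (hROO : S_ROO) (hDEN : S_DEN) (_hAIC : S_AIC) : S_INV := by
  intro N m a k K M _ _ _ _ D x hx
  obtain ⟨-, hrec⟩ := hREC N m a k K M D
  have : Infinite K := inferInstance
  set E := IntermediateField.adjoin K (Set.range D.ft) with hE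
  let v : Option (Fin (N + 1) × Fin (N + 1)) → M := fun o => o.elim D.HH fun p => D.C1 p.1 p.2
  -- `x` is a rational function in `v` over `E`
  have hxv : x ∈ IntermediateField.adjoin E (Set.range v) := by
    have h1 : IntermediateField.adjoin K (Set.range D.ft ∪ {D.HH} ∪
        Set.range fun p : Fin (N + 1) × Fin (N + 1) => D.C1 p.1 p.2) ≤
        (IntermediateField.adjoin E (Set.range v)).restrictScalars K := by
      rw [IntermediateField.adjoin_le_iff]
      rintro y ((⟨p, rfl⟩ | hy) | ⟨p, rfl⟩)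
      · have h2 : D.ft p ∈ E := IntermediateField.subset_adjoin K _ ⟨p, rfl⟩
        exact (IntermediateField.adjoin E (Set.range v)).algebraMap_mem ⟨D.ft p, h2⟩
      · rw [Set.mem_singleton_iff] at hy
        subst hy
        exact IntermediateField.subset_adjoin E _ ⟨none, rfl⟩
      · exact IntermediateField.subset_adjoin E _ ⟨some p, rfl⟩
    rw [hrec] at h1
    exact h1 IntermediateField.mem_top
  obtain ⟨P, Q, hPQ⟩ := (IntermediateField.mem_adjoin_range_iff E v x).1 hxv
  by_cases hQ : aeval v Q = 0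
  · rw [hPQ, hQ, div_zero]
    exact E.zero_mem
  -- the identity for `g` over `K`
  have hfix : ∀ (g : GP N K) (y : M), y ∈ E → D.φ g y = y := by
    intro g y hy
    induction hy using IntermediateField.adjoin_induction with
    | mem y hy =>
      obtain ⟨p, rfl⟩ := hy
      exact (hCVV N m a k K M D g).2.2.2.2 p
    | algebraMap y => exact (D.φ g).commutes y
    | add y z _ _ h1 h2 => rw [map_add, h1, h2]
    | inv y _ h1 => rw [map_inv₀, h1]
    | mul y z _ _ h1 h2 => rw [map_mul, h1, h2]
  have hv : ∀ (g : GP N K) (o : Option (Fin (N + 1) × Fin (N + 1))),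
      D.φ g (v o) = cv m a D.HH D.C1 (ext M g.1.1) o := by
    intro g o
    obtain ⟨-, h2, -, h4, -⟩ := hCVV N m a k K M D g
    have hd : (ext M g.1.1).det = algebraMap K M g.1.1.det := (RingHom.map_det _ _).symm
    cases o with
    | none => simp only [v, cv, Option.elim, h2, hd]
    | some p =>
      have h5 := congrFun (congrFun h4 p.1) p.2
      simp only [Matrix.map_apply, Matrix.smul_apply, smul_eq_mul] at h5
      simp only [v, cv, Option.elim, h5, hd]
  have hid : ∀ g : GP N K, aeval (cv m a D.HH D.C1 (ext M g.1.1)) P * aeval v Q =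
      aeval v P * aeval (cv m a D.HH D.C1 (ext M g.1.1)) Q := by
    intro g
    let ψ : M →ₐ[E] M :=
      { (D.φ g : M →+* M) with
        commutes' := fun y => hfix g _ y.2 }
    have hψ : ∀ R : MvPolynomial (Option (Fin (N + 1) × Fin (N + 1))) E,
        D.φ g (aeval v R) = aeval (cv m a D.HH D.C1 (ext M g.1.1)) R := by
      intro R
      have h1 := MvPolynomial.comp_aeval_apply (f := v) ψ R
      have h2 : (fun o => ψ (v o)) = cv m a D.HH D.C1 (ext M g.1.1) := funext fun o => hv g o
      rw [h2] at h1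
      exact h1
    have h3 : aeval (cv m a D.HH D.C1 (ext M g.1.1)) Q ≠ 0 := by
      rw [← hψ]
      exact (map_ne_zero (D.φ g)).2 hQ
    have h4 := hx g
    rw [hPQ, map_div₀, hψ, hψ] at h4
    exact (div_eq_div_iff h3 hQ).1 h4
  -- the identity of polynomials
  have hW : pp m a D.HH D.C1 P * C (aeval v Q) - C (aeval v P) * pp m a D.HH D.C1 Q = 0 := by
    apply hDEN K M (N + 1)
    intro g hg
    have hg' : g * g⁻¹ = 1 := Matrix.mul_nonsing_inv g (isUnit_iff_ne_zero.2 hg)
    have h1 := hid ⟨(g, g⁻¹), hg'⟩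
    have h2 : ∀ R : MvPolynomial (Option (Fin (N + 1) × Fin (N + 1))) E,
        eval (fun p : Fin (N + 1) × Fin (N + 1) => algebraMap K M (g p.1 p.2)) (pp m a D.HH D.C1 R) =
        aeval (cv m a D.HH D.C1 (ext M g)) R := by
      intro R
      have h3 := aeval_pp (S := M) m a D.HH D.C1 R (ext M g)
      rw [MvPolynomial.aeval_eq_eval] at h3
      simpa using h3
    rw [map_sub, map_mul, map_mul, h2, h2, eval_C, eval_C, h1, sub_self]
  let Ω := AlgebraicClosure M
  obtain ⟨γ, γ', hγ, hγH, hγC, -⟩ := hROO N m a k K M Ω D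
  have hγ' : γ' * γ = 1 := mul_eq_one_comm.1 hγ
  have hdet : γ'.det * γ.det = 1 := by rw [← Matrix.det_mul, hγ', Matrix.det_one]
  have hΩ : ∀ g : Matrix (Fin (N + 1)) (Fin (N + 1)) Ω,
      aeval (cv m a (algebraMap M Ω D.HH) (D.C1.map (algebraMap M Ω)) g) P * algebraMap M Ω (aeval v Q) =
      algebraMap M Ω (aeval v P) * aeval (cv m a (algebraMap M Ω D.HH) (D.C1.map (algebraMap M Ω)) g) Q := by
    intro g
    have h1 := congrArg (aeval (fun p : Fin (N + 1) × Fin (N + 1) => g p.1 p.2)) hW
    rw [map_sub, map_mul, map_mul, aeval_pp, aeval_pp, map_zero, sub_eq_zero, aeval_C, aeval_C] at h1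
    exact h1
  -- the special point
  have hsp : ∀ g : Matrix (Fin (N + 1)) (Fin (N + 1)) Ω,
      cv m a (algebraMap M Ω D.HH) (D.C1.map (algebraMap M Ω)) (g * γ') =
        cv m a 1 1 g := by
    intro g
    funext o
    cases o with
    | none =>
      simp only [cv, Option.elim, Matrix.det_mul, ← hγH, mul_one, mul_pow]
      rw [mul_assoc, ← mul_pow, hdet, one_pow, mul_one]
    | some p =>
      simp only [cv, Option.elim, Matrix.det_mul, ← hγC, mul_one, mul_pow, Matrix.mul_smul,
        Matrix.smul_apply, smul_eq_mul]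
      rw [Matrix.mul_assoc, hγ', Matrix.mul_one]
      calc g.det ^ a * γ'.det ^ a * (γ.det ^ a * g p.1 p.2) =
          (γ'.det * γ.det) ^ a * (g.det ^ a * g p.1 p.2) := by ring
        _ = _ := by rw [hdet, one_pow, one_mul]
  have hself : cv m a 1 1 γ = fun o => algebraMap M Ω (v o) := by
    funext o
    cases o with
    | none => simp only [cv, Option.elim, v, hγH, mul_one]
    | some p =>
      have h5 := congrFun (congrFun hγC p.1) p.2
      simp only [Matrix.map_apply, Matrix.smul_apply, smul_eq_mul] at h5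
      simp only [cv, Option.elim, v, mul_one, h5]
  -- a point with `Q ≠ 0`
  obtain ⟨g0, hg0, hQ0⟩ : ∃ g0 : Matrix (Fin (N + 1)) (Fin (N + 1)) K, g0.det ≠ 0 ∧
      aeval (cv m a 1 1 (ext E g0)) Q ≠ 0 := by
    by_contra hcon
    push Not at hcon
    have h1 : pp (E := E) (M := E) m a 1 1 Q = 0 := by
      apply hDEN K E (N + 1)
      intro g hg
      have h3 := aeval_pp (E := E) (M := E) (S := E) m a 1 1 Q (ext E g)
      rw [MvPolynomial.aeval_eq_eval] at h3
      have h4 := hcon g hg
      have h5 : (1 : Matrix (Fin (N + 1)) (Fin (N + 1)) E).map (algebraMap E E) = 1 := by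
        simp
      rw [h5, map_one, h4] at h3
      simpa using h3
    have h2 := aeval_pp (E := E) (M := E) (S := Ω) m a 1 1 Q γ
    have h5 : (1 : Matrix (Fin (N + 1)) (Fin (N + 1)) E).map (algebraMap E Ω) = 1 := by
      simp
    rw [h1, map_zero, h5, map_one, hself] at h2
    have h6 := MvPolynomial.comp_aeval_apply (f := v) (IsScalarTower.toAlgHom E M Ω) Q
    have h7 : algebraMap M Ω (aeval v Q) = 0 := h6.trans h2.symm
    exact hQ ((map_eq_zero _).1 h7)
  -- the conclusion
  have h1 := hΩ ((ext Ω g0) * γ')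
  rw [hsp] at h1
  have h2 : ∀ R : MvPolynomial (Option (Fin (N + 1) × Fin (N + 1))) E,
      aeval (cv m a 1 1 (ext Ω g0)) R = algebraMap E Ω (aeval (cv m a 1 1 (ext E g0)) R) := by
    intro R
    have h6 := MvPolynomial.comp_aeval_apply (f := cv m a 1 1 (ext E g0)) (Algebra.ofId E Ω) R
    refine Eq.trans ?_ h6.symm
    congr 1
    congr 1
    funext o
    have h7 := map_cv (algebraMap E Ω) m a 1 1 (ext E g0) o
    refine Eq.trans ?_ h7.symm
    congr 1
    simp
  rw [h2, h2] at h1
  have h3 : algebraMap M Ω (algebraMap E M (aeval (cv m a 1 1 (ext E g0)) P) * aeval v Q) =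
      algebraMap M Ω (aeval v P * algebraMap E M (aeval (cv m a 1 1 (ext E g0)) Q)) := by
    rw [map_mul, map_mul, ← IsScalarTower.algebraMap_apply, ← IsScalarTower.algebraMap_apply]
    exact h1
  have h4 := (algebraMap M Ω).injective h3
  have h5 : algebraMap E M (aeval (cv m a 1 1 (ext E g0)) Q) ≠ 0 := (map_ne_zero _).2 hQ0
  have h6 : x = algebraMap E M (aeval (cv m a 1 1 (ext E g0)) P / aeval (cv m a 1 1 (ext E g0)) Q) := by
    rw [hPQ, map_div₀, div_eq_div_iff hQ h5]
    exact h4.symm
  rw [h6]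
  exact (aeval (cv m a 1 1 (ext E g0)) P / aeval (cv m a 1 1 (ext E g0)) Q : E).2

end Pool.Agent.Z15.ME.INV
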