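import Pool.Agent.Z15.ME.T_IND

/-!
Task PAI of project ME (helper15), by helper62.
-/

set_option autoImplicit false

namespace Pool.Agent.Z15.ME.PAI

open MvPolynomial Pool.Agent.Z15.ME Pool.Agent.Z15.ME.IND

theorem cmp_map {n d : ℕ} {R S : Type} [CommRing R] [CommRing S] (σ : R →+* S) (c : Fin n × Mon n d → R)
    (k : Fin n) : cmp (fun p => σ (c p)) k = MvPolynomial.map σ (cmp c k) := by
  unfold cmp pol
  rw [map_sum]
  refine Finset.sum_congr rfl fun α _ => ?_
  rw [map_monomial]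

theorem eval_nat {n : ℕ} {R S : Type} [CommRing R] [CommRing S] (σ : R →+* S) (x : Fin n → R)
    (p : MvPolynomial (Fin n) R) : eval (fun i => σ (x i)) (MvPolynomial.map σ p) = σ (eval x p) := by
  rw [eval_map]
  have h : σ (eval₂ (RingHom.id R) x p) = eval₂ (σ.comp (RingHom.id R)) (σ ∘ x) p :=
    eval₂_comp_left σ (RingHom.id R) x p
  rw [RingHom.comp_id] at h
  exact h.symm

theorem jac_map {n d : ℕ} {R S : Type} [CommRing R] [CommRing S] (σ : R →+* S) (c : Fin n × Mon n d → R)
    (x : Fin n → R) : jac (fun p => σ (c p)) (fun i => σ (x i)) = (jac c x).map σ := by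
  ext k j
  rw [Matrix.map_apply]
  unfold jac
  rw [cmp_map, pderiv_map, eval_nat]

theorem jac_unit {n d : ℕ} {R S : Type} [CommRing R] [CommRing S] (σ : R →+* S) (c : Fin n × Mon n d → R)
    (i : Fin n) : jac (fun p => σ (c p)) (Pi.single i 1) = (jac c (Pi.single i 1)).map σ := by
  rw [← jac_map]
  congr 1
  funext j
  rw [Pi.single_apply, Pi.single_apply]
  split_ifs
  · rw [map_one]
  · rw [map_zero]

theorem trace_nat {n : ℕ} {R S : Type} [CommRing R] [CommRing S] (σ : R →+* S)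
    (A : Matrix (Fin n) (Fin n) R) : ((A.map σ) ^ 2).trace = σ ((A ^ 2).trace) := by
  have h : (A.map σ) ^ 2 = (A ^ 2).map σ := by
    have := map_pow σ.mapMatrix A 2
    rw [RingHom.mapMatrix_apply, RingHom.mapMatrix_apply] at this
    exact this.symm
  rw [h]
  unfold Matrix.trace
  rw [map_sum]
  rfl

/-- the monomial `X_i ^ d` -/
noncomputable def e {n : ℕ} (d : ℕ) (i : Fin n) : Mon n d := ⟨Finsupp.single i d, Finsupp.degree_single i d⟩

theorem coef_unit {n d : ℕ} {R : Type} [CommRing R] (c : Fin n × Mon n d → R) (i k : Fin n) :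
    eval (Pi.single i 1) (cmp c k) = c (k, e d i) := by
  unfold cmp pol
  rw [map_sum, Finset.sum_eq_single (e d i)]
  · rw [eval_monomial, Finsupp.prod_fintype _ _ (fun i => pow_zero _)]
    have h : ∏ j, (Pi.single i 1 : Fin n → R) j ^ (e d i).1 j = 1 := by
      refine Finset.prod_eq_one fun j _ => ?_
      show (Pi.single i 1 : Fin n → R) j ^ (Finsupp.single i d) j = 1
      by_cases hj : j = i
      · subst hj
        rw [Pi.single_eq_same, one_pow]
      · rw [Finsupp.single_eq_of_ne hj, pow_zero]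
    rw [h, mul_one]
  · intro α _ hα
    rw [eval_monomial, Finsupp.prod_fintype _ _ (fun i => pow_zero _)]
    have h : ∃ j, j ≠ i ∧ α.1 j ≠ 0 := by
      by_contra hcon
      push Not at hcon
      apply hα
      apply Subtype.ext
      have h1 : α.1 = Finsupp.single i (α.1 i) := by
        ext j
        by_cases hj : j = i
        · subst hj; rw [Finsupp.single_eq_same]
        · rw [Finsupp.single_eq_of_ne hj, hcon j hj]
      have h2 := α.2
      rw [h1, Finsupp.degree_single] at h2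
      rw [h2] at h1
      exact h1
    obtain ⟨j, hj, hj'⟩ := h
    rw [Finset.prod_eq_zero (Finset.mem_univ j), mul_zero]
    rw [Pi.single_eq_of_ne hj, zero_pow hj']
  · intro h
    exact absurd (Finset.mem_univ _) h

theorem fx_unit {n d : ℕ} {R : Type} [CommRing R] {c : Fin n × Mon n d → R} {i : Fin n}
    (h : Fx c (Pi.single i 1)) (k : Fin n) : c (k, e d i) = if k = i then 1 else 0 := by
  rw [← coef_unit c i k, h k, Pi.single_apply]

/-- two independent vectors are the first two columns of an invertible matrix -/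
theorem complete {E : Type} [Field E] {N : ℕ} (hN : 2 ≤ N) (x y : Fin (N + 1) → E)
    (h : LinearIndependent E ![x, y]) : ∃ g : Matrix (Fin (N + 1)) (Fin (N + 1)) E, g.det ≠ 0 ∧
      (∀ k, g k 0 = x k) ∧ ∀ k, g k 1 = y k := by
  obtain ⟨n, rfl⟩ : ∃ n, N = n + 1 := ⟨N - 1, by omega⟩
  have key : ∀ k ≤ n, ∃ w : Fin (k + 2) → (Fin (n + 1 + 1) → E), LinearIndependent E w ∧ w 0 = x ∧
      w 1 = y := by
    intro k
    induction k with
    | zero => exact fun _ => ⟨![x, y], h, rfl, rfl⟩
    | succ k ih =>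
      intro hk
      obtain ⟨w, hw, h0, h1⟩ := ih (by omega)
      obtain ⟨v, hv⟩ := exists_linearIndependent_snoc_of_lt_finrank hw (by
        rw [Module.finrank_fintype_fun_eq_card, Fintype.card_fin]; omega)
      refine ⟨Fin.snoc w v, hv, ?_, ?_⟩
      · have h2 : (0 : Fin (k + 1 + 2)) = Fin.castSucc (0 : Fin (k + 2)) := rfl
        rw [h2, Fin.snoc_castSucc (α := fun _ => Fin (n + 1 + 1) → E), h0]
      · have h2 : (1 : Fin (k + 1 + 2)) = Fin.castSucc (1 : Fin (k + 2)) := rfl
        rw [h2, Fin.snoc_castSucc (α := fun _ => Fin (n + 1 + 1) → E), h1]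
  obtain ⟨w, hw, h0, h1⟩ := key n le_rfl
  refine ⟨fun k i => w i k, ?_, fun k => congrFun h0 k, fun k => congrFun h1 k⟩
  have h2 : IsUnit (Matrix.of fun k i => w i k) := by
    rw [← Matrix.linearIndependent_cols_iff_isUnit]
    exact hw
  rw [Matrix.isUnit_iff_isUnit_det] at h2
  exact h2.ne_zero

section
variable (N m : ℕ)

/-- the free coordinates of the self maps without divergence fixing the first two basis vectors -/
abbrev J12 : Type := {j : J2 N m // j.1.2 ≠ e (m + 1) 0 ∧ j.1.2 ≠ e (m + 1) 1}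

open Classical in
/-- the coordinates in `J2` of the generic self map fixing the first two basis vectors -/
noncomputable def u (j : J2 N m) : MvPolynomial (J12 N m) ℚ :=
  if h : j.1.2 ≠ e (m + 1) 0 ∧ j.1.2 ≠ e (m + 1) 1 then X ⟨j, h⟩
  else if j.1.2 = e (m + 1) 0 then (if j.1.1 = 0 then 1 else 0) else (if j.1.1 = 1 then 1 else 0)

/-- the generic self map fixing the first two basis vectors -/
noncomputable def c0 (T : Ix N m → J2 N m → ℚ) (p : Ix N m) : MvPolynomial (J12 N m) ℚ :=
  ∑ j, C (T p j) * u N m j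

variable {N m}

theorem u_val {R : Type} [Field R] [CharZero R] {c : Ix N m → R} (h0 : Fx c (Pi.single 0 1))
    (h1 : Fx c (Pi.single 1 1)) (j : J2 N m) :
    aeval (fun i : J12 N m => c i.1.1) (u N m j) = c j.1 := by
  classical
  unfold u
  split_ifs with h h' h'' h'''
  · rw [aeval_X]
  · have h2 := fx_unit h0 j.1.1
    rw [← h', h''] at h2
    rw [map_one]
    have h3 : (j.1.1, j.1.2) = j.1 := rfl
    rw [← h3, h'', h2, if_pos rfl]
  · have h2 := fx_unit h0 j.1.1
    rw [← h', if_neg h''] at h2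
    rw [map_zero, ← h2]
  · have hj : j.1.2 = e (m + 1) 1 := by
      by_contra hcon
      exact h ⟨h', hcon⟩
    have h2 := fx_unit h1 j.1.1
    rw [← hj, if_pos h'''] at h2
    rw [map_one, ← h2]
  · have hj : j.1.2 = e (m + 1) 1 := by
      by_contra hcon
      exact h ⟨h', hcon⟩
    have h2 := fx_unit h1 j.1.1
    rw [← hj, if_neg h'''] at h2
    rw [map_zero, ← h2]

theorem c0_val {T : Ix N m → J2 N m → ℚ} {R : Type} [Field R] [CharZero R]
    (hT : ∀ c : Ix N m → R, dv c = 0 ↔ ∀ p, c p = ∑ j, (T p j : R) * c j.1)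
    {c : Ix N m → R} (hc : dv c = 0) (h0 : Fx c (Pi.single 0 1))
    (h1 : Fx c (Pi.single 1 1)) (p : Ix N m) :
    aeval (fun i : J12 N m => c i.1.1) (c0 N m T p) = c p := by
  unfold c0
  rw [map_sum, (hT c).mp hc p]
  refine Finset.sum_congr rfl fun j _ => ?_
  rw [map_mul, u_val h0 h1, aeval_C]
  rfl

/-- the difference of the traces -/
noncomputable def P0 (N m : ℕ) (T : Ix N m → J2 N m → ℚ) : MvPolynomial (J12 N m) ℚ :=
  (jac (c0 N m T) (Pi.single 0 1) ^ 2).trace - (jac (c0 N m T) (Pi.single 1 1) ^ 2).trace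

theorem P0_val {T : Ix N m → J2 N m → ℚ} {R : Type} [Field R] [CharZero R]
    (hT : ∀ c : Ix N m → R, dv c = 0 ↔ ∀ p, c p = ∑ j, (T p j : R) * c j.1)
    {c : Ix N m → R} (hc : dv c = 0) (h0 : Fx c (Pi.single 0 1)) (h1 : Fx c (Pi.single 1 1)) :
    aeval (fun i : J12 N m => c i.1.1) (P0 N m T) =
      (jac c (Pi.single 0 1) ^ 2).trace - (jac c (Pi.single 1 1) ^ 2).trace := by
  set σ : MvPolynomial (J12 N m) ℚ →+* R :=
    (aeval (fun i : J12 N m => c i.1.1) : MvPolynomial (J12 N m) ℚ →ₐ[ℚ] R).toRingHom with hσ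
  have hcσ : c = fun p => σ (c0 N m T p) := by
    funext p
    exact (c0_val hT hc h0 h1 p).symm
  have h2 : ∀ i, (jac c (Pi.single i 1) ^ 2).trace = σ ((jac (c0 N m T) (Pi.single i 1) ^ 2).trace) := by
    intro i
    rw [← trace_nat, ← jac_unit, ← hcσ]
  rw [h2, h2, ← map_sub]
  rfl

end

theorem card_le (N m : ℕ) (hN : 2 ≤ N) :
    Nat.card ((Fin (N + 1) ⊕ Fin (N + 1)) ⊕ J12 N m) ≤ Nat.card (J2 N m) := by
  have h0 : (0 : Fin (N + 1)) ≠ Fin.last N := by
    intro h
    have := congrArg Fin.val h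
    simp at this
    omega
  have hv1 : (1 : Fin (N + 1)).val = 1 := by
    show 1 % (N + 1) = 1
    exact Nat.mod_eq_of_lt (by omega)
  have h1 : (1 : Fin (N + 1)) ≠ Fin.last N := by
    intro h
    have := congrArg Fin.val h
    rw [Fin.val_last, hv1] at this
    omega
  have h01 : (0 : Fin (N + 1)) ≠ 1 := by
    intro h
    have := congrArg Fin.val h
    rw [hv1] at this
    simp at this
  have hee : (e (m + 1) 0 : Mon (N + 1) (m + 1)) ≠ e (m + 1) 1 := by
    intro h
    have h2 := congrArg (fun α : Mon (N + 1) (m + 1) => α.1 0) h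
    unfold e at h2
    simp only [Finsupp.single_eq_same, Finsupp.single_eq_of_ne h01] at h2
    omega
  have hmem : ∀ i k : Fin (N + 1), i ≠ Fin.last N →
      (k ≠ Fin.last N ∨ (e (m + 1) i : Mon (N + 1) (m + 1)).1 (Fin.last N) = 0) := fun i k hi =>
    Or.inr (Finsupp.single_eq_of_ne (Ne.symm hi))
  refine Nat.card_le_card_of_injective (fun t : (Fin (N + 1) ⊕ Fin (N + 1)) ⊕ J12 N m => match t with
    | Sum.inl (Sum.inl k) => (⟨(k, e (m + 1) 0), hmem 0 k h0⟩ : J2 N m)
    | Sum.inl (Sum.inr k) => ⟨(k, e (m + 1) 1), hmem 1 k h1⟩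
    | Sum.inr j => j.1) ?_
  rintro ((a | a) | a) ((b | b) | b) hab
  · simp only [Subtype.mk.injEq, Prod.mk.injEq, and_true] at hab
    rw [hab]
  · simp only [Subtype.mk.injEq, Prod.mk.injEq] at hab
    exact absurd hab.2 hee
  · exfalso
    have h3 := congrArg (fun j : J2 N m => j.1.2) hab
    exact b.2.1 h3.symm
  · simp only [Subtype.mk.injEq, Prod.mk.injEq] at hab
    exact absurd hab.2.symm hee
  · simp only [Subtype.mk.injEq, Prod.mk.injEq, and_true] at hab
    rw [hab]
  · exfalso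
    have h3 := congrArg (fun j : J2 N m => j.1.2) hab
    exact b.2.2 h3.symm
  · exfalso
    have h3 := congrArg (fun j : J2 N m => j.1.2) hab
    exact a.2.1 h3
  · exfalso
    have h3 := congrArg (fun j : J2 N m => j.1.2) hab
    exact a.2.2 h3
  · have h3 : a = b := Subtype.ext hab
    rw [h3]

theorem t_PAI (_hPOL : S_POL) (hACT : S_ACT) (hDVA : S_DVA) (hEVA : S_EVA) (hSEC : S_SEC) (hEX : S_EX2)
    (hTRD : S_TRD) : S_PAI := by
  intro N m hN hm K M _ _ _ _ f hf x y hx hy hxy htr
  have hcz : CharZero M := charZero_of K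
  obtain ⟨T, -, hT⟩ := hSEC N m
  -- the field of the two vectors
  set E0 : IntermediateField K M := IntermediateField.adjoin K (Set.range (Sum.elim x y)) with hE0
  have hxE : ∀ k, x k ∈ E0 := fun k => IntermediateField.subset_adjoin K _ ⟨Sum.inl k, rfl⟩
  have hyE : ∀ k, y k ∈ E0 := fun k => IntermediateField.subset_adjoin K _ ⟨Sum.inr k, rfl⟩
  have hli : LinearIndependent E0 ![(fun k => (⟨x k, hxE k⟩ : E0)), fun k => ⟨y k, hyE k⟩] := by
    rw [LinearIndependent.pair_iff] at hxy ⊢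
    intro a b hab
    have h1 := hxy (a : M) (b : M) (by
      funext k
      have h2 := congrArg (fun t : E0 => (t : M)) (congrFun hab k)
      exact h2)
    exact ⟨Subtype.ext h1.1, Subtype.ext h1.2⟩
  obtain ⟨gE, hgE, hg0, hg1⟩ := complete hN _ _ hli
  set g : Matrix (Fin (N + 1)) (Fin (N + 1)) M := gE.map (algebraMap E0 M) with hg
  have hgdet : g.det ≠ 0 := by
    rw [hg, ← RingHom.mapMatrix_apply, ← RingHom.map_det]
    exact (map_ne_zero _).mpr hgE
  have hgx : (fun k => g k 0) = x := by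
    funext k
    exact congrArg (fun t : E0 => (t : M)) (hg0 k)
  have hgy : (fun k => g k 1) = y := by
    funext k
    exact congrArg (fun t : E0 => (t : M)) (hg1 k)
  have hgg : g * g⁻¹ = 1 := Matrix.mul_nonsing_inv g (isUnit_iff_ne_zero.mpr hgdet)
  set f1 := act g⁻¹ g f with hf1
  have hd1 : dv f1 = 0 := dv_act hACT hDVA hgg hf.1
  have h10 : Fx f1 (Pi.single 0 1) := fx_act hEVA hgg (by rw [hgx]; exact hx)
  have h11 : Fx f1 (Pi.single 1 1) := fx_act hEVA hgg (by rw [hgy]; exact hy)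
  set s : J12 N m → M := fun i => f1 i.1.1 with hs
  set w : (Fin (N + 1) ⊕ Fin (N + 1)) ⊕ J12 N m → M := Sum.elim (Sum.elim x y) s with hw
  set E : IntermediateField K M := IntermediateField.adjoin K (Set.range w) with hE
  have hwE : ∀ i, w i ∈ E := fun i => IntermediateField.subset_adjoin K _ ⟨i, rfl⟩
  have hle : E0 ≤ E := by
    rw [hE0, IntermediateField.adjoin_le_iff]
    rintro _ ⟨i, rfl⟩
    exact hwE (Sum.inl i)
  have hgE' : ∀ i j, g i j ∈ E := fun i j => hle (gE i j).2
  have hgiE := inv_lift E hgg hgE'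
  have hf1E : ∀ p, f1 p ∈ E := by
    intro p
    rw [← c0_val (hT M) hd1 h10 h11 p]
    have h1 : aeval (fun i : J12 N m => f1 i.1.1) (c0 N m T p) =
        ((aeval (fun i : J12 N m => (⟨f1 i.1.1, hwE (Sum.inr i)⟩ : E)) (c0 N m T p) : E) : M) := by
      have h2 := (aeval_algebraMap_apply (R := ℚ) M (fun i : J12 N m => (⟨f1 i.1.1, hwE (Sum.inr i)⟩ : E))
        (c0 N m T p))
      exact h2
    rw [h1]
    exact Subtype.mem _
  have hfE : ∀ p, f p ∈ E := by
    intro p
    rw [← act_back hACT hgg f]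
    exact act_mem hACT E hgE' hgiE hf1E p
  have hind := (hTRD K M _ (J2 N m) w (fun j : J2 N m => f j.1) hf.2 (fun j => hfE j.1)
    (card_le N m hN)).1
  have hinds : AlgebraicIndependent K s := hind.comp Sum.inr Sum.inr_injective
  have hindq : AlgebraicIndependent ℚ s := by
    have : IsScalarTower ℚ K M := inferInstance
    exact hinds.restrictScalars (algebraMap ℚ K).injective
  -- the traces
  have hjx : jac f x = g * jac f1 (Pi.single 0 1) * g⁻¹ := by
    have h1 := (hEVA (N + 1) (m + 1) M g g⁻¹ f1 x).2.1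
    rw [hf1, act_back hACT hgg f, ← hf1] at h1
    have h2 : g⁻¹.mulVec x = Pi.single 0 1 := by
      have h3 : g.mulVec (Pi.single 0 1) = x := by
        rw [Matrix.mulVec_single_one]
        exact hgx
      rw [← h3, Matrix.mulVec_mulVec, mul_eq_one_comm.mp hgg, Matrix.one_mulVec]
    rw [h2] at h1
    exact h1
  have hjy : jac f y = g * jac f1 (Pi.single 1 1) * g⁻¹ := by
    have h1 := (hEVA (N + 1) (m + 1) M g g⁻¹ f1 y).2.1
    rw [hf1, act_back hACT hgg f, ← hf1] at h1
    have h2 : g⁻¹.mulVec y = Pi.single 1 1 := by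
      have h3 : g.mulVec (Pi.single 1 1) = y := by
        rw [Matrix.mulVec_single_one]
        exact hgy
      rw [← h3, Matrix.mulVec_mulVec, mul_eq_one_comm.mp hgg, Matrix.one_mulVec]
    rw [h2] at h1
    exact h1
  have hconj : ∀ A : Matrix (Fin (N + 1)) (Fin (N + 1)) M, ((g * A * g⁻¹) ^ 2).trace = (A ^ 2).trace := by
    intro A
    have hgg' : g⁻¹ * g = 1 := mul_eq_one_comm.mp hgg
    have h1 : (g * A * g⁻¹) ^ 2 = g * (A ^ 2 * g⁻¹) := by
      rw [pow_two, pow_two]
      calc g * A * g⁻¹ * (g * A * g⁻¹) = g * A * (g⁻¹ * g) * A * g⁻¹ := by simp only [mul_assoc]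
        _ = g * (A * A * g⁻¹) := by rw [hgg', mul_one]; simp only [mul_assoc]
    rw [h1, Matrix.trace_mul_comm, mul_assoc, hgg', mul_one]
  rw [hjx, hjy, hconj, hconj] at htr
  have hP : aeval s (P0 N m T) = 0 := by
    rw [hs, P0_val (hT M) hd1 h10 h11, htr, sub_self]
  have hP0 : P0 N m T = 0 := algebraicIndependent_iff.mp hindq _ hP
  obtain ⟨c, hc, hc0, hc1, hne⟩ := hEX N m hN hm
  have h2 := P0_val (hT ℚ) hc hc0 hc1
  rw [hP0, map_zero] at h2
  exact hne (sub_eq_zero.mp h2.symm)

end Pool.Agent.Z15.ME.PAI
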