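import Pool.Agent.Z15.ME.Stm2

set_option autoImplicit false

namespace Pool.Agent.Z15.ME.RAT

open MvPolynomial Pool.Agent.Z15.ME

theorem t_RAT (hCVV : S_CVV) (hINV : S_INV) (hTDB : S_TDB) (hSOL : S_SOL) (hCRD : S_CRD) : S_RAT := by
  classical
  intro N m a k K M _ _ _ _ D
  obtain ⟨S, hS, hgen⟩ := hSOL N m a k K M D
  let x : J2 N m ⊕ Unit ⊕ S → M := Sum.elim (fun j => part2 D.ft j.1) (Sum.elim (fun _ => D.tt) fun s => dv D.ft s.1)
  have hx : Set.range x = (Set.range fun j : J2 N m => part2 D.ft j.1) ∪ {D.tt} ∪ (dv D.ft '' S) := by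
    ext y
    constructor
    · rintro ⟨j | (u | s), rfl⟩
      · exact Or.inl (Or.inl ⟨j, rfl⟩)
      · exact Or.inl (Or.inr rfl)
      · exact Or.inr ⟨s.1, s.2, rfl⟩
    · rintro ((⟨j, rfl⟩ | h) | ⟨s, hs, rfl⟩)
      · exact ⟨Sum.inl j, rfl⟩
      · exact ⟨Sum.inr (Sum.inl ()), h.symm⟩
      · exact ⟨Sum.inr (Sum.inr ⟨s, hs⟩), rfl⟩
  have hadj : IntermediateField.adjoin K (Set.range x) = IntermediateField.adjoin K (Set.range D.ft) := by
    rw [hx, hgen]
  have hcard : Nat.card (J2 N m ⊕ Unit ⊕ S) + (N + 1) ^ 2 = Nat.card (Ix N m) := by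
    rw [Nat.card_sum, Nat.card_sum, hCRD.1 N m]
    have h1 : Nat.card (S : Set (Mon (N + 1) m)) = S.card := by simp
    have h2 : Nat.card Unit = 1 := by simp
    have h3 : Nat.card S = S.card := by simp
    rw [h2, h3]
    omega
  have hind : AlgebraicIndependent K x := hTDB N m a k K M D _ x hadj hcard
  obtain ⟨q, ⟨e⟩⟩ := Finite.exists_equiv_fin (J2 N m ⊕ Unit ⊕ S)
  refine ⟨q, x ∘ e.symm, hind.comp _ e.symm.injective, fun y => ?_⟩
  have h5 : Set.range (x ∘ e.symm) = Set.range x := by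
    rw [Set.range_comp, e.symm.surjective.range_eq, Set.image_univ]
  rw [h5, hadj]
  constructor
  · exact hINV N m a k K M D y
  · intro hy g
    have h6 : IntermediateField.adjoin K (Set.range D.ft) ≤
        { carrier := {z | D.φ g z = z}
          mul_mem' := by intro a b ha hb; change D.φ g _ = _; rw [map_mul, ha, hb]
          add_mem' := by intro a b ha hb; change D.φ g _ = _; rw [map_add, ha, hb]
          algebraMap_mem' := by intro c; change D.φ g _ = _; rw [AlgHom.commutes]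
          inv_mem' := by intro a ha; change D.φ g _ = _; rw [map_inv₀, ha] } := by
      rw [IntermediateField.adjoin_le_iff]
      rintro _ ⟨p, rfl⟩
      exact (hCVV N m a k K M D g).2.2.2.2 p
    exact h6 hy

end Pool.Agent.Z15.ME.RAT
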