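import Pool.Agent.Z15.ME.Stm2

/-! # REC: the generic self map is recovered from the slice -/

set_option autoImplicit false

namespace Pool.Agent.Z15.ME

open MvPolynomial

theorem t_REC (hACT : S_ACT) (hAIC : S_AIC) : S_REC := by
  intro N m a k K M _ _ _ _ D
  obtain ⟨-, -, hH, -, hdet, -⟩ := hAIC N m a k K M D
  obtain ⟨-, -, -, -, -, -, hcomp, hone, -, hlin, hmap⟩ := hACT (N + 1) (m + 1) M
  have hdet0 : D.C1.det ≠ 0 := by
    rw [hdet]
    exact pow_ne_zero _ hH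
  have hu : IsUnit D.C1.det := isUnit_iff_ne_zero.mpr hdet0
  have hft : D.ft = fun p => (D.HH ^ a)⁻¹ * act D.C1⁻¹ D.C1 D.f p + 0 * act D.C1⁻¹ D.C1 D.f p := by
    funext p
    simp [Data.ft]
  have h1 : ∀ p, D.f p = D.HH ^ a * act D.C1 D.C1⁻¹ D.ft p := by
    intro p
    have h2 : act D.C1 D.C1⁻¹ D.ft p = (D.HH ^ a)⁻¹ * D.f p := by
      rw [hft]
      rw [hlin D.C1 D.C1⁻¹ (act D.C1⁻¹ D.C1 D.f) (act D.C1⁻¹ D.C1 D.f) (D.HH ^ a)⁻¹ 0]
      rw [hcomp, Matrix.mul_nonsing_inv _ hu, hone]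
      ring
    rw [h2, ← mul_assoc, mul_inv_cancel₀ (pow_ne_zero _ hH), one_mul]
  refine ⟨h1, ?_⟩
  set E := IntermediateField.adjoin K (Set.range D.ft ∪ {D.HH} ∪
    Set.range fun p : Fin (N + 1) × Fin (N + 1) => D.C1 p.1 p.2) with hE
  have hftE : ∀ p, D.ft p ∈ E := fun p =>
    IntermediateField.subset_adjoin K _ (Or.inl (Or.inl ⟨p, rfl⟩))
  have hHE : D.HH ∈ E := IntermediateField.subset_adjoin K _ (Or.inl (Or.inr rfl))
  have hCE : ∀ i j, D.C1 i j ∈ E := fun i j =>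
    IntermediateField.subset_adjoin K _ (Or.inr ⟨(i, j), rfl⟩)
  let A : Matrix (Fin (N + 1)) (Fin (N + 1)) E := fun i j => ⟨D.C1 i j, hCE i j⟩
  have hA : A.map (algebraMap E M) = D.C1 := by
    ext i j
    rfl
  have hAdet : A.det ≠ 0 := by
    intro h0
    apply hdet0
    rw [← hA]
    have := RingHom.map_det (algebraMap E M) A
    rw [RingHom.mapMatrix_apply] at this
    rw [← this, h0, map_zero]
  have hAinv : A⁻¹.map (algebraMap E M) = D.C1⁻¹ := by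
    symm
    apply Matrix.inv_eq_right_inv
    rw [← hA, ← Matrix.map_mul, Matrix.mul_nonsing_inv _ (isUnit_iff_ne_zero.mpr hAdet)]
    simp
  obtain ⟨-, -, -, -, -, -, -, -, -, -, hmapE⟩ := hACT (N + 1) (m + 1) E
  have h3 := hmapE M (algebraMap E M) A A⁻¹ (fun p => (⟨D.ft p, hftE p⟩ : E))
  rw [hA, hAinv] at h3
  have h4 : ∀ p, act D.C1 D.C1⁻¹ D.ft p ∈ E := by
    intro p
    have h5 := congrFun h3 p
    have h6 : act D.C1 D.C1⁻¹ D.ft p = algebraMap E M (act A A⁻¹ (fun p => (⟨D.ft p, hftE p⟩ : E)) p) := h5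
    rw [h6]
    exact (act A A⁻¹ (fun p => (⟨D.ft p, hftE p⟩ : E)) p).2
  rw [eq_top_iff, ← D.gen]
  rw [IntermediateField.adjoin_le_iff]
  rintro _ ⟨p, rfl⟩
  rw [h1 p]
  exact mul_mem (pow_mem hHE a) (h4 p)

end Pool.Agent.Z15.ME
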