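import Pool.Agent.Z15.ME.Stm2

set_option autoImplicit false

/-! Project ME (owner helper15), task ROO. -/

namespace Pool.Agent.Z15.ME.ROO

open MvPolynomial Pool.Agent.Z15.ME

theorem t_ROO (hACT : S_ACT) (hAIC : S_AIC) : S_ROO := by
  intro N m a k K M Ω _ _ _ _ _ _ _ D
  obtain ⟨-, -, hH, -, hdet, -⟩ := hAIC N m a k K M D
  have hm : 0 < m := by have := D.hm; omega
  obtain ⟨δ, hδ⟩ := IsAlgClosed.exists_pow_nat_eq (algebraMap M Ω D.HH) hm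
  have hH' : algebraMap M Ω D.HH ≠ 0 := by
    intro h
    exact hH ((algebraMap M Ω).injective (by rw [h, map_zero]))
  have hδ0 : δ ≠ 0 := by
    rintro rfl
    rw [zero_pow hm.ne'] at hδ
    exact hH' hδ.symm
  have hδa : δ ^ a ≠ 0 := pow_ne_zero _ hδ0
  have hC : IsUnit D.C1.det := by
    rw [hdet]
    exact (pow_ne_zero _ hH).isUnit
  obtain ⟨Ci, hCi⟩ : ∃ Ci : Matrix (Fin (N + 1)) (Fin (N + 1)) Ω,
      Ci = (D.C1⁻¹).map (algebraMap M Ω) := ⟨_, rfl⟩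
  obtain ⟨Cm, hCm⟩ : ∃ Cm : Matrix (Fin (N + 1)) (Fin (N + 1)) Ω,
      Cm = D.C1.map (algebraMap M Ω) := ⟨_, rfl⟩
  have h1 : Cm * Ci = 1 := by
    rw [hCi, hCm, ← Matrix.map_mul, Matrix.mul_nonsing_inv _ hC, Matrix.map_one _ (map_zero _)
      (map_one _)]
  have hdm : Cm.det = δ ^ (m * k) := by
    have h2 : Cm = (algebraMap M Ω).mapMatrix D.C1 := hCm
    rw [h2, ← RingHom.map_det, hdet, map_pow, ← hδ, pow_mul]
  have hg : ((δ ^ a)⁻¹ • Cm).det = δ := by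
    rw [Matrix.det_smul, hdm, D.hk, Fintype.card_fin, pow_succ δ, mul_comm (N + 1) a, pow_mul,
      inv_pow, ← mul_assoc, inv_mul_cancel₀ (pow_ne_zero _ hδa), one_mul]
  refine ⟨(δ ^ a)⁻¹ • Cm, δ ^ a • Ci, ?_, ?_, ?_, ?_⟩
  · rw [Matrix.smul_mul, Matrix.mul_smul, h1, smul_smul, inv_mul_cancel₀ hδa, one_smul]
  · rw [hg, hδ]
  · rw [hg, smul_smul, mul_inv_cancel₀ hδa, one_smul, hCm]
  · intro p
    obtain ⟨-, -, -, -, -, -, h7, -, h9, -, h11⟩ := hACT (N + 1) (m + 1) Ω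
    have h12 : ∀ (S : Type) [CommRing S] (σ : M →+* S)
        (A A' : Matrix (Fin (N + 1)) (Fin (N + 1)) M) (c : Fin (N + 1) × Mon (N + 1) (m + 1) → M),
        act (A.map σ) (A'.map σ) (fun p => σ (c p)) = fun p => σ (act A A' c p) :=
      (hACT (N + 1) (m + 1) M).2.2.2.2.2.2.2.2.2.2
    have e1 : δ ^ a • Ci = (δ ^ a • 1 : Matrix (Fin (N + 1)) (Fin (N + 1)) Ω) * Ci := by
      rw [Matrix.smul_mul, one_mul]
    have e2 : (δ ^ a)⁻¹ • Cm = Cm * ((δ ^ a)⁻¹ • 1 : Matrix (Fin (N + 1)) (Fin (N + 1)) Ω) := by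
      rw [Matrix.mul_smul, mul_one]
    rw [e1, e2, ← h7, h9, hCi, hCm, h12]
    show algebraMap M Ω ((D.HH ^ a)⁻¹ * act D.C1⁻¹ D.C1 D.f p) = _
    rw [map_mul]
    congr 1
    rw [map_inv₀, map_pow, ← hδ, inv_pow, pow_succ, mul_inv, ← pow_mul, ← pow_mul, mul_comm a m]
    field_simp

end Pool.Agent.Z15.ME.ROO
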