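import Pool.Agent.Z15.ME.Stm

/-! SEC: the coordinates of the space of the self maps without divergence -/

set_option autoImplicit false

namespace Pool.Agent.Z15.ME.SEC

open MvPolynomial

variable {n m : ℕ}

/-- multiplication of a monomial by a variable -/
noncomputable def up (β : Mon n m) (k : Fin n) : Mon n (m + 1) :=
  ⟨β.1 + Finsupp.single k 1, by rw [map_add, β.2, Finsupp.degree_single]⟩

/-- division of a monomial by a variable -/
noncomputable def dn (α : Mon n (m + 1)) (i : Fin n) (h : α.1 i ≠ 0) : Mon n m :=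
  ⟨α.1 - Finsupp.single i 1, by
    have h1 : α.1 - Finsupp.single i 1 + Finsupp.single i 1 = α.1 := Finsupp.sub_add_single_one_cancel h
    have h2 := congrArg Finsupp.degree h1
    rw [map_add, α.2, Finsupp.degree_single] at h2
    omega⟩

theorem up_dn (α : Mon n (m + 1)) (i : Fin n) (h : α.1 i ≠ 0) : up (dn α i h) i = α :=
  Subtype.ext (Finsupp.sub_add_single_one_cancel h)

theorem up_self_ne (β : Mon n m) (k : Fin n) : (up β k).1 k ≠ 0 := by
  simp [up]

theorem dn_up (β : Mon n m) (k : Fin n) : dn (up β k) k (up_self_ne β k) = β := by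
  apply Subtype.ext
  simp [dn, up]

variable {R : Type} [CommRing R]

theorem coeff_pol {d : ℕ} (h : S_POL) (c : Mon n d → R) (α : Mon n d) : coeff α.1 (pol c) = c α :=
  congrFun ((h n d R).1 c).2 α

/-- the coefficients of the divergence -/
theorem dv_apply (h : S_POL) (c : Fin n × Mon n (m + 1) → R) (β : Mon n m) :
    dv c β = ∑ k, ((β.1 k : R) + 1) * c (k, up β k) := by
  unfold dv cf
  rw [coeff_sum]
  refine Finset.sum_congr rfl fun k _ => ?_
  rw [coeff_pderiv, mul_comm]
  congr 1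
  exact coeff_pol h (fun α => c (k, α)) (up β k)

variable {N : ℕ}

/-- the coordinates on the right hand side -/
noncomputable def jj (α : Mon (N + 1) (m + 1)) (h : α.1 (Fin.last N) ≠ 0) (k : {k : Fin (N + 1) // k ≠ Fin.last N}) :
    J2 N m := ⟨(k.1, up (dn α (Fin.last N) h) k.1), Or.inl k.2⟩

open Classical in
/-- the matrix -/
noncomputable def T (p : Ix N m) (j : J2 N m) : ℚ :=
  if h : p.1 = Fin.last N ∧ p.2.1 (Fin.last N) ≠ 0 then
    -(∑ k : {k : Fin (N + 1) // k ≠ Fin.last N}, ((p.2.1 k.1 : ℚ) + 1) * (if j = jj p.2 h.2 k then 1 else 0)) /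
      (p.2.1 (Fin.last N) : ℚ)
  else (if p = j.1 then 1 else 0)

theorem not_J2 {p : Ix N m} : ¬ (p.1 ≠ Fin.last N ∨ p.2.1 (Fin.last N) = 0) ↔
    p.1 = Fin.last N ∧ p.2.1 (Fin.last N) ≠ 0 := by
  push Not
  rfl

theorem T_J2 (j j' : J2 N m) : T j.1 j' = if j = j' then 1 else 0 := by
  classical
  unfold T
  rw [dif_neg (fun h => absurd j.2 (not_J2.2 h))]
  by_cases hj : j = j'
  · rw [if_pos hj, if_pos (congrArg Subtype.val hj)]
  · rw [if_neg hj, if_neg (fun h => hj (Subtype.ext h))]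

theorem sum_T_J2 {R : Type} [Field R] [CharZero R] (c : Ix N m → R) (j : J2 N m) : ∑ j', ((T j.1 j' : ℚ) : R) * c j'.1 = c j.1 := by
  classical
  rw [Finset.sum_eq_single j]
  · rw [T_J2, if_pos rfl, Rat.cast_one, one_mul]
  · intro j' _ hj'
    rw [T_J2, if_neg (Ne.symm hj'), Rat.cast_zero, zero_mul]
  · intro h
    exact absurd (Finset.mem_univ j) h

theorem sum_T {R : Type} [Field R] [CharZero R] (c : Ix N m → R) (α : Mon (N + 1) (m + 1)) (h : α.1 (Fin.last N) ≠ 0) :
    ∑ j', ((T (Fin.last N, α) j' : ℚ) : R) * c j'.1 =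
      -(∑ k : {k : Fin (N + 1) // k ≠ Fin.last N}, ((α.1 k.1 : R) + 1) * c (k.1, up (dn α (Fin.last N) h) k.1)) /
        (α.1 (Fin.last N) : R) := by
  classical
  have h1 : ∀ j', ((T (Fin.last N, α) j' : ℚ) : R) * c j'.1 =
      ∑ k : {k : Fin (N + 1) // k ≠ Fin.last N}, (-(((α.1 k.1 : R) + 1) / (α.1 (Fin.last N) : R)) *
        (if j' = jj α h k then c j'.1 else 0)) := by
    intro j'
    unfold T
    rw [dif_pos (⟨rfl, h⟩ : _ ∧ _)]
    push_cast
    rw [neg_div, neg_mul, Finset.sum_div, Finset.sum_mul, ← Finset.sum_neg_distrib]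
    refine Finset.sum_congr rfl fun k _ => ?_
    split_ifs with hj
    · ring
    · simp
  rw [Finset.sum_congr rfl fun j' _ => h1 j', Finset.sum_comm, neg_div, Finset.sum_div, ← Finset.sum_neg_distrib]
  refine Finset.sum_congr rfl fun k _ => ?_
  rw [← Finset.mul_sum, Finset.sum_ite_eq' Finset.univ (jj α h k) (fun j' => c j'.1), if_pos (Finset.mem_univ _)]
  show _ = -(((α.1 k.1 : R) + 1) * c (jj α h k).1 / (α.1 (Fin.last N) : R))
  ring

theorem dv_zero_iff {R : Type} [Field R] [CharZero R] (hP : S_POL) (c : Ix N m → R) (β : Mon (N + 1) m) :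
    dv c β = 0 ↔ c (Fin.last N, up β (Fin.last N)) =
      ∑ j', ((T (Fin.last N, up β (Fin.last N)) j' : ℚ) : R) * c j'.1 := by
  classical
  rw [sum_T c _ (up_self_ne β _), dn_up, dv_apply hP,
    Fintype.sum_eq_add_sum_subtype_ne _ (Fin.last N)]
  have h1 : ((up β (Fin.last N)).1 (Fin.last N) : R) = (β.1 (Fin.last N) : R) + 1 := by
    simp [up]
  have h2 : ∀ k : {k : Fin (N + 1) // k ≠ Fin.last N}, ((up β (Fin.last N)).1 k.1 : R) = (β.1 k.1 : R) := by
    intro k
    have : (Fin.last N) ≠ k.1 := Ne.symm k.2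
    simp [up, Finsupp.single_apply, this]
  rw [h1]
  simp only [h2]
  have h3 : (β.1 (Fin.last N) : R) + 1 ≠ 0 := by
    have : ((β.1 (Fin.last N) + 1 : ℕ) : R) ≠ 0 := Nat.cast_ne_zero.2 (Nat.succ_ne_zero _)
    push_cast at this
    exact this
  rw [eq_div_iff h3]
  constructor
  · intro h
    linear_combination h
  · intro h
    linear_combination h

theorem t_SEC (h : S_POL) : S_SEC := by
  classical
  intro N m
  refine ⟨T, fun j j' => by rw [T_J2], ?_⟩
  intro R _ _ c
  constructor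
  · intro hc p
    by_cases hp : p.1 = Fin.last N ∧ p.2.1 (Fin.last N) ≠ 0
    · obtain ⟨i, α⟩ := p
      obtain ⟨hi, hα⟩ := hp
      simp only at hi hα
      subst hi
      have h1 := (dv_zero_iff h c (dn α (Fin.last N) hα)).1 (congrFun hc _)
      rw [up_dn] at h1
      exact h1
    · exact (sum_T_J2 c ⟨p, by by_contra h'; exact hp (not_J2.1 h')⟩).symm
  · intro hc
    funext β
    exact (dv_zero_iff h c β).2 (hc _)

end Pool.Agent.Z15.ME.SEC
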