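import Pool.Agent.Z15.ME.Stm2

set_option autoImplicit false

/-! (SEL) selection of independent rows -/

namespace Pool.Agent.Z15.ME.SEL

open MvPolynomial

theorem t_SEL : S_SEL := by
  intro K F _ _ _ _ n J _ 𝒞 𝒟 hC hD hJ
  classical
  have hcard : Fintype.card (Option (Fin n × Fin n)) ≤ Fintype.card J := by
    rw [Fintype.card_option, Fintype.card_prod, Fintype.card_fin]
    linarith [hJ, sq n]
  obtain ⟨e⟩ : Nonempty (Option (Fin n × Fin n) ↪ J) := Function.Embedding.nonempty_of_card_le hcard
  have h1 : ∀ j : Fin n, ∃ (k : ℕ) (f : Fin k → F) (g : Fin k → (𝒞 : Set (Fin n → J → F))),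
      ∑ t, f t • (g t : Fin n → J → F) = fun i => Pi.single (e (some (j, i))) 1 := by
    intro j
    have : (fun i => Pi.single (e (some (j, i))) 1 : Fin n → J → F) ∈ Submodule.span F (𝒞 : Set (Fin n → J → F)) := by
      rw [hC]; trivial
    exact Submodule.mem_span_set'.1 this
  choose k f g hg using h1
  obtain ⟨k', f', g', hg'⟩ : ∃ (k : ℕ) (f : Fin k → F) (g : Fin k → (𝒟 : Set (J → F))),
      ∑ t, f t • (g t : J → F) = Pi.single (e none) 1 := by
    have : (Pi.single (e none) 1 : J → F) ∈ Submodule.span F (𝒟 : Set (J → F)) := by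
      rw [hD]; trivial
    exact Submodule.mem_span_set'.1 this
  let σ : Type := (Σ j : Fin n, Fin (k j)) ⊕ Fin k'
  -- the rows at the point `x`
  let cc : (σ → F) → Fin n → Fin n → J → F := fun x j => ∑ t, x (Sum.inl ⟨j, t⟩) • (g j t : Fin n → J → F)
  let hh : (σ → F) → J → F := fun x => ∑ t, x (Sum.inr t) • (g' t : J → F)
  let row : (σ → F) → Option (Fin n × Fin n) → J → F := fun x o => o.elim (hh x) fun p => cc x p.1 p.2
  let Mt : Matrix (Option (Fin n × Fin n)) (Option (Fin n × Fin n)) (MvPolynomial σ F) := fun o q =>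
    o.elim (∑ t, X (Sum.inr t) * C ((g' t : J → F) (e q)))
      fun p => ∑ t, X (Sum.inl ⟨p.1, t⟩) * C ((g p.1 t : Fin n → J → F) p.2 (e q))
  have hev : ∀ x : σ → F, eval x Mt.det = (Matrix.of fun o q => row x o (e q)).det := by
    intro x
    rw [RingHom.map_det]
    congr 1
    ext o q
    rw [RingHom.mapMatrix_apply, Matrix.map_apply, Matrix.of_apply]
    cases o with
    | none =>
      simp only [Mt, row, hh, Option.elim, Finset.sum_apply, Pi.smul_apply, smul_eq_mul, map_sum, map_mul, eval_X, eval_C]
    | some p =>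
      simp only [Mt, row, cc, Option.elim, Finset.sum_apply, Pi.smul_apply, smul_eq_mul, map_sum, map_mul, eval_X, eval_C]
  -- the good point
  let x0 : σ → F := Sum.elim (fun s => f s.1 s.2) f'
  have hx0 : eval x0 Mt.det = 1 := by
    rw [hev]
    have : (Matrix.of fun o q => row x0 o (e q)) = (1 : Matrix (Option (Fin n × Fin n)) (Option (Fin n × Fin n)) F) := by
      ext o q
      cases o with
      | none =>
        have h2 : hh x0 = Pi.single (e none) 1 := hg'
        simp only [Matrix.of_apply, row, Option.elim, h2, Matrix.one_apply, Pi.single_apply, e.injective.eq_iff, eq_comm]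
      | some p =>
        have h2 : cc x0 p.1 = fun i => Pi.single (e (some (p.1, i))) 1 := hg p.1
        simp only [Matrix.of_apply, row, Option.elim, h2, Matrix.one_apply, Pi.single_apply, e.injective.eq_iff, eq_comm]
    rw [this, Matrix.det_one]
  have hne : Mt.det ≠ 0 := by
    intro h
    rw [h, map_zero] at hx0
    exact zero_ne_one hx0
  obtain ⟨y, hy⟩ : ∃ y : σ → K, eval (fun s => algebraMap K F (y s)) Mt.det ≠ 0 := by
    by_contra hcon
    push Not at hcon
    apply hne
    apply MvPolynomial.funext_set (fun _ => Set.range (algebraMap K F))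
      (fun _ => Set.infinite_range_of_injective (algebraMap K F).injective)
    intro x hx
    rw [map_zero]
    have hx' : ∀ p, ∃ y, algebraMap K F y = x p := fun p => hx p (Set.mem_univ _)
    choose y hy using hx'
    have hxy : x = fun p => algebraMap K F (y p) := by
      funext p
      rw [hy p]
    rw [hxy]
    exact hcon y
  refine ⟨cc fun s => algebraMap K F (y s), hh fun s => algebraMap K F (y s), ?_, ?_, ?_⟩
  · intro j
    refine Submodule.sum_mem _ fun t _ => ?_
    rw [algebraMap_smul]
    exact 𝒞.smul_mem _ (g j t).2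
  · refine Submodule.sum_mem _ fun t _ => ?_
    rw [algebraMap_smul]
    exact 𝒟.smul_mem _ (g' t).2
  · rw [hev] at hy
    rw [Fintype.linearIndependent_iff]
    intro a ha
    have h3 : Matrix.vecMul a (Matrix.of fun o q => row (fun s => algebraMap K F (y s)) o (e q)) = 0 := by
      ext q
      have h4 := congrFun ha (e q)
      rw [Finset.sum_apply] at h4
      exact h4
    have h5 := Matrix.eq_zero_of_vecMul_eq_zero hy h3
    intro o
    exact congrFun h5 o

end Pool.Agent.Z15.ME.SEL
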