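import Pool.Agent.Z15.ME.Stm2

set_option autoImplicit false

/-!
# The slice: generators of the invariant field
-/

namespace Pool.Agent.Z15.ME.SOL

open MvPolynomial

/-- selection of unit vectors which complete independent rows to a basis -/
theorem complete (F J κ : Type) [Field F] [Fintype J] [DecidableEq J] [Fintype κ] (r : κ → J → F)
    (hr : LinearIndependent F r) : ∃ S : Finset J, S.card + Fintype.card κ = Fintype.card J ∧
      ∀ β : J, (Pi.single β 1 : J → F) ∈
        Submodule.span F (Set.range r ∪ (fun s : J => (Pi.single s 1 : J → F)) '' S) := by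
  classical
  have hinj : Function.Injective r := hr.injective
  have hs : LinearIndepOn F id (Set.range r) := hr.linearIndepOn_id
  obtain ⟨b, hbt, hsb, htb, hb⟩ := exists_linearIndepOn_id_extension hs
    (t := Set.range r ∪ Set.range fun s : J => (Pi.single s 1 : J → F)) Set.subset_union_left
  set S : Finset J := Finset.univ.filter fun s => (Pi.single s 1 : J → F) ∈ b ∧ (Pi.single s 1 : J → F) ∉ Set.range r
    with hS
  have einj : Function.Injective (fun s : J => (Pi.single s 1 : J → F)) := by
    intro s s' h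
    have h1 : (Pi.single s 1 : J → F) s = (Pi.single s' 1 : J → F) s := congrFun h s
    by_contra hne
    rw [Pi.single_eq_same, Pi.single_eq_of_ne hne] at h1
    exact one_ne_zero h1
  have hbe : b = Set.range r ∪ (fun s : J => (Pi.single s 1 : J → F)) '' S := by
    ext x
    constructor
    · intro hx
      by_cases h : x ∈ Set.range r
      · exact Or.inl h
      · rcases hbt hx with h' | ⟨s, rfl⟩
        · exact Or.inl h'
        · refine Or.inr ⟨s, ?_, rfl⟩
          rw [hS, Finset.mem_coe, Finset.mem_filter]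
          exact ⟨Finset.mem_univ _, hx, h⟩
    · rintro (h | ⟨s, hs', rfl⟩)
      · exact hsb h
      · rw [hS, Finset.mem_coe, Finset.mem_filter] at hs'
        exact hs'.2.1
  have hspan : ∀ β : J, (Pi.single β 1 : J → F) ∈ Submodule.span F b := by
    intro β
    exact htb (Or.inr ⟨β, rfl⟩)
  have htop : Submodule.span F b = ⊤ := by
    rw [eq_top_iff]
    intro x _
    have : x = ∑ β, x β • (Pi.single β 1 : J → F) := by
      ext j
      simp [Finset.sum_apply, Pi.single_apply]
    rw [this]
    exact Submodule.sum_mem _ fun β _ => Submodule.smul_mem _ _ (hspan β)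
  refine ⟨S, ?_, ?_⟩
  · have hfin : b.Finite := by
      rw [hbe]
      exact (Set.finite_range r).union (S.finite_toSet.image _)
    have hcard : b.ncard = Fintype.card J := by
      haveI : Fintype b := hfin.fintype
      have h1 : LinearIndependent F (fun x : b => (x : J → F)) := hb
      let B := Module.Basis.mk h1 (by rw [Subtype.range_coe]; exact htop.ge)
      have h2 := Module.finrank_eq_card_basis B
      rw [Module.finrank_fintype_fun_eq_card] at h2
      rw [h2, ← Nat.card_coe_set_eq, Nat.card_eq_fintype_card]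
    have hdisj : Disjoint (Set.range r) ((fun s : J => (Pi.single s 1 : J → F)) '' S) := by
      rw [Set.disjoint_left]
      rintro x hx ⟨s, hs', rfl⟩
      rw [hS, Finset.mem_coe, Finset.mem_filter] at hs'
      exact hs'.2.2 hx
    have h3 : b.ncard = (Set.range r).ncard + ((fun s : J => (Pi.single s 1 : J → F)) '' S).ncard := by
      rw [hbe]
      exact Set.ncard_union_eq hdisj (Set.finite_range r) (S.finite_toSet.image _)
    rw [Set.ncard_image_of_injective _ einj, Set.ncard_coe_finset, Set.ncard_range_of_injective hinj,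
      Nat.card_eq_fintype_card, hcard] at h3
    omega
  · intro β
    rw [← hbe]
    exact hspan β

theorem emb_mem {N m : ℕ} {K M : Type} [Field K] [Field M] [Algebra K M] (hEMB : S_EMB) (L : IntermediateField K M)
    (w : Mon (N + 1) m → M) (hw : ∀ β, w β ∈ L) (p : Ix N m) : emb w p ∈ L := by
  have h := (hEMB (N + 1) m L).2.2.2 M (algebraMap L M) (fun β => ⟨w β, hw β⟩)
  have h' := congrFun h p
  have h2 : emb w p = algebraMap L M (emb (fun β => (⟨w β, hw β⟩ : L)) p) := h'
  rw [h2]
  exact (emb (fun β => (⟨w β, hw β⟩ : L)) p).2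

theorem dv_mem {N m : ℕ} {K M : Type} [Field K] [Field M] [Algebra K M] (hDVA : S_DVA) (L : IntermediateField K M)
    (c : Ix N m → M) (hc : ∀ p, c p ∈ L) (β : Mon (N + 1) m) : dv c β ∈ L := by
  have h := (hDVA (N + 1) m L).2.2 M (algebraMap L M) (fun p => ⟨c p, hc p⟩)
  have h2 : dv c β = algebraMap L M (dv (fun p => (⟨c p, hc p⟩ : L)) β) := congrFun h β
  rw [h2]
  exact (dv (fun p => (⟨c p, hc p⟩ : L)) β).2

theorem dv_part2 {N m : ℕ} {M : Type} [Field M] [CharZero M] (hDVA : S_DVA) (hEMB : S_EMB) (c : Ix N m → M) :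
    dv (part2 c) = 0 := by
  have h1 : part2 c = fun p => 1 * c p + (-((N + 1 + m : ℕ) : M)⁻¹) * emb (dv c) p := by
    funext p
    unfold part2
    ring
  rw [h1, (hDVA (N + 1) m M).2.1, (hEMB (N + 1) m M).1]
  funext β
  have h2 : ((N + 1 + m : ℕ) : M) ≠ 0 := Nat.cast_ne_zero.mpr (by omega)
  simp only [Pi.zero_apply, one_mul]
  rw [← mul_assoc, neg_mul, inv_mul_cancel₀ h2]
  ring

theorem sol_core (hDVA : S_DVA) (hEMB : S_EMB) (hSEC : S_SEC) (hEPS : S_EPS) : S_SOL := by
  classical
  intro N m a k K M _ _ _ _ D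
  haveI : CharZero M := charZero_of_injective_algebraMap (algebraMap K M).injective
  obtain ⟨ε, hε1, hε2, hε3, hε4⟩ := hEPS N m a k K M D
  set w := dv D.ft with hw
  let hh : Mon (N + 1) m → D.F := fun β => ⟨D.h β, D.hF β⟩
  let cc : Fin (N + 1) → Fin (N + 1) → Mon (N + 1) m → D.F := fun j i β => ⟨D.c j i β, D.cF j i β⟩
  let r : Option (Fin (N + 1) × Fin (N + 1)) → Mon (N + 1) m → D.F := fun o => o.elim hh fun p => cc p.1 p.2
  have hr : LinearIndependent D.F r := by
    have h1 := D.li
    have h2 : LinearIndependent D.F (fun o : Option (Fin (N + 1) × Fin (N + 1)) =>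
        (o.elim D.h fun p => D.c p.1 p.2 : Mon (N + 1) m → M)) := by
      refine h1.restrict_scalars ?_
      intro x y hxy
      have : (x : M) * 1 = (y : M) * 1 := hxy
      rw [mul_one, mul_one] at this
      exact Subtype.ext this
    let ι : (Mon (N + 1) m → D.F) →ₗ[D.F] (Mon (N + 1) m → M) :=
      { toFun := fun v β => (v β : M)
        map_add' := fun v v' => by funext β; simp
        map_smul' := fun x v => by
          funext β
          simp only [Pi.smul_apply, smul_eq_mul, RingHom.id_apply]
          rfl }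
    refine LinearIndependent.of_comp ι ?_
    have h3 : (ι ∘ r) = (fun o : Option (Fin (N + 1) × Fin (N + 1)) =>
        (o.elim D.h fun p => D.c p.1 p.2 : Mon (N + 1) m → M)) := by
      funext o
      rcases o with _ | p
      · rfl
      · rfl
    rw [h3]
    exact h2
  obtain ⟨S, hS1, hS2⟩ := complete D.F (Mon (N + 1) m) (Option (Fin (N + 1) × Fin (N + 1))) r hr
  refine ⟨S, ?_, ?_⟩
  · rw [Nat.card_eq_fintype_card, ← hS1, Fintype.card_option, Fintype.card_prod, Fintype.card_fin]
    ring
  set L := IntermediateField.adjoin K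
      ((Set.range fun j : J2 N m => part2 D.ft j.1) ∪ {D.tt} ∪ (w '' S)) with hL
  have hLp : ∀ j : J2 N m, part2 D.ft j.1 ∈ L := fun j =>
    IntermediateField.subset_adjoin _ _ (Or.inl (Or.inl ⟨j, rfl⟩))
  have hLt : D.tt ∈ L := IntermediateField.subset_adjoin _ _ (Or.inl (Or.inr rfl))
  have hLw : ∀ s ∈ S, w s ∈ L := fun s hs => IntermediateField.subset_adjoin _ _ (Or.inr ⟨s, hs, rfl⟩)
  have hLe : ∀ x : D.F, ε x ∈ L := by
    intro x
    refine (IntermediateField.adjoin.mono K _ _ ?_) (hε2 x)
    exact Set.subset_union_left.trans Set.subset_union_left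
  have hspan : ∀ v ∈ Submodule.span D.F (Set.range r ∪ (fun s => (Pi.single s 1 : Mon (N + 1) m → D.F)) '' S),
      ∑ β, ε (v β) * w β ∈ L := by
    intro v hv
    induction hv using Submodule.span_induction with
    | mem v hv =>
      rcases hv with ⟨o, rfl⟩ | ⟨s, hs, rfl⟩
      · rcases o with _ | ⟨j, i⟩
        · have : ∑ β, ε (hh β) * w β = 1 := hε4
          show ∑ β, ε (hh β) * w β ∈ L
          rw [this]
          exact L.one_mem
        · have : ∑ β, ε (cc j i β) * w β = D.DD i j := hε3 i j
          show ∑ β, ε (cc j i β) * w β ∈ L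
          rw [this]
          unfold Data.DD
          rw [Matrix.diagonal_apply]
          split_ifs
          · exact hLt
          · exact L.one_mem
          · exact L.zero_mem
      · have : ∑ β, ε ((Pi.single s 1 : Mon (N + 1) m → D.F) β) * w β = w s := by
          rw [Finset.sum_eq_single s]
          · rw [Pi.single_eq_same, map_one, one_mul]
          · intro b _ hb
            rw [Pi.single_eq_of_ne hb, map_zero, zero_mul]
          · intro h
            exact absurd (Finset.mem_univ s) h
        show ∑ β, ε ((Pi.single s 1 : Mon (N + 1) m → D.F) β) * w β ∈ L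
        rw [this]
        exact hLw s hs
    | zero =>
      simp
    | add x y _ _ hx hy =>
      have : ∑ β, ε ((x + y) β) * w β = ∑ β, ε (x β) * w β + ∑ β, ε (y β) * w β := by
        rw [← Finset.sum_add_distrib]
        refine Finset.sum_congr rfl fun β _ => ?_
        rw [Pi.add_apply, map_add, add_mul]
      rw [this]
      exact L.add_mem hx hy
    | smul x v _ hv =>
      have : ∑ β, ε ((x • v) β) * w β = ε x * ∑ β, ε (v β) * w β := by
        rw [Finset.mul_sum]
        refine Finset.sum_congr rfl fun β _ => ?_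
        rw [Pi.smul_apply, smul_eq_mul, map_mul, mul_assoc]
      rw [this]
      exact L.mul_mem (hLe x) hv
  have hwL : ∀ β, w β ∈ L := by
    intro β
    have h1 := hspan _ (hS2 β)
    have : ∑ β', ε ((Pi.single β 1 : Mon (N + 1) m → D.F) β') * w β' = w β := by
      rw [Finset.sum_eq_single β]
      · rw [Pi.single_eq_same, map_one, one_mul]
      · intro b _ hb
        rw [Pi.single_eq_of_ne hb, map_zero, zero_mul]
      · intro h
        exact absurd (Finset.mem_univ β) h
    rw [this] at h1
    exact h1
  have hp2 : ∀ p, part2 D.ft p ∈ L := by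
    obtain ⟨T, hT1, hT2⟩ := hSEC N m
    have h1 := (hT2 M (part2 D.ft)).1 (dv_part2 hDVA hEMB D.ft)
    intro p
    rw [h1 p]
    refine L.sum_mem fun j _ => L.mul_mem ?_ (hLp j)
    have : ((T p j : ℚ) : M) = algebraMap K M ((T p j : ℚ) : K) := by
      rw [map_ratCast]
    rw [this]
    exact L.algebraMap_mem _
  have hcast : ∀ (L' : IntermediateField K M), (((N + 1 + m : ℕ) : M)⁻¹) ∈ L' := fun L' =>
    L'.inv_mem (natCast_mem L' _)
  apply le_antisymm
  · rw [IntermediateField.adjoin_le_iff]
    rintro _ ⟨p, rfl⟩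
    have h1 : D.ft p = part2 D.ft p + ((N + 1 + m : ℕ) : M)⁻¹ * emb w p := by
      unfold part2
      rw [← hw]
      ring
    rw [h1]
    exact L.add_mem (hp2 p) (L.mul_mem (hcast L) (emb_mem hEMB L w hwL p))
  · set E := IntermediateField.adjoin K (Set.range D.ft) with hE
    have hEf : ∀ p, D.ft p ∈ E := fun p => IntermediateField.subset_adjoin _ _ ⟨p, rfl⟩
    have hEw : ∀ β, w β ∈ E := fun β => dv_mem hDVA E D.ft hEf β
    have hEp : ∀ p, part2 D.ft p ∈ E := by
      intro p
      unfold part2
      exact E.sub_mem (hEf p) (E.mul_mem (hcast E) (emb_mem hEMB E _ hEw p))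
    have hEe : ∀ x : D.F, ε x ∈ E := by
      intro x
      have h1 : IntermediateField.adjoin K (Set.range fun j : J2 N m => part2 D.ft j.1) ≤ E := by
        rw [IntermediateField.adjoin_le_iff]
        rintro _ ⟨j, rfl⟩
        exact hEp j.1
      exact h1 (hε2 x)
    rw [hL, IntermediateField.adjoin_le_iff]
    rintro x ((⟨j, rfl⟩ | hx) | ⟨s, _, rfl⟩)
    · exact hEp j.1
    · rw [Set.mem_singleton_iff.1 hx]
      have h1 := hε3 0 0
      have h2 : D.DD 0 0 = D.tt := by
        unfold Data.DD
        rw [Matrix.diagonal_apply_eq, if_pos rfl]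
      rw [h2] at h1
      rw [← h1]
      exact E.sum_mem fun β _ => E.mul_mem (hEe _) (hEw β)
    · exact hEw s

theorem t_SOL (hDVA : S_DVA) (hEMB : S_EMB) (hSEC : S_SEC) (hEPS : S_EPS) (_hAIC : S_AIC) (_hCVV : S_CVV)
    (_hINV : S_INV) : S_SOL := sol_core hDVA hEMB hSEC hEPS

end Pool.Agent.Z15.ME.SOL
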