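import Pool.Agent.Z15.ME.SpcA

set_option autoImplicit false

/-!
# Task SPC
-/

namespace Pool.Agent.Z15.ME.SPC

open MvPolynomial AUT

/-- homomorphisms are determined by the generators of a field -/
theorem hom_ext {K F S ι : Type} [Field K] [Field F] [Algebra K F] [Field S] (f : ι → F)
    (hgen : IntermediateField.adjoin K (Set.range f) = ⊤) (σ τ : F →+* S)
    (hK : ∀ c : K, σ (algebraMap K F c) = τ (algebraMap K F c)) (hf : ∀ i, σ (f i) = τ (f i)) (x : F) : σ x = τ x := by
  have hx : x ∈ IntermediateField.adjoin K (Set.range f) := by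
    rw [hgen]
    exact IntermediateField.mem_top
  induction hx using IntermediateField.adjoin_induction with
  | mem x hx =>
    obtain ⟨i, rfl⟩ := hx
    exact hf i
  | algebraMap c => exact hK c
  | add x y _ _ h1 h2 => rw [map_add, map_add, h1, h2]
  | inv x _ h1 => rw [map_inv₀, map_inv₀, h1]
  | mul x y _ _ h1 h2 => rw [map_mul, map_mul, h1, h2]

section

variable {K F Ω : Type} [Field K] [Field F] [Algebra K F] [Field Ω] [Algebra F Ω] [Algebra K Ω] [IsScalarTower K F Ω]
  {ι : Type}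

/-- the image of a field in a field which contains the images of the generators -/
theorem mem_of_gen (f : ι → F) (hgen : IntermediateField.adjoin K (Set.range f) = ⊤) (L' : IntermediateField K Ω)
    (h : ∀ i, algebraMap F Ω (f i) ∈ L') (y : F) : algebraMap F Ω y ∈ L' := by
  have hy : y ∈ IntermediateField.adjoin K (Set.range f) := by
    rw [hgen]
    exact IntermediateField.mem_top
  induction hy using IntermediateField.adjoin_induction with
  | mem x hx =>
    obtain ⟨i, rfl⟩ := hx
    exact h i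
  | algebraMap c =>
    rw [← IsScalarTower.algebraMap_apply]
    exact L'.algebraMap_mem c
  | add x y _ _ h1 h2 =>
    rw [map_add]
    exact add_mem h1 h2
  | inv x _ h1 =>
    rw [map_inv₀]
    exact inv_mem h1
  | mul x y _ _ h1 h2 =>
    rw [map_mul]
    exact mul_mem h1 h2

/-- a field generated over `K` is contained in an intermediate field over `F` -/
theorem mem_F (L : IntermediateField F Ω) (S : Set Ω) (hS : ∀ x ∈ S, x ∈ L) {x : Ω}
    (hx : x ∈ IntermediateField.adjoin K S) : x ∈ L := by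
  induction hx using IntermediateField.adjoin_induction with
  | mem x hx => exact hS x hx
  | algebraMap c =>
    rw [IsScalarTower.algebraMap_apply K F Ω]
    exact L.algebraMap_mem _
  | add x y _ _ h1 h2 => exact add_mem h1 h2
  | inv x _ h1 => exact inv_mem h1
  | mul x y _ _ h1 h2 => exact mul_mem h1 h2

/-- membership in the subalgebra generated by a subfield -/
theorem mem_A (L : IntermediateField F Ω) [FiniteDimensional F L] (S T : Set Ω) (E : Subfield L)
    (hS : ∀ x ∈ S, ∃ y : F, algebraMap F Ω y = x) (hT : ∀ x ∈ T, ∀ h : x ∈ L, (⟨x, h⟩ : L) ∈ E)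
    (hTL : ∀ x ∈ T, x ∈ L) {x : Ω}
    (hx : x ∈ IntermediateField.adjoin K (S ∪ T)) : ∀ h : x ∈ L, (⟨x, h⟩ : L) ∈ Algebra.adjoin F (E : Set L) := by
  have hSTL : ∀ x ∈ S ∪ T, x ∈ L := by
    rintro x (hx | hx)
    · obtain ⟨y, rfl⟩ := hS x hx
      exact L.algebraMap_mem y
    · exact hTL x hx
  induction hx using IntermediateField.adjoin_induction with
  | mem x hx =>
    intro h
    rcases hx with hx | hx
    · obtain ⟨y, rfl⟩ := hS x hx
      exact Subalgebra.algebraMap_mem (Algebra.adjoin F (E : Set L)) y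
    · exact Algebra.subset_adjoin (hT x hx h)
  | algebraMap c =>
    intro h
    have e : (⟨algebraMap K Ω c, h⟩ : L) = algebraMap F L (algebraMap K F c) := by
      apply Subtype.ext
      exact IsScalarTower.algebraMap_apply K F Ω c
    rw [e]
    exact Subalgebra.algebraMap_mem _ _
  | add x y hx hy h1 h2 =>
    intro h
    have hx' := mem_F L _ hSTL hx
    have hy' := mem_F L _ hSTL hy
    have e : (⟨x + y, h⟩ : L) = ⟨x, hx'⟩ + ⟨y, hy'⟩ := rfl
    rw [e]
    exact add_mem (h1 hx') (h2 hy')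
  | inv x hx h1 =>
    intro h
    have hx' := mem_F L _ hSTL hx
    have e : (⟨x⁻¹, h⟩ : L) = (⟨x, hx'⟩ : L)⁻¹ := rfl
    rw [e]
    exact Subalgebra.inv_mem_of_algebraic (Algebra.adjoin F (E : Set L)) (x := ⟨⟨x, hx'⟩, h1 hx'⟩)
      (Algebra.IsAlgebraic.isAlgebraic _)
  | mul x y hx hy h1 h2 =>
    intro h
    have hx' := mem_F L _ hSTL hx
    have hy' := mem_F L _ hSTL hy
    have e : (⟨x * y, h⟩ : L) = ⟨x, hx'⟩ * ⟨y, hy'⟩ := rfl
    rw [e]
    exact mul_mem (h1 hx') (h2 hy')

/-- elements generated by fixed elements are fixed -/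
theorem fixed (L : IntermediateField F Ω) (ψ : L →+* L) (hK : ∀ c : K, ψ (algebraMap K L c) = algebraMap K L c)
    (T : Set Ω) (hTL : ∀ x ∈ T, x ∈ L) (hT : ∀ x ∈ T, ∀ h : x ∈ L, ψ ⟨x, h⟩ = ⟨x, h⟩) {x : Ω}
    (hx : x ∈ IntermediateField.adjoin K T) : ∀ h : x ∈ L, ψ ⟨x, h⟩ = ⟨x, h⟩ := by
  induction hx using IntermediateField.adjoin_induction with
  | mem x hx => exact hT x hx
  | algebraMap c =>
    intro h
    have e : (⟨algebraMap K Ω c, h⟩ : L) = algebraMap K L c := rfl
    rw [e, hK]
  | add x y hx hy h1 h2 =>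
    intro h
    have hx' := mem_F L _ hTL hx
    have hy' := mem_F L _ hTL hy
    have e : (⟨x + y, h⟩ : L) = ⟨x, hx'⟩ + ⟨y, hy'⟩ := rfl
    rw [e, map_add, h1, h2]
  | inv x hx h1 =>
    intro h
    have hx' := mem_F L _ hTL hx
    have e : (⟨x⁻¹, h⟩ : L) = (⟨x, hx'⟩ : L)⁻¹ := rfl
    rw [e, map_inv₀, h1]
  | mul x y hx hy h1 h2 =>
    intro h
    have hx' := mem_F L _ hTL hx
    have hy' := mem_F L _ hTL hy
    have e : (⟨x * y, h⟩ : L) = ⟨x, hx'⟩ * ⟨y, hy'⟩ := rfl
    rw [e, map_mul, h1, h2]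

end

theorem t_SPC (hACT : S_ACT) (hDVA : S_DVA) (hDOM : S_DOM) (hAUT : S_AUT) (hGLW : S_GLW) (hSPN : S_SPN) : S_SPC := by
  intro N m a hN hm ham K F _ _ _ _ f hf hgen φ hφ
  have hcz : CharZero F := charZero_of_injective_algebraMap (algebraMap K F).injective
  let Ω : Type := AlgebraicClosure F
  let fΩ : Ix N m → Ω := fun p => algebraMap F Ω (f p)
  have hfΩ : Gen N m K Ω fΩ := by
    refine ⟨?_, ?_⟩
    · obtain ⟨-, -, h⟩ := hDVA (N + 1) m F
      have h1 := h Ω (algebraMap F Ω) f
      rw [hf.1] at h1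
      refine h1.trans ?_
      funext β
      exact map_zero _
    · exact hf.2.map' (f := IsScalarTower.toAlgHom K F Ω) (algebraMap F Ω).injective
  obtain ⟨B, hBdet, hBfix⟩ := hDOM N m hN hm K F Ω f hf
  have hBB : B * B⁻¹ = 1 := Matrix.mul_nonsing_inv _ (isUnit_iff_ne_zero.2 hBdet)
  set B' : Matrix (Fin (N + 1)) (Fin (N + 1)) Ω := B⁻¹ with hB'
  let L : IntermediateField F Ω := IntermediateField.adjoin F (Set.range fun p : Fin (N + 1) × Fin (N + 1) => B p.1 p.2)
  have hfin : FiniteDimensional F L := IntermediateField.finiteDimensional_adjoin fun x _ =>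
    (Algebra.IsAlgebraic.isAlgebraic x).isIntegral
  let Lk : IntermediateField K Ω :=
    IntermediateField.adjoin K (Set.range fΩ ∪ Set.range fun p : Fin (N + 1) × Fin (N + 1) => B p.1 p.2)
  have hBL : ∀ i j, B i j ∈ L := fun i j => IntermediateField.subset_adjoin F _ ⟨(i, j), rfl⟩
  have hgL : ∀ x ∈ Set.range fΩ ∪ Set.range (fun p : Fin (N + 1) × Fin (N + 1) => B p.1 p.2), x ∈ L := by
    rintro x (⟨p, rfl⟩ | ⟨p, rfl⟩)
    · exact L.algebraMap_mem _
    · exact hBL p.1 p.2
  have hmem : ∀ x : Ω, x ∈ L ↔ x ∈ Lk := by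
    intro x
    constructor
    · intro hx
      induction hx using IntermediateField.adjoin_induction with
      | mem x hx => exact IntermediateField.subset_adjoin K _ (Or.inr hx)
      | algebraMap c =>
        exact mem_of_gen f hgen Lk (fun i => IntermediateField.subset_adjoin K _ (Or.inl ⟨i, rfl⟩)) c
      | add x y _ _ h1 h2 => exact add_mem h1 h2
      | inv x _ h1 => exact inv_mem h1
      | mul x y _ _ h1 h2 => exact mul_mem h1 h2
    · exact fun hx => mem_F L _ hgL hx
  let e : L ≃+* Lk :=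
    { toFun := fun x => ⟨x.1, (hmem _).1 x.2⟩
      invFun := fun x => ⟨x.1, (hmem _).2 x.2⟩
      left_inv := fun _ => rfl
      right_inv := fun _ => rfl
      map_mul' := fun _ _ => rfl
      map_add' := fun _ _ => rfl }
  choose ψk hψk using hAUT N m hN hm K Ω fΩ hfΩ B B' hBB hBfix
  let ψ : GP N K → (L ≃+* L) := fun g => e.trans ((ψk g).toRingEquiv.trans e.symm)
  have hψv : ∀ g (x : L), ((ψ g x : L) : Ω) = ((ψk g (e x) : _) : Ω) := fun g x => rfl
  have hψK : ∀ g (c : K), ψ g (algebraMap K L c) = algebraMap K L c := by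
    intro g c
    apply Subtype.ext
    rw [hψv]
    have e1 : e (algebraMap K L c) = algebraMap K Lk c := Subtype.ext rfl
    rw [e1, AlgEquiv.commutes]
    rfl
  have hψF : ∀ g (x : F), ψ g (algebraMap F L x) = algebraMap F L (φ g x) := by
    intro g x
    refine hom_ext f hgen (((ψ g : L ≃+* L) : L →+* L).comp (algebraMap F L))
      ((algebraMap F L).comp ((φ g : F →ₐ[K] F) : F →+* F)) (fun c => ?_) (fun p => ?_) x
    · show ψ g (algebraMap F L (algebraMap K F c)) = algebraMap F L (φ g (algebraMap K F c))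
      rw [AlgHom.commutes, ← IsScalarTower.algebraMap_apply, hψK]
    · show ψ g (algebraMap F L (f p)) = algebraMap F L (φ g (f p))
      apply Subtype.ext
      rw [hψv, hφ g p]
      refine ((hψk g (e (algebraMap F L (f p)))).1 p rfl).trans ?_
      show _ = algebraMap F Ω (act (ext F g.1.1) (ext F g.1.2) f p)
      rw [act_nat hACT (algebraMap F Ω), ext_ext, ext_ext]
  have hφφ : ∀ (g g' : GP N K), g.1.1 = g'.1.2 → g.1.2 = g'.1.1 → ∀ x, φ g (φ g' x) = x := by
    intro g g' h1 h2 x
    refine hom_ext f hgen (((φ g : F →ₐ[K] F) : F →+* F).comp ((φ g' : F →ₐ[K] F) : F →+* F)) (RingHom.id F)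
      (fun c => ?_) (fun p => ?_) x
    · show φ g (φ g' (algebraMap K F c)) = algebraMap K F c
      rw [AlgHom.commutes, AlgHom.commutes]
    · show φ g (φ g' (f p)) = f p
      rw [hφ g' p]
      have h3 := act_nat hACT ((φ g : F →ₐ[K] F) : F →+* F) (ext F g'.1.1) (ext F g'.1.2) f p
      have h4 : ∀ (M : Matrix (Fin (N + 1)) (Fin (N + 1)) K), (ext F M).map ((φ g : F →ₐ[K] F) : F →+* F) = ext F M := by
        intro M
        ext i j
        exact AlgHom.commutes (φ g) (M i j)
      rw [h4, h4] at h3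
      have h5 : (fun p => ((φ g : F →ₐ[K] F) : F →+* F) (f p)) = act (ext F g.1.1) (ext F g.1.2) f := by
        funext p
        exact hφ g p
      rw [h5] at h3
      obtain ⟨-, -, -, -, -, -, hcomp, hact1, -⟩ := hACT (N + 1) (m + 1) F
      rw [hcomp, h1, h2] at h3
      have h6 : ext F g'.1.1 * ext F g'.1.2 = 1 := by
        rw [← Matrix.map_mul, g'.2, Matrix.map_one _ (map_zero _) (map_one _)]
      rw [h6, hact1] at h3
      exact h3
  have htr : ∀ g (x : L), φ g (Algebra.trace F L x) = Algebra.trace F L (ψ g x) := by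
    intro g x
    have hinv : (g.1.2 * g.1.1 : Matrix (Fin (N + 1)) (Fin (N + 1)) K) = 1 := mul_eq_one_comm.1 g.2
    let g' : GP N K := ⟨(g.1.2, g.1.1), hinv⟩
    let e₁ : F ≃+* F :=
      { toFun := φ g
        invFun := φ g'
        left_inv := hφφ g' g rfl rfl
        right_inv := hφφ g g' rfl rfl
        map_mul' := map_mul _
        map_add' := map_add _ }
    have h1 := Algebra.trace_eq_of_equiv_equiv e₁ (ψ g) (by
      ext y
      exact congrArg Subtype.val (hψF g y).symm) x
    rw [h1]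
    exact e₁.apply_symm_apply _
  -- the field of the conjugate map
  have hf0L : ∀ p, act B' B fΩ p ∈ L := fun p => (hmem _).2 (act_mem hACT Lk B' B fΩ
    (inv_mem' Lk B B' (fun i j => (hmem _).1 (hBL i j)) hBB) (fun i j => (hmem _).1 (hBL i j))
    (fun p => IntermediateField.subset_adjoin K _ (Or.inl ⟨p, rfl⟩)) p)
  let E : Subfield L := (IntermediateField.adjoin K (Set.range (act B' B fΩ))).toSubfield.comap (algebraMap L Ω)
  have hE : ∀ g, ∀ x ∈ E, ψ g x = x := by
    intro g x hx
    refine fixed L ((ψ g : L ≃+* L) : L →+* L) (hψK g) (Set.range (act B' B fΩ)) ?_ ?_ hx x.2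
    · rintro _ ⟨p, rfl⟩
      exact hf0L p
    · rintro _ ⟨p, rfl⟩ h
      apply Subtype.ext
      exact (hψk g (e ⟨_, h⟩)).2.1 p rfl
  let BL : Matrix (Fin (N + 1)) (Fin (N + 1)) L := fun i j => ⟨B i j, hBL i j⟩
  have hBLm : BL.map (algebraMap L Ω) = B := rfl
  have hBLdet : algebraMap L Ω BL.det = B.det := (algebraMap L Ω).map_det BL
  have hdet : BL.det ≠ 0 := by
    intro h0
    rw [h0, map_zero] at hBLdet
    exact hBdet hBLdet.symm
  have h3 : ∀ g : GP N K, BL.map (ψ g : L →+* L) = ext L g.1.1 * BL := by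
    intro g
    ext i j
    have h1 := (hψk g (e ⟨B i j, hBL i j⟩)).2.2 i j rfl
    show ((ψk g (e ⟨B i j, hBL i j⟩) : _) : Ω) = algebraMap L Ω ((ext L g.1.1 * BL) i j)
    rw [h1, Matrix.mul_apply, Matrix.mul_apply, map_sum]
    rfl
  -- the entries
  have halg : Algebra.IsAlgebraic (IntermediateField.adjoin K (Set.range fΩ)) Ω := by
    refine ⟨fun x => ?_⟩
    obtain ⟨P, hP, hPx⟩ := Algebra.IsAlgebraic.isAlgebraic (R := F) x
    let j : F →+* IntermediateField.adjoin K (Set.range fΩ) :=
      (algebraMap F Ω).codRestrict (IntermediateField.adjoin K (Set.range fΩ))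
        (mem_of_gen f hgen _ fun i => IntermediateField.subset_adjoin K _ ⟨i, rfl⟩)
    refine ⟨P.map j, (Polynomial.map_ne_zero_iff j.injective).2 hP, ?_⟩
    rw [Polynomial.aeval_def, Polynomial.eval₂_map]
    exact hPx
  have hU : ∀ α β : Mon (N + 1) m, algebraMap L Ω (act1 BL (Pi.single β 1) α) = act1 B (Pi.single β 1) α := by
    intro α β
    rw [act1_nat hACT (algebraMap L Ω), single_nat, hBLm]
  have h4 : ∀ (i j : Fin (N + 1)) (α β : Mon (N + 1) m),
      act1 BL (Pi.single β 1) α * (BL.det ^ a * BL i j) ∈ Algebra.adjoin F (E : Set L) ∧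
      act1 BL (Pi.single β 1) α * BL.det ^ m ∈ Algebra.adjoin F (E : Set L) := by
    intro i j α β
    obtain ⟨h5, h6⟩ := hGLW N m a hN hm ham K Ω fΩ hfΩ halg B B' hBB hBfix i j α β
    have key : ∀ x : L, (x : Ω) ∈ IntermediateField.adjoin K (Set.range fΩ ∪ Set.range (act B' B fΩ)) →
        x ∈ Algebra.adjoin F (E : Set L) := by
      intro x hx
      refine mem_A L (Set.range fΩ) (Set.range (act B' B fΩ)) E ?_ ?_ ?_ hx x.2
      · rintro _ ⟨p, rfl⟩
        exact ⟨f p, rfl⟩
      · rintro _ ⟨p, rfl⟩ h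
        exact IntermediateField.subset_adjoin K _ ⟨p, rfl⟩
      · rintro _ ⟨p, rfl⟩
        exact hf0L p
    constructor
    · apply key
      have e1 : ((act1 BL (Pi.single β 1) α * (BL.det ^ a * BL i j) : L) : Ω) =
          act1 B (Pi.single β 1) α * (B.det ^ a * B i j) := by
        show algebraMap L Ω (act1 BL (Pi.single β 1) α * (BL.det ^ a * BL i j)) = _
        rw [map_mul, map_mul, map_pow, hU, hBLdet]
        rfl
      rw [e1]
      exact h5
    · apply key
      have e1 : ((act1 BL (Pi.single β 1) α * BL.det ^ m : L) : Ω) = act1 B (Pi.single β 1) α * B.det ^ m := by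
        show algebraMap L Ω (act1 BL (Pi.single β 1) α * BL.det ^ m) = _
        rw [map_mul, map_pow, hU, hBLdet]
      rw [e1]
      exact h6
  exact core hACT hSPN φ (fun g => ((ψ g : L ≃+* L) : L →+* L)) htr E hE BL hdet h3 h4

end Pool.Agent.Z15.ME.SPC
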