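import Pool.Agent.Z15.ME.Stm

/-! SPN: traces of the rows of an invertible matrix. -/

set_option autoImplicit false

namespace Pool.Agent.Z15.ME.SPN

/-- SPN. -/
theorem t_SPN (h : S_TRC) : S_SPN := by
  intro F L _ _ _ _ _ E I _ _ b hb hadj
  by_contra hne
  obtain ⟨f, hf0, hf⟩ := Submodule.exists_le_ker_of_lt_top _ (lt_top_iff_ne_top.2 hne)
  set l : I → F := fun i => f (fun j => if i = j then 1 else 0) with hl
  have hfe : ∀ t : I → F, f t = ∑ i, t i * l i := by
    intro t
    rw [LinearMap.pi_apply_eq_sum_univ f t]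
    exact Finset.sum_congr rfl fun i _ => by rw [smul_eq_mul]
  have hw : ∀ r, ∑ i, algebraMap F L (l i) * b r i = 0 := by
    intro r
    by_contra hw
    obtain ⟨c, hc, hct⟩ := h F L E _ hw (hadj l r)
    apply hct
    have h1 : f (fun i => Algebra.trace F L (c * b r i)) = 0 :=
      hf (Submodule.subset_span ⟨c, hc, r, rfl⟩)
    rw [hfe] at h1
    rw [Finset.mul_sum, map_sum, ← h1]
    refine Finset.sum_congr rfl fun i _ => ?_
    have h2 : c * (algebraMap F L (l i) * b r i) = l i • (c * b r i) := by
      rw [Algebra.smul_def]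
      ring
    rw [h2, map_smul, smul_eq_mul, mul_comm]
  have hv : b.mulVec (fun i => algebraMap F L (l i)) = 0 := by
    funext r
    rw [Matrix.mulVec, dotProduct]
    have := hw r
    simp only [mul_comm (b r _)]
    exact this
  have h3 := Matrix.eq_zero_of_mulVec_eq_zero hb.ne_zero hv
  apply hf0
  apply LinearMap.ext
  intro t
  rw [hfe]
  have h4 : ∀ i, l i = 0 := fun i => by
    have := congrFun h3 i
    exact (map_eq_zero _).1 this
  simp [h4]

end Pool.Agent.Z15.ME.SPN
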