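import Pool.Agent.Z15.ME.T_IND

/-!
Task STB of project ME (helper15), by helper62.
-/

set_option autoImplicit false

namespace Pool.Agent.Z15.ME.STB

open MvPolynomial Pool.Agent.Z15.ME Pool.Agent.Z15.ME.IND

/-- the action of a diagonal matrix on forms -/
theorem act1_diag {n d : ℕ} {R : Type} [CommRing R] (z : Fin n → R) (c : Mon n d → R) (β : Mon n d) :
    act1 (Matrix.diagonal z) c β = (∏ i, z i ^ β.1 i) * c β := by
  have hlin : ∀ i, lin (Matrix.diagonal z) (X i) = C (z i) * X i := by
    intro i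
    unfold lin
    rw [aeval_X, Finset.sum_eq_single i]
    · rw [Matrix.diagonal_apply_eq]
    · intro j _ hj
      rw [Matrix.diagonal_apply_ne _ (Ne.symm hj), C_0, zero_mul]
    · intro h
      exact absurd (Finset.mem_univ i) h
  have hmon : ∀ (α : Fin n →₀ ℕ) (a : R), lin (Matrix.diagonal z) (monomial α a) =
      monomial α ((∏ i, z i ^ α i) * a) := by
    intro α a
    rw [monomial_eq, map_mul, Finsupp.prod_fintype _ _ (fun i => pow_zero _), map_prod]
    have h1 : ∀ i, lin (Matrix.diagonal z) (X i ^ α i) = C (z i ^ α i) * X i ^ α i := by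
      intro i
      rw [map_pow, hlin, mul_pow, C_pow]
    rw [Finset.prod_congr rfl fun i _ => h1 i, Finset.prod_mul_distrib]
    have h2 : lin (Matrix.diagonal z) (C a) = C a := by
      rw [← algebraMap_eq, AlgHom.commutes]
    rw [h2, monomial_eq, Finsupp.prod_fintype _ _ (fun i => pow_zero _), C_mul, map_prod]
    ring
  unfold act1 cf pol
  rw [map_sum, coeff_sum, Finset.sum_eq_single β]
  · rw [hmon, coeff_monomial, if_pos rfl]
  · intro α _ hα
    rw [hmon, coeff_monomial, if_neg]
    intro h
    exact hα (Subtype.ext h)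
  · intro h
    exact absurd (Finset.mem_univ β) h

theorem act_diag {n d : ℕ} {R : Type} [CommRing R] (w z : Fin n → R) (c : Fin n × Mon n d → R)
    (p : Fin n × Mon n d) :
    act (Matrix.diagonal w) (Matrix.diagonal z) c p = w p.1 * ((∏ i, z i ^ p.2.1 i) * c p) := by
  unfold act
  rw [Finset.sum_eq_single p.1]
  · rw [Matrix.diagonal_apply_eq, act1_diag]
  · intro j _ hj
    rw [Matrix.diagonal_apply_ne _ (Ne.symm hj), zero_mul]
  · intro h
    exact absurd (Finset.mem_univ _) h

theorem t_STB (_hPOL : S_POL) (hACT : S_ACT) (hDVA : S_DVA) (hEVA : S_EVA) (hAFF : S_AFF) (hPAI : S_PAI)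
    (hIND : S_IND) : S_STB := by
  intro N m hN hm K M _ _ _ _ f hf B hB hfix s s' hs hact
  have hcz : CharZero M := charZero_of K
  have hs' : s' * s = 1 := mul_eq_one_comm.mp hs
  set B' := B⁻¹ with hB'
  have hBB : B * B' = 1 := Matrix.mul_nonsing_inv B (isUnit_iff_ne_zero.mpr hB)
  have hBB' : B' * B = 1 := mul_eq_one_comm.mp hBB
  -- the columns of `B`
  set x : Fin (N + 1) → Fin (N + 1) → M := fun i k => B k i with hx
  have hx0 : ∀ i, x i ≠ 0 := by
    intro i h0
    have h1 : (B' * B) i i = 0 := by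
      rw [Matrix.mul_apply]
      refine Finset.sum_eq_zero fun l _ => ?_
      have h2 : B l i = 0 := congrFun h0 l
      rw [h2, mul_zero]
    rw [hBB', Matrix.one_apply_eq] at h1
    exact one_ne_zero h1
  have hss : ∀ y : Fin (N + 1) → M, s'.mulVec (s.mulVec y) = y := by
    intro y
    rw [Matrix.mulVec_mulVec, hs', Matrix.one_mulVec]
  -- `s x` is a fixed vector
  have hfx : ∀ i, Fx f (s.mulVec (x i)) := by
    intro i k
    have h1 := (hEVA (N + 1) (m + 1) M s s' f (s.mulVec (x i))).1 k
    rw [hact] at h1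
    rw [h1, hss]
    have h2 : ∀ l, eval (x i) (cmp f l) = x i l := hfix i
    simp only [h2]
    rfl
  have hjac : ∀ i, jac f (s.mulVec (x i)) = s * jac f (x i) * s' := by
    intro i
    have h1 := (hEVA (N + 1) (m + 1) M s s' f (s.mulVec (x i))).2.1
    rw [hact, hss] at h1
    exact h1
  have htr : ∀ i, (jac f (s.mulVec (x i)) ^ 2).trace = (jac f (x i) ^ 2).trace := by
    intro i
    have h1 : jac f (s.mulVec (x i)) ^ 2 = s * (jac f (x i) ^ 2 * s') := by
      rw [hjac, pow_two, pow_two]
      calc s * jac f (x i) * s' * (s * jac f (x i) * s')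
          = s * jac f (x i) * (s' * s) * jac f (x i) * s' := by simp only [mul_assoc]
        _ = s * (jac f (x i) * jac f (x i) * s') := by rw [hs', mul_one]; simp only [mul_assoc]
    rw [h1, Matrix.trace_mul_comm, mul_assoc, hs', mul_one]
  have hz : ∀ i, ∃ z : M, z • x i = s.mulVec (x i) := by
    intro i
    by_contra hcon
    have hli : LinearIndependent M ![s.mulVec (x i), x i] := by
      rw [LinearIndependent.pair_iff]
      intro a b hab
      by_cases ha : a = 0
      · subst ha
        rw [zero_smul, zero_add] at hab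
        exact ⟨rfl, (smul_eq_zero.mp hab).resolve_right (hx0 i)⟩
      · exfalso
        apply hcon
        refine ⟨-(a⁻¹ * b), ?_⟩
        have h1 : a • s.mulVec (x i) = -(b • x i) := eq_neg_of_add_eq_zero_left hab
        calc -(a⁻¹ * b) • x i = a⁻¹ • (-(b • x i)) := by rw [neg_smul, smul_neg, mul_smul]
          _ = s.mulVec (x i) := by rw [← h1, smul_smul, inv_mul_cancel₀ ha, one_smul]
    exact hPAI N m hN hm K M f hf _ _ (hfx i) (hfix i) hli (htr i)
  choose z hz using hz
  -- the degree
  have hzpow : ∀ i, z i ^ (m + 1) = z i := by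
    intro i
    obtain ⟨k, hk⟩ := Function.ne_iff.mp (hx0 i)
    have hk' : x i k ≠ 0 := hk
    have h1 := hfx i k
    rw [← hz i] at h1
    have h2 := ((hEVA (N + 1) (m + 1) M 1 1 f (x i)).2.2 (z i)).1 k
    have h3 : (z i • x i) = fun j => z i * x i j := rfl
    rw [h3, h2] at h1
    have h4 : eval (x i) (cmp f k) = x i k := hfix i k
    rw [h4] at h1
    exact mul_right_cancel₀ hk' h1
  have hz0 : ∀ i, z i ≠ 0 := by
    intro i h0
    have h1 := hz i
    rw [h0, zero_smul] at h1
    have h2 := hss (x i)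
    rw [← h1, Matrix.mulVec_zero] at h2
    exact hx0 i h2.symm
  have hzm : ∀ i, z i ^ m = 1 := by
    intro i
    have h1 := hzpow i
    rw [pow_succ] at h1
    exact mul_right_cancel₀ (hz0 i) (h1.trans (one_mul _).symm)
  -- `s B = B diag z`
  have hsB : s * B = B * Matrix.diagonal z := by
    ext k i
    rw [Matrix.mul_diagonal]
    have h1 := congrFun (hz i) k
    have h2 : s.mulVec (x i) k = (s * B) k i := rfl
    rw [← h2, ← h1]
    show z i * B k i = B k i * z i
    ring
  set D : Matrix (Fin (N + 1)) (Fin (N + 1)) M := Matrix.diagonal z with hD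
  set D' : Matrix (Fin (N + 1)) (Fin (N + 1)) M := Matrix.diagonal (fun i => (z i)⁻¹) with hD'
  have hDD : D * D' = 1 := by
    rw [hD, hD', Matrix.diagonal_mul_diagonal, ← Matrix.diagonal_one]
    congr 1
    funext i
    exact mul_inv_cancel₀ (hz0 i)
  have hB'sB : B' * s * B = D := by rw [mul_assoc, hsB, ← mul_assoc, hBB', one_mul]
  have hB's'B : B' * s' * B = D' := by
    have h1 : D * (B' * s' * B) = 1 := by
      rw [← hB'sB]
      calc B' * s * B * (B' * s' * B) = B' * s * (B * B') * s' * B := by simp only [mul_assoc]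
        _ = B' * (s * s') * B := by rw [hBB, mul_one, mul_assoc B' s s']
        _ = 1 := by rw [hs, mul_one, hBB']
    have hDD' : D' * D = 1 := mul_eq_one_comm.mp hDD
    calc B' * s' * B = D' * D * (B' * s' * B) := by rw [hDD', one_mul]
      _ = D' := by rw [mul_assoc, h1, mul_one]
  -- the conjugate
  have hf0 : act D D' (act B' B f) = act B' B f := by
    have hA := (hACT (N + 1) (m + 1) M).2.2.2.2.2.2.1
    rw [hA, ← hB'sB, ← hB's'B]
    have h1 : B' * s * B * B' = B' * s := by rw [mul_assoc, hBB, mul_one]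
    have h2 : B * (B' * s' * B) = s' * B := by rw [← mul_assoc, ← mul_assoc, hBB, one_mul]
    rw [h1, h2, ← hA, hact]
  obtain ⟨q, ρ, a0, a1, hcard, -, -, haff, hlast⟩ := hAFF N m hN hm
  have hind := (hIND N m q ρ a0 a1 hN hm hcard haff K M f hf B B' hBB hfix).1
  have hne : ∀ j, act B' B f (ρ j) ≠ 0 := fun j => hind.ne_zero (Sum.inr j)
  -- comparison of two entries
  have hcmp : ∀ k l : Fin (N + 1), k ≠ Fin.last N → k ≠ l → z k = z l := by
    intro k l hk hkl
    have hdeg : (Finsupp.single k m + Finsupp.single l 1).degree = m + 1 := by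
      rw [map_add, Finsupp.degree_single, Finsupp.degree_single]
    obtain ⟨j, hj⟩ := hlast k l ⟨Finsupp.single k m + Finsupp.single l 1, hdeg⟩ hk hkl rfl
    have h1 := congrFun hf0 (ρ j)
    rw [hD, hD', act_diag, ← mul_assoc] at h1
    have h2 : z (ρ j).1 * ∏ i, (z i)⁻¹ ^ (ρ j).2.1 i = 1 :=
      mul_right_cancel₀ (hne j) (h1.trans (one_mul _).symm)
    rw [hj] at h2
    have h3 : ∏ i, (z i)⁻¹ ^ ((Finsupp.single k m + Finsupp.single l 1 : Fin (N + 1) →₀ ℕ) i) =
        (z k)⁻¹ ^ m * (z l)⁻¹ := by
      have h4 : ∀ i, (z i)⁻¹ ^ ((Finsupp.single k m + Finsupp.single l 1 : Fin (N + 1) →₀ ℕ) i) =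
          (if i = k then (z k)⁻¹ ^ m else 1) * (if i = l then (z l)⁻¹ else 1) := by
        intro i
        rw [Finsupp.add_apply, pow_add, Finsupp.single_apply, Finsupp.single_apply]
        by_cases hik : i = k
        · subst hik
          by_cases hil : i = l
          · exact absurd hil hkl
          · rw [if_pos rfl, if_pos rfl, if_neg (Ne.symm hil), if_neg hil, pow_zero]
        · by_cases hil : i = l
          · subst hil
            rw [if_neg (Ne.symm hik), if_neg hik, if_pos rfl, if_pos rfl, pow_zero, pow_one]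
          · rw [if_neg (Ne.symm hik), if_neg hik, if_neg (Ne.symm hil), if_neg hil, pow_zero]
      rw [Finset.prod_congr rfl fun i _ => h4 i, Finset.prod_mul_distrib, Finset.prod_ite_eq',
        Finset.prod_ite_eq', if_pos (Finset.mem_univ _), if_pos (Finset.mem_univ _)]
    have h5 : z k * ((z k)⁻¹ ^ m * (z l)⁻¹) = 1 := by
      rw [← h3]; exact h2
    rw [inv_pow, hzm k, inv_one, one_mul] at h5
    exact (mul_inv_eq_one₀ (hz0 l)).mp h5
  have h0last : (0 : Fin (N + 1)) ≠ Fin.last N := by
    intro h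
    have := congrArg Fin.val h
    simp at this
    omega
  have hall : ∀ l, z l = z 0 := by
    intro l
    by_cases hl : (0 : Fin (N + 1)) = l
    · rw [← hl]
    · exact (hcmp 0 l h0last hl).symm
  refine ⟨z 0, hzm 0, ?_⟩
  have hDz : D = z 0 • 1 := by
    rw [hD, ← Matrix.diagonal_one, ← Matrix.diagonal_smul]
    congr 1
    funext l
    rw [hall l]
    simp
  calc s = s * (B * B') := by rw [hBB, mul_one]
    _ = B * D * B' := by rw [← mul_assoc, hsB]
    _ = z 0 • 1 := by
      rw [hDz, Matrix.mul_smul, mul_one, Matrix.smul_mul, hBB]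

end Pool.Agent.Z15.ME.STB
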