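import Pool.Agent.Z15.ME.Stm2

set_option autoImplicit false

namespace Pool.Agent.Z15.ME.TDB

open MvPolynomial Pool.Agent.Z15.ME

theorem t_TDB (hREC : S_REC) (hAIC : S_AIC) (_hTRD : S_TRD) : S_TDB := by
  intro N m a k K M _ _ _ _ D κ _ x hx hcard
  have hk : k ≠ 0 := by
    rintro rfl
    have := D.hk
    simp at this
  obtain ⟨-, -, -, -, hC1, -⟩ := hAIC N m a k K M D
  obtain ⟨-, htop⟩ := hREC N m a k K M D
  let z : κ ⊕ (Fin (N + 1) × Fin (N + 1)) → M :=
    Sum.elim x fun p : Fin (N + 1) × Fin (N + 1) => D.C1 p.1 p.2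
  let L : IntermediateField K M := IntermediateField.adjoin K (Set.range z)
  have hxL : ∀ i, x i ∈ L := fun i =>
    IntermediateField.subset_adjoin K _ ⟨Sum.inl i, rfl⟩
  have hcL : ∀ i j, D.C1 i j ∈ L := fun i j =>
    IntermediateField.subset_adjoin K _ ⟨Sum.inr (i, j), rfl⟩
  have hft : ∀ p, D.ft p ∈ L := by
    intro p
    have h1 : D.ft p ∈ IntermediateField.adjoin K (Set.range D.ft) :=
      IntermediateField.subset_adjoin K _ ⟨p, rfl⟩
    rw [← hx] at h1
    refine (IntermediateField.adjoin_le_iff.2 ?_) h1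
    rintro _ ⟨i, rfl⟩
    exact hxL i
  have hdet : D.C1.det ∈ L := by
    rw [Matrix.det_apply]
    refine sum_mem fun σ _ => ?_
    rw [Units.smul_def, zsmul_eq_mul]
    exact mul_mem (intCast_mem _ _) (prod_mem fun i _ => hcL _ _)
  have hHH : IsAlgebraic L D.HH := by
    have h1 : IsAlgebraic L (D.HH ^ k) := by
      rw [← hC1]
      exact isAlgebraic_algebraMap (⟨D.C1.det, hdet⟩ : L)
    exact h1.of_pow (Nat.pos_of_ne_zero hk)
  have halg : Algebra.IsAlgebraic L M := by
    have h2 : (algebraicClosure L M).restrictScalars K = (⊤ : IntermediateField K M) := by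
      rw [eq_top_iff, ← htop, IntermediateField.adjoin_le_iff]
      rintro y ((⟨p, rfl⟩ | hy) | ⟨p, rfl⟩)
      · change D.ft p ∈ algebraicClosure L M
        rw [mem_algebraicClosure_iff]
        exact isAlgebraic_algebraMap (⟨D.ft p, hft p⟩ : L)
      · rw [Set.mem_singleton_iff] at hy
        subst hy
        change D.HH ∈ algebraicClosure L M
        rw [mem_algebraicClosure_iff]
        exact hHH
      · change D.C1 p.1 p.2 ∈ algebraicClosure L M
        rw [mem_algebraicClosure_iff]
        exact isAlgebraic_algebraMap (⟨D.C1 p.1 p.2, hcL _ _⟩ : L)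
    refine ⟨fun y => ?_⟩
    have h3 : y ∈ (algebraicClosure L M).restrictScalars K := by
      rw [h2]
      trivial
    exact mem_algebraicClosure_iff.1 h3
  have halg' : Algebra.IsAlgebraic (Algebra.adjoin K (Set.range z)) M :=
    IntermediateField.isAlgebraic_adjoin_iff_top.1 halg
  have hz := Algebra.IsAlgebraic.isTranscendenceBasis_of_le_trdeg_of_finite K z (by
    refine le_trans ?_ D.ind.cardinalMk_le_trdeg
    rw [← Nat.cast_card, ← Nat.cast_card]
    refine le_of_eq ?_
    congr 1
    rw [Nat.card_sum, ← hcard]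
    congr 1
    simp [sq])
  exact hz.1.comp Sum.inl Sum.inl_injective

end Pool.Agent.Z15.ME.TDB
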