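import Pool.Agent.Z15.ME.Stm2

set_option autoImplicit false

/-! (TRC) the trace form -/

namespace Pool.Agent.Z15.ME.TRC

theorem t_TRC : S_TRC := by
  intro F L _ _ _ _ _ E w hw hwE
  by_contra hcon
  push Not at hcon
  -- the trace of `a * w` vanishes for all `a` in the span of `E`
  have hE : (Submonoid.closure (E : Set L) : Set L) = (E : Set L) := by
    apply le_antisymm
    · have : Submonoid.closure (E : Set L) ≤ E.toSubmonoid := by
        rw [Submonoid.closure_le]
        exact fun x hx => hx
      exact this
    · exact Submonoid.subset_closure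
  have h1 : ∀ a ∈ Algebra.adjoin F (E : Set L), Algebra.trace F L (a * w) = 0 := by
    intro a ha
    have ha' : a ∈ Submodule.span F (E : Set L) := by
      have h2 : a ∈ Subalgebra.toSubmodule (Algebra.adjoin F (E : Set L)) := ha
      rw [Algebra.adjoin_eq_span, hE] at h2
      exact h2
    induction ha' using Submodule.span_induction with
    | mem x hx => exact hcon x hx
    | zero => rw [zero_mul, map_zero]
    | add x y hx hy h2 h3 =>
      rw [add_mul, map_add]
      have hx' : x ∈ Algebra.adjoin F (E : Set L) := by
        have : x ∈ Subalgebra.toSubmodule (Algebra.adjoin F (E : Set L)) := by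
          rw [Algebra.adjoin_eq_span, hE]; exact hx
        exact this
      have hy' : y ∈ Algebra.adjoin F (E : Set L) := by
        have : y ∈ Subalgebra.toSubmodule (Algebra.adjoin F (E : Set L)) := by
          rw [Algebra.adjoin_eq_span, hE]; exact hy
        exact this
      rw [h2 hx', h3 hy', add_zero]
    | smul t x hx h2 =>
      rw [smul_mul_assoc, map_smul]
      have hx' : x ∈ Algebra.adjoin F (E : Set L) := by
        have : x ∈ Subalgebra.toSubmodule (Algebra.adjoin F (E : Set L)) := by
          rw [Algebra.adjoin_eq_span, hE]; exact hx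
        exact this
      rw [h2 hx', smul_zero]
  have h2 : w⁻¹ ∈ Algebra.adjoin F (E : Set L) := by
    have hint : IsIntegral F w := Algebra.IsIntegral.isIntegral w
    exact Subalgebra.inv_mem_of_algebraic (K := F) (L := L) (A := Algebra.adjoin F (E : Set L)) (x := ⟨w, hwE⟩)
      (by exact hint.isAlgebraic)
  have h3 := h1 _ h2
  rw [inv_mul_cancel₀ hw] at h3
  have h4 : Algebra.trace F L 1 = (Module.finrank F L : F) := by
    have := Algebra.trace_algebraMap (S := L) (1 : F)
    rw [map_one] at this
    rw [this]
    simp
  rw [h4] at h3
  have h5 : 0 < Module.finrank F L := Module.finrank_pos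
  exact absurd h3 (Nat.cast_ne_zero.2 h5.ne')

end Pool.Agent.Z15.ME.TRC
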