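import Pool.Agent.Z15.ME.Stm

/-! # TRD: `n` generators of a field which contains `n` algebraically independent elements -/

set_option autoImplicit false

namespace Pool.Agent.Z15.ME

open MvPolynomial

namespace TRDAux

/-- the field generated by a set is algebraic over the algebra generated by it -/
theorem alg_adjoin {K M : Type} [Field K] [Field M] [Algebra K M] {ι : Type} (x : ι → M)
    (x' : ι → IntermediateField.adjoin K (Set.range x)) (hx' : ∀ i, (x' i : M) = x i) :
    Algebra.IsAlgebraic (Algebra.adjoin K (Set.range x')) (IntermediateField.adjoin K (Set.range x)) := by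
  constructor
  intro z
  obtain ⟨r, hr, s, hs, hz⟩ := IntermediateField.mem_adjoin_iff_div.mp z.2
  have hmap : (Algebra.adjoin K (Set.range x')).map (IntermediateField.val _) = Algebra.adjoin K (Set.range x) := by
    rw [AlgHom.map_adjoin]
    congr 1
    ext w
    constructor
    · rintro ⟨_, ⟨i, rfl⟩, rfl⟩
      exact ⟨i, (hx' i).symm⟩
    · rintro ⟨i, rfl⟩
      exact ⟨x' i, ⟨i, rfl⟩, hx' i⟩
  rw [← hmap] at hr hs
  obtain ⟨r', hr', rfl⟩ := hr
  obtain ⟨s', hs', rfl⟩ := hs
  have hz' : z = r' / s' := by
    apply Subtype.ext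
    rw [hz]
    rfl
  by_cases hs0 : s' = 0
  · rw [hz', hs0, div_zero]
    exact isAlgebraic_zero
  · rw [hz']
    have h1 : IsAlgebraic (Algebra.adjoin K (Set.range x')) r' :=
      isAlgebraic_algebraMap (⟨r', hr'⟩ : Algebra.adjoin K (Set.range x'))
    have h2 : IsAlgebraic (Algebra.adjoin K (Set.range x')) s' :=
      isAlgebraic_algebraMap (⟨s', hs'⟩ : Algebra.adjoin K (Set.range x'))
    rw [div_eq_mul_inv]
    exact h1.mul h2.inv

end TRDAux

open TRDAux in
theorem t_TRD : S_TRD := by
  intro K M _ _ _ ι κ _ _ x y hy hyx hcard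
  set L := IntermediateField.adjoin K (Set.range x) with hL
  let x' : ι → L := fun i => ⟨x i, IntermediateField.subset_adjoin K _ ⟨i, rfl⟩⟩
  let y' : κ → L := fun k => ⟨y k, hyx k⟩
  have hy' : AlgebraicIndependent K y' := by
    refine AlgebraicIndependent.of_comp L.val ?_
    exact hy
  have hle : Cardinal.mk ι ≤ Cardinal.mk κ := by
    rw [← Nat.cast_card, ← Nat.cast_card]
    exact_mod_cast hcard
  have htr : Cardinal.mk κ ≤ Algebra.trdeg K L := hy'.cardinalMk_le_trdeg
  have : Algebra.IsAlgebraic (Algebra.adjoin K (Set.range x')) L := alg_adjoin x x' (fun _ => rfl)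
  have hbx : IsTranscendenceBasis K x' :=
    Algebra.IsAlgebraic.isTranscendenceBasis_of_le_trdeg_of_finite K x' (hle.trans htr)
  refine ⟨?_, ?_⟩
  · exact hbx.1.map' (f := L.val) L.val.injective
  · intro i
    have htr2 : Algebra.trdeg K L ≤ Cardinal.mk κ := by
      rw [← hbx.cardinalMk_eq_trdeg]
      exact hle
    have hby : IsTranscendenceBasis K y' := hy'.isTranscendenceBasis_of_trdeg_le_of_finite htr2
    have halg := hby.isAlgebraic_field
    have h1 : IsAlgebraic (IntermediateField.adjoin K (Set.range y')) (x' i) := halg.isAlgebraic _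
    have hsub : ∀ z : IntermediateField.adjoin K (Set.range y'), ((z : L) : M) ∈
        IntermediateField.adjoin K (Set.range y) := by
      intro z
      have h2 : (IntermediateField.adjoin K (Set.range y')).map L.val =
          IntermediateField.adjoin K (Set.range y) := by
        rw [IntermediateField.adjoin_map]
        congr 1
        ext w
        constructor
        · rintro ⟨_, ⟨k, rfl⟩, rfl⟩
          exact ⟨k, rfl⟩
        · rintro ⟨k, rfl⟩
          exact ⟨y' k, ⟨k, rfl⟩, rfl⟩
      rw [← h2]
      exact ⟨z, z.2, rfl⟩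
    let f : IntermediateField.adjoin K (Set.range y') →+* IntermediateField.adjoin K (Set.range y) :=
      { toFun := fun z => ⟨((z : L) : M), hsub z⟩
        map_one' := rfl
        map_mul' := fun _ _ => rfl
        map_zero' := rfl
        map_add' := fun _ _ => rfl }
    have h3 := h1.ringHom_of_comp_eq (S := IntermediateField.adjoin K (Set.range y)) (B := M) f
      (L.val : L →+* M) f.injective (by ext z; rfl)
    exact h3

end Pool.Agent.Z15.ME
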