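import Pool.Agent.Z15.ME.Main
import Pool.Agent.Z15.ME.T_POL
import Pool.Agent.Z15.ME.T_ACT
import Pool.Agent.Z15.ME.T_DVA
import Pool.Agent.Z15.ME.T_EMB
import Pool.Agent.Z15.ME.T_EVA
import Pool.Agent.Z15.ME.T_SEC
import Pool.Agent.Z15.ME.T_CRD
import Pool.Agent.Z15.ME.T_AFF
import Pool.Agent.Z15.ME.T_EX1
import Pool.Agent.Z15.ME.T_EX2
import Pool.Agent.Z15.ME.T_TRD
import Pool.Agent.Z15.ME.T_DER
import Pool.Agent.Z15.ME.T_DOM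
import Pool.Agent.Z15.ME.T_PAI
import Pool.Agent.Z15.ME.T_IND
import Pool.Agent.Z15.ME.T_STB
import Pool.Agent.Z15.ME.T_AUT
import Pool.Agent.Z15.ME.T_GAL
import Pool.Agent.Z15.ME.T_GLW
import Pool.Agent.Z15.ME.T_TRC
import Pool.Agent.Z15.ME.T_SPN
import Pool.Agent.Z15.ME.T_SPC
import Pool.Agent.Z15.ME.T_SEL
import Pool.Agent.Z15.ME.T_COV
import Pool.Agent.Z15.ME.T_DEN
import Pool.Agent.Z15.ME.T_AIL
import Pool.Agent.Z15.ME.T_AIV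
import Pool.Agent.Z15.ME.T_AIC
import Pool.Agent.Z15.ME.T_CVV
import Pool.Agent.Z15.ME.T_REC
import Pool.Agent.Z15.ME.T_ROO
import Pool.Agent.Z15.ME.T_INV
import Pool.Agent.Z15.ME.T_TDB
import Pool.Agent.Z15.ME.T_GEN
import Pool.Agent.Z15.ME.T_EPS
import Pool.Agent.Z15.ME.T_SOL
import Pool.Agent.Z15.ME.T_RAT
import Pool.Agent.Z15.ME.T_FIN

set_option autoImplicit false

namespace Pool.Agent.Z15.ME

theorem pPOL : S_POL := POL.t_POL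
theorem pACT : S_ACT := ACT.t_ACT pPOL
theorem pDVA : S_DVA := DVA.t_DVA pPOL pACT
theorem pEMB : S_EMB := EMB.t_EMB pPOL pACT
theorem pEVA : S_EVA := EVA.t_EVA pPOL pACT
theorem pSEC : S_SEC := SEC.t_SEC pPOL
theorem pCRD : S_CRD := CRD.t_CRD
theorem pAFF : S_AFF := AFF.t_AFF pPOL pSEC
theorem pEX1 : S_EX1 := EX1.t_EX1
theorem pEX2 : S_EX2 := EX2.t_EX2
theorem pTRD : S_TRD := t_TRD
theorem pDER : S_DER := DER.t_DER
theorem pDOM : S_DOM := DOM.t_DOM pPOL pACT pDVA pEVA pSEC pAFF pEX1 pTRD pDER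
theorem pPAI : S_PAI := PAI.t_PAI pPOL pACT pDVA pEVA pSEC pEX2 pTRD
theorem pIND : S_IND := IND.t_IND pACT pDVA pEVA pSEC pTRD
theorem pSTB : S_STB := STB.t_STB pPOL pACT pDVA pEVA pAFF pPAI pIND
theorem pAUT : S_AUT := AUT.t_AUT pACT pAFF pIND pTRD
theorem pGLW : S_GLW := GLW.t_GLW pACT pEVA pDVA pSTB GAL.t_GAL
theorem pSPC : S_SPC := SPC.t_SPC pACT pDVA pDOM pAUT pGLW (SPN.t_SPN TRC.t_TRC)
theorem pCOV : S_COV := COV.t_COV pSPC SEL.t_SEL pCRD pACT pSEC pDVA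
theorem pAIV : S_AIV := AIV.t_AIV pPOL pACT pDVA pEMB pSEC pCRD pTRD
theorem pAIC : S_AIC := AIC.t_AIC pAIV t_AIL
theorem pCVV : S_CVV := CVV.t_CVV pACT pAIV pAIC
theorem pREC : S_REC := t_REC pACT pAIC
theorem pROO : S_ROO := ROO.t_ROO pACT pAIC
theorem pINV : S_INV := INV.t_INV pACT pCVV pREC pROO DEN.t_DEN pAIC
theorem pTDB : S_TDB := TDB.t_TDB pREC pAIC pTRD
theorem pGEN : S_GEN := GEN.t_GEN pACT pDVA pEMB pAIV pAIC pSEC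
theorem pEPS : S_EPS := t_EPS pACT pDVA pEMB pAIV pAIC pGEN pSEC pROO DEN.t_DEN
theorem pSOL : S_SOL := SOL.t_SOL pDVA pEMB pSEC pEPS pAIC pCVV pINV
theorem pRAT : S_RAT := RAT.t_RAT pCVV pINV pTDB pSOL pCRD
theorem pFIN : S_FIN := FIN.t_FIN pCOV pDVA pEMB pACT pSEC pCRD pTRD

end Pool.Agent.Z15.ME
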