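import Pool.Agent.Z15.ME.Stm2

set_option autoImplicit false

/-!
# The field of invariants
-/

namespace Pool.Agent.Z15.ME

open MvPolynomial

/-- An intermediate field `F` of `L / K` is rational: it is isomorphic over `K` to a field
`K(x_1, …, x_q)` of rational functions. -/
def IsRational {K L : Type} [Field K] [Field L] [Algebra K L] (F : IntermediateField K L) : Prop :=
  ∃ q : ℕ, Nonempty (F ≃ₐ[K] FractionRing (MvPolynomial (Fin q) K))

/-- The elements fixed by all members of a family of endomorphisms of a field. -/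
def fixedBy {K L G : Type} [Field K] [Field L] [Algebra K L] (φ : G → L →ₐ[K] L) : IntermediateField K L where
  carrier := {x | ∀ g, φ g x = x}
  mul_mem' := by intro a b ha hb g; rw [map_mul, ha, hb]
  add_mem' := by intro a b ha hb g; rw [map_add, ha, hb]
  algebraMap_mem' := by intro c g; rw [AlgHom.commutes]
  inv_mem' := by intro a ha g; rw [map_inv₀, ha]

/-- The substitution `P ↦ P(g f g⁻¹)` in the ring of the polynomials in the coefficients of a self map `f` of degree `d` in
`N + 1` variables. -/
noncomputable def subst {K : Type} [Field K] {N : ℕ} (d : ℕ) (g : GP N K) :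
    MvPolynomial (Fin (N + 1) × Mon (N + 1) d) K →ₐ[K] MvPolynomial (Fin (N + 1) × Mon (N + 1) d) K :=
  aeval (act (g.1.1.map C) (g.1.2.map C) X)

/-- the inverse pair -/
def ginv {K : Type} [Field K] {N : ℕ} (g : GP N K) : GP N K := ⟨(g.1.2, g.1.1), mul_eq_one_comm.mp g.2⟩

theorem subst_subst (hACT : S_ACT) {K : Type} [Field K] {N : ℕ} (d : ℕ) (g : GP N K)
    (P : MvPolynomial (Fin (N + 1) × Mon (N + 1) d) K) : subst d (ginv g) (subst d g P) = P := by
  obtain ⟨-, -, -, -, -, -, hmul, hone, -, -, hmap⟩ := hACT (N + 1) d (MvPolynomial (Fin (N + 1) × Mon (N + 1) d) K)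
  have h1 : ((subst d (ginv g)).comp (subst d g)) = AlgHom.id K _ := by
    apply MvPolynomial.algHom_ext
    intro p
    rw [AlgHom.comp_apply, AlgHom.id_apply, subst, subst, aeval_X]
    have h2 := congrFun (hmap (MvPolynomial (Fin (N + 1) × Mon (N + 1) d) K)
      (aeval (act ((ginv g).1.1.map C) ((ginv g).1.2.map C) X) :
        MvPolynomial (Fin (N + 1) × Mon (N + 1) d) K →ₐ[K] MvPolynomial (Fin (N + 1) × Mon (N + 1) d) K).toRingHom
      (g.1.1.map C) (g.1.2.map C) X) p
    refine h2.symm.trans ?_
    have h3 : ∀ A : Matrix (Fin (N + 1)) (Fin (N + 1)) K, (A.map C).map (aeval (act ((ginv g).1.1.map C) ((ginv g).1.2.map C) X) :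
        MvPolynomial (Fin (N + 1) × Mon (N + 1) d) K →ₐ[K] MvPolynomial (Fin (N + 1) × Mon (N + 1) d) K).toRingHom = A.map C := by
      intro A
      ext1 i j
      simp
    have h4 : (fun q : Fin (N + 1) × Mon (N + 1) d => (aeval (act ((ginv g).1.1.map C) ((ginv g).1.2.map C) X) :
        MvPolynomial (Fin (N + 1) × Mon (N + 1) d) K →ₐ[K] MvPolynomial (Fin (N + 1) × Mon (N + 1) d) K).toRingHom (X q)) =
        act ((ginv g).1.1.map C) ((ginv g).1.2.map C) X := by
      funext q
      simp
    rw [h3, h3, h4, hmul]
    have h5 : g.1.1.map (C : K → MvPolynomial (Fin (N + 1) × Mon (N + 1) d) K) * (ginv g).1.1.map C = 1 := by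
      have h7 := congrArg (RingHom.mapMatrix (C : K →+* MvPolynomial (Fin (N + 1) × Mon (N + 1) d) K)) g.2
      rw [map_mul, map_one] at h7
      exact h7
    have h6 : (ginv g).1.2.map (C : K → MvPolynomial (Fin (N + 1) × Mon (N + 1) d) K) * g.1.2.map C = 1 := by
      have h7 := congrArg (RingHom.mapMatrix (C : K →+* MvPolynomial (Fin (N + 1) × Mon (N + 1) d) K)) g.2
      rw [map_mul, map_one] at h7
      exact h7
    rw [h5, h6, hone]
  exact DFunLike.congr_fun h1 P

theorem subst_injective (hACT : S_ACT) {K : Type} [Field K] {N : ℕ} (d : ℕ) (g : GP N K) :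
    Function.Injective (subst d g) :=
  Function.LeftInverse.injective (g := subst d (ginv g)) (subst_subst hACT d g)

/-- The extension of an injective endomorphism of a domain to its field of fractions. -/
noncomputable def extF {K R : Type} [Field K] [CommRing R] [IsDomain R] [Algebra K R]
    (f : R →ₐ[K] R) (hf : Function.Injective f) : FractionRing R →ₐ[K] FractionRing R :=
  IsFractionRing.liftAlgHom (g := (Algebra.algHom K R (FractionRing R)).comp f)
    ((IsFractionRing.injective R (FractionRing R)).comp hf)

theorem extF_algebraMap {K R : Type} [Field K] [CommRing R] [IsDomain R] [Algebra K R]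
    (f : R →ₐ[K] R) (hf : Function.Injective f) (x : R) : extF f hf (algebraMap R (FractionRing R) x) =
      algebraMap R (FractionRing R) (f x) :=
  IsFractionRing.lift_algebraMap (g := ((Algebra.algHom K R (FractionRing R)).comp f).toRingHom)
    ((IsFractionRing.injective R (FractionRing R)).comp hf) x

theorem adjoin_frac {K ι : Type} [Field K] : IntermediateField.adjoin K
    (Set.range fun i : ι => algebraMap (MvPolynomial ι K) (FractionRing (MvPolynomial ι K)) (X i)) = ⊤ := by
  rw [eq_top_iff]
  intro x _
  obtain ⟨P, Q, hQ, rfl⟩ := IsFractionRing.div_surjective (A := MvPolynomial ι K) x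
  have key : ∀ P : MvPolynomial ι K, algebraMap (MvPolynomial ι K) (FractionRing (MvPolynomial ι K)) P ∈
      IntermediateField.adjoin K (Set.range fun i : ι => algebraMap (MvPolynomial ι K) (FractionRing (MvPolynomial ι K)) (X i)) := by
    intro P
    induction P using MvPolynomial.induction_on with
    | C a =>
      have : algebraMap (MvPolynomial ι K) (FractionRing (MvPolynomial ι K)) (C a) = algebraMap K _ a := by
        rw [IsScalarTower.algebraMap_apply K (MvPolynomial ι K) (FractionRing (MvPolynomial ι K))]
        rfl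
      rw [this]
      exact IntermediateField.algebraMap_mem _ a
    | add P P' h h' => rw [map_add]; exact add_mem h h'
    | mul_X P p h =>
      rw [map_mul]
      exact mul_mem h (IntermediateField.subset_adjoin _ _ ⟨p, rfl⟩)
  exact div_mem (key P) (key Q)

theorem main (hACT : S_ACT) (hRAT : S_RAT) (hFIN : S_FIN) {K : Type} [Field K] [CharZero K] {N m : ℕ} (hN : 2 ≤ N)
    (hm : 3 ≤ m) (h : Nat.Coprime m (N + 1)) :
    IsRational (fixedBy fun g : GP N K => extF (subst (m + 1) g) (subst_injective hACT (m + 1) g)) := by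
  set M := FractionRing (MvPolynomial (Ix N m) K)
  let f : Ix N m → M := fun p => algebraMap (MvPolynomial (Ix N m) K) M (X p)
  have hf : AlgebraicIndependent K f := by
    have h1 : AlgebraicIndependent K (X : Ix N m → MvPolynomial (Ix N m) K) := algebraicIndependent_X (Ix N m) K
    exact h1.map' (f := Algebra.algHom K (MvPolynomial (Ix N m) K) M) (IsFractionRing.injective _ _)
  let φ : GP N K → M →ₐ[K] M := fun g => extF (subst (m + 1) g) (subst_injective hACT (m + 1) g)
  have hφ : Acts N (m + 1) φ f := by
    intro g p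
    change extF (subst (m + 1) g) _ (algebraMap _ _ (X p)) = _
    rw [extF_algebraMap, subst, aeval_X]
    obtain ⟨-, -, -, -, -, -, -, -, -, -, hmap⟩ := hACT (N + 1) (m + 1) (MvPolynomial (Ix N m) K)
    have h2 := congrFun (hmap M (algebraMap (MvPolynomial (Ix N m) K) M) (g.1.1.map C) (g.1.2.map C) X) p
    refine h2.symm.trans ?_
    have h3 : ∀ A : Matrix (Fin (N + 1)) (Fin (N + 1)) K, (A.map (C : K → MvPolynomial (Ix N m) K)).map
        (algebraMap (MvPolynomial (Ix N m) K) M) = ext M A := by
      intro A
      ext1 i j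
      simp only [Matrix.map_apply, ext]
      rw [IsScalarTower.algebraMap_apply K (MvPolynomial (Ix N m) K) M]
      rfl
    rw [h3, h3]
  obtain ⟨a, k, D, hD1, hD2⟩ := hFIN N m hN hm h K M f hf adjoin_frac φ hφ
  obtain ⟨q, x, hx, hq⟩ := hRAT N m a k K M D
  refine ⟨q, ⟨?_⟩⟩
  have h4 : fixedBy φ = IntermediateField.adjoin K (Set.range x) := by
    ext y
    rw [← hq y, hD2]
    rfl
  change fixedBy φ ≃ₐ[K] _
  rw [h4]
  exact hx.aevalEquivField.symm

end Pool.Agent.Z15.ME
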