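import Pool.Agent.Z15.ME.T_AUT

set_option autoImplicit false

/-!
# Task SPC, algebraic part
-/

namespace Pool.Agent.Z15.ME.SPC

open MvPolynomial AUT
open scoped Kronecker

section lin

variable {R : Type} [CommRing R] {n d : ℕ}

/-- `act1 A` as a linear map -/
noncomputable def act1L (hACT : S_ACT) (A : Matrix (Fin n) (Fin n) R) : (Mon n d → R) →ₗ[R] (Mon n d → R) where
  toFun := act1 A
  map_add' c c' := by
    obtain ⟨-, -, -, -, h, -⟩ := hACT n d R
    have := h A c c' 1 1
    simp only [one_mul] at this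
    exact this
  map_smul' r c := by
    obtain ⟨-, -, -, -, h, -⟩ := hACT n d R
    have := h A c c r 0
    simp only [zero_mul, add_zero] at this
    exact this

theorem act1_sum (hACT : S_ACT) (A : Matrix (Fin n) (Fin n) R) (v : Mon n d → R) (α : Mon n d) :
    act1 A v α = ∑ β, act1 A (Pi.single β 1) α * v β := by
  have h := congrFun ((act1L hACT A).pi_apply_eq_sum_univ v) α
  have h1 : act1L hACT A v α = act1 A v α := rfl
  rw [h1] at h
  rw [h, Finset.sum_apply]
  refine Finset.sum_congr rfl fun β _ => ?_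
  have h2 : (fun j => if β = j then (1 : R) else 0) = Pi.single β 1 := by
    funext j
    rw [Pi.single_apply]
    exact if_congr eq_comm rfl rfl
  rw [h2, Pi.smul_apply, smul_eq_mul, mul_comm]
  rfl

theorem act1_nat (hACT : S_ACT) {S : Type} [CommRing S] (σ : R →+* S) (A : Matrix (Fin n) (Fin n) R)
    (c : Mon n d → R) (α : Mon n d) : σ (act1 A c α) = act1 (A.map σ) (fun α => σ (c α)) α := by
  obtain ⟨-, -, -, -, -, h, -⟩ := hACT n d R
  exact (congrFun (h S σ A c) α).symm

theorem single_nat {S : Type} [CommRing S] (σ : R →+* S) (β : Mon n d) :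
    (fun γ => σ ((Pi.single β 1 : Mon n d → R) γ)) = Pi.single β 1 := by
  funext γ
  rw [Pi.single_apply, Pi.single_apply]
  split_ifs
  · exact map_one σ
  · exact map_zero σ

end lin

section core

variable {N m a : ℕ} {K F L : Type} [Field K] [CharZero K] [Field F] [Algebra K F] [Field L] [Algebra K L]
  [Algebra F L] [IsScalarTower K F L]

/-- the matrix of `act1` is invertible -/
theorem det_U (hACT : S_ACT) {n d : ℕ} (B : Matrix (Fin n) (Fin n) L) (hB : B.det ≠ 0) :
    (Matrix.of fun (α β : Mon n d) => act1 B (Pi.single β 1) α).det ≠ 0 := by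
  have hu : IsUnit B.det := isUnit_iff_ne_zero.2 hB
  obtain ⟨-, hc, h1, -⟩ := hACT n d L
  have h : (Matrix.of fun (α β : Mon n d) => act1 B (Pi.single β 1) α) *
      (Matrix.of fun (α β : Mon n d) => act1 B⁻¹ (Pi.single β 1) α) = 1 := by
    ext α γ
    rw [Matrix.mul_apply]
    show ∑ β, act1 B (Pi.single β 1) α * act1 B⁻¹ (Pi.single γ 1) β = _
    rw [← act1_sum hACT, hc, Matrix.nonsing_inv_mul _ hu, h1, Matrix.one_apply, Pi.single_apply]
  intro h0
  have h2 := congrArg Matrix.det h
  rw [Matrix.det_mul, h0, zero_mul, Matrix.det_one] at h2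
  exact zero_ne_one h2

theorem ext_det {M : Type} [Field M] [Algebra K M] (g : Matrix (Fin (N + 1)) (Fin (N + 1)) K) :
    (ext M g).det = algebraMap K M g.det :=
  ((algebraMap K M).map_det g).symm

theorem ext_ext (g : Matrix (Fin (N + 1)) (Fin (N + 1)) K) : (ext F g).map (algebraMap F L) = ext L g := by
  ext i j
  show algebraMap F L (algebraMap K F (g i j)) = algebraMap K L (g i j)
  exact (IsScalarTower.algebraMap_apply K F L _).symm

theorem ext_inv {M : Type} [Field M] [Algebra K M] (g : GP N K) : ext M g.1.2 * ext M g.1.1 = 1 := by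
  have h : g.1.2 * g.1.1 = 1 := mul_eq_one_comm.1 g.2
  rw [← Matrix.map_mul, h, Matrix.map_one _ (map_zero _) (map_one _)]

/-- the equivariance of `act1 B` -/
theorem K1 (hACT : S_ACT) (ψ : L →+* L) (BL : Matrix (Fin (N + 1)) (Fin (N + 1)) L) (g : GP N K)
    (h3 : BL.map ψ = ext L g.1.1 * BL) (v : Mon (N + 1) m → L) (α : Mon (N + 1) m) :
    ∑ β, ψ (act1 BL (Pi.single β 1) α) * act1 (ext L g.1.2) v β = act1 BL v α := by
  obtain ⟨-, hc, -⟩ := hACT (N + 1) m L
  have h : ∀ β : Mon (N + 1) m, ψ (act1 BL (Pi.single β 1) α) = act1 (ext L g.1.1 * BL) (Pi.single β 1) α := by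
    intro β
    rw [act1_nat hACT ψ, h3, single_nat]
  rw [Finset.sum_congr rfl fun β _ => by rw [h β], ← act1_sum hACT, hc, ← mul_assoc, ext_inv, one_mul]

theorem tr_mul (x : L) (y : F) : Algebra.trace F L (x * algebraMap F L y) = Algebra.trace F L x * y := by
  rw [mul_comm, ← Algebra.smul_def, map_smul, smul_eq_mul, mul_comm]

/-- the two sides of the covariance, for the array `trace (e U x)` -/
theorem G1 (hACT : S_ACT) (BL : Matrix (Fin (N + 1)) (Fin (N + 1)) L) (e x : L) (v : Mon (N + 1) m → F)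
    (α : Mon (N + 1) m) :
    ∑ β, Algebra.trace F L (e * (act1 BL (Pi.single β 1) α * x)) * v β =
      Algebra.trace F L (e * x * act1 BL (fun β => algebraMap F L (v β)) α) := by
  rw [act1_sum hACT BL (fun β => algebraMap F L (v β)), Finset.mul_sum, map_sum]
  refine Finset.sum_congr rfl fun β _ => ?_
  rw [← tr_mul]
  congr 1
  ring

theorem G2 (hACT : S_ACT) (φ : GP N K → F →ₐ[K] F) (ψ : GP N K → L →+* L)
    (htr : ∀ g x, φ g (Algebra.trace F L x) = Algebra.trace F L (ψ g x))
    (BL : Matrix (Fin (N + 1)) (Fin (N + 1)) L) (h3 : ∀ g : GP N K, BL.map (ψ g) = ext L g.1.1 * BL)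
    (g : GP N K) (e x : L) (he : ψ g e = e) (v : Mon (N + 1) m → F) (α : Mon (N + 1) m) :
    ∑ β, φ g (Algebra.trace F L (e * (act1 BL (Pi.single β 1) α * x))) * act1 (ext F g.1.2) v β =
      Algebra.trace F L (e * ψ g x * act1 BL (fun β => algebraMap F L (v β)) α) := by
  have h1 := K1 hACT (ψ g) BL g (h3 g) (fun β => algebraMap F L (v β)) α
  rw [← h1, Finset.mul_sum, map_sum]
  refine Finset.sum_congr rfl fun β _ => ?_
  rw [htr, ← tr_mul, act1_nat hACT (algebraMap F L), ext_ext, RingHom.map_mul, RingHom.map_mul, he]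
  congr 1
  ring

theorem core [CharZero F] [FiniteDimensional F L] (hACT : S_ACT) (hSPN : S_SPN) (φ : GP N K → F →ₐ[K] F)
    (ψ : GP N K → L →+* L)
    (htr : ∀ g x, φ g (Algebra.trace F L x) = Algebra.trace F L (ψ g x)) (E : Subfield L)
    (hE : ∀ g, ∀ e ∈ E, ψ g e = e)
    (BL : Matrix (Fin (N + 1)) (Fin (N + 1)) L) (hdet : BL.det ≠ 0)
    (h3 : ∀ g : GP N K, BL.map (ψ g) = ext L g.1.1 * BL)
    (h4 : ∀ (i j : Fin (N + 1)) (α β : Mon (N + 1) m),
      act1 BL (Pi.single β 1) α * (BL.det ^ a * BL i j) ∈ Algebra.adjoin F (E : Set L) ∧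
      act1 BL (Pi.single β 1) α * BL.det ^ m ∈ Algebra.adjoin F (E : Set L)) :
    Submodule.span F {c : Fin (N + 1) → Mon (N + 1) m → F | CovC N m a φ c} = ⊤ ∧
      Submodule.span F {h : Mon (N + 1) m → F | CovH N m φ h} = ⊤ := by
  have hψdet : ∀ g : GP N K, ψ g BL.det = algebraMap K L g.1.1.det * BL.det := by
    intro g
    rw [RingHom.map_det]
    show (BL.map (ψ g)).det = _
    rw [h3, Matrix.det_mul, ext_det]
  have hψB : ∀ (g : GP N K) (i j : Fin (N + 1)), ψ g (BL i j) = ∑ k, algebraMap K L (g.1.1 i k) * BL k j := by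
    intro g i j
    have := congrFun (congrFun (h3 g) i) j
    rw [Matrix.mul_apply] at this
    exact this
  have hKF : ∀ c : K, algebraMap K L c = algebraMap F L (algebraMap K F c) := fun c =>
    IsScalarTower.algebraMap_apply K F L c
  constructor
  · set b : Matrix (Fin (N + 1) × Mon (N + 1) m) (Fin (N + 1) × Mon (N + 1) m) L := fun r i =>
      act1 BL (Pi.single i.2 1) r.2 * (BL.det ^ a * BL i.1 r.1) with hb
    have hbdet : IsUnit b.det := by
      have e1 : b = (BL.det ^ a • BL.transpose) ⊗ₖ (Matrix.of fun (α β : Mon (N + 1) m) => act1 BL (Pi.single β 1) α) := by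
        ext r i
        rw [Matrix.kronecker_apply]
        show act1 BL (Pi.single i.2 1) r.2 * (BL.det ^ a * BL i.1 r.1) =
          (BL.det ^ a * BL i.1 r.1) * act1 BL (Pi.single i.2 1) r.2
        ring
      rw [e1, Matrix.det_kronecker, isUnit_iff_ne_zero]
      refine mul_ne_zero (pow_ne_zero _ ?_) (pow_ne_zero _ (det_U hACT BL hdet))
      rw [Matrix.det_smul, Matrix.det_transpose]
      exact mul_ne_zero (pow_ne_zero _ (pow_ne_zero _ hdet)) hdet
    have hspan := hSPN F L E (Fin (N + 1) × Mon (N + 1) m) b hbdet (fun l r => sum_mem fun i _ =>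
      mul_mem (Subalgebra.algebraMap_mem _ _) (h4 i.1 r.1 r.2 i.2).1)
    rw [eq_top_iff]
    have e2 : (⊤ : Submodule F (Fin (N + 1) → Mon (N + 1) m → F)) =
        (⊤ : Submodule F (Fin (N + 1) × Mon (N + 1) m → F)).map
          (LinearEquiv.curry F F (Fin (N + 1)) (Mon (N + 1) m)).toLinearMap := by
      rw [Submodule.map_top, LinearEquiv.range]
    rw [e2, ← hspan, Submodule.map_span, Submodule.span_le]
    rintro _ ⟨t, ⟨e, he, ⟨j, α⟩, rfl⟩, rfl⟩
    refine Submodule.subset_span ?_
    show CovC N m a φ fun i β => Algebra.trace F L (e * b (j, α) (i, β))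
    intro g v i
    have h5 := G2 hACT φ ψ htr BL h3 g e (BL.det ^ a * BL i j) (hE g e he) v α
    have h6 : ∀ k, ∑ β, Algebra.trace F L (e * b (j, α) (k, β)) * v β =
        Algebra.trace F L (e * (BL.det ^ a * BL k j) * act1 BL (fun β => algebraMap F L (v β)) α) := fun k =>
      G1 hACT BL e (BL.det ^ a * BL k j) v α
    have h7 : ∑ k, algebraMap K F (g.1.1 i k) * ∑ β, Algebra.trace F L (e * b (j, α) (k, β)) * v β =
        ∑ k, algebraMap K F (g.1.1 i k) *
          Algebra.trace F L (e * (BL.det ^ a * BL k j) * act1 BL (fun β => algebraMap F L (v β)) α) :=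
      Finset.sum_congr rfl fun k _ => by rw [h6 k]
    have hx : ψ g (BL.det ^ a * BL i j) =
        (algebraMap K L g.1.1.det * BL.det) ^ a * ∑ k, algebraMap K L (g.1.1 i k) * BL k j := by
      rw [RingHom.map_mul, RingHom.map_pow, hψdet, hψB]
    show ∑ β, φ g (Algebra.trace F L (e * b (j, α) (i, β))) * act1 (ext F g.1.2) v β =
      algebraMap K F g.1.1.det ^ a * ∑ k, algebraMap K F (g.1.1 i k) *
        ∑ β, Algebra.trace F L (e * b (j, α) (k, β)) * v β
    rw [h7]
    refine h5.trans ?_
    rw [hx]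
    have e3 : e * ((algebraMap K L g.1.1.det * BL.det) ^ a * ∑ k, algebraMap K L (g.1.1 i k) * BL k j) *
        act1 BL (fun β => algebraMap F L (v β)) α =
        ∑ k, (e * (BL.det ^ a * BL k j) * act1 BL (fun β => algebraMap F L (v β)) α) *
          algebraMap F L (algebraMap K F g.1.1.det ^ a * algebraMap K F (g.1.1 i k)) := by
      rw [Finset.mul_sum, Finset.mul_sum, Finset.sum_mul]
      refine Finset.sum_congr rfl fun k _ => ?_
      rw [map_mul, map_pow, ← hKF, ← hKF]
      ring
    rw [e3, map_sum, Finset.mul_sum]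
    refine Finset.sum_congr rfl fun k _ => ?_
    rw [tr_mul]
    ring
  · set b : Matrix (Mon (N + 1) m) (Mon (N + 1) m) L := fun r i =>
      act1 BL (Pi.single i 1) r * BL.det ^ m with hb
    have hbdet : IsUnit b.det := by
      have e1 : b = BL.det ^ m • (Matrix.of fun (α β : Mon (N + 1) m) => act1 BL (Pi.single β 1) α) := by
        ext r i
        show act1 BL (Pi.single i 1) r * BL.det ^ m = BL.det ^ m * act1 BL (Pi.single i 1) r
        ring
      rw [e1, Matrix.det_smul, isUnit_iff_ne_zero]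
      exact mul_ne_zero (pow_ne_zero _ (pow_ne_zero _ hdet)) (det_U hACT BL hdet)
    have hspan := hSPN F L E (Mon (N + 1) m) b hbdet (fun l r => sum_mem fun i _ =>
      mul_mem (Subalgebra.algebraMap_mem _ _) (h4 0 0 r i).2)
    rw [eq_top_iff, ← hspan, Submodule.span_le]
    rintro _ ⟨e, he, α, rfl⟩
    refine Submodule.subset_span ?_
    show CovH N m φ fun β => Algebra.trace F L (e * b α β)
    intro g v
    have h5 := G2 hACT φ ψ htr BL h3 g e (BL.det ^ m) (hE g e he) v α
    have h6 : ∑ β, Algebra.trace F L (e * b α β) * v β =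
        Algebra.trace F L (e * BL.det ^ m * act1 BL (fun β => algebraMap F L (v β)) α) :=
      G1 hACT BL e (BL.det ^ m) v α
    show ∑ β, φ g (Algebra.trace F L (e * b α β)) * act1 (ext F g.1.2) v β =
      algebraMap K F g.1.1.det ^ m * ∑ β, Algebra.trace F L (e * b α β) * v β
    rw [h6]
    refine h5.trans ?_
    have hx : ψ g (BL.det ^ m) = (algebraMap K L g.1.1.det * BL.det) ^ m := by
      rw [RingHom.map_pow, hψdet]
    rw [hx]
    have e3 : e * (algebraMap K L g.1.1.det * BL.det) ^ m * act1 BL (fun β => algebraMap F L (v β)) α =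
        (e * BL.det ^ m * act1 BL (fun β => algebraMap F L (v β)) α) * algebraMap F L (algebraMap K F g.1.1.det ^ m) := by
      rw [map_pow, ← hKF]
      ring
    rw [e3, tr_mul, mul_comm]

end core

end Pool.Agent.Z15.ME.SPC
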