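import Mathlib

set_option autoImplicit false

/-!
# Moduli of endomorphisms of projective space: statements
-/

namespace Pool.Agent.Z15.ME

open MvPolynomial

/-- the monomials of degree `d` in `n` variables -/
abbrev Mon (n d : ℕ) : Type := {α : Fin n →₀ ℕ // α.degree = d}

instance finMon (n d : ℕ) : Finite (Mon n d) := by
  have h : ∀ (α : Mon n d) (i : Fin n), α.1 i < d + 1 := by
    intro α i
    have h1 := Finsupp.le_degree i α.1
    have h2 := α.2
    omega
  refine Finite.of_injective (fun α : Mon n d => fun i : Fin n => (⟨α.1 i, h α i⟩ : Fin (d + 1))) ?_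
  intro α β hαβ
  apply Subtype.ext
  ext i
  exact congrArg (fun f => (f i).val) hαβ

noncomputable instance ftMon (n d : ℕ) : Fintype (Mon n d) := Fintype.ofFinite _

section
variable {R : Type} [CommRing R] {n d m : ℕ}

/-- the form with the coefficients `c` -/
noncomputable def pol (c : Mon n d → R) : MvPolynomial (Fin n) R := ∑ α, monomial α.1 (c α)

/-- the coefficients of degree `d` of `p` -/
noncomputable def cf (d : ℕ) (p : MvPolynomial (Fin n) R) : Mon n d → R := fun β => coeff β.1 p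

/-- the substitution `p(x) ↦ p(A x)` -/
noncomputable def lin (A : Matrix (Fin n) (Fin n) R) : MvPolynomial (Fin n) R →ₐ[R] MvPolynomial (Fin n) R :=
  aeval fun i => ∑ j, C (A i j) * X j

/-- the substitution `p(x) ↦ p(A x)` for forms of degree `d` -/
noncomputable def act1 (A : Matrix (Fin n) (Fin n) R) (c : Mon n d → R) : Mon n d → R := cf d (lin A (pol c))

/-- the component number `k` of the self map with the coefficients `c` -/
noncomputable def cmp (c : Fin n × Mon n d → R) (k : Fin n) : MvPolynomial (Fin n) R := pol fun α => c (k, α)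

/-- the self map `x ↦ A f(A' x)` -/
noncomputable def act (A A' : Matrix (Fin n) (Fin n) R) (c : Fin n × Mon n d → R) : Fin n × Mon n d → R :=
  fun p => ∑ l, A p.1 l * act1 A' (fun α => c (l, α)) p.2

/-- the divergence `∑ ∂f_k/∂x_k` -/
noncomputable def dv (c : Fin n × Mon n (m + 1) → R) : Mon n m → R := cf m (∑ k, pderiv k (cmp c k))

/-- the self map `x ↦ F(x) x` -/
noncomputable def emb (F : Mon n m → R) : Fin n × Mon n (m + 1) → R := fun p => cf (m + 1) (X p.1 * pol F) p.2

/-- `f(x) = x` -/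
def Fx (c : Fin n × Mon n d → R) (x : Fin n → R) : Prop := ∀ k, eval x (cmp c k) = x k

/-- the matrix of the derivatives at `x` -/
noncomputable def jac (c : Fin n × Mon n d → R) (x : Fin n → R) : Matrix (Fin n) (Fin n) R :=
  fun k j => eval x (pderiv j (cmp c k))

end

/-- the coordinates of the space of self maps of degree `m + 1` in `N + 1` variables -/
abbrev Ix (N m : ℕ) : Type := Fin (N + 1) × Mon (N + 1) (m + 1)

/-- the coordinates of the space of the self maps without divergence: all but those of the monomials divisible by the last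
variable in the last component -/
abbrev J2 (N m : ℕ) : Type := {p : Ix N m // p.1 ≠ Fin.last N ∨ p.2.1 (Fin.last N) = 0}

/-- pairs of inverse matrices -/
abbrev GP (N : ℕ) (K : Type) [Field K] : Type :=
  {g : Matrix (Fin (N + 1)) (Fin (N + 1)) K × Matrix (Fin (N + 1)) (Fin (N + 1)) K // g.1 * g.2 = 1}

/-- extension of the scalars of a matrix -/
abbrev ext {N : ℕ} {K : Type} [Field K] (M : Type) [CommRing M] [Algebra K M] (g : Matrix (Fin (N + 1)) (Fin (N + 1)) K) :
    Matrix (Fin (N + 1)) (Fin (N + 1)) M := g.map (algebraMap K M)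

/-! ## Basic algebra -/

/-- (POL) coefficients and forms -/
def S_POL : Prop := ∀ (n d : ℕ) (R : Type) [CommRing R],
  (∀ c : Mon n d → R, (pol c).IsHomogeneous d ∧ cf d (pol c) = c) ∧
  (∀ p : MvPolynomial (Fin n) R, p.IsHomogeneous d → pol (cf d p) = p) ∧
  (∀ (c c' : Mon n d → R) (a b : R), pol (fun α => a * c α + b * c' α) = C a * pol c + C b * pol c') ∧
  (∀ (S : Type) [CommRing S] (σ : R →+* S) (c : Mon n d → R), pol (fun α => σ (c α)) = MvPolynomial.map σ (pol c))

/-- (ACT) the action on forms and on self maps -/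
def S_ACT : Prop := ∀ (n d : ℕ) (R : Type) [CommRing R],
  (∀ (A : Matrix (Fin n) (Fin n) R) (c : Mon n d → R), pol (act1 A c) = lin A (pol c)) ∧
  (∀ (A B : Matrix (Fin n) (Fin n) R) (c : Mon n d → R), act1 A (act1 B c) = act1 (B * A) c) ∧
  (∀ (c : Mon n d → R), act1 1 c = c) ∧
  (∀ (s : R) (c : Mon n d → R), act1 (s • 1) c = fun α => s ^ d * c α) ∧
  (∀ (A : Matrix (Fin n) (Fin n) R) (c c' : Mon n d → R) (a b : R),
    act1 A (fun α => a * c α + b * c' α) = fun α => a * act1 A c α + b * act1 A c' α) ∧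
  (∀ (S : Type) [CommRing S] (σ : R →+* S) (A : Matrix (Fin n) (Fin n) R) (c : Mon n d → R),
    act1 (A.map σ) (fun α => σ (c α)) = fun α => σ (act1 A c α)) ∧
  (∀ (A A' B B' : Matrix (Fin n) (Fin n) R) (c : Fin n × Mon n d → R), act A A' (act B B' c) = act (A * B) (B' * A') c) ∧
  (∀ (c : Fin n × Mon n d → R), act 1 1 c = c) ∧
  (∀ (s s' : R) (c : Fin n × Mon n d → R), act (s • 1) (s' • 1) c = fun p => s * s' ^ d * c p) ∧
  (∀ (A A' : Matrix (Fin n) (Fin n) R) (c c' : Fin n × Mon n d → R) (a b : R),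
    act A A' (fun p => a * c p + b * c' p) = fun p => a * act A A' c p + b * act A A' c' p) ∧
  (∀ (S : Type) [CommRing S] (σ : R →+* S) (A A' : Matrix (Fin n) (Fin n) R) (c : Fin n × Mon n d → R),
    act (A.map σ) (A'.map σ) (fun p => σ (c p)) = fun p => σ (act A A' c p))

/-- (PLY) the action is polynomial: there are polynomials with integral coefficients for `act1` -/
def S_PLY : Prop := ∀ (n d : ℕ), ∃ P : Mon n d → Mon n d → MvPolynomial (Fin n × Fin n) ℤ,
  ∀ (R : Type) [CommRing R] (A : Matrix (Fin n) (Fin n) R) (c : Mon n d → R) (β : Mon n d),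
    act1 A c β = ∑ α, aeval (fun p : Fin n × Fin n => A p.1 p.2) (P β α) * c α

/-- (DVA) the divergence is equivariant -/
def S_DVA : Prop := ∀ (n m : ℕ) (R : Type) [CommRing R],
  (∀ (A A' : Matrix (Fin n) (Fin n) R) (c : Fin n × Mon n (m + 1) → R), A' * A = 1 → dv (act A A' c) = act1 A' (dv c)) ∧
  (∀ (c c' : Fin n × Mon n (m + 1) → R) (a b : R), dv (fun p => a * c p + b * c' p) = fun β => a * dv c β + b * dv c' β) ∧
  (∀ (S : Type) [CommRing S] (σ : R →+* S) (c : Fin n × Mon n (m + 1) → R), dv (fun p => σ (c p)) = fun β => σ (dv c β))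

/-- (EMB) the self maps `F(x) x` -/
def S_EMB : Prop := ∀ (n m : ℕ) (R : Type) [CommRing R],
  (∀ F : Mon n m → R, dv (emb F) = fun β => ((n + m : ℕ) : R) * F β) ∧
  (∀ (A A' : Matrix (Fin n) (Fin n) R) (F : Mon n m → R), A * A' = 1 → act A A' (emb F) = emb (act1 A' F)) ∧
  (∀ (F F' : Mon n m → R) (a b : R), emb (fun β => a * F β + b * F' β) = fun p => a * emb F p + b * emb F' p) ∧
  (∀ (S : Type) [CommRing S] (σ : R →+* S) (F : Mon n m → R), emb (fun β => σ (F β)) = fun p => σ (emb F p))

/-- (EVA) values and derivatives of conjugates -/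
def S_EVA : Prop := ∀ (n d : ℕ) (R : Type) [CommRing R] (A A' : Matrix (Fin n) (Fin n) R) (c : Fin n × Mon n d → R)
  (x : Fin n → R),
  (∀ k, eval x (cmp (act A A' c) k) = ∑ l, A k l * eval (A'.mulVec x) (cmp c l)) ∧
  jac (act A A' c) x = A * jac c (A'.mulVec x) * A' ∧
  (∀ s : R, (∀ k, eval (fun i => s * x i) (cmp c k) = s ^ d * eval x (cmp c k)) ∧
    (∀ e, d = e + 1 → jac c (fun i => s * x i) = s ^ e • jac c x ∧ (jac c x).mulVec x = fun k => (d : R) * eval x (cmp c k)))

/-- (SEC) the coordinates of the space of the self maps without divergence -/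
def S_SEC : Prop := ∀ N m : ℕ, ∃ T : Ix N m → J2 N m → ℚ, (∀ j j' : J2 N m, T j.1 j' = if j = j' then 1 else 0) ∧
  ∀ (R : Type) [Field R] [CharZero R] (c : Ix N m → R), dv c = 0 ↔ ∀ p, c p = ∑ j, (T p j : R) * c j.1

/-- (CRD) numbers of coordinates -/
def S_CRD : Prop := (∀ N m : ℕ, Nat.card (Ix N m) = Nat.card (J2 N m) + Nat.card (Mon (N + 1) m)) ∧
  ∀ N m : ℕ, 2 ≤ N → 3 ≤ m → (N + 1) ^ 2 + 1 ≤ Nat.card (Mon (N + 1) m)

/-- (AFF) coordinates of the space of the self maps without divergence for which the standard basis vectors are fixed -/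
def S_AFF : Prop := ∀ N m : ℕ, 2 ≤ N → 2 ≤ m → ∃ (q : ℕ) (ρ : Fin q → Ix N m) (a0 : Ix N m → ℚ) (a1 : Ix N m → Fin q → ℚ),
  Nat.card (J2 N m) = q + (N + 1) ^ 2 ∧
  (∀ j, a0 (ρ j) = 0) ∧ (∀ j j', a1 (ρ j) j' = if j = j' then 1 else 0) ∧
  (∀ (R : Type) [Field R] [CharZero R] (c : Ix N m → R), (dv c = 0 ∧ ∀ i, Fx c (Pi.single i 1)) ↔
    ∀ p, c p = a0 p + ∑ j, (a1 p j : R) * c (ρ j)) ∧
  ∀ (k l : Fin (N + 1)) (α : Mon (N + 1) (m + 1)), k ≠ Fin.last N → k ≠ l →
    α.1 = Finsupp.single k m + Finsupp.single l 1 → ∃ j, ρ j = (k, α)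

/-- (EX1) an example: all the standard basis vectors are nondegenerate fixed vectors -/
def S_EX1 : Prop := ∀ N m : ℕ, 2 ≤ N → 2 ≤ m → ∃ c : Ix N m → ℚ, dv c = 0 ∧ (∀ i, Fx c (Pi.single i 1)) ∧
  ∀ i, (jac c (Pi.single i 1) - 1).det ≠ 0

/-- (EX2) an example: the derivatives at two fixed vectors have squares with different traces -/
def S_EX2 : Prop := ∀ N m : ℕ, 2 ≤ N → 2 ≤ m → ∃ c : Ix N m → ℚ, dv c = 0 ∧ Fx c (Pi.single 0 1) ∧ Fx c (Pi.single 1 1) ∧
  (jac c (Pi.single 0 1) ^ 2).trace ≠ (jac c (Pi.single 1 1) ^ 2).trace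

/-! ## Generic self maps without divergence -/

/-- `f` is a generic self map without divergence -/
def Gen (N m : ℕ) (K M : Type) [Field K] [Field M] [Algebra K M] (f : Ix N m → M) : Prop :=
  dv f = 0 ∧ AlgebraicIndependent K fun j : J2 N m => f j.1

/-- (DOM) a generic self map has `N + 1` linearly independent fixed vectors -/
def S_DOM : Prop := ∀ (N m : ℕ), 2 ≤ N → 2 ≤ m → ∀ (K M Ω : Type) [Field K] [CharZero K] [Field M] [Algebra K M]
  [Field Ω] [IsAlgClosed Ω] [Algebra M Ω] (f : Ix N m → M), Gen N m K M f →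
  ∃ B : Matrix (Fin (N + 1)) (Fin (N + 1)) Ω, B.det ≠ 0 ∧ ∀ i, Fx (fun p => algebraMap M Ω (f p)) (fun k => B k i)

/-- (PAI) the derivatives at two independent fixed vectors of a generic self map are not conjugate -/
def S_PAI : Prop := ∀ (N m : ℕ), 2 ≤ N → 2 ≤ m → ∀ (K M : Type) [Field K] [CharZero K] [Field M] [Algebra K M]
  (f : Ix N m → M), Gen N m K M f → ∀ x y : Fin (N + 1) → M, Fx f x → Fx f y → LinearIndependent M ![x, y] →
  (jac f x ^ 2).trace ≠ (jac f y ^ 2).trace

/-- (IND) if the columns of `B` are fixed vectors of the generic self map `f`, then the entries of `B` and the free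
coordinates of `B⁻¹ f B` are algebraically independent. Here `ρ` is as in (AFF). -/
def S_IND : Prop := ∀ (N m q : ℕ) (ρ : Fin q → Ix N m) (a0 : Ix N m → ℚ) (a1 : Ix N m → Fin q → ℚ), 2 ≤ N → 2 ≤ m →
  Nat.card (J2 N m) = q + (N + 1) ^ 2 →
  (∀ (R : Type) [Field R] [CharZero R] (c : Ix N m → R), (dv c = 0 ∧ ∀ i, Fx c (Pi.single i 1)) ↔
    ∀ p, c p = a0 p + ∑ j, (a1 p j : R) * c (ρ j)) →
  ∀ (K M : Type) [Field K] [CharZero K] [Field M] [Algebra K M] (f : Ix N m → M), Gen N m K M f →
  ∀ B B' : Matrix (Fin (N + 1)) (Fin (N + 1)) M, B * B' = 1 → (∀ i, Fx f (fun k => B k i)) →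
  AlgebraicIndependent K (Sum.elim (fun p : Fin (N + 1) × Fin (N + 1) => B p.1 p.2) fun j : Fin q => act B' B f (ρ j)) ∧
  (dv (act B' B f) = 0 ∧ ∀ i, Fx (act B' B f) (Pi.single i 1))

/-- (STB) the stabiliser of a generic self map with `N + 1` independent fixed vectors consists of scalars -/
def S_STB : Prop := ∀ (N m : ℕ), 2 ≤ N → 2 ≤ m → ∀ (K M : Type) [Field K] [CharZero K] [Field M] [Algebra K M]
  (f : Ix N m → M), Gen N m K M f → ∀ B : Matrix (Fin (N + 1)) (Fin (N + 1)) M, B.det ≠ 0 → (∀ i, Fx f (fun k => B k i)) →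
  ∀ s s' : Matrix (Fin (N + 1)) (Fin (N + 1)) M, s * s' = 1 → act s s' f = f → ∃ z : M, z ^ m = 1 ∧ s = z • 1

/-! ## Field theory and linear algebra -/

/-- (DER) A finitely generated field extension `L` of `F` in characteristic zero is algebraic if all derivations of `L`
over `F` vanish. -/
def S_DER : Prop := ∀ (F L : Type) [Field F] [CharZero F] [Field L] [Algebra F L], Algebra.EssFiniteType F L →
  (∀ D : Derivation F L L, D = 0) → Algebra.IsAlgebraic F L

/-- (TRD) `n` generators of a field which contains `n` algebraically independent elements are algebraically independent,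
and then the field is algebraic over the field generated by the latter. -/
def S_TRD : Prop := ∀ (K M : Type) [Field K] [Field M] [Algebra K M] (ι κ : Type) [Finite ι] [Finite κ] (x : ι → M) (y : κ → M),
  AlgebraicIndependent K y → (∀ k, y k ∈ IntermediateField.adjoin K (Set.range x)) → Nat.card ι ≤ Nat.card κ →
  AlgebraicIndependent K x ∧
    ∀ i, IsAlgebraic (IntermediateField.adjoin K (Set.range y)) (x i)

/-- (TRC) the trace form -/
def S_TRC : Prop := ∀ (F L : Type) [Field F] [CharZero F] [Field L] [Algebra F L] [FiniteDimensional F L] (E : Subfield L)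
  (w : L), w ≠ 0 → w ∈ Algebra.adjoin F (E : Set L) → ∃ c ∈ E, Algebra.trace F L (c * w) ≠ 0

/-- (SPN) traces of the rows of an invertible matrix span everything -/
def S_SPN : Prop := ∀ (F L : Type) [Field F] [CharZero F] [Field L] [Algebra F L] [FiniteDimensional F L] (E : Subfield L)
  (I : Type) [Fintype I] [DecidableEq I] (b : Matrix I I L), IsUnit b.det →
  (∀ (l : I → F) (r : I), ∑ i, algebraMap F L (l i) * b r i ∈ Algebra.adjoin F (E : Set L)) →
  Submodule.span F {t : I → F | ∃ c ∈ E, ∃ r, t = fun i => Algebra.trace F L (c * b r i)} = ⊤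

/-- (SEL) selection of independent rows -/
def S_SEL : Prop := ∀ (K F : Type) [Field K] [Infinite K] [Field F] [Algebra K F] (n : ℕ) (J : Type) [Fintype J]
  (𝒞 : Submodule K (Fin n → J → F)) (𝒟 : Submodule K (J → F)), Submodule.span F (𝒞 : Set (Fin n → J → F)) = ⊤ →
  Submodule.span F (𝒟 : Set (J → F)) = ⊤ → n ^ 2 + 1 ≤ Fintype.card J →
  ∃ (c : Fin n → Fin n → J → F) (h : J → F), (∀ j, c j ∈ 𝒞) ∧ h ∈ 𝒟 ∧
    LinearIndependent F (fun o : Option (Fin n × Fin n) => (o.elim h fun p => c p.1 p.2 : J → F))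

/-- (GAL) An element of an algebraically closed algebraic extension which is fixed by all automorphisms is in the ground
field. -/
def S_GAL : Prop := ∀ (E Ω : Type) [Field E] [CharZero E] [Field Ω] [Algebra E Ω] [Algebra.IsAlgebraic E Ω] [IsAlgClosed Ω]
  (w : Ω), (∀ σ : Ω ≃ₐ[E] Ω, σ w = w) → ∃ e : E, algebraMap E Ω e = w

/-- (DEN) `GL(K)` is dense: a polynomial over `M ⊇ K` which vanishes at all invertible matrices over `K` is zero. -/
def S_DEN : Prop := ∀ (K M : Type) [Field K] [Infinite K] [Field M] [Algebra K M] (n : ℕ)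
  (P : MvPolynomial (Fin n × Fin n) M),
  (∀ g : Matrix (Fin n) (Fin n) K, g.det ≠ 0 → eval (fun p => algebraMap K M (g p.1 p.2)) P = 0) → P = 0

/-- (AIL) linear forms: if `v` is algebraically independent over `F` and the vectors `r k` are linearly independent
over `F`, then the elements `∑ r k β v β` are algebraically independent over `F`. -/
def S_AIL : Prop := ∀ (F M : Type) [Field F] [Field M] [Algebra F M] (J κ : Type) [Fintype J] [Fintype κ] (v : J → M)
  (r : κ → J → F), AlgebraicIndependent F v → LinearIndependent F r →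
  AlgebraicIndependent F fun k => ∑ β, algebraMap F M (r k β) * v β

end Pool.Agent.Z15.ME
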