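import Pool.Agent.Z15.ME.Stm

set_option autoImplicit false

/-!
# Moduli of endomorphisms of projective space: statements, second part
-/

namespace Pool.Agent.Z15.ME

open MvPolynomial

/-! ## Covariant rows -/

/-- `∑ c i β v β` transforms as the vector `det(g)^a g` -/
def CovC (N m a : ℕ) {K M : Type} [Field K] [Field M] [Algebra K M] (φ : GP N K → M →ₐ[K] M)
    (c : Fin (N + 1) → Mon (N + 1) m → M) : Prop :=
  ∀ (g : GP N K) (v : Mon (N + 1) m → M) (i : Fin (N + 1)), ∑ β, φ g (c i β) * act1 (ext M g.1.2) v β =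
    algebraMap K M g.1.1.det ^ a * ∑ k, algebraMap K M (g.1.1 i k) * ∑ β, c k β * v β

/-- `∑ h β v β` transforms as `det(g)^m` -/
def CovH (N m : ℕ) {K M : Type} [Field K] [Field M] [Algebra K M] (φ : GP N K → M →ₐ[K] M)
    (h : Mon (N + 1) m → M) : Prop :=
  ∀ (g : GP N K) (v : Mon (N + 1) m → M), ∑ β, φ g (h β) * act1 (ext M g.1.2) v β =
    algebraMap K M g.1.1.det ^ m * ∑ β, h β * v β

/-- `φ g f = g f g⁻¹` -/
def Acts (N d : ℕ) {K M : Type} [Field K] [Field M] [Algebra K M] (φ : GP N K → M →ₐ[K] M)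
    (f : Fin (N + 1) × Mon (N + 1) d → M) : Prop :=
  ∀ (g : GP N K) (p : Fin (N + 1) × Mon (N + 1) d), φ g (f p) = act (ext M g.1.1) (ext M g.1.2) f p

/-- (AUT) the automorphisms `B ↦ g B` of the field generated by a generic self map and by a matrix `B` of fixed vectors -/
def S_AUT : Prop := ∀ (N m : ℕ), 2 ≤ N → 2 ≤ m → ∀ (K Ω : Type) [Field K] [CharZero K] [Field Ω] [Algebra K Ω]
  (f : Ix N m → Ω), Gen N m K Ω f → ∀ B B' : Matrix (Fin (N + 1)) (Fin (N + 1)) Ω, B * B' = 1 →
  (∀ i, Fx f (fun k => B k i)) →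
  ∀ g : GP N K, ∃ ψ : IntermediateField.adjoin K (Set.range f ∪ Set.range fun p : Fin (N + 1) × Fin (N + 1) => B p.1 p.2) ≃ₐ[K]
      IntermediateField.adjoin K (Set.range f ∪ Set.range fun p : Fin (N + 1) × Fin (N + 1) => B p.1 p.2),
    ∀ x : IntermediateField.adjoin K (Set.range f ∪ Set.range fun p : Fin (N + 1) × Fin (N + 1) => B p.1 p.2),
      (∀ p, (x : Ω) = f p → ((ψ x : _) : Ω) = act (ext Ω g.1.1) (ext Ω g.1.2) f p) ∧
      (∀ p, (x : Ω) = act B' B f p → ((ψ x : _) : Ω) = x) ∧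
      (∀ i j, (x : Ω) = B i j → ((ψ x : _) : Ω) = (ext Ω g.1.1 * B) i j)

/-- (GLW) the entries of the covariant rows over the field of the fixed vectors -/
def S_GLW : Prop := ∀ (N m a : ℕ), 2 ≤ N → 2 ≤ m → m ∣ (N + 1) * a + 1 → ∀ (K Ω : Type) [Field K] [CharZero K] [Field Ω]
  [Algebra K Ω] [IsAlgClosed Ω] (f : Ix N m → Ω), Gen N m K Ω f →
  Algebra.IsAlgebraic (IntermediateField.adjoin K (Set.range f)) Ω →
  ∀ B B' : Matrix (Fin (N + 1)) (Fin (N + 1)) Ω, B * B' = 1 → (∀ i, Fx f (fun k => B k i)) →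
  ∀ (i j : Fin (N + 1)) (α β : Mon (N + 1) m),
    act1 B (Pi.single β 1) α * (B.det ^ a * B i j) ∈
      IntermediateField.adjoin K (Set.range f ∪ Set.range (act B' B f)) ∧
    act1 B (Pi.single β 1) α * B.det ^ m ∈ IntermediateField.adjoin K (Set.range f ∪ Set.range (act B' B f))

/-- (SPC) the covariant rows span everything -/
def S_SPC : Prop := ∀ (N m a : ℕ), 2 ≤ N → 2 ≤ m → m ∣ (N + 1) * a + 1 → ∀ (K F : Type) [Field K] [CharZero K] [Field F]
  [Algebra K F] (f : Ix N m → F), Gen N m K F f → IntermediateField.adjoin K (Set.range f) = ⊤ →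
  ∀ φ : GP N K → F →ₐ[K] F, Acts N (m + 1) φ f →
  Submodule.span F {c : Fin (N + 1) → Mon (N + 1) m → F | CovC N m a φ c} = ⊤ ∧
  Submodule.span F {h : Mon (N + 1) m → F | CovH N m φ h} = ⊤

/-- (COV) independent covariant rows -/
def S_COV : Prop := ∀ (N m a : ℕ), 2 ≤ N → 3 ≤ m → m ∣ (N + 1) * a + 1 → ∀ (K M : Type) [Field K] [CharZero K] [Field M]
  [Algebra K M] (f : Ix N m → M), Gen N m K M f → ∀ φ : GP N K → M →ₐ[K] M, Acts N (m + 1) φ f →
  ∃ (c : Fin (N + 1) → Fin (N + 1) → Mon (N + 1) m → M) (h : Mon (N + 1) m → M),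
    (∀ j i β, c j i β ∈ IntermediateField.adjoin K (Set.range f)) ∧ (∀ β, h β ∈ IntermediateField.adjoin K (Set.range f)) ∧
    (∀ j, CovC N m a φ (c j)) ∧ CovH N m φ h ∧
    LinearIndependent M (fun o : Option (Fin (N + 1) × Fin (N + 1)) => (o.elim h fun p => c p.1 p.2 : Mon (N + 1) m → M))

/-! ## The slice -/

/-- A generic self map `f` of degree `m + 1` over `M = K(f)`, the action of `GL`, and covariant rows. -/
structure Data (N m a k : ℕ) (K M : Type) [Field K] [CharZero K] [Field M] [Algebra K M] where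
  hN : 2 ≤ N
  hm : 3 ≤ m
  hk : m * k = (N + 1) * a + 1
  /-- the generic self map -/
  f : Ix N m → M
  ind : AlgebraicIndependent K f
  gen : IntermediateField.adjoin K (Set.range f) = ⊤
  /-- the action -/
  φ : GP N K → M →ₐ[K] M
  hφ : Acts N (m + 1) φ f
  /-- the column number `j` of the covariant matrix has the components `∑ c j i β v β` -/
  c : Fin (N + 1) → Fin (N + 1) → Mon (N + 1) m → M
  /-- the coefficients of the covariant scalar -/
  h : Mon (N + 1) m → M
  cF : ∀ j i β, c j i β ∈ IntermediateField.adjoin K (Set.range fun p => f p - ((N + 1 + m : ℕ) : M)⁻¹ * emb (dv f) p)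
  hF : ∀ β, h β ∈ IntermediateField.adjoin K (Set.range fun p => f p - ((N + 1 + m : ℕ) : M)⁻¹ * emb (dv f) p)
  covc : ∀ j, CovC N m a φ (c j)
  covh : CovH N m φ h
  li : LinearIndependent M (fun o : Option (Fin (N + 1) × Fin (N + 1)) => (o.elim h fun p => c p.1 p.2 : Mon (N + 1) m → M))

/-- the part without divergence of a self map -/
noncomputable def part2 {N m : ℕ} {M : Type} [Field M] (f : Ix N m → M) : Ix N m → M :=
  fun p => f p - ((N + 1 + m : ℕ) : M)⁻¹ * emb (dv f) p

namespace Data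

variable {N m a k : ℕ} {K M : Type} [Field K] [CharZero K] [Field M] [Algebra K M]

/-- the covariant matrix -/
noncomputable def CC (D : Data N m a k K M) : Matrix (Fin (N + 1)) (Fin (N + 1)) M :=
  fun i j => ∑ β, D.c j i β * dv D.f β

/-- the covariant scalar -/
noncomputable def HH (D : Data N m a k K M) : M := ∑ β, D.h β * dv D.f β

/-- the invariant `t` -/
noncomputable def tt (D : Data N m a k K M) : M := D.CC.det / D.HH ^ k

/-- the diagonal matrix `(t, 1, …, 1)` -/
noncomputable def DD (D : Data N m a k K M) : Matrix (Fin (N + 1)) (Fin (N + 1)) M :=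
  Matrix.diagonal fun i => if i = 0 then D.tt else 1

/-- the covariant matrix of determinant `HH ^ k` -/
noncomputable def C1 (D : Data N m a k K M) : Matrix (Fin (N + 1)) (Fin (N + 1)) M := D.CC * D.DD⁻¹

/-- the self map in the slice -/
noncomputable def ft (D : Data N m a k K M) : Ix N m → M := fun p => (D.HH ^ a)⁻¹ * act D.C1⁻¹ D.C1 D.f p

/-- the field generated by the coefficients of the part without divergence -/
noncomputable def F (D : Data N m a k K M) : IntermediateField K M := IntermediateField.adjoin K (Set.range (part2 D.f))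

end Data

/-- (AIV) the generic self map: part without divergence and divergence -/
def S_AIV : Prop := ∀ (N m a k : ℕ) (K M : Type) [Field K] [CharZero K] [Field M] [Algebra K M] (D : Data N m a k K M),
  Gen N m K M (part2 D.f) ∧ AlgebraicIndependent D.F (dv D.f) ∧ Acts N (m + 1) D.φ (part2 D.f) ∧
  ∀ g β, D.φ g (dv D.f β) = act1 (ext M g.1.2) (dv D.f) β

/-- (AIC) the covariant matrix and scalar are generic over `F` -/
def S_AIC : Prop := ∀ (N m a k : ℕ) (K M : Type) [Field K] [CharZero K] [Field M] [Algebra K M] (D : Data N m a k K M),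
  AlgebraicIndependent D.F (fun o : Option (Fin (N + 1) × Fin (N + 1)) => (o.elim D.HH fun p => D.CC p.2 p.1 : M)) ∧
  D.CC.det ≠ 0 ∧ D.HH ≠ 0 ∧ D.tt ≠ 0 ∧ D.C1.det = D.HH ^ k ∧ D.C1 * D.DD = D.CC

/-- (CVV) transformation of the covariants -/
def S_CVV : Prop := ∀ (N m a k : ℕ) (K M : Type) [Field K] [CharZero K] [Field M] [Algebra K M] (D : Data N m a k K M)
  (g : GP N K), D.CC.map (D.φ g) = algebraMap K M g.1.1.det ^ a • (ext M g.1.1 * D.CC) ∧
  D.φ g D.HH = algebraMap K M g.1.1.det ^ m * D.HH ∧ D.φ g D.tt = D.tt ∧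
  D.C1.map (D.φ g) = algebraMap K M g.1.1.det ^ a • (ext M g.1.1 * D.C1) ∧ ∀ p, D.φ g (D.ft p) = D.ft p

/-- (REC) `f` is recovered from `ft`, `C1` and `HH` -/
def S_REC : Prop := ∀ (N m a k : ℕ) (K M : Type) [Field K] [CharZero K] [Field M] [Algebra K M] (D : Data N m a k K M),
  (∀ p, D.f p = D.HH ^ a * act D.C1 D.C1⁻¹ D.ft p) ∧
  IntermediateField.adjoin K (Set.range D.ft ∪ {D.HH} ∪ Set.range fun p : Fin (N + 1) × Fin (N + 1) => D.C1 p.1 p.2) = ⊤

/-- (ROO) a root of `HH` in an algebraically closed field -/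
def S_ROO : Prop := ∀ (N m a k : ℕ) (K M Ω : Type) [Field K] [CharZero K] [Field M] [Algebra K M] [Field Ω] [Algebra M Ω]
  [IsAlgClosed Ω] (D : Data N m a k K M), ∃ (γ γ' : Matrix (Fin (N + 1)) (Fin (N + 1)) Ω),
    γ * γ' = 1 ∧ γ.det ^ m = algebraMap M Ω D.HH ∧ γ.det ^ a • γ = D.C1.map (algebraMap M Ω) ∧
    (∀ p, algebraMap M Ω (D.ft p) = act γ' γ (fun p => algebraMap M Ω (D.f p)) p)

/-- (INV) the invariant field -/
def S_INV : Prop := ∀ (N m a k : ℕ) (K M : Type) [Field K] [CharZero K] [Field M] [Algebra K M] (D : Data N m a k K M)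
  (x : M), (∀ g, D.φ g x = x) → x ∈ IntermediateField.adjoin K (Set.range D.ft)

/-- (TDB) the transcendence degree of the invariant field -/
def S_TDB : Prop := ∀ (N m a k : ℕ) (K M : Type) [Field K] [CharZero K] [Field M] [Algebra K M] (D : Data N m a k K M)
  (κ : Type) [Finite κ] (x : κ → M), IntermediateField.adjoin K (Set.range x) = IntermediateField.adjoin K (Set.range D.ft) →
  Nat.card κ + (N + 1) ^ 2 = Nat.card (Ix N m) → AlgebraicIndependent K x

/-- (GEN) the part without divergence of `ft` is generic -/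
def S_GEN : Prop := ∀ (N m a k : ℕ) (K M : Type) [Field K] [CharZero K] [Field M] [Algebra K M] (D : Data N m a k K M),
  Gen N m K M (part2 D.ft)

/-- (EPS) the homomorphism `F → M` which takes the part without divergence of `f` to the one of `ft`, and the covariants -/
def S_EPS : Prop := ∀ (N m a k : ℕ) (K M : Type) [Field K] [CharZero K] [Field M] [Algebra K M] (D : Data N m a k K M),
  ∃ ε : D.F →ₐ[K] M, (∀ (x : D.F) (p : Ix N m), (x : M) = part2 D.f p → ε x = part2 D.ft p) ∧
    (∀ x : D.F, ε x ∈ IntermediateField.adjoin K (Set.range fun j : J2 N m => part2 D.ft j.1)) ∧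
    (∀ i j, ∑ β, ε ⟨D.c j i β, D.cF j i β⟩ * dv D.ft β = D.DD i j) ∧ ∑ β, ε ⟨D.h β, D.hF β⟩ * dv D.ft β = 1

/-- (SOL) generators of the invariant field -/
def S_SOL : Prop := ∀ (N m a k : ℕ) (K M : Type) [Field K] [CharZero K] [Field M] [Algebra K M] (D : Data N m a k K M),
  ∃ S : Finset (Mon (N + 1) m), S.card + (N + 1) ^ 2 + 1 = Nat.card (Mon (N + 1) m) ∧
    IntermediateField.adjoin K (Set.range D.ft) = IntermediateField.adjoin K
      ((Set.range fun j : J2 N m => part2 D.ft j.1) ∪ {D.tt} ∪ (dv D.ft '' S))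

/-- (RAT) the invariant field is purely transcendental -/
def S_RAT : Prop := ∀ (N m a k : ℕ) (K M : Type) [Field K] [CharZero K] [Field M] [Algebra K M] (D : Data N m a k K M),
  ∃ (q : ℕ) (x : Fin q → M), AlgebraicIndependent K x ∧ ∀ y : M, (∀ g, D.φ g y = y) ↔ y ∈ IntermediateField.adjoin K (Set.range x)

/-- (FIN) there are data over the field of rational functions in the coefficients -/
def S_FIN : Prop := ∀ (N m : ℕ), 2 ≤ N → 3 ≤ m → Nat.Coprime m (N + 1) → ∀ (K M : Type) [Field K] [CharZero K] [Field M]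
  [Algebra K M] (f : Ix N m → M), AlgebraicIndependent K f → IntermediateField.adjoin K (Set.range f) = ⊤ →
  ∀ φ : GP N K → M →ₐ[K] M, Acts N (m + 1) φ f → ∃ (a k : ℕ) (D : Data N m a k K M), D.f = f ∧ D.φ = φ

end Pool.Agent.Z15.ME
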