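import Pool.Agent.Z15.ME.Stm

set_option autoImplicit false

/-! (DOM): a generic self map without divergence has `N + 1` linearly independent fixed vectors. -/

namespace Pool.Agent.Z15.ME.DOM

open MvPolynomial Pool.Agent.Z15.ME

theorem ev_map {n : ℕ} {R S : Type} [CommRing R] [CommRing S] (σ : R →+* S) (x : Fin n → R)
    (p : MvPolynomial (Fin n) R) : eval (fun i => σ (x i)) (MvPolynomial.map σ p) = σ (eval x p) := by
  rw [eval_map]
  have h := eval₂_comp_left σ (RingHom.id R) x p
  rw [RingHom.comp_id] at h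
  exact h.symm

theorem cmp_map (hPOL : S_POL) {n d : ℕ} {R S : Type} [CommRing R] [CommRing S] (σ : R →+* S)
    (c : Fin n × Mon n d → R) (k : Fin n) : cmp (fun p => σ (c p)) k = MvPolynomial.map σ (cmp c k) :=
  (hPOL n d R).2.2.2 S σ fun α => c (k, α)

theorem jac_map (hPOL : S_POL) {n d : ℕ} {R S : Type} [CommRing R] [CommRing S] (σ : R →+* S)
    (c : Fin n × Mon n d → R) (x : Fin n → R) :
    jac (fun p => σ (c p)) (fun i => σ (x i)) = (jac c x).map σ := by
  ext k j
  change eval _ (pderiv j (cmp _ k)) = σ (eval x (pderiv j (cmp c k)))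
  rw [cmp_map hPOL, pderiv_map, ev_map]

theorem fx_map (hPOL : S_POL) {n d : ℕ} {R S : Type} [CommRing R] [CommRing S] (σ : R →+* S)
    (c : Fin n × Mon n d → R) (x : Fin n → R) (h : Fx c x) :
    Fx (fun p => σ (c p)) (fun i => σ (x i)) := by
  intro k
  rw [cmp_map hPOL, ev_map, h k]

theorem der_aeval {n : ℕ} {F P : Type} [Field F] [Field P] [Algebra F P] (D : Derivation F P P) (x : Fin n → P)
    (p : MvPolynomial (Fin n) F) : D (aeval x p) = ∑ j, aeval x (pderiv j p) * D (x j) := by
  induction p using MvPolynomial.induction_on with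
  | C a => simp
  | add p q hp hq =>
    rw [map_add, map_add, hp, hq, ← Finset.sum_add_distrib]
    exact Finset.sum_congr rfl fun j _ => by rw [map_add, map_add, add_mul]
  | mul_X p i hp =>
    rw [map_mul, aeval_X, Derivation.leibniz, hp]
    have h : ∀ j, aeval x (pderiv j (p * X i)) * D (x j) =
        x i * (aeval x (pderiv j p) * D (x j)) + if j = i then aeval x p * D (x j) else 0 := by
      intro j
      rw [Derivation.leibniz, map_add, smul_eq_mul, smul_eq_mul, map_mul, map_mul, aeval_X, pderiv_X]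
      by_cases hj : j = i
      · subst hj
        simp
        ring
      · rw [if_neg hj, Pi.single_eq_of_ne (Ne.symm hj)]
        simp
        ring
    rw [Finset.sum_congr rfl fun j _ => h j, Finset.sum_add_distrib, ← Finset.mul_sum, Finset.sum_ite_eq']
    simp only [Finset.mem_univ, if_true, smul_eq_mul]
    ring

/-- a derivation which kills the coefficients of a conjugate of `f0` kills everything -/
theorem der_zero (hPOL : S_POL) (hACT : S_ACT) (hEVA : S_EVA) {n d : ℕ} {F P : Type} [Field F] [Field P]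
    [Algebra F P] (D : Derivation F P P) (B B' : Matrix (Fin n) (Fin n) P) (hBB : B * B' = 1) (f0 : Fin n × Mon n d → P)
    (c : Fin n × Mon n d → F) (hc : ∀ p, algebraMap F P (c p) = act B B' f0 p)
    (hfix : ∀ i, Fx f0 (Pi.single i 1)) (hdet : ∀ i, (jac f0 (Pi.single i 1) - 1).det ≠ 0) :
    (∀ k l, D (B k l) = 0) ∧ ∀ p, D (f0 p) = 0 := by
  have hB' : B' * B = 1 := mul_eq_one_comm.1 hBB
  have hcf : (fun p => algebraMap F P (c p)) = act B B' f0 := funext hc
  have hx : ∀ i, B'.mulVec (fun k => B k i) = Pi.single i 1 := by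
    intro i
    have h1 : (fun k => B k i) = B.mulVec (Pi.single i 1) := by
      rw [Matrix.mulVec_single_one]
      rfl
    rw [h1, Matrix.mulVec_mulVec, hB', Matrix.one_mulVec]
  have hDB : ∀ k l, D (B k l) = 0 := by
    intro k i
    set x : Fin n → P := fun k => B k i with hxdef
    have hfx : ∀ k, eval x (cmp (act B B' f0) k) = x k := by
      intro k
      rw [(hEVA n d P B B' f0 x).1 k, hxdef, hx i]
      have h1 : ∀ l, B k l * eval (Pi.single i 1) (cmp f0 l) = if l = i then B k i else 0 := by
        intro l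
        rw [hfix i l]
        by_cases h : l = i
        · subst h
          simp
        · rw [if_neg h, Pi.single_eq_of_ne h, mul_zero]
      rw [Finset.sum_congr rfl fun l _ => h1 l]
      simp
    have hjac : ∀ k, D (x k) = (jac (act B B' f0) x).mulVec (fun j => D (x j)) k := by
      intro k
      conv_lhs => rw [← hfx k, ← hcf, cmp_map hPOL, eval_map]
      have h1 := der_aeval D x (cmp c k)
      rw [aeval_def] at h1
      rw [h1]
      change _ = ∑ j, eval x (pderiv j (cmp (act B B' f0) k)) * D (x j)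
      refine Finset.sum_congr rfl fun j _ => ?_
      rw [← hcf, cmp_map hPOL, pderiv_map, eval_map, aeval_def]
    have hdet' : (jac (act B B' f0) x - 1).det ≠ 0 := by
      rw [(hEVA n d P B B' f0 x).2.1, hxdef, hx i]
      have h1 : B * jac f0 (Pi.single i 1) * B' - 1 = B * (jac f0 (Pi.single i 1) - 1) * B' := by
        rw [Matrix.mul_sub, Matrix.sub_mul, Matrix.mul_one, hBB]
      rw [h1, Matrix.det_mul, Matrix.det_mul]
      have h2 : B.det * B'.det = 1 := by rw [← Matrix.det_mul, hBB, Matrix.det_one]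
      have h3 : B.det * (jac f0 (Pi.single i 1) - 1).det * B'.det = (jac f0 (Pi.single i 1) - 1).det := by
        linear_combination (jac f0 (Pi.single i 1) - 1).det * h2
      rw [h3]
      exact hdet i
    have h0 : (jac (act B B' f0) x - 1).mulVec (fun j => D (x j)) = 0 := by
      rw [Matrix.sub_mulVec, Matrix.one_mulVec]
      funext k
      rw [Pi.sub_apply, ← hjac k, Pi.zero_apply, sub_self]
    exact congrFun (Matrix.eq_zero_of_mulVec_eq_zero hdet' h0) k
  refine ⟨hDB, ?_⟩
  have hDB' : ∀ k l, D (B' k l) = 0 := by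
    have h1 : (B'.map D) * B = 0 := by
      ext i j
      have h2 : ∑ k, B' i k * B k j = (1 : Matrix (Fin n) (Fin n) P) i j := by
        rw [← hB', Matrix.mul_apply]
      have h3 : D ((1 : Matrix (Fin n) (Fin n) P) i j) = 0 := by
        rw [Matrix.one_apply]
        split_ifs <;> simp
      rw [← h2, map_sum] at h3
      rw [Matrix.mul_apply, Matrix.zero_apply, ← h3]
      refine Finset.sum_congr rfl fun k _ => ?_
      rw [Derivation.leibniz, hDB, Matrix.map_apply]
      simp [mul_comm]
    have h2 : B'.map D = 0 := by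
      have h3 := congrArg (fun M => M * B') h1
      simp only [Matrix.mul_assoc, hBB, Matrix.mul_one, Matrix.zero_mul] at h3
      exact h3
    intro k l
    exact congrFun (congrFun h2 k) l
  let E : Subring P :=
    { carrier := {y | D y = 0}
      mul_mem' := by
        intro a b ha hb
        simp only [Set.mem_ofPred_eq] at *
        rw [Derivation.leibniz, ha, hb]
        simp
      one_mem' := by simp
      add_mem' := by
        intro a b ha hb
        simp only [Set.mem_ofPred_eq] at *
        rw [map_add, ha, hb, add_zero]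
      zero_mem' := by simp
      neg_mem' := by
        intro a ha
        simp only [Set.mem_ofPred_eq] at *
        rw [map_neg, ha, neg_zero] }
  have hE : ∀ y : E, D (y : P) = 0 := fun y => y.2
  let B0 : Matrix (Fin n) (Fin n) E := fun k l => ⟨B k l, hDB k l⟩
  let B0' : Matrix (Fin n) (Fin n) E := fun k l => ⟨B' k l, hDB' k l⟩
  let c0 : Fin n × Mon n d → E := fun p => ⟨act B B' f0 p, by
    change D _ = 0
    rw [← hc p, D.map_algebraMap]⟩
  have h1 := (hACT n d E).2.2.2.2.2.2.2.2.2.2 P E.subtype B0' B0 c0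
  have h2 : (B0'.map E.subtype) = B' := rfl
  have h3 : (B0.map E.subtype) = B := rfl
  have h4 : (fun p => E.subtype (c0 p)) = act B B' f0 := rfl
  rw [h2, h3, h4, (hACT n d P).2.2.2.2.2.2.1, hB', (hACT n d P).2.2.2.2.2.2.2.1] at h1
  intro p
  rw [h1]
  exact hE _

/-- the field of rational functions -/
abbrev Var (N q : ℕ) : Type := (Fin (N + 1) × Fin (N + 1)) ⊕ Fin q

/-- the ring of polynomials -/
abbrev QQ (N q : ℕ) (K : Type) [Field K] : Type := MvPolynomial (Var N q) K

/-- the field of rational functions -/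
abbrev PP (N q : ℕ) (K : Type) [Field K] : Type := FractionRing (QQ N q K)

theorem trans_basis (N q : ℕ) (K : Type) [Field K] :
    IsTranscendenceBasis K (fun i : Var N q => algebraMap (QQ N q K) (PP N q K) (X i)) := by
  have h : Algebra.IsAlgebraic (QQ N q K) (PP N q K) := IsLocalization.isAlgebraic _ (nonZeroDivisors (QQ N q K))
  exact (IsTranscendenceBasis.mvPolynomial (Var N q) K).algebraMap_comp

theorem alg_indep {N q : ℕ} {K : Type} [Field K] {J : Type} [Finite J] (y : J → PP N q K)
    (hcard : Nat.card J = q + (N + 1) ^ 2)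
    (h : Algebra.IsAlgebraic (IntermediateField.adjoin K (Set.range y)) (PP N q K)) : AlgebraicIndependent K y := by
  open IntermediateField.algebraAdjoinAdjoin in
  have h1 : Algebra.IsAlgebraic (Algebra.adjoin K (Set.range y)) (PP N q K) :=
    (IsFractionRing.comap_isAlgebraic_iff (A := Algebra.adjoin K (Set.range y))
      (K := IntermediateField.adjoin K (Set.range y)) (C := PP N q K)).2 h
  have h2 : Cardinal.mk J ≤ Algebra.trdeg K (PP N q K) := by
    rw [← (trans_basis N q K).cardinalMk_eq_trdeg]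
    have h3 : Nat.card (Var N q) = q + (N + 1) ^ 2 := by
      rw [Nat.card_eq_fintype_card, Fintype.card_sum, Fintype.card_prod, Fintype.card_fin, Fintype.card_fin]
      ring
    rw [← h3] at hcard
    exact (Cardinal.mk_congr (Finite.card_eq.1 hcard).some).le
  exact (Algebra.IsAlgebraic.isTranscendenceBasis_of_le_trdeg_of_finite K y h2).1

theorem model (hPOL : S_POL) (hACT : S_ACT) (hDVA : S_DVA) (hEVA : S_EVA) (hSEC : S_SEC) (hAFF : S_AFF)
    (hEX : S_EX1) (hDER : S_DER) {N m : ℕ} (hN : 2 ≤ N) (hm : 2 ≤ m) (K : Type) [Field K] [CharZero K] :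
    ∃ (q : ℕ) (B : Matrix (Fin (N + 1)) (Fin (N + 1)) (PP N q K)) (f1 : Ix N m → PP N q K),
      B.det ≠ 0 ∧ dv f1 = 0 ∧ (∀ i, Fx f1 (fun k => B k i)) ∧
      AlgebraicIndependent K (fun j : J2 N m => f1 j.1) ∧
      Algebra.IsAlgebraic (IntermediateField.adjoin K (Set.range fun j : J2 N m => f1 j.1)) (PP N q K) := by
  obtain ⟨q, ρ, a0, a1, hcard, ha0, ha1, hAff, -⟩ := hAFF N m hN hm
  obtain ⟨T, hT, hS⟩ := hSEC N m
  obtain ⟨ce, hce1, hce2, hce3⟩ := hEX N m hN hm
  have hinj : Function.Injective (algebraMap (QQ N q K) (PP N q K)) := IsFractionRing.injective _ _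
  have : CharZero (PP N q K) := charZero_of_injective_algebraMap (algebraMap K (PP N q K)).injective
  -- the polynomial models
  set g0 : Ix N m → QQ N q K := fun p => C ((a0 p : ℚ) : K) + ∑ j, C ((a1 p j : ℚ) : K) * X (Sum.inr j) with hg0
  set Bq : Matrix (Fin (N + 1)) (Fin (N + 1)) (QQ N q K) := fun k l => X (Sum.inl (k, l)) with hBq
  set f0 : Ix N m → PP N q K := fun p => algebraMap (QQ N q K) (PP N q K) (g0 p) with hf0
  set B : Matrix (Fin (N + 1)) (Fin (N + 1)) (PP N q K) := Bq.map (algebraMap (QQ N q K) (PP N q K)) with hB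
  have halg : ∀ r : ℚ, algebraMap (QQ N q K) (PP N q K) (C ((r : ℚ) : K)) = (r : PP N q K) := by
    intro r
    have h1 : ((algebraMap (QQ N q K) (PP N q K)).comp (C : K →+* QQ N q K)) ((r : ℚ) : K) = (r : PP N q K) := map_ratCast _ r
    exact h1
  have hf0e : ∀ p, f0 p = a0 p + ∑ j, (a1 p j : PP N q K) * algebraMap (QQ N q K) (PP N q K) (X (Sum.inr j)) := by
    intro p
    simp only [hf0, hg0, map_add, map_sum, map_mul, halg]
  have hf0ρ : ∀ j, f0 (ρ j) = algebraMap (QQ N q K) (PP N q K) (X (Sum.inr j)) := by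
    intro j
    rw [hf0e, ha0 j, Finset.sum_eq_single j]
    · rw [ha1 j j, if_pos rfl]
      simp
    · intro b _ hb
      rw [ha1 j b, if_neg (Ne.symm hb)]
      simp
    · intro h
      exact absurd (Finset.mem_univ j) h
  have hf0' := (hAff (PP N q K) f0).2 (by
    intro p
    rw [hf0e p]
    simp only [hf0ρ])
  obtain ⟨hdv0, hfix0⟩ := hf0'
  have hdetB : B.det ≠ 0 := by
    have h1 : B.det = algebraMap (QQ N q K) (PP N q K) Bq.det := by
      rw [hB, ← RingHom.mapMatrix_apply, ← RingHom.map_det]
    rw [h1]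
    intro h2
    have h3 : Bq.det = 0 := hinj (h2.trans (map_zero _).symm)
    have h4 := congrArg (aeval (fun i : Var N q => (Sum.elim (fun p : Fin (N + 1) × Fin (N + 1) =>
      (1 : Matrix (Fin (N + 1)) (Fin (N + 1)) K) p.1 p.2) (fun _ => 0) i : K))) h3
    rw [AlgHom.map_det, map_zero] at h4
    have h5 : (AlgHom.mapMatrix (aeval (fun i : Var N q => (Sum.elim (fun p : Fin (N + 1) × Fin (N + 1) =>
      (1 : Matrix (Fin (N + 1)) (Fin (N + 1)) K) p.1 p.2) (fun _ => 0) i : K)))) Bq = 1 := by
      ext k l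
      rw [AlgHom.mapMatrix_apply, Matrix.map_apply, hBq]
      simp
    rw [h5, Matrix.det_one] at h4
    exact one_ne_zero h4
  have hdet0 : ∀ i, (jac f0 (Pi.single i 1) - 1).det ≠ 0 := by
    intro i
    have e1 : ∀ {R S : Type} [CommRing R] [CommRing S] (σ : R →+* S), (fun k => σ ((Pi.single i 1 : Fin (N + 1) → R) k)) = Pi.single i 1 := by
      intro R S _ _ σ
      funext k
      by_cases h : k = i
      · subst h
        simp
      · rw [Pi.single_eq_of_ne h, Pi.single_eq_of_ne h, map_zero]
    have h1 : (jac f0 (Pi.single i 1) - 1).det = algebraMap (QQ N q K) (PP N q K) (jac g0 (Pi.single i 1) - 1).det := by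
      rw [RingHom.map_det, map_sub, map_one, RingHom.mapMatrix_apply, ← jac_map hPOL, e1]
    rw [h1]
    intro h2
    have h3 : (jac g0 (Pi.single i 1) - 1).det = 0 := hinj (h2.trans (map_zero _).symm)
    set σ : QQ N q K →+* K := (aeval (fun i : Var N q => (Sum.elim (fun _ : Fin (N + 1) × Fin (N + 1) => 0)
      (fun j => ((ce (ρ j) : ℚ) : K)) i : K)) : QQ N q K →ₐ[K] K).toRingHom with hσ
    have h4 := congrArg σ h3
    rw [RingHom.map_det, map_sub, map_one, RingHom.mapMatrix_apply, ← jac_map hPOL, e1, map_zero] at h4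
    have h5 : (fun p => σ (g0 p)) = fun p => (Rat.castHom K) (ce p) := by
      funext p
      have h6 := (hAff ℚ ce).1 ⟨hce1, hce2⟩ p
      rw [h6]
      simp [hσ, hg0]
    rw [h5] at h4
    have h7 : (jac (fun p => (Rat.castHom K) (ce p)) (Pi.single i 1) - 1).det = Rat.castHom K (jac ce (Pi.single i 1) - 1).det := by
      rw [RingHom.map_det, map_sub, map_one, RingHom.mapMatrix_apply, ← jac_map hPOL, e1]
    rw [h7] at h4
    exact hce3 i ((Rat.castHom K).injective (h4.trans (map_zero _).symm))
  set B' : Matrix (Fin (N + 1)) (Fin (N + 1)) (PP N q K) := B⁻¹ with hB'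
  have hBB : B * B' = 1 := Matrix.mul_nonsing_inv _ (Ne.isUnit hdetB)
  have hB'B : B' * B = 1 := mul_eq_one_comm.1 hBB
  set f1 : Ix N m → PP N q K := act B B' f0 with hf1
  have hdv1 : dv f1 = 0 := by
    rw [hf1, (hDVA (N + 1) m (PP N q K)).1 B B' f0 hB'B, hdv0]
    have h1 := (hACT (N + 1) m (PP N q K)).2.2.2.2.1 B' 0 0 0 0
    funext β
    have h2 := congrFun h1 β
    simp only [zero_mul, add_zero] at h2
    exact h2
  have hf1T : ∀ p, f1 p = ∑ j, (T p j : PP N q K) * f1 j.1 := (hS (PP N q K) f1).1 hdv1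
  have hfix1 : ∀ i, Fx f1 (fun k => B k i) := by
    intro i k
    rw [hf1, (hEVA (N + 1) (m + 1) (PP N q K) B B' f0 _).1 k]
    have h1 : (fun k => B k i) = B.mulVec (Pi.single i 1) := by
      rw [Matrix.mulVec_single_one]
      rfl
    rw [h1, Matrix.mulVec_mulVec, hB'B, Matrix.one_mulVec]
    have h2 : ∀ l, B k l * eval (Pi.single i 1) (cmp f0 l) = if l = i then B k i else 0 := by
      intro l
      rw [hfix0 i l]
      by_cases h : l = i
      · subst h
        simp
      · rw [if_neg h, Pi.single_eq_of_ne h, mul_zero]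
    rw [Finset.sum_congr rfl fun l _ => h2 l, ← h1]
    simp
  have hJ : Nat.card (J2 N m) = q + (N + 1) ^ 2 := hcard
  set K1 := IntermediateField.adjoin K (Set.range fun j : J2 N m => f1 j.1) with hK1
  have hmem : ∀ p, f1 p ∈ K1 := by
    intro p
    rw [hf1T p]
    refine sum_mem fun j _ => mul_mem (SubfieldClass.ratCast_mem _ _) (IntermediateField.subset_adjoin K _ ⟨j, rfl⟩)
  have halgK : Algebra.IsAlgebraic K1 (PP N q K) := by
    have : CharZero K1 := charZero_of_injective_algebraMap (algebraMap K K1).injective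
    refine hDER K1 (PP N q K) ?_ ?_
    · have : Algebra.EssFiniteType K (PP N q K) := by
        have : Algebra.EssFiniteType (QQ N q K) (PP N q K) := .of_isLocalization _ (nonZeroDivisors (QQ N q K))
        exact Algebra.EssFiniteType.comp K (QQ N q K) (PP N q K)
      exact Algebra.EssFiniteType.of_comp K K1 (PP N q K)
    · intro D
      obtain ⟨hd1, hd2⟩ := der_zero hPOL hACT hEVA D B B' hBB f0 (fun p => ⟨f1 p, hmem p⟩) (fun p => rfl) hfix0 hdet0
      have hq : ∀ y : QQ N q K, D (algebraMap (QQ N q K) (PP N q K) y) = 0 := by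
        intro y
        induction y using MvPolynomial.induction_on with
        | C a =>
          have h1 : algebraMap (QQ N q K) (PP N q K) (C a) = algebraMap K1 (PP N q K) (algebraMap K K1 a) := rfl
          rw [h1, D.map_algebraMap]
        | add y z hy hz => rw [map_add, map_add, hy, hz, add_zero]
        | mul_X y i hy =>
          rw [map_mul, Derivation.leibniz, hy, smul_zero, add_zero]
          rcases i with ⟨k, l⟩ | j
          · have h1 := hd1 k l
            rw [hB, Matrix.map_apply] at h1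
            rw [h1, smul_zero]
          · have h1 := hd2 (ρ j)
            rw [hf0ρ] at h1
            rw [h1, smul_zero]
      ext y
      obtain ⟨a, b, hb, rfl⟩ := IsFractionRing.div_surjective (A := QQ N q K) y
      rw [div_eq_mul_inv, Derivation.leibniz, Derivation.leibniz_inv, hq, hq]
      simp
  exact ⟨q, B, f1, hdetB, hdv1, hfix1, alg_indep _ hJ halgK, halgK⟩

theorem hom_ext {K P M Ω : Type} [Field K] [Field P] [Algebra K P] [Field M] [Algebra K M]
    [Field Ω] [IsAlgClosed Ω] [Algebra M Ω] {J : Type} (y : J → P) (z : J → M) (hy : AlgebraicIndependent K y)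
    (hz : AlgebraicIndependent K z) (halg : Algebra.IsAlgebraic (IntermediateField.adjoin K (Set.range y)) P) :
    ∃ θ : P →+* Ω, ∀ j, θ (y j) = algebraMap M Ω (z j) := by
  let e1 := hy.aevalEquivField
  let e2 := hz.aevalEquivField
  let τ : IntermediateField.adjoin K (Set.range y) →+* Ω :=
    (algebraMap M Ω).comp ((IntermediateField.val _ : IntermediateField.adjoin K (Set.range z) →ₐ[K] M).toRingHom.comp
      (e1.symm.trans e2).toAlgHom.toRingHom)
  let : Algebra (IntermediateField.adjoin K (Set.range y)) Ω := τ.toAlgebra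
  let θ : P →ₐ[IntermediateField.adjoin K (Set.range y)] Ω := IsAlgClosed.lift
  refine ⟨θ.toRingHom, fun j => ?_⟩
  have h1 : e1 (algebraMap (MvPolynomial J K) (FractionRing (MvPolynomial J K)) (X j)) = ⟨y j, IntermediateField.subset_adjoin K _ ⟨j, rfl⟩⟩ := by
    apply Subtype.ext
    rw [AlgebraicIndependent.aevalEquivField_algebraMap_apply_coe, aeval_X]
  have h2 : θ (algebraMap (IntermediateField.adjoin K (Set.range y)) P ⟨y j, IntermediateField.subset_adjoin K _ ⟨j, rfl⟩⟩) =
      τ ⟨y j, IntermediateField.subset_adjoin K _ ⟨j, rfl⟩⟩ := θ.commutes _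
  change θ (algebraMap (IntermediateField.adjoin K (Set.range y)) P ⟨y j, IntermediateField.subset_adjoin K _ ⟨j, rfl⟩⟩) = _
  rw [h2, ← h1]
  change algebraMap M Ω ((e2 (e1.symm (e1 (algebraMap (MvPolynomial J K) (FractionRing (MvPolynomial J K)) (X j)))) : IntermediateField.adjoin K (Set.range z)) : M) = _
  rw [AlgEquiv.symm_apply_apply, AlgebraicIndependent.aevalEquivField_algebraMap_apply_coe, aeval_X]

theorem t_DOM (hPOL : S_POL) (hACT : S_ACT) (hDVA : S_DVA) (hEVA : S_EVA) (hSEC : S_SEC) (hAFF : S_AFF) (hEX : S_EX1)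
    (_ : S_TRD) (hDER : S_DER) : S_DOM := by
  intro N m hN hm K M Ω _ _ _ _ _ _ _ f hf
  obtain ⟨q, B, f1, hdet, hdv1, hfix1, hind1, halg⟩ :=
    model hPOL hACT hDVA hEVA hSEC hAFF hEX hDER hN hm K
  obtain ⟨T, hT, hS⟩ := hSEC N m
  have : CharZero M := charZero_of_injective_algebraMap (algebraMap K M).injective
  have : CharZero (PP N q K) := charZero_of_injective_algebraMap (algebraMap K (PP N q K)).injective
  have hfT := (hS M f).1 hf.1
  have hf1T := (hS (PP N q K) f1).1 hdv1
  obtain ⟨θ, hθ⟩ := hom_ext (Ω := Ω) (fun j : J2 N m => f1 j.1) (fun j : J2 N m => f j.1) hind1 hf.2 halg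
  have hθ' : ∀ p, θ (f1 p) = algebraMap M Ω (f p) := by
    intro p
    rw [hf1T p, hfT p, map_sum, map_sum]
    refine Finset.sum_congr rfl fun j _ => ?_
    rw [map_mul, map_mul, hθ j, map_ratCast, map_ratCast]
  refine ⟨B.map θ, ?_, fun i => ?_⟩
  · rw [← RingHom.mapMatrix_apply, ← RingHom.map_det]
    exact (map_ne_zero θ).2 hdet
  · have h1 := fx_map hPOL θ f1 (fun k => B k i) (hfix1 i)
    have h2 : (fun p => θ (f1 p)) = fun p => algebraMap M Ω (f p) := funext hθ'
    rw [h2] at h1
    exact h1

end Pool.Agent.Z15.ME.DOM
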